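import Pool.Agent.P.MP_2957ea_an.NC.PerBasic

/-!
The sequence is not good for commuting transformations.
-/

namespace Pool.Agent.P.MP_2957ea_an.NC

open Finset Filter Topology MeasureTheory Pool.Agent.P.MP_2957ea_an
open scoped BigOperators

namespace BadA

variable {X : Type} [MeasurableSpace X]

theorem meas_zpow {T : Equiv.Perm X} (h : Measurable T) (h' : Measurable T.symm) :
    ∀ d : ℤ, Measurable ⇑(T ^ d)
  | (n : ℕ) => by rw [zpow_natCast, Equiv.Perm.coe_pow]; exact h.iterate n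
  | Int.negSucc n => by rw [zpow_negSucc, ← inv_pow, Equiv.Perm.coe_pow]; exact h'.iterate _

theorem lim {μ : Measure X} [IsProbabilityMeasure μ] {u g : X → ℂ} {F : ℕ → X → ℂ}
    (hu : Measurable u) (hu' : ∀ x, ‖u x‖ = 1) (hF : ∀ n, Measurable (F n))
    (hF' : ∀ n x, ‖F n x‖ = 1) (hg : MemLp g 2 μ) (h : Tendsto (fun N : ℕ => eLpNorm
      (fun x => (N : ℂ)⁻¹ * ∑ n ∈ Icc 1 N, F n x - g x) 2 μ) atTop (𝓝 0)) :
    Tendsto (fun N : ℕ => (N : ℂ)⁻¹ * ∑ n ∈ Icc 1 N, ∫ x, u x * F n x ∂μ) atTop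
      (𝓝 (∫ x, u x * g x ∂μ)) := by
  have h1 : ∀ n, Integrable (fun x => u x * F n x) μ := fun n =>
    Integrable.of_bound (hu.mul (hF n)).aestronglyMeasurable 1
      (Eventually.of_forall fun x => by rw [norm_mul, hu', hF', mul_one])
  have h2 := tendsto_integral_of_L1 (μ := μ) (fun x => u x * g x) (hu.aestronglyMeasurable.mul hg.1)
    (F := fun (N : ℕ) x => (N : ℂ)⁻¹ * ∑ n ∈ Icc 1 N, u x * F n x) (l := atTop)
    (Eventually.of_forall fun N => (integrable_finsetSum _ fun n _ => h1 n).const_mul _) (by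
      refine tendsto_of_tendsto_of_tendsto_of_le_of_le tendsto_const_nhds h (fun _ => zero_le)
        fun N => le_trans (le_of_eq ?_) (eLpNorm_le_eLpNorm_of_exponent_le one_le_two
          (((Finset.measurable_sum _ fun n _ => hF n).const_mul _).aestronglyMeasurable.sub hg.1))
      rw [← eLpNorm_one_eq_lintegral_enorm]
      refine eLpNorm_congr_norm_ae (Eventually.of_forall fun x => ?_)
      rw [← mul_sum, mul_left_comm, ← mul_sub, norm_mul, hu', one_mul])
  simpa only [integral_const_mul, integral_finsetSum _ fun n _ => h1 n] using h2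

theorem avg (K : ℕ) : 𝔼 s : Box (rl K), 𝔼 s' : Box (rl K), ee (∑ j ∈ range K,
    2 * tt j * (((dg (rl K) s j : ℝ) - (dg (rl K) s' j : ℝ)) / (len j : ℝ)) ^ 2) =
      ∏ j ∈ range K, kap j := by
  have := expect_prod_dg (nodup_rl K) fun j a b =>
    ee (2 * tt j * (((a : ℝ) - (b : ℝ)) / (len j : ℝ)) ^ 2)
  rw [toFinset_rl] at this
  simpa only [ee_sum, kap, Int.cast_natCast] using this

end BadA

open BadA in
theorem bad (hs : S_sys) (he : S_eval) (hd : S_drift) : S_bad := by
  intro a ha hG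
  obtain ⟨X, _, μ, _, T, hT, hT', f, hf, hf', H⟩ := hs
  have hz := meas_zpow hT.measurable hT'.measurable
  obtain ⟨g, hg, h⟩ := hG X μ ![T, T⁻¹] (fun i => by fin_cases i; exacts [hT, hT'])
    (fun i => by fin_cases i; exacts [hT', hT]) (fun i j => by fin_cases i <;> fin_cases j <;> simp)
    (fun _ => f) fun _ => memLp_top_of_bound hf.aestronglyMeasurable 1
      (Eventually.of_forall fun x => (hf' x).le)
  simp only [Fin.prod_univ_two, Matrix.cons_val_zero, Matrix.cons_val_one, inv_zpow'] at h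
  set C : ℤ → ℂ := fun d =>
    ∫ x, (starRingEnd ℂ) (f x) ^ 2 * (f ((T ^ d) x) * f ((T ^ (-d)) x)) ∂μ with hC
  have h1 := ha C 1 (fun d => (norm_integral_le_of_norm_le_const (C := 1)
    (Eventually.of_forall fun x => by simp [hf'])).trans (by simp)) _
    (lim (u := fun x => (starRingEnd ℂ) (f x) ^ 2)
      ((Complex.continuous_conj.measurable.comp hf).pow_const 2) (fun x => by simp [hf'])
      (fun n => (hf.comp (hz _)).mul (hf.comp (hz _))) (fun n x => by simp [hf']) hg h)
  have h2 : ∀ K, ‖EA (rl K) C (pos K) - ∏ j ∈ range K, kap j‖ ≤ 1 / 20 := fun K => by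
    rw [← avg, EA, ← expect_sub_distrib]
    refine norm_expect_le_of_le fun s => ?_
    rw [← expect_sub_distrib]
    refine norm_expect_le_of_le fun s' => ?_
    obtain ⟨r, r1, r2, r3⟩ := he K s s'
    obtain ⟨J, j1, j2⟩ := ((H _ r _ r1 r2 (1 / 100) (by norm_num)).and
      (eventually_ge_atTop K)).exists
    have a1 := (norm_ee_sub_ee_le _ _).trans
      (mul_le_mul_of_nonneg_left (r3 J j2) Real.two_pi_pos.le)
    refine (norm_sub_le_norm_sub_add_norm_sub _ _ _).trans ((add_le_add j1 a1).trans ?_)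
    linarith [Real.pi_le_four]
  obtain ⟨N, hN⟩ := Metric.cauchySeq_iff.1 h1.cauchySeq (1 / 2) (by norm_num)
  obtain ⟨K, K', k1, k2, k3⟩ := hd N
  have a1 := hN K k1 K' k2
  have a2 := h2 K
  have a3 := h2 K'
  rw [← dist_eq_norm] at a2 a3 k3
  linarith [dist_triangle4 (∏ j ∈ range K, kap j) (EA (rl K) C (pos K)) (EA (rl K') C (pos K'))
    (∏ j ∈ range K', kap j), dist_comm (∏ j ∈ range K, kap j) (EA (rl K) C (pos K))]

end Pool.Agent.P.MP_2957ea_an.NC
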