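import Pool.Agent.P.MP_2957ea_an.NC.PerBasic

/-!
The products of the averaged quadratic phases do not converge.
-/

namespace Pool.Agent.P.MP_2957ea_an.NC

open Finset Filter Topology Pool.Agent.P.MP_2957ea_an
open scoped BigOperators

namespace DriftA

theorem mean {ι : Type} [Fintype ι] [Nonempty ι] (a : ι → ℝ) {T : ℝ} (hT : 8 * T ≤ 1)
    (h : ∀ i, 0 ≤ a i ∧ a i ≤ T) : ‖𝔼 i, ee (a i) - ee (𝔼 i, a i)‖ ≤ (8 * T) ^ 2 := by
  have h0 : 0 ≤ 𝔼 i, a i := expect_nonneg fun i _ => (h i).1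
  have h1 : 𝔼 i, a i ≤ T := expect_le univ_nonempty fun i _ => (h i).2
  have h2 : 𝔼 i, (a i : ℂ) = ((𝔼 i, a i : ℝ) : ℂ) := (Complex.ofReal_expect _ _).symm
  generalize 𝔼 i, a i = m at *
  have h3 : 𝔼 i, ee (a i) - ee m = 𝔼 i, ee m * (ee (a i - m) - 1 -
      2 * Real.pi * ((a i - m : ℝ) : ℂ) * Complex.I) := by
    simp only [mul_sub, ← ee_add, add_sub_cancel, expect_sub_distrib, Fintype.expect_const,
      Complex.ofReal_sub, sub_mul, ← mul_expect, ← expect_mul, h2]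
    ring
  rw [h3]
  refine norm_expect_le_of_le fun i => ?_
  have h4 : ‖2 * Real.pi * ((a i - m : ℝ) : ℂ) * Complex.I‖ ≤ 8 * T := by
    have h5 : |a i - m| ≤ T := abs_le.2 ⟨by linarith [h i], by linarith [h i]⟩
    rw [norm_mul, norm_mul, norm_mul, Complex.norm_I, Complex.norm_real, Complex.norm_real,
      Complex.norm_two, Real.norm_eq_abs, Real.norm_eq_abs, abs_of_pos Real.pi_pos, mul_one]
    exact mul_le_mul (by linarith [Real.pi_le_four]) h5 (abs_nonneg _) (by norm_num)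
  rw [norm_mul, norm_ee, one_mul]
  exact (Complex.norm_exp_sub_one_sub_id_le (h4.trans hT)).trans
    (pow_le_pow_left₀ (norm_nonneg _) h4 2)

theorem prod_sub (f g : ℕ → ℂ) (hf : ∀ j, ‖f j‖ ≤ 1) (hg : ∀ j, ‖g j‖ ≤ 1) (K : ℕ) :
    ‖∏ j ∈ range K, f j - ∏ j ∈ range K, g j‖ ≤ ∑ j ∈ range K, ‖f j - g j‖ := by
  induction K with
  | zero => simp
  | succ K ih =>
    have h1 : ‖∏ j ∈ range K, g j‖ ≤ 1 := by
      rw [norm_prod]
      exact prod_le_one (fun _ _ => norm_nonneg _) fun j _ => hg j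
    rw [prod_range_succ, prod_range_succ, sum_range_succ, show ∀ a b c d : ℂ,
      a * b - c * d = (a - c) * b + c * (b - d) from fun _ _ _ _ => by ring]
    refine (norm_add_le _ _).trans (add_le_add ?_ ?_) <;> rw [norm_mul]
    · exact (mul_le_of_le_one_right (norm_nonneg _) (hf K)).trans ih
    · exact mul_le_of_le_one_left (norm_nonneg _) h1

theorem sum_sq (x : ℝ) (L : ℕ) : ∑ i ∈ range L, (x - i) ^ 2 =
    L * (x - (L - 1) / 2) ^ 2 + L * (L ^ 2 - 1) / 12 := by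
  induction L with
  | zero => simp
  | succ L ih => rw [sum_range_succ, ih]; push_cast; ring

/-- the phase of digit `j` -/
noncomputable def ph (j : ℕ) (p : Fin (len j) × Fin (len j)) : ℝ :=
  2 * tt j * ((((p.1 : ℕ) : ℝ) - ((p.2 : ℕ) : ℝ)) / (len j : ℝ)) ^ 2

theorem tt_pos (j : ℕ) : 0 < tt j := by unfold tt; positivity

theorem tt_le (j : ℕ) : tt j ≤ 1 / 1024 :=
  one_div_le_one_div_of_le (by norm_num) (by linarith [(Nat.cast_nonneg j : (0 : ℝ) ≤ j)])

theorem ph_bd (j : ℕ) (p : Fin (len j) × Fin (len j)) : 0 ≤ ph j p ∧ ph j p ≤ 2 * tt j := by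
  have h0 := tt_pos j
  have h1 : ((p.1 : ℕ) : ℝ) < len j := by exact_mod_cast p.1.2
  have h2 : ((p.2 : ℕ) : ℝ) < len j := by exact_mod_cast p.2.2
  have h3 : (0 : ℝ) ≤ (p.1 : ℕ) := Nat.cast_nonneg _
  have h4 : (0 : ℝ) ≤ (p.2 : ℕ) := Nat.cast_nonneg _
  refine ⟨by unfold ph; positivity, mul_le_of_le_one_right (by positivity) ?_⟩
  rw [div_pow, div_le_one (by nlinarith)]
  exact sq_le_sq' (by linarith) (by linarith)

theorem kap_eq (j : ℕ) : kap j = 𝔼 p, ee (ph j p) := by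
  rw [← univ_product_univ, expect_product]
  rfl

theorem al_ge (j : ℕ) : tt j / 8 ≤ 𝔼 p, ph j p := by
  rw [← univ_product_univ, expect_product]
  refine le_expect univ_nonempty fun u _ => ?_
  have h0 := tt_pos j
  have h1 : (2 : ℝ) ≤ len j := by exact_mod_cast le_trans (by norm_num) ((gp_ge j).trans (gp_le_len j))
  simp only [ph, div_pow, ← mul_expect, ← expect_div]
  rw [expect_eq_sum_div_card, Fin.sum_univ_eq_sum_range (fun i => (((u : ℕ) : ℝ) - (i : ℝ)) ^ 2),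
    sum_sq, card_univ, Fintype.card_fin]
  generalize (len j : ℝ) = L at *
  have h2 : 1 / 16 ≤ (L * (((u : ℕ) : ℝ) - (L - 1) / 2) ^ 2 + L * (L ^ 2 - 1) / 12) / L / L ^ 2 := by
    rw [le_div_iff₀ (by positivity), le_div_iff₀ (by positivity)]
    have h3 : 0 ≤ L * (((u : ℕ) : ℝ) - (L - 1) / 2) ^ 2 := by positivity
    have h4 : 0 ≤ L * (L ^ 2 - 4) := mul_nonneg (by linarith) (by nlinarith)
    linarith
  nlinarith

theorem sum_inv (K : ℕ) :
    ∑ j ∈ range K, (8 * (2 * tt j)) ^ 2 ≤ (2 - 2 / ((K : ℝ) + 1)) / 4096 := by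
  induction K with
  | zero => simp
  | succ K ih =>
    have h : (8 * (2 * tt K)) ^ 2 ≤ (2 / (K + 1) - 2 / (K + 1 + 1)) / 4096 := by
      have h0 : (0 : ℝ) ≤ K := Nat.cast_nonneg K
      unfold tt
      field_simp
      nlinarith
    rw [sum_range_succ]
    push_cast
    linarith

theorem approx (K : ℕ) :
    ‖∏ j ∈ range K, kap j - ee (∑ j ∈ range K, 𝔼 p, ph j p)‖ ≤ 1 / 2048 := by
  rw [ee_sum]
  refine (prod_sub _ _ (fun j => ?_) (fun j => (norm_ee _).le) K).trans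
    ((sum_le_sum fun j _ => ?_).trans ((sum_inv K).trans ?_))
  · rw [kap_eq]
    exact norm_expect_le_of_le fun _ => (norm_ee _).le
  · rw [kap_eq]
    exact mean _ (by linarith [tt_le j]) (ph_bd j)
  · have : (0 : ℝ) ≤ 2 / (K + 1) := by positivity
    linarith

theorem far {D : ℝ} (h1 : 3 / 8 ≤ D) (h2 : D ≤ 1 / 2) : 3 / 2 ≤ ‖ee D - 1‖ := by
  have h0 := Real.pi_pos
  have h3 := Real.mul_le_sin (x := Real.pi * D) (by positivity) (by nlinarith)
  have h4 : ee D = Complex.exp (Complex.I * ((2 * (Real.pi * D) : ℝ) : ℂ)) := by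
    unfold ee; congr 1; push_cast; ring
  rw [show 2 / Real.pi * (Real.pi * D) = 2 * D by field_simp] at h3
  rw [h4, Complex.norm_exp_I_mul_ofReal_sub_one, mul_div_cancel_left₀ _ two_ne_zero]
  exact le_trans (by linarith) (le_abs_self _)

end DriftA

open DriftA in
theorem drift : S_drift := by
  classical
  intro K
  let A : ℕ → ℝ := fun n => ∑ j ∈ range n, 𝔼 p, ph j p
  have h1 : Tendsto A atTop atTop := by
    refine tendsto_atTop_mono (fun n => ?_)
      (Real.tendsto_sum_range_one_div_nat_succ_atTop.const_mul_atTop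
        (by norm_num : (0 : ℝ) < 1 / 8192))
    rw [mul_sum]
    refine sum_le_sum fun j _ => le_trans (le_of_eq ?_) (al_ge j)
    unfold tt
    field_simp
    norm_num
  have h2 : ∃ n, A K + 3 / 8 ≤ A (K + n) :=
    ((h1.comp (tendsto_add_atTop_iff_nat K |>.2 tendsto_id)).eventually_ge_atTop
      (A K + 3 / 8)).exists.imp fun n h => by rwa [add_comm K n]
  have h3 := Nat.find_spec h2
  obtain ⟨m, hm⟩ : ∃ m, Nat.find h2 = m + 1 := Nat.exists_eq_succ_of_ne_zero fun h => by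
    rw [h, add_zero] at h3
    linarith
  have h4 := not_le.1 (Nat.find_min h2 (m.lt_succ_self.trans_eq hm.symm))
  have h5 : A (K + (m + 1)) = A (K + m) + 𝔼 p, ph (K + m) p := sum_range_succ _ _
  have h6 : 𝔼 p, ph (K + m) p ≤ 2 * tt (K + m) := expect_le univ_nonempty fun p _ => (ph_bd _ p).2
  rw [hm] at h3
  have h7 := far (D := A (K + (m + 1)) - A K) (by linarith) (by linarith [tt_le (K + m)])
  have h8 : ee (A (K + (m + 1))) - ee (A K) = ee (A K) * (ee (A (K + (m + 1)) - A K) - 1) := by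
    rw [mul_sub, ← ee_add, add_sub_cancel, mul_one]
  have h9 : 3 / 2 ≤ ‖ee (A (K + (m + 1))) - ee (A K)‖ := by rwa [h8, norm_mul, norm_ee, one_mul]
  refine ⟨K, K + (m + 1), le_rfl, Nat.le_add_right _ _, ?_⟩
  have h10 := norm_sub_le_norm_sub_add_norm_sub (ee (A (K + (m + 1)))) (∏ j ∈ range K, kap j)
    (ee (A K))
  have h11 := norm_sub_le_norm_sub_add_norm_sub (ee (A (K + (m + 1))))
    (∏ j ∈ range (K + (m + 1)), kap j) (∏ j ∈ range K, kap j)
  rw [norm_sub_rev (ee _) (∏ j ∈ range (K + (m + 1)), kap j),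
    norm_sub_rev (∏ j ∈ range (K + (m + 1)), kap j) (∏ j ∈ range K, kap j)] at h11
  linarith [approx K, approx (K + (m + 1))]

end Pool.Agent.P.MP_2957ea_an.NC
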