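import Mathlib
import Pool.Agent.P.MP_2957ea_an.VdC

/-!
Working definitions: the digit system, the averaging scheme, quasi-periodic functions.
-/

namespace Pool.Agent.P.MP_2957ea_an.NC

open Finset Filter Topology Pool.Agent.P.MP_2957ea_an
open scoped BigOperators commutatorElement

/-- Gap factor. -/
def gp (j : ℕ) : ℕ := 2 ^ (j + 10) * (j + 1)

/-- Range of digit `j`. -/
def len (j : ℕ) : ℕ := gp j ^ 2

/-- Place value of digit `j`. -/
def pos : ℕ → ℕ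
  | 0 => 1
  | j + 1 => gp j * len j * pos j

/-- Distance to the nearest integer. -/
noncomputable def nd (x : ℝ) : ℝ := |x - round x|

/-- Digit strings on the list of places `A`. -/
def Box : List ℕ → Type
  | [] => Unit
  | i :: A => Fin (len i) × Box A

instance fintypeBox : ∀ A, Fintype (Box A)
  | [] => inferInstanceAs (Fintype Unit)
  | i :: A => @instFintypeProd (Fin (len i)) (Box A) _ (fintypeBox A)

/-- The digit at place `j`. -/
def dg : ∀ A, Box A → ℕ → ℤ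
  | [], _, _ => 0
  | i :: A, s, j => if j = i then ((s.1 : ℕ) : ℤ) else dg A s.2 j

/-- The integer with the given digits. -/
def val : ∀ A, Box A → ℤ
  | [], _ => 0
  | i :: A, s => ((s.1 : ℕ) : ℤ) * (pos i : ℤ) + val A s.2

/-- The places below `K`, top place first. -/
def rl : ℕ → List ℕ
  | 0 => []
  | K + 1 => K :: rl K

/-- Average of `ψ (n + s - s')` over two digit strings. -/
noncomputable def EA (A : List ℕ) (ψ : ℤ → ℂ) (n : ℤ) : ℂ :=
  𝔼 s : Box A, 𝔼 s' : Box A, ψ (n + val A s - val A s')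

open Classical in
/-- Probability that the difference of two digit strings satisfies `p`. -/
noncomputable def pr (A : List ℕ) (p : ℤ → Prop) : ℝ :=
  𝔼 s : Box A, 𝔼 s' : Box A, if p (val A s - val A s') then (1 : ℝ) else 0

/-- The level averages of `ψ` converge. -/
def Good (ψ : ℤ → ℂ) : Prop :=
  ∃ L : ℂ, Tendsto (fun K => EA (rl K) ψ (pos K)) atTop (𝓝 L)

/-- Fourier transform of digit `i`. -/
noncomputable def mu (i : ℕ) (x : ℝ) : ℂ := 𝔼 u : Fin (len i), ee (((u : ℕ) : ℝ) * x)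

/-- The group of frequencies that survive. -/
def InH (γ : ℝ) : Prop := Summable fun j => min 1 (((len j : ℝ) * nd ((pos j : ℝ) * γ)) ^ 2)

/-- A class of sequences closed under linear combinations and uniform limits. -/
def Closed (P : (ℤ → ℂ) → Prop) : Prop :=
  P (fun _ => 0) ∧ (∀ ψ φ, P ψ → P φ → P (fun n => ψ n + φ n)) ∧
    (∀ (c : ℂ) ψ, P ψ → P (fun n => c * ψ n)) ∧
    ∀ ψ, (∀ ε : ℝ, 0 < ε → ∃ φ, P φ ∧ ∀ n, ‖ψ n - φ n‖ ≤ ε) → P ψ

section

variable {I : Type} [Fintype I]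

/-- Real bilinear forms on `I → ℝ`. -/
abbrev BF (I : Type) := LinearMap.BilinForm ℝ (I → ℝ)

/-- An integer vector as a real vector. -/
def iv (k : I → ℤ) : I → ℝ := fun l => (k l : ℝ)

/-- Pairing of an integer vector with a real vector. -/
noncomputable def dot (k : I → ℤ) (w : I → ℝ) : ℝ := ∑ l, (k l : ℝ) * w l

/-- `z` is a quasi-period of `Φ`. -/
def Per (ω : BF I) (Φ : (I → ℝ) → ℂ) (z : I → ℝ) : Prop :=
  ∃ c : ℂ, ‖c‖ = 1 ∧ ∀ w, Φ (w + z) = c * ee (ω z w) * Φ w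

/-- Continuous quasi-periodic function for an alternating form. -/
def QP (ω : BF I) (Φ : (I → ℝ) → ℂ) : Prop :=
  (∀ w, ω w w = 0) ∧ Continuous Φ ∧ ∀ k : I → ℤ, Per ω Φ (iv k)

/-- Twisted translation. -/
noncomputable def Tt (ω : BF I) (Y : I → ℝ) (Φ : (I → ℝ) → ℂ) : (I → ℝ) → ℂ :=
  fun w => ee (ω Y w) * Φ (w + Y)

/-- The elementary sequence attached to `Φ`. -/
noncomputable def sq (Φ : (I → ℝ) → ℂ) (ξ : I → ℝ) (τ σ : ℝ) : ℤ → ℂ :=
  fun n => Φ ((n : ℝ) • ξ) * ee (τ * (n : ℝ) ^ 2 + σ * (n : ℝ))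

/-- `2 ω` is integral on integer vectors. -/
def Int2 (ω : BF I) : Prop := ∀ k k' : I → ℤ, ∃ N : ℤ, 2 * ω (iv k) (iv k') = N

/-- The frequency attached to a shift `h` and a Fourier mode `k`. -/
noncomputable def fr (ω : BF I) (ξ : I → ℝ) (τ : ℝ) (h : ℤ) (k : I → ℤ) : ℝ :=
  2 * (τ * (h : ℝ) + ω (iv fun l => ⌊(h : ℝ) * ξ l⌋) ξ) + dot k ξ

/-- One of the frequencies attached to `h` lies in the spectrum of level `K`. -/
def GoodH (ω : BF I) (ξ : I → ℝ) (τ : ℝ) (F : Finset (I → ℤ)) (δ : ℝ) (K : ℕ) (h : ℤ) : Prop :=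
  ∃ k ∈ F, δ ≤ ∏ j ∈ range K, ‖mu j ((pos j : ℝ) * fr ω ξ τ h k)‖

/-- The spectral property that follows from averages that do not tend to zero. -/
def SP (ω : BF I) (ξ : I → ℝ) (τ : ℝ) (F : Finset (I → ℤ)) (δ : ℝ) : Prop :=
  ∀ K₀ : ℕ, ∃ K, K₀ ≤ K ∧ ∀ A : List ℕ, A.Nodup → (∀ i ∈ A, i < K) →
    δ ≤ pr A (GoodH ω ξ τ F δ K)

/-- `pos j • ξ` is a point of `(1/q) ℤ^I` plus a square summable error. -/
def ZY (q : ℕ) (ξ : I → ℝ) (z y : ℕ → I → ℝ) : Prop :=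
  (∀ j, ∃ k : I → ℤ, (q : ℝ) • z j = iv k) ∧ (∀ j, (pos j : ℝ) • ξ = z j + y j) ∧
    Summable fun j => (len j : ℝ) ^ 2 * ∑ l, y j l ^ 2

/-- The diagonal frequency of digit `j`. -/
noncomputable def th (ω : BF I) (ξ : I → ℝ) (τ : ℝ) (z : ℕ → I → ℝ) (j : ℕ) : ℝ :=
  τ * (pos j : ℝ) + ω (z j) ξ

/-- The diagonal frequencies are very close to rationals with a fixed denominator. -/
def Tiny (ω : BF I) (ξ : I → ℝ) (τ : ℝ) (z : ℕ → I → ℝ) (q₂ : ℕ) : Prop :=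
  Summable fun j => (pos j : ℝ) * (len j : ℝ) ^ 2 * nd (2 * (q₂ : ℝ) * th ω ξ τ z j)

end

/-- Elementary sequences in dimension `I`. -/
def Elem (I : Type) [Fintype I] (ψ : ℤ → ℂ) : Prop :=
  ∃ (ω : BF I) (Φ : (I → ℝ) → ℂ) (ξ : I → ℝ) (τ σ : ℝ), QP ω Φ ∧ ψ = sq Φ ξ τ σ

/-- All elementary sequences in dimension `I` are good. -/
def CI (I : Type) [Fintype I] : Prop := ∀ ψ, Elem I ψ → Good ψ

/-- Commutators are central. -/
def TwoStep (G : Type*) [Group G] : Prop := ∀ a b c : G, ⁅a, b⁆ * c = c * ⁅a, b⁆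

/-- `Γ` is cocompact. -/
def Cocpt {G : Type*} [Group G] [TopologicalSpace G] (Γ : Subgroup G) : Prop :=
  ∃ C : Set G, IsCompact C ∧ ∀ g : G, ∃ c ∈ C, ∃ γ ∈ Γ, g = c * γ

/-- The subgroup generated by the commutators of values of `ex`. -/
def comSub {G : Type*} [Group G] {W : Type*} (ex : W → G) : Subgroup G :=
  Subgroup.closure {g | ∃ a b, g = ⁅ex a, ex b⁆}

/-- Exponential coordinates with a bi-additive cocycle. -/
structure ExpData {G : Type*} [Group G] [TopologicalSpace G] {I : Type} [Fintype I]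
    (ex : (I → ℝ) → G) (ζ : (I → ℝ) → (I → ℝ) → G) : Prop where
  cont : Continuous ex
  contz : Continuous (Function.uncurry ζ)
  mul : ∀ w w', ex w * ex w' = ex (w + w') * ζ w w'
  addl : ∀ w₁ w₂ w', ζ (w₁ + w₂) w' = ζ w₁ w' * ζ w₂ w'
  addr : ∀ w w₁ w₂, ζ w (w₁ + w₂) = ζ w w₁ * ζ w w₂
  mem : ∀ w w', ζ w w' ∈ comSub ex
  nhd : ∃ R : ℝ, ex '' Metric.closedBall 0 R ∈ 𝓝 (1 : G)

/-- Drift coefficient of digit `j`. -/
noncomputable def tt (j : ℕ) : ℝ := 1 / (2 ^ 10 * ((j : ℝ) + 1))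

/-- Coefficient of the quadratic phase of digit `j` in the bad system. -/
noncomputable def tq (j : ℕ) : ℝ := tt j / ((len j : ℝ) * (pos j : ℝ)) ^ 2

/-- Average of the quadratic phase of digit `j`. -/
noncomputable def kap (j : ℕ) : ℂ :=
  𝔼 u : Fin (len j), 𝔼 u' : Fin (len j),
    ee (2 * tt j * ((((u : ℕ) : ℝ) - ((u' : ℕ) : ℝ)) / (len j : ℝ)) ^ 2)

end Pool.Agent.P.MP_2957ea_an.NC
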