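import Mathlib
import Pool.Agent.P.MP_2957ea_an.Defs
import Pool.Agent.P.MP_2957ea_an.NC.Defs

/-!
Statements of the steps.
-/

namespace Pool.Agent.P.MP_2957ea_an.NC

open Finset Filter Topology MeasureTheory Pool.Agent.P.MP_2957ea_an
open scoped BigOperators commutatorElement

universe u

def S_mu : Prop := ∀ (i : ℕ) (x : ℝ), ‖mu i x‖ ≤ 1 ∧ ‖mu i x‖ * (2 * (len i : ℝ) * nd x) ≤ 1 ∧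
  ‖mu i x‖ ^ 2 ≤ 1 - (1 / 16) * min 1 (((len i : ℝ) * nd x) ^ 2)

def S_H : Prop := (∀ a b, InH a → InH b → InH (a + b)) ∧
  (∀ (n : ℤ) (a : ℝ), InH a → InH ((n : ℝ) * a)) ∧
  ∀ γ δ : ℝ, 0 < δ →
    (∀ K₀ : ℕ, ∃ K, K₀ ≤ K ∧ δ ≤ ∏ j ∈ range K, ‖mu j ((pos j : ℝ) * γ)‖) → InH γ

def S_vin : Prop := ∀ p L : ℕ, 0 < p → 2 * p < L → ∀ U : Finset ℤ,
  (∀ u ∈ U, 0 ≤ u ∧ u < L) → L ≤ p * U.card → ∃ q : ℕ, 0 < q ∧ q < 2 * p ∧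
    ∀ γ η : ℝ, 12 * (p : ℝ) * η ≤ 1 → (∀ u ∈ U, ∀ u' ∈ U, nd (((u - u' : ℤ) : ℝ) * γ) ≤ η) →
      nd ((q : ℝ) * γ) * (L : ℝ) ≤ 36 * (p : ℝ) ^ 2 * η

def S_trig : Prop := ∀ (I : Type) [Fintype I] (ω : BF I) (Φ : (I → ℝ) → ℂ), QP ω Φ →
  ∀ ε : ℝ, 0 < ε → ∃ (F : Finset (I → ℤ)) (B : ℝ), 0 ≤ B ∧
    ∀ Y : I → ℝ, (∀ l, 0 ≤ Y l ∧ Y l ≤ 1) → ∃ a : (I → ℤ) → ℂ, (∀ k, ‖a k‖ ≤ B) ∧
      ∀ w, ‖Tt ω Y Φ w * (starRingEnd ℂ) (Φ w) - ∑ k ∈ F, a k * ee (dot k w)‖ ≤ ε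

def S_spec : Prop := ∀ (I : Type) [Fintype I] (ω : BF I) (Φ : (I → ℝ) → ℂ), QP ω Φ →
  ∀ δ : ℝ, 0 < δ → ∃ (F : Finset (I → ℤ)) (δ' : ℝ), 0 < δ' ∧ ∀ (ξ : I → ℝ) (τ σ : ℝ),
    (∀ K₀ : ℕ, ∃ K, K₀ ≤ K ∧ δ ≤ ‖EA (rl K) (sq Φ ξ τ σ) (pos K)‖) → SP ω ξ τ F δ'

def S_dich : Prop := ∀ (I : Type) [Fintype I] [DecidableEq I] (M : AddSubgroup (I → ℤ)),
  (∃ q : ℕ, 0 < q ∧ ∀ l, (Pi.single l (q : ℤ) : I → ℤ) ∈ M) ∨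
    ∃ κ : I → ℤ, κ ≠ 0 ∧ ∀ k ∈ M, ∑ l, k l * κ l = 0

def S_step3 : Prop := ∀ (I : Type) [Fintype I] (ω : BF I) (ξ : I → ℝ) (τ : ℝ)
  (F : Finset (I → ℤ)) (δ : ℝ), (∀ w, ω w w = 0) → Int2 ω → 0 < δ → SP ω ξ τ F δ →
    ∀ κ : I → ℤ, (∀ k : I → ℤ, InH (dot k ξ) → ∑ l, k l * κ l = 0) →
      ∃ h : ℤ, h ≠ 0 ∧ ∃ N : ℤ, (h : ℝ) * (2 * ω ξ (iv κ)) = N

def S_zy : Prop := ∀ (I : Type) [Fintype I] (q : ℕ) (ξ : I → ℝ), 0 < q →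
  (∀ l, InH ((q : ℝ) * ξ l)) → ∃ z y, ZY q ξ z y

def S_tiny : Prop := ∀ (I : Type) [Fintype I] (ω : BF I) (ξ : I → ℝ) (τ : ℝ)
  (F : Finset (I → ℤ)) (δ : ℝ) (q : ℕ) (z y : ℕ → I → ℝ), 0 < δ → 0 < q → SP ω ξ τ F δ →
    ZY q ξ z y → ∃ q₂ : ℕ, 0 < q₂ ∧ Tiny ω ξ τ z q₂

def S_comm : Prop := ∀ (I : Type) [Fintype I] (ω : BF I) (ξ : I → ℝ) (τ : ℝ)
  (F : Finset (I → ℤ)) (δ : ℝ) (q q₂ : ℕ) (z y : ℕ → I → ℝ), (∀ w, ω w w = 0) → Int2 ω →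
    0 < δ → 0 < q → 0 < q₂ → SP ω ξ τ F δ → ZY q ξ z y → Tiny ω ξ τ z q₂ →
      ∃ j₁ : ℕ, ∀ i j, j₁ ≤ i → j₁ ≤ j → ∃ N : ℤ, 2 * ω (z i) (z j) = N

def S_eig : Prop := ∀ (I : Type) [Fintype I] (ω : BF I) (Φ : (I → ℝ) → ℂ) (P : Set (I → ℝ))
  (z : I → ℝ) (N : ℕ), (∀ w, ω w w = 0) → Continuous Φ → 0 < N → (∀ p ∈ P, Per ω Φ p) →
    Per ω Φ ((N : ℝ) • z) → (∀ p ∈ P, ∃ n : ℤ, 2 * ω z p = n) →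
      ∃ Ψ : Fin N → (I → ℝ) → ℂ, (∀ l, Continuous (Ψ l)) ∧ (∀ w, Φ w = ∑ l, Ψ l w) ∧
        ∀ l, (∀ p ∈ P, Per ω (Ψ l) p) ∧ Per ω (Ψ l) z

def S_main : Prop := ∀ (I : Type) [Fintype I] (ω : BF I) (Φ : (I → ℝ) → ℂ) (q q₂ j₁ : ℕ)
  (ξ : I → ℝ) (τ σ : ℝ) (z y : ℕ → I → ℝ), (∀ w, ω w w = 0) → Continuous Φ → 0 < q → 0 < q₂ →
    (∀ k : I → ℤ, Per ω Φ ((q : ℝ) • iv k)) → (∀ j, j₁ ≤ j → Per ω Φ (z j)) →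
    (∀ j, (pos j : ℝ) • ξ = z j + y j) →
    (Summable fun j => (len j : ℝ) ^ 2 * ∑ l, y j l ^ 2) → Tiny ω ξ τ z q₂ →
      Good (sq Φ ξ τ σ)

def S_fin : Prop := ∀ (I : Type) [Fintype I] (ω : BF I) (Φ : (I → ℝ) → ℂ) (q q₂ j₁ : ℕ)
  (ξ : I → ℝ) (τ σ : ℝ) (z y : ℕ → I → ℝ), QP ω Φ → Int2 ω → 0 < q → 0 < q₂ → ZY q ξ z y →
    Tiny ω ξ τ z q₂ → (∀ i j, j₁ ≤ i → j₁ ≤ j → ∃ N : ℤ, 2 * ω (z i) (z j) = N) →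
      Good (sq Φ ξ τ σ)

def S_L1 : Prop := ∀ B ε ρ : ℝ, 0 < ε → 0 < ρ → ∃ (s : Finset ℤ) (a : ℤ → ℂ),
  ∀ H : ℝ → ℂ, Continuous H → (∀ t, H (t + 1) = H t) → (∀ t, ‖H t‖ ≤ B) →
    (∀ t, |t| ≤ ρ → ‖H t - H 0‖ ≤ ε) →
      ‖H 0 - ∑ l ∈ s, a l * ∫ t in (0 : ℝ)..1, ee (-((l : ℝ) * t)) * H t‖ ≤ 2 * ε

def S_res : Prop := ∀ (I : Type) [Fintype I] (P : (ℤ → ℂ) → Prop), Closed P →
  (∀ ψ, Elem I ψ → P ψ) → ∀ (ψ : ℤ → ℂ) (q : ℕ), 0 < q →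
    (∀ r : ℤ, 0 ≤ r → r < q → ∃ (ω : BF I) (Φ : (I → ℝ) → ℂ) (ξ c : I → ℝ) (τ σ ρ : ℝ),
      QP ω Φ ∧ ∀ k : ℤ, ψ (r + q * k) =
        Φ ((k : ℝ) • ξ + c) * ee (τ * (k : ℝ) ^ 2 + σ * (k : ℝ) + ρ)) → P ψ

def S_redA : Prop := ∀ (I : Type) [Fintype I] [DecidableEq I], (∀ a : I, CI {b // b ≠ a}) →
  ∀ (ω : BF I) (Φ : (I → ℝ) → ℂ) (ξ : I → ℝ) (τ σ : ℝ), QP ω Φ →
    ∀ (m : I → ℤ) (h N : ℤ), m ≠ 0 → h ≠ 0 → (h : ℝ) * dot m ξ = N → Good (sq Φ ξ τ σ)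

def S_redB : Prop := ∀ (I : Type) [Fintype I] [DecidableEq I], (∀ a : I, CI {b // b ≠ a}) →
  ∀ (ω : BF I) (Φ : (I → ℝ) → ℂ) (ξ : I → ℝ) (τ σ : ℝ), QP ω Φ →
    ∀ κ : I → ℤ, κ ≠ 0 → (∀ w, ω (iv κ) w = 0) → Good (sq Φ ξ τ σ)

def S_C : Prop := ∀ (I : Type) [Fintype I], CI I

def S_prod : Prop := ∀ (I J : Type) [Fintype I] [Fintype J] (ψ φ : ℤ → ℂ), Elem I ψ → Elem J φ →
  Elem (I ⊕ J) (fun n => ψ n * φ n)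

def S_lie1 : Prop := ∀ (d : ℕ) (G : Type u) [Group G] [TopologicalSpace G] [T2Space G]
  [ChartedSpace (Fin d → ℝ) G] 
  [LieGroup (modelWithCornersSelf ℝ (Fin d → ℝ)) ((⊤ : ℕ∞) : WithTop ℕ∞) G]
  (v : Fin d → ℝ), ∃ p : ℝ → G, Continuous p ∧ (∀ s t, p (s + t) = p s * p t) ∧
    HasStrictDerivAt (fun t => chartAt (Fin d → ℝ) (1 : G) (p t)) v 0

def S_lie2 : Prop := ∀ (d : ℕ) (G : Type u) [Group G] [TopologicalSpace G] [T2Space G]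
  [ChartedSpace (Fin d → ℝ) G] 
  [LieGroup (modelWithCornersSelf ℝ (Fin d → ℝ)) ((⊤ : ℕ∞) : WithTop ℕ∞) G]
  (p : Fin d → ℝ → G), (∀ i, Continuous (p i)) → (∀ i, p i 0 = 1) →
    (∀ i, HasStrictDerivAt (fun t => chartAt (Fin d → ℝ) (1 : G) (p i t)) (Pi.single i 1) 0) →
      (fun w : Fin d → ℝ => (List.ofFn fun i => p i (w i)).prod) '' Metric.closedBall 0 1 ∈
        𝓝 (1 : G)

def S_exp : Prop := ∀ (d : ℕ) (G : Type u) [Group G] [TopologicalSpace G] [IsTopologicalGroup G]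
  (p : Fin d → ℝ → G), TwoStep G → (∀ i, Continuous (p i)) →
    (∀ i s t, p i (s + t) = p i s * p i t) →
    (fun w : Fin d → ℝ => (List.ofFn fun i => p i (w i)).prod) '' Metric.closedBall 0 1 ∈
      𝓝 (1 : G) →
      ∃ ζ, ExpData (fun w : Fin d → ℝ => (List.ofFn fun i => p i (w i)).prod) ζ

def S_bichar : Prop := ∀ (I : Type) [Fintype I] (χ : (I → ℝ) → (I → ℝ) → ℂ),
  Continuous (Function.uncurry χ) → (∀ a b, ‖χ a b‖ = 1) →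
    (∀ a a' b, χ (a + a') b = χ a b * χ a' b) → (∀ a b b', χ a (b + b') = χ a b * χ a b') →
      ∃ β : BF I, ∀ a b, χ a b = ee (β a b)

def S_basis : Prop := ∀ (G : Type u) [Group G] [TopologicalSpace G] [IsTopologicalGroup G]
  (Γ : Subgroup G) (I : Type) [Fintype I] [DecidableEq I] (ex : (I → ℝ) → G)
  (ζ : (I → ℝ) → (I → ℝ) → G), TwoStep G → Cocpt Γ → ExpData ex ζ →
    ∃ (ex' : (I → ℝ) → G) (ζ' : (I → ℝ) → (I → ℝ) → G), ExpData ex' ζ' ∧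
      ∀ i, ∃ γ ∈ Γ, ∃ z ∈ comSub ex', ex' (Pi.single i 1) = γ * z

def S_pow : Prop := ∀ (G : Type u) [Group G] [TopologicalSpace G] [IsTopologicalGroup G]
  (Γ : Subgroup G) (I : Type) [Fintype I] (ex : (I → ℝ) → G)
  (ζ : (I → ℝ) → (I → ℝ) → G), TwoStep G → Cocpt Γ → ExpData ex ζ → ∀ b : G,
    ∃ (q : ℕ) (ξ : I → ℝ), 0 < q ∧ ∃ γ ∈ Γ, ∃ γ' ∈ Γ, ∃ z ∈ comSub ex,
      b ^ q = ex ξ * γ * (⁅ex ξ, γ'⁆ * z)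

def S_flow : Prop := ∀ (G : Type u) [Group G] [TopologicalSpace G] [IsTopologicalGroup G]
  (Γ : Subgroup G) (J : Type) [Fintype J] (fl : J → ℝ → G), Cocpt Γ →
    (∀ j, Continuous (fl j)) → (∀ j s t, fl j (s + t) = fl j s * fl j t) →
    (∀ j s g, fl j s * g = g * fl j s) → (∀ j, fl j 1 ∈ Γ) →
    ∀ P : (G → ℂ) → Prop, P (fun _ => 0) → (∀ F F', P F → P F' → P (fun g => F g + F' g)) →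
      (∀ (c : ℂ) F, P F → P (fun g => c * F g)) →
      (∀ F, (∀ ε : ℝ, 0 < ε → ∃ F', P F' ∧ ∀ g, ‖F g - F' g‖ ≤ ε) → P F) →
      (∀ F : G → ℂ, Continuous F → (∀ g, ∀ γ ∈ Γ, F (g * γ) = F g) →
        (∀ j, ∃ θ : ℝ, ∀ t g, F (g * fl j t) = ee (θ * t) * F g) → P F) →
      ∀ F : G → ℂ, Continuous F → (∀ g, ∀ γ ∈ Γ, F (g * γ) = F g) → P F

def S_grp : Prop := ∀ (G : Type u) [Group G] [TopologicalSpace G] [IsTopologicalGroup G]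
  (Γ : Subgroup G) (I : Type) [Fintype I] (ex : (I → ℝ) → G)
  (ζ : (I → ℝ) → (I → ℝ) → G), TwoStep G → Cocpt Γ → ExpData ex ζ →
    ∀ P : (ℤ → ℂ) → Prop, Closed P → (∀ ψ, Elem I ψ → P ψ) →
      ∀ F : G → ℂ, Continuous F → (∀ g, ∀ γ ∈ Γ, F (g * γ) = F g) →
        ∀ b₁ b₂ w : G, P (fun n => F (b₁ ^ n * b₂ ^ n * w))

def S_ii : Prop := ∀ (X : Type u) [TopologicalSpace X] [CompactSpace X] [T2Space X]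
  [SecondCountableTopology X] [MeasurableSpace X] [BorelSpace X] (m : Measure X)
  [IsProbabilityMeasure m] (T₁ T₂ : ℕ → X → X), (∀ n, MeasurePreserving (T₁ n) m m) →
    (∀ n, MeasurePreserving (T₂ n) m m) →
    (∀ f₁ f₂ : X → ℂ, Continuous f₁ → Continuous f₂ → ∀ x, ∃ L : ℂ, Tendsto
      (fun N : ℕ => (N : ℂ)⁻¹ * ∑ n ∈ Icc 1 N, f₁ (T₁ n x) * f₂ (T₂ n x)) atTop (𝓝 L)) →
    ∀ f₁ f₂ : X → ℂ, MemLp f₁ ⊤ m → MemLp f₂ ⊤ m → ∃ g : X → ℂ, MemLp g 2 m ∧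
      Tendsto (fun N : ℕ => eLpNorm
        (fun x => (N : ℂ)⁻¹ * ∑ n ∈ Icc 1 N, f₁ (T₁ n x) * f₂ (T₂ n x) - g x) 2 m) atTop (𝓝 0)

def S_seq : Prop := ∃ a : ℕ → ℤ, Tendsto a atTop atTop ∧
  ∀ (v : ℤ → ℂ) (C : ℝ), (∀ n, ‖v n‖ ≤ C) → ∀ L : ℂ,
    (Tendsto (fun N : ℕ => (N : ℂ)⁻¹ * ∑ n ∈ Icc 1 N, v (a n)) atTop (𝓝 L) ↔
      Tendsto (fun K => EA (rl K) v (pos K)) atTop (𝓝 L))

def S_sys : Prop := ∃ (X : Type) (_ : MeasurableSpace X) (μ : Measure X)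
  (_ : IsProbabilityMeasure μ) (T : Equiv.Perm X), MeasurePreserving T μ μ ∧
    MeasurePreserving T.symm μ μ ∧ ∃ f : X → ℂ, Measurable f ∧ (∀ x, ‖f x‖ = 1) ∧
      ∀ (d : ℤ) (r : ℕ → ℤ) (η : ℝ), (∀ j, (pos (j + 1) : ℤ) ∣ d - r j) →
        (∀ J, ∑ j ∈ range J, 4 * |(r j : ℝ)| / (pos (j + 1) : ℝ) ≤ η) →
        ∀ ε : ℝ, 0 < ε → ∀ᶠ J in atTop,
          ‖(∫ x, (starRingEnd ℂ) (f x) ^ 2 * (f ((T ^ d) x) * f ((T ^ (-d)) x)) ∂μ) -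
            ee (∑ j ∈ range J, 2 * tq j * (r j : ℝ) ^ 2)‖ ≤ η + ε

def S_eval : Prop := ∀ (K : ℕ) (s s' : Box (rl K)), ∃ r : ℕ → ℤ,
  (∀ j, (pos (j + 1) : ℤ) ∣ ((pos K : ℤ) + val (rl K) s - val (rl K) s') - r j) ∧
    (∀ J, ∑ j ∈ range J, 4 * |(r j : ℝ)| / (pos (j + 1) : ℝ) ≤ 1 / 64) ∧
    ∀ J, K ≤ J → |∑ j ∈ range J, 2 * tq j * (r j : ℝ) ^ 2 -
      ∑ j ∈ range K, 2 * tt j * (((dg (rl K) s j : ℝ) - (dg (rl K) s' j : ℝ)) / (len j : ℝ)) ^ 2|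
        ≤ 1 / 1000

def S_drift : Prop := ∀ K₀ : ℕ, ∃ K K', K₀ ≤ K ∧ K₀ ≤ K' ∧
  1 ≤ ‖∏ j ∈ range K, kap j - ∏ j ∈ range K', kap j‖

def S_bad : Prop := ∀ a : ℕ → ℤ,
  (∀ (v : ℤ → ℂ) (C : ℝ), (∀ n, ‖v n‖ ≤ C) → ∀ L : ℂ,
    Tendsto (fun N : ℕ => (N : ℂ)⁻¹ * ∑ n ∈ Icc 1 N, v (a n)) atTop (𝓝 L) →
      Tendsto (fun K => EA (rl K) v (pos K)) atTop (𝓝 L)) →
    ¬ GoodForCommuting.{0} 2 (fun _ => a)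

end Pool.Agent.P.MP_2957ea_an.NC
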