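import Mathlib
import Pool.Agent.P.MP_2957ea_an.NC.Iface

/-!
Basic facts: parameters, distance to the integers, digit strings.
-/

namespace Pool.Agent.P.MP_2957ea_an.NC

open Finset Filter Topology Pool.Agent.P.MP_2957ea_an
open scoped BigOperators

/-! Parameters -/

theorem two_pow_le_gp (j : ℕ) : 2 ^ (j + 10) ≤ gp j := Nat.le_mul_of_pos_right _ (Nat.succ_pos j)

theorem gp_ge (j : ℕ) : 1024 ≤ gp j :=
  le_trans (by rw [pow_add]; have := Nat.one_le_two_pow (n := j); omega) (two_pow_le_gp j)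

theorem gp_pos (j : ℕ) : 0 < gp j := by have := gp_ge j; omega

theorem lt_gp (j : ℕ) : j < gp j :=
  lt_of_lt_of_le (lt_of_le_of_lt (Nat.le_add_right j 10) Nat.lt_two_pow_self) (two_pow_le_gp j)

theorem gp_mono : Monotone gp := fun a b h => by
  unfold gp
  exact Nat.mul_le_mul (Nat.pow_le_pow_right (by norm_num) (by omega)) (by omega)

theorem gp_le_len (j : ℕ) : gp j ≤ len j := by
  have := gp_pos j
  unfold len
  nlinarith

theorem len_pos (j : ℕ) : 0 < len j := (gp_pos j).trans_le (gp_le_len j)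

theorem len_mono : Monotone len := fun _ _ h => Nat.pow_le_pow_left (gp_mono h) 2

theorem lt_len (j : ℕ) : j < len j := (lt_gp j).trans_le (gp_le_len j)

theorem four_dvd_len (j : ℕ) : 4 ∣ len j := by
  unfold len gp
  exact ⟨(2 ^ (j + 9) * (j + 1)) ^ 2, by ring⟩

theorem pos_succ (j : ℕ) : pos (j + 1) = gp j * len j * pos j := rfl

theorem pos_pos (j : ℕ) : 0 < pos j := by
  induction j with
  | zero => exact Nat.one_pos
  | succ j ih => exact Nat.mul_pos (Nat.mul_pos (gp_pos j) (len_pos j)) ih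

theorem pos_dvd_of_le {i j : ℕ} (h : i ≤ j) : pos i ∣ pos j := by
  induction h with
  | refl => exact dvd_rfl
  | step _ ih => exact ih.trans (Dvd.intro_left _ rfl)

theorem pos_mono : Monotone pos := fun _ j h => Nat.le_of_dvd (pos_pos j) (pos_dvd_of_le h)

theorem lt_pos (j : ℕ) : j < pos j := by
  induction j with
  | zero => exact Nat.one_pos
  | succ j ih =>
    have h1 := gp_ge j
    have h2 := len_pos j
    have h3 : 2 ≤ gp j * len j := by nlinarith
    rw [pos_succ]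
    nlinarith

theorem dvd_pos {q j : ℕ} (hq : 0 < q) (h : q ≤ j) : q ∣ pos j := by
  obtain ⟨k, rfl⟩ : ∃ k, q = k + 1 := ⟨q - 1, by omega⟩
  refine dvd_trans ?_ (pos_dvd_of_le h)
  rw [pos_succ, gp]
  exact ⟨2 ^ (k + 10) * len k * pos k, by ring⟩

/-- Reach of the digits below `j`. -/
def reach (j : ℕ) : ℕ := ∑ i ∈ range j, len i * pos i

theorem two_mul_reach_le (j : ℕ) : 2 * reach j ≤ pos j := by
  induction j with
  | zero => simp [reach]
  | succ j ih =>
    have h1 := gp_ge j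
    have h2 := len_pos j
    have h3 : reach (j + 1) = reach j + len j * pos j := sum_range_succ _ _
    have h4 : pos j ≤ len j * pos j := Nat.le_mul_of_pos_left _ h2
    rw [h3, pos_succ, mul_assoc]
    nlinarith

theorem reach_succ_le (j : ℕ) : reach (j + 1) ≤ 2 * (len j * pos j) := by
  have h3 : reach (j + 1) = reach j + len j * pos j := sum_range_succ _ _
  have h4 : pos j ≤ len j * pos j := Nat.le_mul_of_pos_left _ (len_pos j)
  have := two_mul_reach_le j
  omega

theorem tendsto_gp : Tendsto (fun j => (gp j : ℝ)) atTop atTop :=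
  tendsto_natCast_atTop_atTop.comp (tendsto_atTop_mono (fun j => (lt_gp j).le) tendsto_id)

theorem tendsto_len : Tendsto (fun j => (len j : ℝ)) atTop atTop :=
  tendsto_natCast_atTop_atTop.comp (tendsto_atTop_mono (fun j => (lt_len j).le) tendsto_id)

theorem inv_gp_le (j : ℕ) : ((gp j : ℝ))⁻¹ ≤ (1 / 1024) * (1 / 2) ^ j := by
  have h : ((2 : ℝ) ^ (j + 10)) ≤ gp j := by exact_mod_cast two_pow_le_gp j
  calc ((gp j : ℝ))⁻¹ ≤ ((2 : ℝ) ^ (j + 10))⁻¹ := inv_anti₀ (by positivity) h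
    _ = (1 / 1024) * (1 / 2) ^ j := by rw [pow_add, mul_inv, one_div (2 : ℝ), inv_pow]; ring

theorem summable_inv_gp : Summable fun j => ((gp j : ℝ))⁻¹ :=
  Summable.of_nonneg_of_le (fun _ => by positivity) inv_gp_le
    (summable_geometric_two.mul_left _)

theorem sum_inv_gp_le (J : ℕ) : ∑ j ∈ range J, ((gp j : ℝ))⁻¹ ≤ 1 / 512 := by
  refine (sum_le_sum fun j _ => inv_gp_le j).trans ?_
  rw [← mul_sum]
  have := sum_geometric_two_le J
  linarith

/-! Distance to the integers -/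

theorem nd_eq_norm (x : ℝ) : nd x = ‖(x : UnitAddCircle)‖ := by
  rw [UnitAddCircle.norm_eq]; rfl

theorem nd_nonneg (x : ℝ) : 0 ≤ nd x := abs_nonneg _

theorem nd_le_half (x : ℝ) : nd x ≤ 1 / 2 := abs_sub_round x

theorem nd_le_abs_sub (x : ℝ) (n : ℤ) : nd x ≤ |x - n| := round_le x n

theorem nd_le_abs (x : ℝ) : nd x ≤ |x| := by simpa using nd_le_abs_sub x 0

theorem nd_add_le (x y : ℝ) : nd (x + y) ≤ nd x + nd y := by
  simp only [nd_eq_norm, AddCircle.coe_add]; exact norm_add_le _ _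

theorem nd_neg (x : ℝ) : nd (-x) = nd x := by
  simp only [nd_eq_norm, AddCircle.coe_neg, norm_neg]

theorem nd_sub_le (x y : ℝ) : nd (x - y) ≤ nd x + nd y := by
  rw [sub_eq_add_neg, ← nd_neg y]; exact nd_add_le _ _

theorem nd_int (n : ℤ) : nd (n : ℝ) = 0 := by simp [nd]

theorem nd_add_int (x : ℝ) (n : ℤ) : nd (x + n) = nd x := by simp [nd]

theorem nd_sub_int (x : ℝ) (n : ℤ) : nd (x - n) = nd x := by
  rw [sub_eq_add_neg, ← Int.cast_neg, nd_add_int]

theorem nd_int_mul_le (n : ℤ) (x : ℝ) : nd (n * x) ≤ |(n : ℝ)| * nd x := by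
  have h := nd_le_abs_sub (n * x) (n * round x)
  rw [Int.cast_mul, ← mul_sub, abs_mul] at h
  exact h

theorem nd_eq_abs {x : ℝ} (h : |x| ≤ 1 / 2) : nd x = |x| := by
  rw [nd_eq_norm, (AddCircle.norm_coe_eq_abs_iff (1 : ℝ) one_ne_zero).2 (by simpa using h)]

theorem nd_eq_zero {x : ℝ} (h : nd x = 0) : ∃ n : ℤ, x = n :=
  ⟨round x, by have := abs_eq_zero.1 h; linarith⟩

theorem nd_sum_le {ι : Type*} (s : Finset ι) (f : ι → ℝ) :
    nd (∑ i ∈ s, f i) ≤ ∑ i ∈ s, nd (f i) := by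
  classical
  induction s using Finset.induction_on with
  | empty => simp [nd]
  | insert a s ha ih => rw [sum_insert ha, sum_insert ha]; linarith [nd_add_le (f a) (∑ i ∈ s, f i)]

/-! The character `ee` -/

theorem continuous_ee' : Continuous ee := by unfold ee; fun_prop

theorem ee_add_int (x : ℝ) (n : ℤ) : ee (x + n) = ee x := by rw [ee_add, ee_int, mul_one]

theorem ee_ne_zero (x : ℝ) : ee x ≠ 0 := Complex.exp_ne_zero _

theorem ee_mul_neg (x : ℝ) : ee x * ee (-x) = 1 := by rw [← ee_add, add_neg_cancel, ee_zero]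

theorem ee_sum {ι : Type*} (s : Finset ι) (f : ι → ℝ) :
    ee (∑ i ∈ s, f i) = ∏ i ∈ s, ee (f i) := by
  classical
  induction s using Finset.induction_on with
  | empty => simp [ee_zero]
  | insert a s ha ih => rw [sum_insert ha, prod_insert ha, ee_add, ih]

theorem ee_int_mul (n : ℤ) (t : ℝ) : ee (n * t) = ee t ^ n := by
  unfold ee
  rw [← Complex.exp_int_mul]
  congr 1
  push_cast
  ring

theorem exists_ee {c : ℂ} (hc : ‖c‖ = 1) : ∃ t : ℝ, c = ee t := by
  refine ⟨Complex.arg c / (2 * Real.pi), ?_⟩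
  have h := Complex.norm_mul_exp_arg_mul_I c
  rw [hc] at h
  have h2 : (Real.pi : ℂ) ≠ 0 := by exact_mod_cast Real.pi_ne_zero
  have h3 : ee (Complex.arg c / (2 * Real.pi)) = Complex.exp (Complex.arg c * Complex.I) := by
    unfold ee
    congr 1
    push_cast
    field_simp
  rw [h3]
  simpa using h.symm

theorem norm_ee_sub_one_le (x : ℝ) : ‖ee x - 1‖ ≤ 2 * Real.pi * |x| := by
  have h := Real.norm_exp_I_mul_ofReal_sub_one_le (x := 2 * Real.pi * x)
  rw [Real.norm_eq_abs, abs_mul, abs_of_pos Real.two_pi_pos] at h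
  convert h using 3
  unfold ee
  congr 1
  push_cast
  ring

theorem norm_ee_sub_ee_le (x y : ℝ) : ‖ee x - ee y‖ ≤ 2 * Real.pi * |x - y| := by
  have : ee x - ee y = ee y * (ee (x - y) - 1) := by
    rw [mul_sub, ← ee_add, mul_one]; congr 2; ring
  rw [this, norm_mul, norm_ee, one_mul]
  exact norm_ee_sub_one_le _

theorem norm_ee_sub_one_le_nd (x : ℝ) : ‖ee x - 1‖ ≤ 2 * Real.pi * nd x := by
  have : ee x = ee (x - round x) := by
    rw [sub_eq_add_neg, ← Int.cast_neg, ee_add_int]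
  rw [this]
  exact norm_ee_sub_one_le _

/-! Digit strings -/

instance nonemptyFinLen (i : ℕ) : Nonempty (Fin (len i)) := ⟨⟨0, len_pos i⟩⟩

instance nonemptyBox : ∀ A, Nonempty (Box A)
  | [] => ⟨()⟩
  | i :: A => ⟨(⟨0, len_pos i⟩, (nonemptyBox A).some)⟩

section

variable {M : Type*} [AddCommMonoid M] [Module ℚ≥0 M]

theorem expect_nil (f : Box [] → M) : 𝔼 s : Box [], f s = f () := by
  have : ∀ s : Box [], f s = f () := fun _ => rfl
  simp only [this]
  exact expect_const ⟨(), mem_univ (α := Box []) ()⟩ _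

theorem expect_cons (i : ℕ) (A : List ℕ) (f : Box (i :: A) → M) :
    𝔼 s : Box (i :: A), f s = 𝔼 u : Fin (len i), 𝔼 s : Box A, f (u, s) := by
  have : (univ : Finset (Box (i :: A))) =
      (univ : Finset (Fin (len i))) ×ˢ (univ : Finset (Box A)) := rfl
  rw [this]
  exact expect_product _ _ _

theorem expect_val_cons (i : ℕ) (A : List ℕ) (f : ℤ → M) :
    𝔼 s : Box (i :: A), f (val _ s) =
      𝔼 u : Fin (len i), 𝔼 s : Box A, f (((u : ℕ) : ℤ) * (pos i : ℤ) + val A s) :=
  expect_cons i A _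

theorem expect_val_perm {A B : List ℕ} (h : A.Perm B) :
    ∀ f : ℤ → M, 𝔼 s : Box A, f (val A s) = 𝔼 s : Box B, f (val B s) := by
  induction h with
  | nil => intro f; rfl
  | cons i _ ih =>
    intro f
    rw [expect_val_cons, expect_val_cons]
    exact expect_congr rfl fun u _ => ih fun n => f (((u : ℕ) : ℤ) * (pos i : ℤ) + n)
  | swap i j A =>
    intro f
    rw [expect_val_cons, expect_val_cons]
    have e1 : ∀ u : Fin (len j), 𝔼 s : Box (i :: A), f (((u : ℕ) : ℤ) * (pos j : ℤ) + val _ s) =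
        _ := fun u => expect_val_cons i A fun n => f (((u : ℕ) : ℤ) * (pos j : ℤ) + n)
    have e2 : ∀ u : Fin (len i), 𝔼 s : Box (j :: A), f (((u : ℕ) : ℤ) * (pos i : ℤ) + val _ s) =
        _ := fun u => expect_val_cons j A fun n => f (((u : ℕ) : ℤ) * (pos i : ℤ) + n)
    simp only [e1, e2]
    rw [expect_comm]
    refine expect_congr rfl fun u _ => expect_congr rfl fun v _ => expect_congr rfl fun s _ => ?_
    rw [add_left_comm]
  | trans _ _ ih1 ih2 => intro f; rw [ih1, ih2]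

theorem expect_val_append (A B : List ℕ) : ∀ f : ℤ → M,
    𝔼 s : Box (A ++ B), f (val _ s) = 𝔼 s : Box A, 𝔼 t : Box B, f (val A s + val B t) := by
  induction A with
  | nil => intro f; rw [expect_nil]; simp [val]
  | cons i A ih =>
    intro f
    rw [List.cons_append, expect_val_cons,
      expect_val_cons i A fun n => 𝔼 t : Box B, f (n + val B t)]
    refine expect_congr rfl fun u _ => ?_
    rw [ih fun n => f (((u : ℕ) : ℤ) * (pos i : ℤ) + n)]
    simp only [add_assoc]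

end

theorem val_nonneg : ∀ (A : List ℕ) (s : Box A), 0 ≤ val A s
  | [], _ => le_rfl
  | i :: A, s => by
    have := val_nonneg A s.2
    unfold val
    positivity

theorem mem_rl {K i : ℕ} : i ∈ rl K ↔ i < K := by
  induction K with
  | zero => simp [rl]
  | succ K ih => simp only [rl, List.mem_cons, ih]; omega

theorem nodup_rl (K : ℕ) : (rl K).Nodup := by
  induction K with
  | zero => simp [rl]
  | succ K ih => exact List.nodup_cons.2 ⟨fun h => lt_irrefl _ (mem_rl.1 h), ih⟩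

theorem toFinset_rl (K : ℕ) : (rl K).toFinset = range K := by
  ext i; simp [mem_rl]

theorem val_rl_le (K : ℕ) : ∀ s : Box (rl K), val (rl K) s ≤ reach K := by
  induction K with
  | zero => intro s; exact le_rfl
  | succ K ih =>
    intro s
    have h1 := ih s.2
    have h2 : ((s.1 : ℕ) : ℤ) ≤ len K := by exact_mod_cast s.1.2.le
    have h3 : (reach (K + 1) : ℤ) = reach K + len K * pos K := by
      have : reach (K + 1) = reach K + len K * pos K := sum_range_succ _ _
      exact_mod_cast this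
    have h4 : val (rl (K + 1)) s = ((s.1 : ℕ) : ℤ) * (pos K : ℤ) + val (rl K) s.2 := rfl
    rw [h3, h4]
    nlinarith [Int.natCast_nonneg (pos K)]

theorem exists_perm_rl {A : List ℕ} {K : ℕ} (hA : A.Nodup) (h : ∀ i ∈ A, i < K) :
    ∃ B, (rl K).Perm (A ++ B) := by
  have h1 : A.Subperm (rl K) := List.subperm_of_subset hA fun i hi => mem_rl.2 (h i hi)
  exact ⟨(rl K).diff A, (List.subperm_append_diff_self_of_count_le
    (List.subperm_ext_iff.1 h1)).symm⟩

theorem dg_of_not_mem : ∀ (A : List ℕ) (s : Box A) {j : ℕ}, j ∉ A → dg A s j = 0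
  | [], _, _, _ => rfl
  | i :: A, s, j, h => by
    have h1 : j ≠ i := fun e => h (e ▸ List.mem_cons_self)
    unfold dg
    rw [if_neg h1]
    exact dg_of_not_mem A s.2 fun hj => h (List.mem_cons_of_mem _ hj)

theorem dg_bounds : ∀ (A : List ℕ) (s : Box A) (j : ℕ), 0 ≤ dg A s j ∧ dg A s j < len j
  | [], _, j => ⟨le_rfl, (by exact_mod_cast len_pos j : (0 : ℤ) < len j)⟩
  | i :: A, s, j => by
    unfold dg
    split_ifs with h
    · subst h
      exact ⟨by positivity, by exact_mod_cast s.1.2⟩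
    · exact dg_bounds A s.2 j

theorem abs_dg_sub_le (A : List ℕ) (s s' : Box A) (j : ℕ) :
    |((dg A s j : ℤ) : ℝ) - ((dg A s' j : ℤ) : ℝ)| ≤ len j := by
  have h1 := dg_bounds A s j
  have h2 := dg_bounds A s' j
  have : |dg A s j - dg A s' j| ≤ (len j : ℤ) := abs_le.2 ⟨by omega, by omega⟩
  exact_mod_cast this

theorem val_eq_sum : ∀ {A : List ℕ}, A.Nodup → ∀ s : Box A,
    val A s = ∑ i ∈ A.toFinset, dg A s i * (pos i : ℤ)
  | [], _, _ => rfl
  | i :: A, hA, s => by
    have h := List.nodup_cons.1 hA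
    have hi : i ∉ A.toFinset := by simpa using h.1
    rw [List.toFinset_cons, sum_insert hi]
    have h1 : dg (i :: A) s i = ((s.1 : ℕ) : ℤ) := by unfold dg; rw [if_pos rfl]
    have h2 : ∀ j ∈ A.toFinset, dg (i :: A) s j * (pos j : ℤ) = dg A s.2 j * (pos j : ℤ) := by
      intro j hj
      have : j ≠ i := fun e => hi (e ▸ hj)
      conv_lhs => unfold dg
      rw [if_neg this]
    rw [h1, sum_congr rfl h2, ← val_eq_sum h.2 s.2]
    rfl

section

variable {R : Type*} [CommSemiring R] [Module ℚ≥0 R] [IsScalarTower ℚ≥0 R R]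
  [SMulCommClass ℚ≥0 R R]

/-- Independence of the digits. -/
theorem expect_prod_dg : ∀ {A : List ℕ}, A.Nodup → ∀ g : ℕ → ℤ → ℤ → R,
    𝔼 s : Box A, 𝔼 s' : Box A, ∏ i ∈ A.toFinset, g i (dg A s i) (dg A s' i) =
      ∏ i ∈ A.toFinset, 𝔼 u : Fin (len i), 𝔼 u' : Fin (len i), g i ((u : ℕ) : ℤ) ((u' : ℕ) : ℤ)
  | [], _, g => by simp
  | i :: A, hA, g => by
    have h := List.nodup_cons.1 hA
    have hi : i ∉ A.toFinset := by simpa using h.1
    have h2 : ∀ (s s' : Box (i :: A)), ∏ j ∈ (i :: A).toFinset, g j (dg _ s j) (dg _ s' j) =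
        g i ((s.1 : ℕ) : ℤ) ((s'.1 : ℕ) : ℤ) *
          ∏ j ∈ A.toFinset, g j (dg A s.2 j) (dg A s'.2 j) := by
      intro s s'
      rw [List.toFinset_cons, prod_insert hi]
      congr 1
      · unfold dg; rw [if_pos rfl, if_pos rfl]
      · refine prod_congr rfl fun j hj => ?_
        have : j ≠ i := fun e => hi (e ▸ hj)
        conv_lhs => unfold dg
        rw [if_neg this, if_neg this]
    simp only [h2]
    rw [List.toFinset_cons, prod_insert hi, ← expect_prod_dg h.2 g, expect_cons, expect_mul]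
    refine expect_congr rfl fun u _ => ?_
    simp only [expect_cons]
    rw [expect_comm, expect_mul]
    refine expect_congr rfl fun u' _ => ?_
    simp only [mul_expect]

end

theorem expect_ee_val (θ : ℝ) : ∀ A : List ℕ,
    𝔼 s : Box A, ee (θ * (val A s : ℝ)) = (A.map fun i => mu i ((pos i : ℝ) * θ)).prod
  | [] => by simp [val, ee_zero]
  | i :: A => by
    rw [expect_val_cons i A fun n => ee (θ * (n : ℝ)), List.map_cons, List.prod_cons,
      ← expect_ee_val θ A, mu, expect_mul_expect]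
    refine expect_congr rfl fun u _ => expect_congr rfl fun s _ => ?_
    rw [← ee_add]
    congr 1
    push_cast
    ring

theorem expect_ee_val_rl (θ : ℝ) (K : ℕ) :
    𝔼 s : Box (rl K), ee (θ * (val (rl K) s : ℝ)) = ∏ j ∈ range K, mu j ((pos j : ℝ) * θ) := by
  rw [expect_ee_val, ← List.prod_toFinset _ (nodup_rl K), toFinset_rl]

theorem pr_single (i : ℕ) (p : ℤ → Prop) [DecidablePred p] : pr [i] p =
    𝔼 u : Fin (len i), 𝔼 u' : Fin (len i),
      if p ((((u : ℕ) : ℤ) - ((u' : ℕ) : ℤ)) * (pos i : ℤ)) then (1 : ℝ) else 0 := by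
  unfold pr
  rw [expect_cons]
  refine expect_congr rfl fun u _ => ?_
  rw [expect_nil, expect_cons]
  refine expect_congr rfl fun u' _ => ?_
  rw [expect_nil]
  have : val [i] (u, ()) - val [i] (u', ()) = (((u : ℕ) : ℤ) - ((u' : ℕ) : ℤ)) * (pos i : ℤ) := by
    simp only [val]; ring
  rw [this]
  congr

theorem EA_nil (ψ : ℤ → ℂ) (n : ℤ) : EA [] ψ n = ψ n := by
  simp [EA, val]

theorem EA_cons (i : ℕ) (A : List ℕ) (ψ : ℤ → ℂ) (n : ℤ) : EA (i :: A) ψ n =
    𝔼 u : Fin (len i), 𝔼 u' : Fin (len i),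
      EA A ψ (n + (((u : ℕ) : ℤ) - ((u' : ℕ) : ℤ)) * (pos i : ℤ)) := by
  unfold EA
  rw [expect_cons]
  refine expect_congr rfl fun u _ => ?_
  simp only [expect_cons]
  rw [expect_comm]
  refine expect_congr rfl fun u' _ => expect_congr rfl fun s _ => expect_congr rfl fun s' _ => ?_
  congr 1
  simp only [val]
  ring

theorem EA_shift (A : List ℕ) (ψ : ℤ → ℂ) (n h : ℤ) :
    EA A ψ (n + h) = EA A (fun m => ψ (m + h)) n := by
  unfold EA
  refine expect_congr rfl fun s _ => expect_congr rfl fun s' _ => ?_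
  congr 1
  ring

theorem EA_add (A : List ℕ) (ψ φ : ℤ → ℂ) (n : ℤ) :
    EA A (fun m => ψ m + φ m) n = EA A ψ n + EA A φ n := by
  simp only [EA, expect_add_distrib]

theorem EA_sub (A : List ℕ) (ψ φ : ℤ → ℂ) (n : ℤ) :
    EA A (fun m => ψ m - φ m) n = EA A ψ n - EA A φ n := by
  simp only [EA, expect_sub_distrib]

theorem EA_mul (A : List ℕ) (c : ℂ) (ψ : ℤ → ℂ) (n : ℤ) :
    EA A (fun m => c * ψ m) n = c * EA A ψ n := by
  simp only [EA, mul_expect]

theorem norm_expect_le_of_le {ι : Type*} [Fintype ι] [Nonempty ι] {f : ι → ℂ} {C : ℝ}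
    (h : ∀ i, ‖f i‖ ≤ C) : ‖𝔼 i : ι, f i‖ ≤ C :=
  (RCLike.norm_expect_le (K := ℂ)).trans (expect_le univ_nonempty fun i _ => h i)

theorem norm_EA_le (A : List ℕ) (ψ : ℤ → ℂ) (n : ℤ) {C : ℝ}
    (h : ∀ s s' : Box A, ‖ψ (n + val A s - val A s')‖ ≤ C) : ‖EA A ψ n‖ ≤ C :=
  norm_expect_le_of_le fun s => norm_expect_le_of_le fun s' => h s s'

theorem norm_EA_sub_le (A : List ℕ) (ψ φ : ℤ → ℂ) (n : ℤ) {C : ℝ}
    (h : ∀ s s' : Box A, ‖ψ (n + val A s - val A s') - φ (n + val A s - val A s')‖ ≤ C) :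
    ‖EA A ψ n - EA A φ n‖ ≤ C := by
  rw [← EA_sub]
  exact norm_EA_le A _ n h

theorem good_of_approx {ψ : ℤ → ℂ} (h : ∀ ε : ℝ, 0 < ε → ∃ (x : ℕ → ℂ) (L : ℂ),
    Tendsto x atTop (𝓝 L) ∧ ∀ᶠ K in atTop, ‖EA (rl K) ψ (pos K) - x K‖ ≤ ε) : Good ψ := by
  refine cauchySeq_tendsto_of_complete (Metric.cauchySeq_iff'.2 fun ε hε => ?_)
  obtain ⟨x, L, h1, h2⟩ := h (ε / 5) (by positivity)
  have h3 := (Metric.tendsto_nhds.1 h1) (ε / 5) (by positivity)
  obtain ⟨N, hN⟩ := eventually_atTop.1 (h2.and h3)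
  refine ⟨N, fun n hn => ?_⟩
  have a1 := hN n hn
  have a2 := hN N le_rfl
  rw [dist_eq_norm] at a1 a2 ⊢
  calc ‖EA (rl n) ψ (pos n) - EA (rl N) ψ (pos N)‖
      = ‖(EA (rl n) ψ (pos n) - x n) + (x n - L) - (x N - L) - (EA (rl N) ψ (pos N) - x N)‖ := by
        congr 1; ring
    _ ≤ ‖EA (rl n) ψ (pos n) - x n‖ + ‖x n - L‖ + ‖x N - L‖ + ‖EA (rl N) ψ (pos N) - x N‖ := by
        refine (norm_sub_le _ _).trans (add_le_add_left ((norm_sub_le _ _).trans
          (add_le_add_left (norm_add_le _ _) _)) _)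
    _ < ε := by linarith [a1.1, a1.2, a2.1, a2.2]

theorem closed_good : Closed Good := by
  refine ⟨⟨0, ?_⟩, ?_, ?_, ?_⟩
  · simp [EA]
  · rintro ψ φ ⟨L, hL⟩ ⟨L', hL'⟩
    exact ⟨L + L', by simpa only [EA_add] using hL.add hL'⟩
  · rintro c ψ ⟨L, hL⟩
    exact ⟨c * L, by simpa only [EA_mul] using hL.const_mul c⟩
  · intro ψ h
    refine good_of_approx fun ε hε => ?_
    obtain ⟨φ, ⟨L, hL⟩, hφ⟩ := h ε hε
    exact ⟨_, L, hL, Eventually.of_forall fun K => norm_EA_sub_le _ _ _ _ fun _ _ => hφ _⟩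

theorem Closed.sum {P : (ℤ → ℂ) → Prop} (hP : Closed P) {ι : Type*} (s : Finset ι)
    (f : ι → ℤ → ℂ) (h : ∀ i ∈ s, P (f i)) : P (fun n => ∑ i ∈ s, f i n) := by
  classical
  induction s using Finset.induction_on with
  | empty => simpa using hP.1
  | insert a s ha ih =>
    simp only [sum_insert ha]
    exact hP.2.1 _ _ (h a (mem_insert_self _ _)) (ih fun i hi => h i (mem_insert_of_mem hi))

end Pool.Agent.P.MP_2957ea_an.NC
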