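import Mathlib
import Pool.Agent.P.MP_2957ea_an.NC.Basic

/-!
Algebra of quasi-periods, boundedness, uniform continuity, the shift formula, and the calculus of
commutators in two-step groups.
-/

namespace Pool.Agent.P.MP_2957ea_an.NC

open Finset Filter Topology Pool.Agent.P.MP_2957ea_an
open scoped BigOperators commutatorElement

section

variable {I : Type} [Fintype I] {ω : BF I} {Φ : (I → ℝ) → ℂ}

omit [Fintype I] in
theorem om_swap (halt : ∀ w, ω w w = 0) (a b : I → ℝ) : ω a b = -ω b a := by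
  have h := halt (a + b)
  simp only [map_add, LinearMap.add_apply, halt] at h
  linarith

omit [Fintype I] in
theorem iv_add (k k' : I → ℤ) : iv (k + k') = iv k + iv k' := by
  funext l; simp [iv]

omit [Fintype I] in
theorem iv_sub (k k' : I → ℤ) : iv (k - k') = iv k - iv k' := by
  funext l; simp [iv]

omit [Fintype I] in
theorem iv_smul (n : ℤ) (k : I → ℤ) : iv (n • k) = (n : ℝ) • iv k := by
  funext l; simp [iv]

omit [Fintype I] in
theorem iv_zero : iv (0 : I → ℤ) = 0 := by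
  funext l; simp [iv]

theorem dot_add (k : I → ℤ) (a b : I → ℝ) : dot k (a + b) = dot k a + dot k b := by
  simp [dot, mul_add, sum_add_distrib]

theorem dot_sub (k : I → ℤ) (a b : I → ℝ) : dot k (a - b) = dot k a - dot k b := by
  simp [dot, mul_sub, sum_sub_distrib]

theorem dot_smul (k : I → ℤ) (t : ℝ) (a : I → ℝ) : dot k (t • a) = t * dot k a := by
  simp only [dot, mul_sum, Pi.smul_apply, smul_eq_mul]
  exact sum_congr rfl fun l _ => by ring

theorem dot_iv (k k' : I → ℤ) : dot k (iv k') = ((∑ l, k l * k' l : ℤ) : ℝ) := by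
  simp [dot, iv]

theorem exists_bound_om (ω : BF I) : ∃ C : ℝ, 0 < C ∧ ∀ a b, |ω a b| ≤ C * ‖a‖ * ‖b‖ := by
  let f : (I → ℝ) →L[ℝ] (I → ℝ) →L[ℝ] ℝ :=
    LinearMap.toContinuousLinearMap
      ((LinearMap.toContinuousLinearMap : ((I → ℝ) →ₗ[ℝ] ℝ) ≃ₗ[ℝ] _).toLinearMap ∘ₗ ω)
  refine ⟨‖f‖ + 1, by positivity, fun a b => ?_⟩
  have h := f.le_opNorm₂ a b
  have h2 : f a b = ω a b := rfl
  rw [h2, Real.norm_eq_abs] at h
  have := norm_nonneg a
  have := norm_nonneg b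
  nlinarith [mul_nonneg (norm_nonneg a) (norm_nonneg b)]

theorem continuous_om (ω : BF I) : Continuous fun p : (I → ℝ) × (I → ℝ) => ω p.1 p.2 := by
  let f : (I → ℝ) →L[ℝ] (I → ℝ) →L[ℝ] ℝ :=
    LinearMap.toContinuousLinearMap
      ((LinearMap.toContinuousLinearMap : ((I → ℝ) →ₗ[ℝ] ℝ) ≃ₗ[ℝ] _).toLinearMap ∘ₗ ω)
  exact f.continuous₂

theorem continuous_om₂ {X : Type*} [TopologicalSpace X] (ω : BF I) {a b : X → I → ℝ}
    (ha : Continuous a) (hb : Continuous b) : Continuous fun x => ω (a x) (b x) :=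
  (continuous_om ω).comp (ha.prodMk hb)

omit [Fintype I] in
theorem Per.zero : Per ω Φ 0 := ⟨1, norm_one, fun w => by simp [ee_zero]⟩

omit [Fintype I] in
theorem Per.add {a b : I → ℝ} (ha : Per ω Φ a) (hb : Per ω Φ b) : Per ω Φ (a + b) := by
  obtain ⟨c, hc, h⟩ := ha
  obtain ⟨c', hc', h'⟩ := hb
  refine ⟨c' * c * ee (ω b a), by simp [hc, hc', norm_ee], fun w => ?_⟩
  rw [← add_assoc, h', h, map_add, map_add, LinearMap.add_apply, ee_add, ee_add]
  ring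

omit [Fintype I] in
theorem Per.neg (halt : ∀ w, ω w w = 0) {a : I → ℝ} (ha : Per ω Φ a) : Per ω Φ (-a) := by
  obtain ⟨c, hc, h⟩ := ha
  have hc0 : c ≠ 0 := by rintro rfl; simp at hc
  refine ⟨c⁻¹, by simp [hc], fun w => ?_⟩
  have h1 := h (w + -a)
  rw [neg_add_cancel_right, map_add, map_neg, halt, neg_zero, add_zero] at h1
  rw [h1, map_neg, LinearMap.neg_apply]
  have := ee_mul_neg (ω a w)
  field_simp
  linear_combination (-Φ (w + -a)) * this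

omit [Fintype I] in
theorem Per.sub (halt : ∀ w, ω w w = 0) {a b : I → ℝ} (ha : Per ω Φ a) (hb : Per ω Φ b) :
    Per ω Φ (a - b) := by
  rw [sub_eq_add_neg]; exact ha.add (hb.neg halt)

omit [Fintype I] in
/-- Integer multiples of a quasi-period, with the eigenvalue written as `ee t`. -/
theorem per_zsmul (halt : ∀ w, ω w w = 0) {z : I → ℝ} {t : ℝ}
    (h : ∀ w, Φ (w + z) = ee t * ee (ω z w) * Φ w) (d : ℤ) :
    ∀ w, Φ (w + (d : ℝ) • z) = ee (d * t) * ee (ω ((d : ℝ) • z) w) * Φ w := by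
  have key : ∀ (e : ℤ) (w), Φ (w + ((e + 1 : ℤ) : ℝ) • z) =
      ee t * ee (ω z w) * Φ (w + (e : ℝ) • z) := by
    intro e w
    have h1 := h (w + (e : ℝ) • z)
    rw [map_add, map_smul, halt, smul_zero, add_zero] at h1
    rw [← h1]
    congr 1
    push_cast
    rw [add_smul, one_smul, add_assoc]
  induction d using Int.induction_on with
  | zero => intro w; simp [ee_zero]
  | succ n ih =>
    intro w
    rw [key, ih]
    simp only [map_smul, LinearMap.smul_apply, smul_eq_mul]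
    push_cast
    rw [add_mul, add_mul, one_mul, one_mul, ee_add, ee_add]
    ring
  | pred n ih =>
    intro w
    have h1 := key (-(n : ℤ) - 1) w
    rw [sub_add_cancel, ih] at h1
    simp only [map_smul, LinearMap.smul_apply, smul_eq_mul] at h1 ⊢
    push_cast at h1 ⊢
    rw [sub_mul, sub_mul, one_mul, one_mul, sub_eq_add_neg _ t, sub_eq_add_neg _ (ω z w), ee_add,
      ee_add]
    have a1 := ee_mul_neg t
    have a2 := ee_mul_neg (ω z w)
    linear_combination (-(ee (-t)) * ee (-(ω z w))) * h1 -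
      Φ (w + (-(n : ℝ) - 1) • z) * (ee (ω z w) * ee (-(ω z w))) * a1 -
      Φ (w + (-(n : ℝ) - 1) • z) * a2

omit [Fintype I] in
theorem Per.zsmul (halt : ∀ w, ω w w = 0) {z : I → ℝ} (hz : Per ω Φ z) (d : ℤ) :
    Per ω Φ ((d : ℝ) • z) := by
  obtain ⟨c, hc, h⟩ := hz
  obtain ⟨t, rfl⟩ := exists_ee hc
  exact ⟨_, norm_ee _, per_zsmul halt h d⟩

omit [Fintype I] in
/-- Twisted translations keep quasi-periods and their eigenvalues. -/
theorem per_Tt (halt : ∀ w, ω w w = 0) {z : I → ℝ} {c : ℂ}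
    (h : ∀ w, Φ (w + z) = c * ee (ω z w) * Φ w) (Y : I → ℝ) :
    ∀ w, Tt ω Y Φ (w + z) = c * ee (ω z w) * Tt ω Y Φ w := by
  intro w
  unfold Tt
  rw [add_right_comm, h, map_add, map_add, ee_add, ee_add, om_swap halt z Y]
  have := ee_mul_neg (ω Y z)
  linear_combination (c * ee (ω Y w) * ee (ω z w) * Φ (w + Y)) * this

omit [Fintype I] in
theorem Per.Tt (halt : ∀ w, ω w w = 0) {z : I → ℝ} (hz : Per ω Φ z) (Y : I → ℝ) :
    Per ω (Tt ω Y Φ) z := by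
  obtain ⟨c, hc, h⟩ := hz
  exact ⟨c, hc, per_Tt halt h Y⟩

omit [Fintype I] in
theorem Per.const_mul {z : I → ℝ} (hz : Per ω Φ z) (a : ℂ) : Per ω (fun w => a * Φ w) z := by
  obtain ⟨c, hc, h⟩ := hz
  exact ⟨c, hc, fun w => by simp only [h]; ring⟩

theorem continuous_Tt (hΦ : Continuous Φ) :
    Continuous fun p : (I → ℝ) × (I → ℝ) => Tt ω p.1 Φ p.2 :=
  (continuous_ee'.comp (continuous_om ω)).mul (hΦ.comp (continuous_snd.add continuous_fst))

theorem continuous_Tt' (hΦ : Continuous Φ) (Y : I → ℝ) : Continuous (Tt ω Y Φ) :=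
  (continuous_ee'.comp (continuous_om₂ ω continuous_const continuous_id)).mul
    (hΦ.comp (continuous_id.add continuous_const))

theorem QP.Tt (h : QP ω Φ) (Y : I → ℝ) : QP ω (Tt ω Y Φ) :=
  ⟨h.1, continuous_Tt' h.2.1 Y, fun k => (h.2.2 k).Tt h.1 Y⟩

omit [Fintype I] in
theorem Tt_zero : Tt ω 0 Φ = Φ := by funext w; simp [Tt, ee_zero]

omit [Fintype I] in
theorem Tt_Tt (halt : ∀ w, ω w w = 0) (Y Y' : I → ℝ) (w : I → ℝ) :
    Tt ω Y' (Tt ω Y Φ) w = ee (ω Y Y') * Tt ω (Y + Y') Φ w := by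
  have _ := halt
  unfold Tt
  rw [map_add, map_add, LinearMap.add_apply, ee_add, ee_add, add_assoc w, add_comm Y' Y]
  ring

omit [Fintype I] in
theorem apply_add_eq_Tt (c w : I → ℝ) : Φ (w + c) = ee (-(ω c w)) * Tt ω c Φ w := by
  unfold Tt
  rw [← mul_assoc, ← ee_add, neg_add_cancel, ee_zero, one_mul]

omit [Fintype I] in
/-- The shift formula. -/
theorem sq_shift (halt : ∀ w, ω w w = 0) {z Y ξ : I → ℝ} {c : ℂ} {s : ℤ}
    (h : ∀ w, Φ (w + z) = c * ee (ω z w) * Φ w) (hs : (s : ℝ) • ξ = z + Y) (τ σ : ℝ) (m : ℤ) :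
    sq Φ ξ τ σ (m + s) =
      c * ee ((2 * m + s) * (τ * s + ω z ξ) + σ * s) * sq (Tt ω Y Φ) ξ τ σ m := by
  have hY : Y = (s : ℝ) • ξ - z := by rw [hs]; abel
  have h1 : ((m + s : ℤ) : ℝ) • ξ = ((m : ℝ) • ξ + Y) + z := by
    push_cast; rw [add_smul, hs]; abel
  have h2 : ω z ((m : ℝ) • ξ + Y) = (m + s) * ω z ξ := by
    rw [hY]; simp only [map_add, map_sub, map_smul, halt, smul_eq_mul]; ring
  have h3 : ω Y ((m : ℝ) • ξ) = -(m * ω z ξ) := by
    rw [hY]; simp only [map_sub, map_smul, LinearMap.sub_apply, LinearMap.smul_apply, halt,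
      smul_eq_mul]; ring
  unfold sq
  rw [h1, h, h2, apply_add_eq_Tt (ω := ω) (Φ := Φ) Y, h3]
  have e : ee ((m + s) * ω z ξ) * ee (-(-(m * ω z ξ))) *
      ee (τ * ((m + s : ℤ) : ℝ) ^ 2 + σ * ((m + s : ℤ) : ℝ)) =
      ee ((2 * m + s) * (τ * s + ω z ξ) + σ * s) * ee (τ * (m : ℝ) ^ 2 + σ * m) := by
    rw [← ee_add, ← ee_add, ← ee_add]; congr 1; push_cast; ring
  linear_combination (c * Tt ω Y Φ ((m : ℝ) • ξ)) * e

omit [Fintype I] in
theorem Per.int2 (halt : ∀ w, ω w w = 0) {a b : I → ℝ} (ha : Per ω Φ a) (hb : Per ω Φ b)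
    {w₀ : I → ℝ} (hw : Φ w₀ ≠ 0) : ∃ N : ℤ, 2 * ω a b = N := by
  obtain ⟨c, hc, h⟩ := ha
  obtain ⟨c', hc', h'⟩ := hb
  have hc0 : c ≠ 0 := by rintro rfl; simp at hc
  have hc0' : c' ≠ 0 := by rintro rfl; simp at hc'
  have h1 : Φ (w₀ + a + b) = Φ (w₀ + b + a) := by rw [add_right_comm]
  rw [h', h, h, h', map_add, map_add, ee_add, ee_add] at h1
  have h2 : ee (ω b a) = ee (ω a b) := by
    have hne : c * c' * ee (ω a w₀) * ee (ω b w₀) * Φ w₀ ≠ 0 := by simp [hc0, hc0', hw, ee_ne_zero]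
    apply mul_left_cancel₀ hne
    linear_combination h1
  have h3 : ee (2 * ω a b) = 1 := by
    rw [two_mul, ee_add]
    nth_rewrite 2 [← h2]
    rw [om_swap halt b a, ee_mul_neg]
  obtain ⟨n, hn⟩ := Complex.exp_eq_one_iff.1 h3
  refine ⟨n, ?_⟩
  have h4 : (2 * Real.pi * Complex.I : ℂ) ≠ 0 := Complex.two_pi_I_ne_zero
  have h5 : ((2 * ω a b : ℝ) : ℂ) = (n : ℂ) := by
    apply mul_left_cancel₀ h4
    linear_combination hn
  exact_mod_cast h5

omit [Fintype I] in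
theorem QP.int2 (h : QP ω Φ) {w₀ : I → ℝ} (hw : Φ w₀ ≠ 0) : Int2 ω :=
  fun k k' => (h.2.2 k).int2 h.1 (h.2.2 k') hw

theorem exists_cube {q : ℕ} (hq : 0 < q) (w : I → ℝ) : ∃ (k : I → ℤ) (w₀ : I → ℝ),
    w₀ ∈ Metric.closedBall (0 : I → ℝ) q ∧ w = w₀ + (q : ℝ) • iv k := by
  have hq' : (0 : ℝ) < q := by exact_mod_cast hq
  refine ⟨fun l => ⌊w l / q⌋, w - (q : ℝ) • iv fun l => ⌊w l / q⌋, ?_, by abel⟩
  rw [mem_closedBall_zero_iff, pi_norm_le_iff_of_nonneg hq'.le]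
  intro l
  have h1 := Int.floor_le (w l / q)
  have h2 := Int.lt_floor_add_one (w l / q)
  rw [le_div_iff₀ hq'] at h1
  rw [div_lt_iff₀ hq'] at h2
  simp only [Pi.sub_apply, Pi.smul_apply, iv, smul_eq_mul, Real.norm_eq_abs]
  rw [abs_le]
  constructor <;> nlinarith

theorem exists_bound_per (hΦ : Continuous Φ) {q : ℕ} (hq : 0 < q)
    (hper : ∀ k : I → ℤ, Per ω Φ ((q : ℝ) • iv k)) : ∃ B : ℝ, 0 < B ∧ ∀ w, ‖Φ w‖ ≤ B := by
  obtain ⟨B, hB⟩ := (isCompact_closedBall (0 : I → ℝ) q).exists_bound_of_continuousOn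
    hΦ.continuousOn
  refine ⟨|B| + 1, by positivity, fun w => ?_⟩
  obtain ⟨k, w₀, h1, rfl⟩ := exists_cube hq w
  obtain ⟨c, hc, h⟩ := hper k
  rw [h, norm_mul, norm_mul, hc, norm_ee, one_mul, one_mul]
  linarith [hB w₀ h1, le_abs_self B]

theorem unif_Tt (halt : ∀ w, ω w w = 0) (hΦ : Continuous Φ) {q : ℕ} (hq : 0 < q)
    (hper : ∀ k : I → ℤ, Per ω Φ ((q : ℝ) • iv k)) {ε : ℝ} (hε : 0 < ε) :
    ∃ ρ : ℝ, 0 < ρ ∧ ∀ Y : I → ℝ, ‖Y‖ ≤ ρ → ∀ w, ‖Tt ω Y Φ w - Φ w‖ ≤ ε := by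
  have hc : Continuous fun p : (I → ℝ) × (I → ℝ) => ‖Tt ω p.1 Φ p.2 - Φ p.2‖ :=
    ((continuous_Tt hΦ).sub (hΦ.comp continuous_snd)).norm
  have h1 : ∀ᶠ Y in 𝓝 (0 : I → ℝ), ∀ w ∈ Metric.closedBall (0 : I → ℝ) q,
      ‖Tt ω Y Φ w - Φ w‖ < ε := by
    refine (isCompact_closedBall (0 : I → ℝ) q).eventually_forall_of_forall_eventually
      fun w _ => ?_
    refine hc.continuousAt.eventually_lt continuousAt_const ?_
    simpa [Tt_zero] using hε
  obtain ⟨ρ, hρ, h2⟩ := Metric.nhds_basis_closedBall.eventually_iff.1 h1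
  refine ⟨ρ, hρ, fun Y hY w => ?_⟩
  obtain ⟨k, w₀, h3, rfl⟩ := exists_cube hq w
  obtain ⟨c, hc', h⟩ := hper k
  rw [per_Tt halt h, h, ← mul_sub, norm_mul, norm_mul, hc', norm_ee, one_mul, one_mul]
  exact (h2 (mem_closedBall_zero_iff.2 hY) w₀ h3).le

omit [Fintype I] in
theorem QP.per_one (h : QP ω Φ) (k : I → ℤ) : Per ω Φ (((1 : ℕ) : ℝ) • iv k) := by
  simpa using h.2.2 k

theorem QP.exists_bound (h : QP ω Φ) : ∃ B : ℝ, 0 < B ∧ ∀ w, ‖Φ w‖ ≤ B :=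
  exists_bound_per h.2.1 Nat.one_pos h.per_one

theorem QP.unif (h : QP ω Φ) {ε : ℝ} (hε : 0 < ε) :
    ∃ ρ : ℝ, 0 < ρ ∧ ∀ Y : I → ℝ, ‖Y‖ ≤ ρ → ∀ w, ‖NC.Tt ω Y Φ w - Φ w‖ ≤ ε :=
  unif_Tt h.1 h.2.1 Nat.one_pos h.per_one hε

omit [Fintype I] in
theorem norm_sq (ξ : I → ℝ) (τ σ : ℝ) (n : ℤ) : ‖sq Φ ξ τ σ n‖ = ‖Φ ((n : ℝ) • ξ)‖ := by
  rw [sq, norm_mul, norm_ee, mul_one]

theorem Elem.exists_bound {ψ : ℤ → ℂ} (h : Elem I ψ) : ∃ B : ℝ, 0 < B ∧ ∀ n, ‖ψ n‖ ≤ B := by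
  obtain ⟨ω, Φ, ξ, τ, σ, h1, rfl⟩ := h
  obtain ⟨B, hB, h2⟩ := h1.exists_bound
  exact ⟨B, hB, fun n => by rw [norm_sq]; exact h2 _⟩

theorem per_iv_of_single [DecidableEq I] (halt : ∀ w, ω w w = 0)
    (h : ∀ i, Per ω Φ (Pi.single i 1)) (k : I → ℤ) : Per ω Φ (iv k) := by
  have h1 : iv k = ∑ i, (k i : ℝ) • (Pi.single i 1 : I → ℝ) := by
    funext l; simp [iv, Pi.single_apply]
  rw [h1]
  exact sum_induction _ (Per ω Φ) (fun _ _ => Per.add) Per.zero fun i _ => (h i).zsmul halt _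

end

section

variable {G : Type*} [Group G]

theorem TwoStep.comm (h : TwoStep G) (a b c : G) : Commute ⁅a, b⁆ c := h a b c

theorem TwoStep.mul_left (h : TwoStep G) (a b c : G) : ⁅a * b, c⁆ = ⁅a, c⁆ * ⁅b, c⁆ := by
  rw [commutatorElement_mul_left_eq_conj_mul, ← h b c a, mul_inv_cancel_right, h b c]

theorem TwoStep.mul_right (h : TwoStep G) (a b c : G) : ⁅a, b * c⁆ = ⁅a, b⁆ * ⁅a, c⁆ := by
  rw [← commutatorElement_inv, h.mul_left, mul_inv_rev, commutatorElement_inv,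
    commutatorElement_inv, h a c]

/-- The commutator with a fixed element as a homomorphism in the first variable. -/
def TwoStep.homL (h : TwoStep G) (c : G) : G →* G :=
  MonoidHom.mk' (fun a => ⁅a, c⁆) fun a b => h.mul_left a b c

/-- The commutator with a fixed element as a homomorphism in the second variable. -/
def TwoStep.homR (h : TwoStep G) (a : G) : G →* G :=
  MonoidHom.mk' (fun c => ⁅a, c⁆) fun b c => h.mul_right a b c

theorem TwoStep.zpow_left (h : TwoStep G) (a c : G) (n : ℤ) : ⁅a ^ n, c⁆ = ⁅a, c⁆ ^ n :=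
  map_zpow (h.homL c) a n

theorem TwoStep.zpow_right (h : TwoStep G) (a c : G) (n : ℤ) : ⁅a, c ^ n⁆ = ⁅a, c⁆ ^ n :=
  map_zpow (h.homR a) c n

theorem TwoStep.inv_left (h : TwoStep G) (a c : G) : ⁅a⁻¹, c⁆ = ⁅a, c⁆⁻¹ := map_inv (h.homL c) a

theorem TwoStep.inv_right (h : TwoStep G) (a c : G) : ⁅a, c⁻¹⁆ = ⁅a, c⁆⁻¹ := map_inv (h.homR a) c

theorem mul_eq_comm_mul (a b : G) : a * b = ⁅a, b⁆ * (b * a) := by
  rw [commutatorElement_def]; group

theorem comm_eq_one_left {z : G} (hz : ∀ g, z * g = g * z) (c : G) : ⁅z, c⁆ = 1 :=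
  commutatorElement_eq_one_iff_mul_comm.2 (hz c)

theorem comm_eq_one_right {z : G} (hz : ∀ g, z * g = g * z) (c : G) : ⁅c, z⁆ = 1 :=
  commutatorElement_eq_one_iff_mul_comm.2 (hz c).symm

theorem TwoStep.central_of_mem (h : TwoStep G) {W : Type*} {ex : W → G} {z : G}
    (hz : z ∈ comSub ex) (g : G) : z * g = g * z := by
  have : comSub ex ≤ Subgroup.center G := by
    refine (Subgroup.closure_le _).2 ?_
    rintro _ ⟨a, b, rfl⟩
    exact Subgroup.mem_center_iff.2 fun g => (h _ _ g).symm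
  exact (Subgroup.mem_center_iff.1 (this hz) g).symm

variable [TopologicalSpace G] {I : Type} [Fintype I] {ex : (I → ℝ) → G}
  {ζ : (I → ℝ) → (I → ℝ) → G}

theorem ExpData.z_zero_left (h : ExpData ex ζ) (w : I → ℝ) : ζ 0 w = 1 := by
  have := h.addl 0 0 w
  rw [add_zero] at this
  exact left_eq_mul.1 this

theorem ExpData.z_zero_right (h : ExpData ex ζ) (w : I → ℝ) : ζ w 0 = 1 := by
  have := h.addr w 0 0
  rw [add_zero] at this
  exact left_eq_mul.1 this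

theorem ExpData.ex_zero (h : ExpData ex ζ) : ex 0 = 1 := by
  have := h.mul 0 0
  rw [add_zero, h.z_zero_left, mul_one] at this
  exact mul_eq_left.1 this

theorem ExpData.inv_mul (h : ExpData ex ζ) (u u' : I → ℝ) :
    (ex u)⁻¹ * ex u' = ex (u' - u) * (ζ u (u' - u))⁻¹ := by
  have := h.mul u (u' - u)
  rw [add_sub_cancel] at this
  rw [inv_mul_eq_iff_eq_mul, ← mul_assoc, this, mul_inv_cancel_right]

theorem ExpData.comm_add (h : ExpData ex ζ) (h2 : TwoStep G) (a b : I → ℝ) (g : G) :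
    ⁅ex (a + b), g⁆ = ⁅ex a, g⁆ * ⁅ex b, g⁆ := by
  rw [← h2.mul_left, h.mul, h2.mul_left, comm_eq_one_left (h2.central_of_mem (h.mem a b)), mul_one]

end

end Pool.Agent.P.MP_2957ea_an.NC
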