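import Mathlib

/-!
Definitions for the statement on nilsystems and nilsequences.
-/

namespace Pool.Agent.P.MP_2957ea_an.NC

open Filter Topology MeasureTheory
open scoped ContDiff

universe u

/-- Condition (ii): the sequences `a 0, …, a (l - 1)` are good for `l`-convergence of `k`-step
nilsystems. The measure `m` is any Borel probability measure on `G ⧸ Γ` invariant under `G`. -/
def GoodForNilsystems (k l : ℕ) (a : Fin l → ℕ → ℤ) : Prop :=
  ∀ (d : ℕ) (G : Type u) [Group G] [TopologicalSpace G] [T2Space G] [SecondCountableTopology G]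
    [ChartedSpace (Fin d → ℝ) G] [LieGroup (modelWithCornersSelf ℝ (Fin d → ℝ)) ∞ G]
    (Γ : Subgroup G), (⊤ : Subgroup G).lowerCentralSeries k = ⊥ → DiscreteTopology Γ →
    CompactSpace (G ⧸ Γ) →
    ∀ [MeasurableSpace (G ⧸ Γ)] [BorelSpace (G ⧸ Γ)] (m : Measure (G ⧸ Γ)) [IsProbabilityMeasure m],
      (∀ g : G, MeasurePreserving (fun x : G ⧸ Γ => g • x) m m) →
      ∀ b : Fin l → G, (∀ i j, Commute (b i) (b j)) →
      ∀ f : Fin l → G ⧸ Γ → ℂ, (∀ i, MemLp (f i) ⊤ m) →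
        ∃ g : G ⧸ Γ → ℂ, MemLp g 2 m ∧ Tendsto (fun N : ℕ => eLpNorm
          (fun x => (N : ℂ)⁻¹ * ∑ n ∈ Finset.Icc 1 N, ∏ i, f i (b i ^ a i n • x) - g x) 2 m)
          atTop (𝓝 0)

/-- A basic `k`-step nilsequence in `l` variables with continuous `F`; the group is any `k`-step
nilpotent Lie group and the elements `b i` need not commute. -/
def IsBasicNilsequence (k l : ℕ) (ψ : (Fin l → ℤ) → ℂ) : Prop :=
  ∃ (d : ℕ) (G : Type u) (_ : Group G) (_ : TopologicalSpace G) (_ : T2Space G)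
    (_ : SecondCountableTopology G) (_ : ChartedSpace (Fin d → ℝ) G)
    (_ : LieGroup (modelWithCornersSelf ℝ (Fin d → ℝ)) ∞ G)
    (Γ : Subgroup G) (b : Fin l → G) (x : G ⧸ Γ) (F : G ⧸ Γ → ℂ),
    (⊤ : Subgroup G).lowerCentralSeries k = ⊥ ∧ DiscreteTopology Γ ∧ CompactSpace (G ⧸ Γ) ∧
    Continuous F ∧ ∀ n : Fin l → ℤ, ψ n = F ((List.ofFn fun i => b i ^ n i).prod • x)

/-- A `k`-step nilsequence in `l` variables: a uniform limit of basic ones. -/
def IsNilsequence (k l : ℕ) (ψ : (Fin l → ℤ) → ℂ) : Prop :=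
  ∀ ε : ℝ, 0 < ε → ∃ φ, IsBasicNilsequence.{u} k l φ ∧ ∀ n, ‖ψ n - φ n‖ ≤ ε

end Pool.Agent.P.MP_2957ea_an.NC
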