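import Mathlib
import Pool.Agent.P.MP_2957ea_an.NC.StDefs
import Pool.Agent.P.MP_2957ea_an.NC.PerBasic

/-!
Assembling the steps.
-/

namespace Pool.Agent.P.MP_2957ea_an.NC

open Finset Filter Topology MeasureTheory Pool.Agent.P.MP_2957ea_an
open scoped BigOperators commutatorElement

universe u

theorem cc (hH : S_H) (hspec : S_spec) (hdich : S_dich) (hstep3 : S_step3) (hzy : S_zy)
    (htiny : S_tiny) (hcomm : S_comm) (hfin : S_fin) (hA : S_redA) (hB : S_redB) : S_C := by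
  suffices key : ∀ (n : ℕ) (I : Type) [Fintype I], Fintype.card I = n → CI I from
    fun I _ => key _ I rfl
  intro n
  induction n using Nat.strong_induction_on with
  | _ n ih =>
  intro I _ hn
  classical
  have IH : ∀ a : I, CI {b // b ≠ a} := fun a =>
    ih _ (hn ▸ Fintype.card_subtype_lt (x := a) (by simp)) _ rfl
  rintro ψ ⟨ω, Φ, ξ, τ, σ, hQ, rfl⟩
  by_cases h0 : ∀ w, Φ w = 0
  · have : sq Φ ξ τ σ = fun _ => 0 := by funext n; simp [sq, h0]
    rw [this]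
    exact closed_good.1
  obtain ⟨w₀, hw₀⟩ := not_forall.1 h0
  have hint := hQ.int2 hw₀
  by_cases hz : Tendsto (fun K => EA (rl K) (sq Φ ξ τ σ) (pos K)) atTop (𝓝 0)
  · exact ⟨0, hz⟩
  obtain ⟨δ, hδ, hns⟩ : ∃ δ : ℝ, 0 < δ ∧
      ∀ K₀ : ℕ, ∃ K, K₀ ≤ K ∧ δ ≤ ‖EA (rl K) (sq Φ ξ τ σ) (pos K)‖ := by
    by_contra hc
    push Not at hc
    refine hz (Metric.tendsto_atTop.2 fun ε hε => ?_)
    obtain ⟨K₀, hK⟩ := hc ε hε
    exact ⟨K₀, fun K h => by simpa using hK K h⟩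
  obtain ⟨F, δ', hδ', hsp⟩ := hspec I ω Φ hQ δ hδ
  have hsp' := hsp ξ τ σ hns
  let M : AddSubgroup (I → ℤ) :=
    { carrier := {k | InH (dot k ξ)}
      zero_mem' := by
        simp only [Set.mem_ofPred_eq, InH, dot, nd]
        simp
      add_mem' := fun {a b} ha hb => by
        have : dot (a + b) ξ = dot a ξ + dot b ξ := by simp [dot, add_mul, sum_add_distrib]
        simp only [Set.mem_ofPred_eq, this]
        exact hH.1 _ _ ha hb
      neg_mem' := fun {a} ha => by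
        have : dot (-a) ξ = ((-1 : ℤ) : ℝ) * dot a ξ := by simp [dot]
        simp only [Set.mem_ofPred_eq, this]
        exact hH.2.1 _ _ ha }
  rcases hdich I M with ⟨q, hq, hM⟩ | ⟨κ, hκ, hM⟩
  · obtain ⟨z, y, hzy'⟩ := hzy I q ξ hq fun l => by
      have : dot (Pi.single l (q : ℤ)) ξ = q * ξ l := by simp [dot, Pi.single_apply]
      exact this ▸ hM l
    obtain ⟨q₂, hq₂, ht⟩ := htiny I ω ξ τ F δ' q z y hδ' hq hsp' hzy'
    obtain ⟨j₁, hc⟩ := hcomm I ω ξ τ F δ' q q₂ z y hQ.1 hint hδ' hq hq₂ hsp' hzy' ht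
    exact hfin I ω Φ q q₂ j₁ ξ τ σ z y hQ hint hq hq₂ hzy' ht hc
  · obtain ⟨h, hh, N, hN⟩ := hstep3 I ω ξ τ F δ' hQ.1 hint hδ' hsp' κ hM
    choose m hm using fun l => hint (Pi.single l 1) κ
    have hdot : ∀ w, dot m w = 2 * ω w (iv κ) := by
      intro w
      have h1 : w = ∑ l, w l • iv (Pi.single l (1 : ℤ)) := by
        funext i; simp [iv, Pi.single_apply]
      conv_rhs => rw [h1]
      simp only [map_sum, map_smul, LinearMap.sum_apply, LinearMap.smul_apply, smul_eq_mul,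
        mul_sum, dot]
      exact sum_congr rfl fun l _ => by rw [← hm]; ring
    by_cases hm0 : m = 0
    · refine hB I IH ω Φ ξ τ σ hQ κ hκ fun w => ?_
      have := hdot w
      rw [hm0] at this
      simp only [dot, Pi.zero_apply, Int.cast_zero, zero_mul, sum_const_zero] at this
      rw [om_swap hQ.1]
      linarith
    · exact hA I IH ω Φ ξ τ σ hQ m h N hm0 hh (by rw [hdot, hN])

theorem twoStep_of_lcs {G : Type*} [Group G] (h : (⊤ : Subgroup G).lowerCentralSeries 2 = ⊥) :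
    TwoStep G := by
  intro a b c
  have h1 : ⁅a, b⁆ ∈ (⊤ : Subgroup G).lowerCentralSeries 1 :=
    Subgroup.commutator_mem_commutator (Subgroup.mem_top a) (Subgroup.mem_top b)
  have h2 : ⁅⁅a, b⁆, c⁆ ∈ (⊤ : Subgroup G).lowerCentralSeries 2 :=
    Subgroup.commutator_mem_commutator h1 (Subgroup.mem_top c)
  rw [h, Subgroup.mem_bot] at h2
  exact commutatorElement_eq_one_iff_mul_comm.1 h2

theorem cocpt_of_compact {G : Type*} [Group G] [TopologicalSpace G] [IsTopologicalGroup G]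
    [LocallyCompactSpace G] (Γ : Subgroup G) [CompactSpace (G ⧸ Γ)] : Cocpt Γ := by
  classical
  choose K hK hK' using fun g : G => exists_compact_mem_nhds g
  obtain ⟨t, -, ht⟩ := isCompact_univ.elim_nhds_subcover
    (fun x : G ⧸ Γ => (QuotientGroup.mk : G → G ⧸ Γ) '' K x.out) fun x _ => by
      have := (QuotientGroup.isOpenMap_coe (N := Γ)).image_mem_nhds (hK' x.out)
      rwa [QuotientGroup.out_eq'] at this
  refine ⟨⋃ x ∈ t, K x.out, t.isCompact_biUnion fun x _ => hK _, fun g => ?_⟩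
  obtain ⟨x, hx, c, hc, e⟩ := Set.mem_iUnion₂.1 (ht (Set.mem_univ (g : G ⧸ Γ)))
  exact ⟨c, Set.mem_iUnion₂.2 ⟨x, hx, hc⟩, c⁻¹ * g, QuotientGroup.eq.1 e, by group⟩

theorem closed_mul {φ : ℤ → ℂ} {B : ℝ} (hB0 : 0 < B) (hB : ∀ n, ‖φ n‖ ≤ B) :
    Closed fun ψ => Good fun n => ψ n * φ n := by
  refine ⟨by simpa using closed_good.1, fun ψ ψ' h h' => ?_, fun c ψ h => ?_, fun ψ h => ?_⟩
  · simpa only [add_mul] using closed_good.2.1 _ _ h h'
  · simpa only [mul_assoc] using closed_good.2.2.1 c _ h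
  · refine closed_good.2.2.2 _ fun ε hε => ?_
    obtain ⟨ψ', h1, h2⟩ := h (ε / B) (by positivity)
    refine ⟨_, h1, fun n => ?_⟩
    rw [← sub_mul, norm_mul]
    calc ‖ψ n - ψ' n‖ * ‖φ n‖ ≤ ε / B * B := mul_le_mul (h2 n) (hB n) (norm_nonneg _) (by positivity)
      _ = ε := by field_simp

theorem nil_mem (h1 : S_lie1.{u}) (h2 : S_lie2.{u}) (he : S_exp.{u}) (hg : S_grp.{u}) (d : ℕ)
    (G : Type u) [Group G] [TopologicalSpace G] [T2Space G] [ChartedSpace (Fin d → ℝ) G]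
    [LieGroup (modelWithCornersSelf ℝ (Fin d → ℝ)) ((⊤ : ℕ∞) : WithTop ℕ∞) G] (Γ : Subgroup G)
    (hl : (⊤ : Subgroup G).lowerCentralSeries 2 = ⊥) [CompactSpace (G ⧸ Γ)]
    (P : (ℤ → ℂ) → Prop) (hP : Closed P) (hEl : ∀ ψ, Elem (Fin d) ψ → P ψ) (F : G ⧸ Γ → ℂ)
    (hF : Continuous F) (b₁ b₂ : G) (x : G ⧸ Γ) : P fun n => F ((b₁ ^ n * b₂ ^ n) • x) := by
  have := topologicalGroup_of_lieGroup (modelWithCornersSelf ℝ (Fin d → ℝ))
    ((⊤ : ℕ∞) : WithTop ℕ∞) (G := G)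
  have := ChartedSpace.locallyCompactSpace (Fin d → ℝ) G
  choose p hp1 hp2 hp3 using fun i : Fin d => h1 d G (Pi.single i 1)
  have hp0 : ∀ i, p i 0 = 1 := fun i => by
    have := hp2 i 0 0
    rw [add_zero] at this
    exact left_eq_mul.1 this
  obtain ⟨ζ, hE⟩ := he d G p (twoStep_of_lcs hl) hp1 hp2 (h2 d G p hp1 hp0 hp3)
  obtain ⟨w, rfl⟩ := QuotientGroup.mk_surjective x
  exact hg G Γ (Fin d) _ ζ (twoStep_of_lcs hl) (cocpt_of_compact Γ) hE P hP hEl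
    (fun g => F (g : G ⧸ Γ)) (hF.comp QuotientGroup.continuous_mk)
    (fun g γ hγ => by rw [QuotientGroup.mk_mul_of_mem g hγ]) b₁ b₂ w

theorem final (hC : S_C) (hprod : S_prod) (h1 : S_lie1.{u}) (h2 : S_lie2.{u}) (he : S_exp.{u})
    (hg : S_grp.{u}) (hii : S_ii.{u}) (hseq : S_seq) (hbad : S_bad) :
    ∃ a : ℕ → ℤ, Tendsto a atTop atTop ∧ GoodForNilsystems.{u} 2 2 (fun _ => a) ∧
      (∀ ψ : (Fin 2 → ℤ) → ℂ, IsNilsequence.{u} 2 2 ψ → ∃ L : ℂ, Tendsto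
        (fun N : ℕ => (N : ℂ)⁻¹ * ∑ n ∈ Finset.Icc 1 N, ψ (fun _ => a n)) atTop (𝓝 L)) ∧
      ¬ GoodForCommuting.{0} 2 (fun _ => a) := by
  obtain ⟨a, ha, hs⟩ := hseq
  refine ⟨a, ha, ?_, ?_, hbad a fun v C hv L => (hs v C hv L).1⟩
  · intro d G _ _ _ _ _ _ Γ hl hd hc _ _ m _ hm b _ f hf
    have := topologicalGroup_of_lieGroup (modelWithCornersSelf ℝ (Fin d → ℝ))
      ((⊤ : ℕ∞) : WithTop ℕ∞) (G := G)
    have : IsClosed (Γ : Set G) := Subgroup.isClosed_of_discrete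
    obtain ⟨g, hg1, hg2⟩ := hii (G ⧸ Γ) m (fun n x => b 0 ^ a n • x) (fun n x => b 1 ^ a n • x)
      (fun n => hm _) (fun n => hm _) (fun f₁ f₂ hf₁ hf₂ x => by
        obtain ⟨B₁, hB₁⟩ := isCompact_univ.exists_bound_of_continuousOn hf₁.continuousOn
        obtain ⟨B₂, hB₂⟩ := isCompact_univ.exists_bound_of_continuousOn hf₂.continuousOn
        have s1 : ∀ φ, Elem (Fin d) φ → Good fun n => φ n * f₂ (b 1 ^ n • x) := by
          intro φ hφ
          obtain ⟨B, hB0, hB⟩ := hφ.exists_bound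
          have := nil_mem h1 h2 he hg d G Γ hl _ (closed_mul hB0 hB)
            (fun ψ hψ => hC _ _ (hprod _ _ ψ φ hψ hφ)) f₂ hf₂ (b 1) 1 x
          simpa only [one_zpow, mul_one, mul_comm] using this
        have s2 := nil_mem h1 h2 he hg d G Γ hl _
          (closed_mul (φ := fun n => f₂ (b 1 ^ n • x)) (B := |B₂| + 1) (by positivity) fun n => by
            linarith [hB₂ (b 1 ^ n • x) (Set.mem_univ _), le_abs_self B₂]) s1 f₁ hf₁ (b 0) 1 x
        simp only [one_zpow, mul_one] at s2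
        obtain ⟨L, hL⟩ := s2
        refine ⟨L, (hs (fun n => f₁ (b 0 ^ n • x) * f₂ (b 1 ^ n • x)) (B₁ * B₂)
          (fun n => ?_) L).2 hL⟩
        rw [norm_mul]
        exact mul_le_mul (hB₁ _ (Set.mem_univ _)) (hB₂ _ (Set.mem_univ _)) (norm_nonneg _)
          ((norm_nonneg _).trans (hB₁ x (Set.mem_univ _)))) (f 0) (f 1) (hf 0) (hf 1)
    exact ⟨g, hg1, by simpa only [Fin.prod_univ_two] using hg2⟩
  · have hb : ∀ φ, IsBasicNilsequence.{u} 2 2 φ →
        Good (fun n => φ fun _ => n) ∧ ∃ B, ∀ n, ‖φ n‖ ≤ B := by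
      rintro φ ⟨d, G, _, _, _, _, _, _, Γ, b, x, F, hl, -, hc, hF, hφ⟩
      obtain ⟨B, hB⟩ := isCompact_univ.exists_bound_of_continuousOn hF.continuousOn
      refine ⟨?_, B, fun n => by rw [hφ]; exact hB _ (Set.mem_univ _)⟩
      have := nil_mem h1 h2 he hg d G Γ hl _ closed_good (hC _) F hF (b 0) (b 1) x
      simpa [hφ, List.ofFn_succ] using this
    intro ψ hψ
    obtain ⟨L, hL⟩ : Good fun n => ψ fun _ => n := closed_good.2.2.2 _ fun ε hε => by
      obtain ⟨φ, h3, h4⟩ := hψ ε hε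
      exact ⟨_, (hb φ h3).1, fun n => h4 _⟩
    obtain ⟨φ, h3, h4⟩ := hψ 1 one_pos
    obtain ⟨B, hB⟩ := (hb φ h3).2
    refine ⟨L, (hs (fun n => ψ fun _ => n) (1 + B) (fun n => ?_) L).2 hL⟩
    calc ‖ψ fun _ => n‖ = ‖(ψ (fun _ => n) - φ fun _ => n) + φ fun _ => n‖ := by
          rw [sub_add_cancel]
      _ ≤ 1 + B := (norm_add_le _ _).trans (add_le_add (h4 _) (hB _))

end Pool.Agent.P.MP_2957ea_an.NC
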