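import Pool.Agent.P.MP_2957ea_an.NC.PerBasic

/-!
Exponential coordinates adapted to a cocompact subgroup.
-/

namespace Pool.Agent.P.MP_2957ea_an.NC

open Finset Filter Topology Pool.Agent.P.MP_2957ea_an
open scoped BigOperators commutatorElement

universe u

namespace BasisA

variable {G : Type u} [Group G] [TopologicalSpace G] [IsTopologicalGroup G] {Γ : Subgroup G}
  {I : Type} [Fintype I] {ex : (I → ℝ) → G} {ζ : (I → ℝ) → (I → ℝ) → G}

theorem span_top (h2 : TwoStep G) (hΓ : Cocpt Γ) (h : ExpData ex ζ) :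
    Submodule.span ℝ {κ | ∃ γ ∈ Γ, ∃ z ∈ comSub ex, ex κ = γ * z} = ⊤ := by
  by_contra h1
  obtain ⟨φ, h3, h4⟩ := Submodule.exists_le_ker_of_lt_top _ (lt_top_iff_ne_top.2 h1)
  obtain ⟨w, hw⟩ := LinearMap.surjective h3 1
  obtain ⟨R, hR⟩ := h.nhd
  obtain ⟨B, hB⟩ := (isCompact_closedBall (0 : I → ℝ) R).exists_bound_of_continuousOn
    φ.continuous_of_finiteDimensional.continuousOn
  obtain ⟨C, hC, hC'⟩ := hΓ
  obtain ⟨S, -, hS⟩ := hC.elim_nhds_subcover
    (fun y => (fun g => g * y⁻¹) ⁻¹' (ex '' Metric.closedBall 0 R)) fun y _ =>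
      (continuous_mul_const y⁻¹).continuousAt.preimage_mem_nhds (by rwa [mul_inv_cancel])
  have key : ∀ t : ℕ, ∃ y : S, ∃ u, ‖φ u‖ ≤ B ∧ ∃ γ ∈ Γ, ∃ z ∈ comSub ex,
      ex ((t * (2 * |B| + 1)) • w - u) = y * γ * z := by
    intro t
    obtain ⟨c, hc, γ, hγ, e⟩ := hC' (ex ((t * (2 * |B| + 1)) • w))
    obtain ⟨y, hy, u, hu, e'⟩ := Set.mem_iUnion₂.1 (hS hc)
    refine ⟨⟨y, hy⟩, u, hB u hu, γ, hγ, _, h.mem u ((t * (2 * |B| + 1)) • w - u), ?_⟩
    rw [← mul_inv_eq_iff_eq_mul, ← h.inv_mul, e, e']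
    group
  choose y u hu γ hγ z hz e using key
  obtain ⟨t, t', h5, h6⟩ := Finite.exists_ne_map_eq_of_infinite y
  have h7 : φ (((t * (2 * |B| + 1)) • w - u t) - ((t' * (2 * |B| + 1)) • w - u t')) = 0 := by
    refine h4 (Submodule.subset_span ⟨(γ t')⁻¹ * γ t, Γ.mul_mem (Γ.inv_mem (hγ _)) (hγ _), _,
      (comSub ex).mul_mem ((comSub ex).mul_mem ((comSub ex).inv_mem (hz t')) (hz t))
        (h.mem ((t' * (2 * |B| + 1)) • w - u t')
          (((t * (2 * |B| + 1)) • w - u t) - ((t' * (2 * |B| + 1)) • w - u t'))), ?_⟩)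
    rw [← mul_assoc, ← mul_inv_eq_iff_eq_mul, ← h.inv_mul, e, e, h6, ← mul_assoc _ (z t')⁻¹,
      ← h2.central_of_mem ((comSub ex).inv_mem (hz t'))]
    group
  simp only [map_sub, map_smul, hw, smul_eq_mul, mul_one] at h7
  have h8 := abs_le.1 ((hu t).trans (le_abs_self B))
  have h9 := abs_le.1 ((hu t').trans (le_abs_self B))
  have h10 := abs_nonneg B
  rcases Nat.lt_or_gt_of_ne h5 with h11 | h11
  · have : (t : ℝ) + 1 ≤ t' := by exact_mod_cast h11
    nlinarith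
  · have : (t' : ℝ) + 1 ≤ t := by exact_mod_cast h11
    nlinarith

omit [TopologicalSpace G] [IsTopologicalGroup G] [Fintype I] in
theorem comSub_comp {ι : (I → ℝ) → I → ℝ} (hι : Function.Surjective ι) :
    comSub (ex ∘ ι) = comSub ex := by
  unfold comSub
  congr 1
  ext g
  simp only [Set.mem_ofPred_eq, Function.comp_apply]
  exact (hι.exists₂ (p := fun a b => g = ⁅ex a, ex b⁆)).symm

end BasisA

open BasisA in
theorem basis : S_basis.{u} := by
  intro G _ _ _ Γ I _ _ ex ζ h2 hΓ h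
  have h1 := span_top h2 hΓ h
  obtain ⟨f, f1, f2, f3⟩ := Submodule.exists_fun_fin_finrank_span_eq ℝ
    {κ | ∃ γ ∈ Γ, ∃ z ∈ comSub ex, ex κ = γ * z}
  have e := (Fintype.equivFinOfCardEq (α := I) (by
    rw [← Module.finrank_fintype_fun_eq_card ℝ, ← finrank_top, ← h1])).symm
  let b := (Module.Basis.mk f3 (f2.trans h1).ge).reindex e
  let ι := b.equivFun.symm.toContinuousLinearEquiv
  have hc := comSub_comp (ex := ex) ι.surjective
  refine ⟨ex ∘ ι, fun w w' => ζ (ι w) (ι w'), ⟨h.cont.comp ι.continuous,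
    h.contz.comp (ι.continuous.prodMap ι.continuous), fun w w' => ?_, fun _ _ _ => ?_,
    fun _ _ _ => ?_, fun w w' => hc ▸ h.mem _ _, ?_⟩, fun i => ?_⟩
  · simp only [Function.comp_apply, map_add, h.mul]
  · rw [map_add, h.addl]
  · rw [map_add, h.addr]
  · obtain ⟨R, hR⟩ := h.nhd
    refine ⟨‖(ι.symm : (I → ℝ) →L[ℝ] I → ℝ)‖ * R, mem_of_superset hR ?_⟩
    rintro _ ⟨w, hw, rfl⟩
    refine ⟨ι.symm w, ?_, by simp⟩
    rw [mem_closedBall_zero_iff] at hw ⊢
    exact (ι.symm : (I → ℝ) →L[ℝ] I → ℝ).le_opNorm_of_le hw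
  · have h3 : ι (Pi.single i 1) = f (e.symm i) := by simp [ι, b, Pi.single_apply]
    rw [hc, Function.comp_apply, h3]
    exact f1 _

end Pool.Agent.P.MP_2957ea_an.NC
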