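import Pool.Agent.P.MP_2957ea_an.NC.PerBasic

/-!
Continuous bicharacters come from real bilinear forms.
-/

namespace Pool.Agent.P.MP_2957ea_an.NC

open Finset Filter Topology Pool.Agent.P.MP_2957ea_an
open scoped BigOperators

theorem bichar : S_bichar := by
  intro I _ χ hc hn h1 h2
  let F : C((I → ℝ) × (I → ℝ), Circle) :=
    ⟨fun x => ⟨χ x.1 x.2, mem_sphere_zero_iff_norm.2 (hn _ _)⟩, hc.subtype_mk _⟩
  have h00 : χ 0 0 = 1 := by
    have := h1 0 0 0
    rw [add_zero] at this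
    exact (mul_eq_left₀ (norm_ne_zero_iff.1 (by rw [hn]; exact one_ne_zero))).1 this.symm
  obtain ⟨L, ⟨hL0, hL⟩, -⟩ := Circle.isCoveringMap_exp.existsUnique_continuousMap_lifts F (0, 0) 0
    (Subtype.ext (by simp [F, h00]))
  have hL' : ∀ a b, (Circle.exp (L (a, b)) : ℂ) = χ a b := fun a b =>
    congrArg Subtype.val (congrFun hL (a, b))
  have a1 : ∀ a a' b, L (a + a', b) = L (a, b) + L (a', b) := fun a a' b =>
    congrFun (Circle.isCoveringMap_exp.eq_of_comp_eq
      (g₁ := fun x : (I → ℝ) × (I → ℝ) × (I → ℝ) => L (x.1 + x.2.1, x.2.2))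
      (g₂ := fun x => L (x.1, x.2.2) + L (x.2.1, x.2.2)) (by fun_prop) (by fun_prop)
      (funext fun x => Subtype.ext (by
        simp only [Function.comp, Circle.exp_add, Circle.coe_mul, hL', h1])) (0, 0, 0)
      (by simp [hL0])) (a, a', b)
  have a2 : ∀ a b b', L (a, b + b') = L (a, b) + L (a, b') := fun a b b' =>
    congrFun (Circle.isCoveringMap_exp.eq_of_comp_eq
      (g₁ := fun x : (I → ℝ) × (I → ℝ) × (I → ℝ) => L (x.1, x.2.1 + x.2.2))
      (g₂ := fun x => L (x.1, x.2.1) + L (x.1, x.2.2)) (by fun_prop) (by fun_prop)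
      (funext fun x => Subtype.ext (by
        simp only [Function.comp, Circle.exp_add, Circle.coe_mul, hL', h2])) (0, 0, 0)
      (by simp [hL0])) (a, b, b')
  have s1 : ∀ (c : ℝ) a b, L (c • a, b) = c • L (a, b) := fun c a b =>
    map_real_smul (AddMonoidHom.mk' (fun a => L (a, b)) fun a a' => a1 a a' b)
      (show Continuous fun a => L (a, b) by fun_prop) c a
  have s2 : ∀ (c : ℝ) a b, L (a, c • b) = c • L (a, b) := fun c a b =>
    map_real_smul (AddMonoidHom.mk' (fun b => L (a, b)) fun b b' => a2 a b b')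
      (show Continuous fun b => L (a, b) by fun_prop) c b
  refine ⟨(2 * Real.pi)⁻¹ • LinearMap.mk₂ ℝ (fun a b => L (a, b)) a1 s1 a2 s2, fun a b => ?_⟩
  rw [← hL', Circle.coe_exp, ee]
  congr 2
  have : (Real.pi : ℂ) ≠ 0 := by exact_mod_cast Real.pi_ne_zero
  simp only [LinearMap.smul_apply, LinearMap.mk₂_apply, smul_eq_mul]
  push_cast
  field_simp

end Pool.Agent.P.MP_2957ea_an.NC
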