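import Mathlib
import Pool.Agent.P.MP_2957ea_an.NC.PerBasic

/-!
The finite types of the digits commute eventually.
-/

namespace Pool.Agent.P.MP_2957ea_an.NC

open Finset Filter Topology Pool.Agent.P.MP_2957ea_an
open scoped BigOperators

namespace CommA

/-- The real number is an integer. -/
def IsInt (x : ℝ) : Prop := ∃ N : ℤ, x = N

theorem IsInt.add {x y : ℝ} (hx : IsInt x) (hy : IsInt y) : IsInt (x + y) := by
  obtain ⟨a, rfl⟩ := hx; obtain ⟨b, rfl⟩ := hy; exact ⟨a + b, by push_cast; rfl⟩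

theorem IsInt.sub {x y : ℝ} (hx : IsInt x) (hy : IsInt y) : IsInt (x - y) := by
  obtain ⟨a, rfl⟩ := hx; obtain ⟨b, rfl⟩ := hy; exact ⟨a - b, by push_cast; rfl⟩

theorem IsInt.int_mul {x : ℝ} (hx : IsInt x) (n : ℤ) : IsInt (n * x) := by
  obtain ⟨a, rfl⟩ := hx; exact ⟨n * a, by push_cast; rfl⟩

theorem IsInt.zero : IsInt 0 := ⟨0, by simp⟩

theorem IsInt.sum {ι : Type*} {s : Finset ι} {f : ι → ℝ} (h : ∀ i ∈ s, IsInt (f i)) :
    IsInt (∑ i ∈ s, f i) :=
  sum_induction _ IsInt (fun _ _ => IsInt.add) IsInt.zero h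

theorem IsInt.nd_add {x y : ℝ} (hy : IsInt y) : nd (x + y) = nd x := by
  obtain ⟨b, rfl⟩ := hy; exact nd_add_int _ _

theorem isInt_of_nd {x : ℝ} {Q : ℕ} (hQ : 0 < Q) (h1 : IsInt (Q * x)) (h2 : Q * nd x < 1) :
    IsInt x := by
  obtain ⟨n, hn⟩ := h1
  have hQ' : (0 : ℝ) < Q := by exact_mod_cast hQ
  have h3 : ((n - Q * round x : ℤ) : ℝ) = Q * (x - round x) := by push_cast; rw [← hn]; ring
  have h4 : |((n - Q * round x : ℤ) : ℝ)| < 1 := by
    rw [h3, abs_mul, abs_of_pos hQ']; exact h2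
  have h5 : n - Q * round x = 0 := by
    have : |n - Q * round x| < 1 := by exact_mod_cast h4
    exact Int.abs_lt_one_iff.1 this
  rw [h5, Int.cast_zero, eq_comm, mul_eq_zero] at h3
  exact ⟨round x, by linarith [h3.resolve_left hQ'.ne']⟩

theorem sum_pairs (f : ℕ → ℝ) (h : ∀ a, f a + f (a + 1) ≤ 1) (n : ℕ) :
    ∑ u ∈ range (2 * n), f u ≤ n := by
  induction n with
  | zero => simp
  | succ n ih =>
    rw [mul_add, mul_one, sum_range_succ, sum_range_succ]
    push_cast
    linarith [h (2 * n)]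

open Classical in
theorem expect_ind_le (i : ℕ) {β : ℝ} (hβ : ¬ IsInt β) :
    𝔼 u : Fin (len i), 𝔼 u' : Fin (len i),
      (if IsInt ((((((u : ℕ) : ℤ) - ((u' : ℕ) : ℤ) : ℤ) : ℝ)) * β) then (1 : ℝ) else 0) ≤ 1 / 2 := by
  rw [expect_comm]
  refine expect_le univ_nonempty fun u' _ => ?_
  obtain ⟨n, hn⟩ : 2 ∣ len i := Dvd.dvd.trans (by norm_num) (four_dvd_len i)
  have hl : (0 : ℝ) < len i := by exact_mod_cast len_pos i
  rw [expect_eq_sum_div_card, card_univ, Fintype.card_fin, div_le_iff₀ hl,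
    Fin.sum_univ_eq_sum_range (fun u : ℕ =>
      if IsInt (((((u : ℤ) - ((u' : ℕ) : ℤ) : ℤ) : ℝ)) * β) then (1 : ℝ) else 0)]
  have h := sum_pairs (fun u : ℕ =>
      if IsInt (((((u : ℤ) - ((u' : ℕ) : ℤ) : ℤ) : ℝ)) * β) then (1 : ℝ) else 0) (fun a => by
    split_ifs with h1 h2 h2
    · refine absurd ?_ hβ
      convert h2.sub h1 using 1
      push_cast
      ring
    all_goals norm_num) n
  rw [← hn] at h
  refine h.trans (le_of_eq ?_)
  rw [hn]
  push_cast
  ring

theorem interleave {P T : ℕ → Prop} (hP : ∀ N, ∃ i, N ≤ i ∧ P i) (hT : ∀ N, ∃ j, N ≤ j ∧ T j)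
    (N₀ R : ℕ) : ∃ (A : List ℕ) (M : ℕ) (lo hi : ℕ → ℕ), A.Nodup ∧ A.length = R ∧ N₀ ≤ M ∧
      ∀ i ∈ A, P i ∧ T (lo i) ∧ T (hi i) ∧ N₀ ≤ lo i ∧ lo i < i ∧ i < hi i ∧ hi i < M ∧
        ∀ i' ∈ A, i' ≠ i → i' < lo i ∨ hi i < i' := by
  induction R with
  | zero => exact ⟨[], N₀, id, id, List.nodup_nil, rfl, le_rfl, by simp⟩
  | succ R ih =>
    obtain ⟨A, M, lo, hi, h1, h2, h3, h4⟩ := ih
    obtain ⟨a, ha, ha'⟩ := hT M
    obtain ⟨i, hi1, hi2⟩ := hP (a + 1)
    obtain ⟨b, hb, hb'⟩ := hT (i + 1)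
    have hne : ∀ x ∈ A, x ≠ i := fun x hx => by have := h4 x hx; omega
    refine ⟨i :: A, b + 1, Function.update lo i a, Function.update hi i b,
      List.nodup_cons.2 ⟨fun h => hne i h rfl, h1⟩, by simp [h2], by omega, fun x hx => ?_⟩
    rcases List.mem_cons.1 hx with rfl | hx
    · simp only [Function.update_self]
      refine ⟨hi2, ha', hb', by omega, by omega, by omega, by omega, fun i' hi' hne' => ?_⟩
      have := h4 i' ((List.mem_cons.1 hi').resolve_left hne')
      omega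
    · rw [Function.update_of_ne (hne x hx), Function.update_of_ne (hne x hx)]
      obtain ⟨c1, c2, c3, c4, c5, c6, c7, c8⟩ := h4 x hx
      refine ⟨c1, c2, c3, c4, c5, c6, by omega, fun i' hi' hne' => ?_⟩
      rcases List.mem_cons.1 hi' with rfl | hi'
      · omega
      · exact c8 i' hi' hne'

theorem nd_mul_pos {q₂ j n : ℕ} (hq₂ : 0 < q₂) (hd : q₂ ∣ pos j) (hjn : j ≤ n) {d : ℤ} {m : ℕ}
    (hm : m ≤ n) (hdm : |(d : ℝ)| ≤ len m) (θ : ℝ) :
    nd (d * (pos j * (2 * θ))) ≤ (pos n : ℝ) * (len n : ℝ) ^ 2 * nd (2 * (q₂ : ℝ) * θ) := by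
  obtain ⟨b, hb⟩ := hd
  have h1 : (d : ℝ) * (pos j * (2 * θ)) = ((d * b : ℤ) : ℝ) * (2 * (q₂ : ℝ) * θ) := by
    rw [hb]; push_cast; ring
  rw [h1]
  refine (nd_int_mul_le _ _).trans (mul_le_mul_of_nonneg_right ?_ (nd_nonneg _))
  have h2 : (b : ℝ) ≤ pos n := by
    have : b ≤ pos n := le_trans (hb ▸ Nat.le_mul_of_pos_left b hq₂) (pos_mono hjn)
    exact_mod_cast this
  have h3 : (len m : ℝ) ≤ len n := by exact_mod_cast len_mono hm
  have h4 : (1 : ℝ) ≤ len n := by exact_mod_cast len_pos n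
  push_cast
  rw [abs_mul, Nat.abs_cast]
  calc |(d : ℝ)| * b ≤ len n * pos n := by gcongr; linarith
    _ ≤ _ := by nlinarith [mul_nonneg (Nat.cast_nonneg (α := ℝ) (len n)) (Nat.cast_nonneg (pos n))]

end CommA

open CommA in
theorem comm (hmu : S_mu) : S_comm := by
  intro I _ ω ξ τ F δ q q₂ z y halt hint hδ hq hq₂ hsp hzy htiny
  classical
  obtain ⟨hz, hξ, hsum⟩ := hzy
  choose kz hkz using hz
  have hq' : (0 : ℝ) < q := by exact_mod_cast hq
  have : NeZero (q ^ 2) := ⟨by positivity⟩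
  set ty : ℕ → I → ZMod (q ^ 2) := fun j l => (kz j l : ZMod (q ^ 2)) with hty
  have same : ∀ j j', ty j = ty j' → ∃ m : I → ℤ, z j - z j' = (q : ℝ) • iv m := by
    intro j j' h
    have h1 : ∀ l, ((q ^ 2 : ℕ) : ℤ) ∣ kz j l - kz j' l := fun l =>
      (ZMod.intCast_eq_intCast_iff_dvd_sub _ _ _).1 (congrFun h l).symm
    choose m hm using h1
    refine ⟨m, funext fun l => ?_⟩
    have a1 : (q : ℝ) * z j l = kz j l := congrFun (hkz j) l
    have a2 : (q : ℝ) * z j' l = kz j' l := congrFun (hkz j') l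
    have a3 : (kz j l : ℝ) - kz j' l = (q : ℝ) ^ 2 * m l := by exact_mod_cast hm l
    apply mul_left_cancel₀ hq'.ne'
    simp only [Pi.sub_apply, Pi.smul_apply, smul_eq_mul, iv]
    linarith
  have sameInt : ∀ j j', ty j = ty j' → ∀ (v : I → ℝ) (kv : I → ℤ), (q : ℝ) • v = iv kv →
      IsInt (2 * ω v (z j) - 2 * ω v (z j')) := by
    intro j j' h v kv hv
    obtain ⟨m, hm⟩ := same j j' h
    obtain ⟨N, hN⟩ := hint kv m
    refine ⟨N, ?_⟩
    rw [← hN, ← hv, ← mul_sub, ← map_sub, hm, map_smul, map_smul, LinearMap.smul_apply]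
  have sameDot : ∀ j j', ty j = ty j' → ∀ k, IsInt (dot k (z j) - dot k (z j')) := by
    intro j j' h k
    obtain ⟨m, hm⟩ := same j j' h
    rw [← dot_sub, hm, dot_smul, dot_iv]
    exact ⟨q * ∑ l, k l * m l, by push_cast; rfl⟩
  by_contra hcon
  have hbad : ∀ N, ∃ i j, N ≤ i ∧ N ≤ j ∧ ¬ IsInt (2 * ω (z i) (z j)) := by
    intro N
    by_contra h
    push Not at h
    exact hcon ⟨N, fun i j hi hj => h i j hi hj⟩
  choose bi bj hbi hbj hb using hbad
  obtain ⟨Bt, hBt⟩ := Finite.exists_infinite_fiber fun n => ty (bj n)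
  have hfib : ∀ N, ∃ n, N ≤ n ∧ ty (bj n) = Bt := fun N => by
    obtain ⟨n, h1, h2⟩ := (Set.infinite_coe_iff.1 hBt).exists_gt N
    exact ⟨n, h2.le, h1⟩
  have hT : ∀ N, ∃ j, N ≤ j ∧ ty j = Bt := fun N => by
    obtain ⟨n, h1, h2⟩ := hfib N
    exact ⟨bj n, h1.trans (hbj n), h2⟩
  have hP : ∀ N, ∃ i, N ≤ i ∧ ∀ j, ty j = Bt → ¬ IsInt (2 * ω (z i) (z j)) := fun N => by
    obtain ⟨n, h1, h2⟩ := hfib N
    refine ⟨bi n, h1.trans (hbi n), fun j hj h => hb n ?_⟩
    simpa using (sameInt (bj n) j (h2.trans hj.symm) _ _ (hkz (bi n))).add h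
  obtain ⟨R, hR⟩ := exists_pow_lt_of_lt_one hδ (by norm_num : (1 / 2 : ℝ) < 1)
  obtain ⟨C, hC, hω⟩ := exists_bound_om ω
  set CF : ℝ := ∑ k ∈ F, ∑ l, |(k l : ℝ)| with hCF
  have hCF0 : 0 ≤ CF := sum_nonneg fun _ _ => sum_nonneg fun _ _ => abs_nonneg _
  have hdot : ∀ k ∈ F, ∀ v : I → ℝ, |dot k v| ≤ CF * ‖v‖ := by
    intro k hk v
    calc |dot k v| ≤ ∑ l, |(k l : ℝ)| * ‖v‖ := by
          refine (abs_sum_le_sum_abs _ _).trans (sum_le_sum fun l _ => ?_)
          rw [abs_mul]
          gcongr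
          exact norm_le_pi_norm v l
      _ ≤ CF * ‖v‖ := by
          rw [← sum_mul]
          gcongr
          exact single_le_sum (f := fun k : I → ℤ => ∑ l, |(k l : ℝ)|)
            (fun _ _ => sum_nonneg fun _ _ => abs_nonneg _) hk
  set D : ℝ := 1 + R * (1 + 2 * C) + 4 * C + CF with hD
  have hD0 : 0 < D := by positivity
  set η : ℝ := min (1 / (R + 1)) (1 / (4 * D * (q : ℝ) ^ 2)) with hη
  have hη0 : 0 < η := lt_min (by positivity) (by positivity)
  have hη1 : (R + 1) * η ≤ 1 := by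
    have := min_le_left (1 / ((R : ℝ) + 1)) (1 / (4 * D * (q : ℝ) ^ 2))
    rwa [← hη, le_div_iff₀ (by positivity), mul_comm] at this
  have hη2 : 4 * D * (q : ℝ) ^ 2 * η ≤ 1 := by
    have := min_le_right (1 / ((R : ℝ) + 1)) (1 / (4 * D * (q : ℝ) ^ 2))
    rwa [← hη, le_div_iff₀ (by positivity), mul_comm] at this
  have hη3 : η ≤ 1 := by nlinarith [Nat.cast_nonneg (α := ℝ) R]
  have ev1 := htiny.tendsto_atTop_zero.eventually (ge_mem_nhds hη0)
  have ev2 := hsum.tendsto_atTop_zero.eventually (ge_mem_nhds (pow_pos hη0 2))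
  have ev3 := tendsto_len.eventually_ge_atTop (1 / (δ * η))
  obtain ⟨N₀, hN₀⟩ := eventually_atTop.1 ((ev1.and ev2).and (ev3.and (eventually_ge_atTop q₂)))
  have hy : ∀ j, N₀ ≤ j → (len j : ℝ) * ‖y j‖ ≤ η := by
    intro j hj
    have h1 := (hN₀ j hj).1.2
    have hl : (0 : ℝ) < len j := by exact_mod_cast len_pos j
    rw [mul_comm, ← le_div_iff₀ hl, pi_norm_le_iff_of_nonneg (by positivity)]
    intro l
    rw [le_div_iff₀ hl, Real.norm_eq_abs]
    refine abs_le_of_sq_le_sq' ?_ hη0.le |>.2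
    have h2 : y j l ^ 2 ≤ ∑ l, y j l ^ 2 :=
      single_le_sum (f := fun l => y j l ^ 2) (fun _ _ => sq_nonneg _) (mem_univ l)
    rw [mul_pow, sq_abs]
    nlinarith [sq_nonneg (len j : ℝ)]
  have hy' : ∀ j, N₀ ≤ j → ‖y j‖ ≤ η := fun j hj =>
    le_trans (le_mul_of_one_le_left (norm_nonneg _) (by exact_mod_cast len_pos j)) (hy j hj)
  obtain ⟨A, M, lo, hi, hA1, hA2, -, hA⟩ := interleave hP hT N₀ R
  obtain ⟨K, hK, hsp'⟩ := hsp M
  have hcard : A.toFinset.card = R := by rw [List.toFinset_card_of_nodup hA1, hA2]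
  have hmain : ∀ s s' : Box A, GoodH ω ξ τ F δ K (val A s - val A s') → ∀ i ∈ A,
      IsInt (((dg A s i - dg A s' i : ℤ) : ℝ) * (2 * ω (z i) (z (hi i)))) := by
    rintro s s' ⟨k, hk, hg⟩ i hiA
    set h := val A s - val A s' with hh
    set d : ℕ → ℤ := fun i => dg A s i - dg A s' i with hd
    have hdl : ∀ i, |(d i : ℝ)| ≤ len i := fun i => by
      simp only [hd]; push_cast; exact abs_dg_sub_le A s s' i
    have hh' : (h : ℝ) = ∑ i ∈ A.toFinset, (d i : ℝ) * pos i := by
      rw [hh, val_eq_sum hA1, val_eq_sum hA1, ← sum_sub_distrib]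
      push_cast
      exact sum_congr rfl fun i _ => by simp only [hd]; push_cast; ring
    set κ : I → ℤ := fun l => ⌊(h : ℝ) * ξ l⌋ with hκ
    set zb : I → ℝ := ∑ i ∈ A.toFinset, (d i : ℝ) • z i - iv κ with hzb
    have hzq : (q : ℝ) • zb = iv (∑ i ∈ A.toFinset, d i • kz i - (q : ℤ) • κ) := by
      funext l
      have : ∀ i, (q : ℝ) * z i l = kz i l := fun i => congrFun (hkz i) l
      simp only [hzb, iv, Pi.smul_apply, Pi.sub_apply, Finset.sum_apply, smul_eq_mul, mul_sub,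
        mul_sum]
      push_cast
      congr 1
      exact sum_congr rfl fun i _ => by rw [← this i]; ring
    have hmem : ∀ i ∈ A.toFinset, N₀ ≤ i := fun i hi => by
      have := hA i (List.mem_toFinset.1 hi); omega
    have hzn : ‖zb‖ ≤ 2 := by
      have e1 : zb = ((h : ℝ) • ξ - iv κ) - ∑ i ∈ A.toFinset, (d i : ℝ) • y i := by
        rw [hh', sum_smul]
        simp only [mul_smul, hξ, smul_add, sum_add_distrib, hzb]
        abel
      have e2 : ‖(h : ℝ) • ξ - iv κ‖ ≤ 1 := by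
        rw [pi_norm_le_iff_of_nonneg zero_le_one]
        intro l
        have a1 := Int.floor_le ((h : ℝ) * ξ l)
        have a2 := Int.lt_floor_add_one ((h : ℝ) * ξ l)
        simp only [Pi.sub_apply, Pi.smul_apply, smul_eq_mul, iv, hκ, Real.norm_eq_abs]
        rw [abs_le]
        constructor <;> linarith
      have e3 : ‖∑ i ∈ A.toFinset, (d i : ℝ) • y i‖ ≤ R * η := by
        refine (norm_sum_le _ _).trans ?_
        rw [← hcard, ← nsmul_eq_mul]
        refine sum_le_card_nsmul _ _ _ fun i hi => ?_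
        rw [norm_smul, Real.norm_eq_abs]
        exact le_trans (by gcongr; exact hdl i) (hy i (hmem i hi))
      rw [e1]
      nlinarith [norm_sub_le ((h : ℝ) • ξ - iv κ) (∑ i ∈ A.toFinset, (d i : ℝ) • y i)]
    have hfr : fr ω ξ τ h k = ∑ i ∈ A.toFinset, (d i : ℝ) * (2 * th ω ξ τ z i) +
        (dot k ξ - 2 * ω zb ξ) := by
      have e1 : ω zb ξ = ∑ i ∈ A.toFinset, (d i : ℝ) * ω (z i) ξ - ω (iv κ) ξ := by
        simp only [hzb, map_sub, map_sum, map_smul, LinearMap.sub_apply, LinearMap.sum_apply,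
          LinearMap.smul_apply, smul_eq_mul]
      have e2 : ∑ i ∈ A.toFinset, (d i : ℝ) * (2 * th ω ξ τ z i) =
          2 * (τ * h) + 2 * ∑ i ∈ A.toFinset, (d i : ℝ) * ω (z i) ξ := by
        rw [hh', mul_sum, mul_sum, mul_sum, ← sum_add_distrib]
        exact sum_congr rfl fun i _ => by unfold th; ring
      rw [e2, e1, fr]
      ring
    set T : ℕ → ℕ → ℝ := fun i j => if i < j then (d i : ℝ) * (2 * ω (z i) (z j)) else 0 with hT'
    have hM : ∀ j, N₀ ≤ j → j < K → nd (∑ i ∈ A.toFinset, T i j +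
        (dot k (z j) - 2 * ω zb (z j))) ≤ η * D := by
      intro j hj hjK
      have hl : (0 : ℝ) < len j := by exact_mod_cast len_pos j
      have a1 : nd (pos j * fr ω ξ τ h k) ≤ η := by
        have b1 : δ ≤ ‖mu j (pos j * fr ω ξ τ h k)‖ := by
          refine hg.trans ?_
          rw [← mul_prod_erase _ _ (mem_range.2 hjK)]
          exact mul_le_of_le_one_right (norm_nonneg _)
            (prod_le_one (fun _ _ => norm_nonneg _) fun i _ => (hmu _ _).1)
        have b2 := (hmu j (pos j * fr ω ξ τ h k)).2.1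
        have b3 := (hN₀ j hj).2.1
        rw [div_le_iff₀ (by positivity)] at b3
        have b4 := nd_nonneg (pos j * fr ω ξ τ h k)
        have b5 : δ * (2 * len j * nd (pos j * fr ω ξ τ h k)) ≤ 1 := le_trans (by gcongr) b2
        by_contra b6
        have : δ * len j * η ≤ δ * len j * nd (pos j * fr ω ξ τ h k) := by gcongr; linarith
        nlinarith [mul_pos (mul_pos hδ hl) hη0]
      have a2 : ∀ i ∈ A.toFinset,
          nd (T i j - (d i : ℝ) * (pos j * (2 * th ω ξ τ z i))) ≤ η * (1 + 2 * C) := by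
        intro i hi
        have hi0 := hmem i hi
        simp only [hT']
        split_ifs with hij
        · have b1 : (pos j : ℝ) * th ω ξ τ z i - pos i * th ω ξ τ z j =
              ω (z i) (z j) - ω (y i) (y j) := by
            have c1 : (pos j : ℝ) * ω (z i) ξ = ω (z i) (z j) + ω (z i) (y j) := by
              rw [← smul_eq_mul, ← map_smul, hξ, map_add]
            have c2 : (pos i : ℝ) * ω (z j) ξ = ω (z j) (z i) + ω (z j) (y i) := by
              rw [← smul_eq_mul, ← map_smul, hξ, map_add]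
            have c3 : ω (z i + y i) (z j + y j) = 0 := by
              rw [← hξ, ← hξ]; simp [halt]
            simp only [map_add, LinearMap.add_apply] at c3
            have c4 := om_swap halt (z j) (z i)
            have c5 := om_swap halt (z j) (y i)
            unfold th
            linarith
          have b2 : (d i : ℝ) * (2 * ω (z i) (z j)) - d i * (pos j * (2 * th ω ξ τ z i)) =
              d i * (2 * ω (y i) (y j)) - d i * (pos i * (2 * th ω ξ τ z j)) := by
            linear_combination (-2 * (d i : ℝ)) * b1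
          have b3 := (nd_mul_pos hq₂ (dvd_pos hq₂ (hN₀ i hi0).2.2) hij.le hij.le (hdl i)
            (th ω ξ τ z j)).trans (hN₀ j hj).1.1
          have b4 : |(d i : ℝ) * (2 * ω (y i) (y j))| ≤ η * (2 * C) := by
            rw [abs_mul, abs_mul, abs_two]
            calc |(d i : ℝ)| * (2 * |ω (y i) (y j)|) ≤ len i * (2 * (C * ‖y i‖ * ‖y j‖)) := by
                  gcongr
                  · exact hdl i
                  · exact hω _ _
              _ = (len i * ‖y i‖) * (2 * C) * ‖y j‖ := by ring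
              _ ≤ η * (2 * C) * 1 := by
                  gcongr
                  · exact hy i hi0
                  · exact (hy' j hj).trans hη3
              _ = _ := mul_one _
          rw [b2]
          linarith [nd_sub_le ((d i : ℝ) * (2 * ω (y i) (y j)))
            (d i * (pos i * (2 * th ω ξ τ z j))), nd_le_abs ((d i : ℝ) * (2 * ω (y i) (y j)))]
        · have b3 := (nd_mul_pos hq₂ (dvd_pos hq₂ (hN₀ j hj).2.2) (not_lt.1 hij) le_rfl (hdl i)
            (th ω ξ τ z i)).trans (hN₀ i hi0).1.1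
          rw [zero_sub, nd_neg]
          nlinarith [mul_pos hη0 hC]
      have a3 : nd (∑ i ∈ A.toFinset, (T i j - (d i : ℝ) * (pos j * (2 * th ω ξ τ z i)))) ≤
          R * (η * (1 + 2 * C)) := by
        refine (nd_sum_le _ _).trans ?_
        rw [← hcard, ← nsmul_eq_mul]
        exact sum_le_card_nsmul _ _ _ a2
      have a4 : |2 * ω zb (y j) - dot k (y j)| ≤ η * (4 * C + CF) := by
        have b1 : |ω zb (y j)| ≤ C * 2 * η := (hω _ _).trans (by gcongr; exact hy' j hj)
        have b2 : |dot k (y j)| ≤ CF * η := (hdot k hk _).trans (by gcongr; exact hy' j hj)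
        refine (abs_sub _ _).trans ?_
        rw [abs_mul, abs_two]
        linarith
      have a5 : ∑ i ∈ A.toFinset, T i j + (dot k (z j) - 2 * ω zb (z j)) =
          pos j * fr ω ξ τ h k +
            ∑ i ∈ A.toFinset, (T i j - (d i : ℝ) * (pos j * (2 * th ω ξ τ z i))) +
            (2 * ω zb (y j) - dot k (y j)) := by
        have c1 : (pos j : ℝ) * ω zb ξ = ω zb (z j) + ω zb (y j) := by
          rw [← smul_eq_mul, ← map_smul, hξ, map_add]
        have c2 : (pos j : ℝ) * dot k ξ = dot k (z j) + dot k (y j) := by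
          rw [← dot_smul, hξ, dot_add]
        have c3 : (pos j : ℝ) * ∑ i ∈ A.toFinset, (d i : ℝ) * (2 * th ω ξ τ z i) =
            ∑ i ∈ A.toFinset, (d i : ℝ) * (pos j * (2 * th ω ξ τ z i)) := by
          rw [mul_sum]; exact sum_congr rfl fun i _ => by ring
        rw [hfr, sum_sub_distrib, mul_add, c3]
        linarith
      rw [a5]
      refine (nd_add_le _ _).trans ((add_le_add ((nd_add_le _ _).trans (add_le_add a1 a3))
        ((nd_le_abs _).trans a4)).trans (le_of_eq ?_))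
      rw [hD]; ring
    obtain ⟨-, t1, t2, c4, c5, c6, c7, c8⟩ := hA i hiA
    have m1 := hM (lo i) c4 (by omega)
    have m2 := hM (hi i) (by omega) (by omega)
    have tt' : ty (hi i) = ty (lo i) := t2.trans t1.symm
    have i1 : IsInt (∑ i' ∈ A.toFinset.erase i, (T i' (hi i) - T i' (lo i))) := by
      refine IsInt.sum fun i' hi' => ?_
      obtain ⟨e1, e2⟩ := mem_erase.1 hi'
      simp only [hT']
      rcases c8 i' (List.mem_toFinset.1 e2) e1 with e3 | e3
      · rw [if_pos (by omega), if_pos e3, ← mul_sub]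
        exact (sameInt _ _ tt' _ _ (hkz i')).int_mul _
      · rw [if_neg (by omega), if_neg (by omega), sub_self]
        exact IsInt.zero
    have i2 := (i1.add (sameDot _ _ tt' k)).sub (sameInt _ _ tt' _ _ hzq)
    have i3 := nd_sub_le (∑ i' ∈ A.toFinset, T i' (hi i) + (dot k (z (hi i)) - 2 * ω zb (z (hi i))))
      (∑ i' ∈ A.toFinset, T i' (lo i) + (dot k (z (lo i)) - 2 * ω zb (z (lo i))))
    have i4 : (∑ i' ∈ A.toFinset, T i' (hi i) + (dot k (z (hi i)) - 2 * ω zb (z (hi i)))) -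
        (∑ i' ∈ A.toFinset, T i' (lo i) + (dot k (z (lo i)) - 2 * ω zb (z (lo i)))) =
        (d i : ℝ) * (2 * ω (z i) (z (hi i))) +
          (∑ i' ∈ A.toFinset.erase i, (T i' (hi i) - T i' (lo i)) +
            (dot k (z (hi i)) - dot k (z (lo i))) -
            (2 * ω zb (z (hi i)) - 2 * ω zb (z (lo i)))) := by
      have e := List.mem_toFinset.2 hiA
      rw [← add_sum_erase _ (fun i' => T i' (hi i)) e, ← add_sum_erase _ (fun i' => T i' (lo i)) e,
        sum_sub_distrib]
      simp only [hT']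
      rw [if_pos c6, if_neg (by omega)]
      ring
    rw [i4, i2.nd_add] at i3
    refine isInt_of_nd (Q := q ^ 2) (by positivity) ?_ ?_
    · obtain ⟨N, hN⟩ := hint (kz i) (kz (hi i))
      refine ⟨d i * N, ?_⟩
      rw [← hkz, ← hkz] at hN
      simp only [map_smul, LinearMap.smul_apply, smul_eq_mul] at hN
      push_cast
      rw [← hN]
      simp only [hd]
      push_cast
      ring
    · push_cast at i3 ⊢
      simp only [hd] at i3
      push_cast at i3
      have : (q : ℝ) ^ 2 * nd (((dg A s i : ℝ) - dg A s' i) * (2 * ω (z i) (z (hi i)))) ≤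
          (q : ℝ) ^ 2 * (2 * (η * D)) := by gcongr; linarith
      nlinarith
  have h1 := hsp' A hA1 fun i hi => by have := hA i hi; omega
  have h2 : pr A (GoodH ω ξ τ F δ K) ≤ (1 / 2) ^ R := by
    have e := expect_prod_dg (R := ℝ) hA1 fun i u u' =>
      if IsInt (((u - u' : ℤ) : ℝ) * (2 * ω (z i) (z (hi i)))) then 1 else 0
    calc pr A (GoodH ω ξ τ F δ K) ≤ _ := ?_
      _ = _ := e
      _ ≤ ∏ _i ∈ A.toFinset, (1 / 2 : ℝ) := ?_
      _ = (1 / 2) ^ R := by rw [prod_const, hcard]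
    · unfold pr
      refine expect_le_expect fun s _ => expect_le_expect fun s' _ => ?_
      split_ifs with hg
      · exact (prod_eq_one fun i hi => if_pos (hmain s s' hg i (List.mem_toFinset.1 hi))).ge
      · exact prod_nonneg fun i _ => by split_ifs <;> norm_num
    · refine prod_le_prod (fun i _ => expect_nonneg fun u _ => expect_nonneg fun u' _ => ?_)
        fun i hi => ?_
      · split_ifs <;> norm_num
      · have := hA i (List.mem_toFinset.1 hi)
        convert expect_ind_le i (this.1 _ this.2.2.1)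
  linarith

end Pool.Agent.P.MP_2957ea_an.NC
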