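import Pool.Agent.P.MP_2957ea_an.NC.PerBasic

/-!
A subgroup of `ℤ^I` has finite index or is orthogonal to a nonzero integer vector.
-/

namespace Pool.Agent.P.MP_2957ea_an.NC

open Finset Filter Topology Pool.Agent.P.MP_2957ea_an
open scoped BigOperators

namespace DichA

theorem clear {I : Type} (M : AddSubgroup (I → ℤ)) {v : I → ℚ}
    (hv : v ∈ Submodule.span ℚ ((fun (k : I → ℤ) l => (k l : ℚ)) '' (M : Set (I → ℤ)))) :
    ∃ q : ℕ, 0 < q ∧ ∃ k ∈ M, ∀ l, (k l : ℚ) = q * v l := by
  induction hv using Submodule.span_induction with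
  | mem x hx =>
    obtain ⟨k, hk, rfl⟩ := hx
    exact ⟨1, one_pos, k, hk, fun l => by simp⟩
  | zero => exact ⟨1, one_pos, 0, M.zero_mem, fun l => by simp⟩
  | add x y _ _ hx hy =>
    obtain ⟨q, hq, k, hk, e⟩ := hx
    obtain ⟨q', hq', k', hk', e'⟩ := hy
    refine ⟨q * q', by positivity, q' • k + q • k', M.add_mem (M.nsmul_mem hk _)
      (M.nsmul_mem hk' _), fun l => ?_⟩
    rw [Pi.add_apply, Pi.smul_apply, Pi.smul_apply, nsmul_eq_mul, nsmul_eq_mul]
    push_cast
    rw [e, e', Pi.add_apply]; ring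
  | smul a x _ hx =>
    obtain ⟨q, hq, k, hk, e⟩ := hx
    refine ⟨q * a.den, mul_pos hq a.den_pos, a.num • k, M.zsmul_mem hk _, fun l => ?_⟩
    simp only [Pi.smul_apply, smul_eq_mul]
    push_cast
    rw [e, ← Rat.mul_den_eq_num]; ring

end DichA

theorem dich : S_dich := by
  intro I _ _ M
  by_cases h : ∀ l, (Pi.single l (1 : ℚ) : I → ℚ) ∈
      Submodule.span ℚ ((fun (k : I → ℤ) l => (k l : ℚ)) '' (M : Set (I → ℤ)))
  · left
    choose q hq k hk e using fun l => DichA.clear M (h l)
    refine ⟨∏ l, q l, prod_pos fun l _ => hq l, fun l => ?_⟩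
    obtain ⟨c, hc⟩ : q l ∣ ∏ l, q l := dvd_prod_of_mem _ (mem_univ l)
    have : (Pi.single l ((∏ l, q l : ℕ) : ℤ) : I → ℤ) = c • k l := by
      funext j
      apply Int.cast_injective (α := ℚ)
      rw [Pi.smul_apply, nsmul_eq_mul, hc]
      push_cast
      rw [e]
      by_cases hj : j = l
      · subst hj; simp [mul_comm]
      · simp [hj]
    rw [this]
    exact M.nsmul_mem (hk l) _
  · right
    obtain ⟨l₀, hl₀⟩ := not_forall.1 h
    obtain ⟨φ, hφ, hφ'⟩ := Submodule.exists_le_ker_of_notMem hl₀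
    obtain ⟨q, hq, κ, -, e⟩ := DichA.clear (⊤ : AddSubgroup (I → ℤ))
      (v := fun l => φ (Pi.single l 1)) (by
        rw [pi_eq_sum_univ' (fun l => φ (Pi.single l 1))]
        refine Submodule.sum_mem _ fun l _ => Submodule.smul_mem _ _
          (Submodule.subset_span ⟨Pi.single l 1, trivial, ?_⟩)
        funext j
        by_cases hj : j = l <;> simp [hj])
    refine ⟨κ, fun h0 => ?_, fun k hk => ?_⟩
    · have := e l₀
      rw [h0] at this
      exact mul_ne_zero (a := (q : ℚ)) (by exact_mod_cast hq.ne') hφ (by simpa using this.symm)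
    · apply Int.cast_injective (α := ℚ)
      have h1 : φ (fun l => (k l : ℚ)) = 0 := hφ' (Submodule.subset_span ⟨k, hk, rfl⟩)
      rw [LinearMap.pi_apply_eq_sum_univ] at h1
      push_cast
      simp only [e]
      have h2 : ∀ l : I, (fun j => if l = j then (1 : ℚ) else 0) = Pi.single l 1 := fun l => by
        funext j; simp [Pi.single_apply, eq_comm]
      simp only [h2, smul_eq_mul] at h1
      rw [← mul_zero (q : ℚ), ← h1, mul_sum]
      exact sum_congr rfl fun l _ => by ring

end Pool.Agent.P.MP_2957ea_an.NC
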