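import Pool.Agent.P.MP_2957ea_an.NC.PerBasic

namespace Pool.Agent.P.MP_2957ea_an.NC

open Finset Filter Topology Pool.Agent.P.MP_2957ea_an
open scoped BigOperators

namespace EigA

theorem geom {N k : ℕ} (h0 : 0 < k) (hk : k < N) :
    ∑ l : Fin N, ee (-(k : ℝ) * (l : ℕ) / N) = 0 := by
  have hN : (N : ℝ) ≠ 0 := by
    have : N ≠ 0 := by omega
    exact_mod_cast this
  have e : ∀ l : ℕ, ee (-(k : ℝ) * l / N) = ee (-(k : ℝ) / N) ^ l := fun l => by
    rw [← zpow_natCast, ← ee_int_mul]
    congr 1; push_cast; ring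
  have h1 : ee (-(k : ℝ) / N) ≠ 1 := fun h => by
    obtain ⟨n, hn⟩ := Complex.exp_eq_one_iff.1 h
    have h2 : ((-(k : ℝ) / N : ℝ) : ℂ) = n := by
      apply mul_left_cancel₀ Complex.two_pi_I_ne_zero
      linear_combination hn
    have h3 : -(k : ℝ) / N = n := by exact_mod_cast h2
    rw [div_eq_iff hN] at h3
    have h4 : -(k : ℤ) = n * N := by exact_mod_cast h3
    rcases le_or_gt 0 n with h5 | h5
    · have := mul_nonneg h5 (Int.natCast_nonneg N)
      omega
    · have : n * N ≤ -1 * N := mul_le_mul_of_nonneg_right (by omega) (Int.natCast_nonneg N)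
      omega
  have h2 : ee (-(k : ℝ) / N) ^ N = 1 := by
    rw [← e, mul_div_assoc, div_self hN, mul_one, ← Int.cast_natCast, ← Int.cast_neg, ee_int]
  simp only [e]
  rw [Fin.sum_univ_eq_sum_range (fun l => ee (-(k : ℝ) / N) ^ l), geom_sum_eq h1, h2, sub_self,
    zero_div]

end EigA

open EigA in
theorem eig : S_eig := by
  intro I _ ω Φ P z N halt hΦ hN hP hz hint
  obtain ⟨c, hc, hz⟩ := hz
  obtain ⟨t, rfl⟩ := exists_ee hc
  have hN' : (N : ℝ) ≠ 0 := by exact_mod_cast hN.ne'
  have hN'' : (N : ℂ) ≠ 0 := by exact_mod_cast hN.ne'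
  let a : ℕ → ℕ → (I → ℝ) → ℂ := fun l k w =>
    ee (-(k : ℝ) * ((t + l) / N) - k * ω z w) * Φ (w + (k : ℝ) • z)
  have a0 : ∀ l w, a l 0 w = Φ w := fun l w => by simp [a, ee_zero]
  have aN : ∀ l w, a l N w = Φ w := fun l w => by
    simp only [a, hz, map_smul, LinearMap.smul_apply, smul_eq_mul]
    rw [← mul_assoc, ← ee_add, ← ee_add]
    have : -(N : ℝ) * ((t + l) / N) - N * ω z w + (t + N * ω z w) = ((-(l : ℤ) : ℤ) : ℝ) := by
      push_cast; field_simp; ring
    rw [this, ee_int, one_mul]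
  refine ⟨fun l w => (N : ℂ)⁻¹ * ∑ k ∈ range N, a l k w, fun l => ?_, fun w => ?_,
    fun l => ⟨fun p hp => ?_, ?_⟩⟩
  · refine continuous_const.mul (continuous_finsetSum _ fun k _ => Continuous.mul ?_ ?_)
    · exact continuous_ee'.comp (continuous_const.sub (continuous_const.mul
        (continuous_om₂ ω continuous_const continuous_id)))
    · exact hΦ.comp (continuous_id.add continuous_const)
  · rw [← mul_sum, sum_comm, sum_eq_single 0]
    · simp [a0, hN'']
    · intro k hk h0
      have e : ∀ l : Fin N, a l k w = ee (-(k : ℝ) * (l : ℕ) / N) *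
          (ee (-(k : ℝ) * (t / N) - k * ω z w) * Φ (w + (k : ℝ) • z)) := fun l => by
        simp only [a]
        rw [← mul_assoc, ← ee_add]
        congr 2; ring
      simp only [e]
      rw [← sum_mul, geom (Nat.pos_of_ne_zero h0) (mem_range.1 hk), zero_mul]
    · intro h
      exact absurd (mem_range.2 hN) h
  · obtain ⟨c, hc, h⟩ := hP p hp
    obtain ⟨n, hn⟩ := hint p hp
    refine ⟨c, hc, fun w => ?_⟩
    have e : ∀ k : ℕ, a l k (w + p) = c * ee (ω p w) * a l k w := fun k => by
      simp only [a]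
      rw [add_right_comm, h]
      have e1 : ee (-(k : ℝ) * ((t + l) / N) - k * ω z (w + p)) * ee (ω p (w + (k : ℝ) • z)) =
          ee (ω p w) * ee (-(k : ℝ) * ((t + l) / N) - k * ω z w) := by
        rw [← ee_add, ← ee_add, ← ee_add_int _ (k * n)]
        congr 1
        simp only [map_add, map_smul, smul_eq_mul, om_swap halt p z]
        push_cast
        rw [← hn]; ring
      linear_combination c * Φ (w + (k : ℝ) • z) * e1
    simp only [e, ← mul_sum]
    ring
  · refine ⟨ee ((t + l) / N), norm_ee _, fun w => ?_⟩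
    have e : ∀ k : ℕ, a l k (w + z) = ee ((t + l) / N) * ee (ω z w) * a l (k + 1) w := fun k => by
      simp only [a]
      have e1 : w + z + (k : ℝ) • z = w + ((k + 1 : ℕ) : ℝ) • z := by
        push_cast; rw [add_smul, one_smul]; abel
      rw [e1, ← mul_assoc, ← ee_add, ← ee_add]
      congr 2
      simp only [map_add, halt]
      push_cast; ring
    have e2 : ∑ k ∈ range N, a l (k + 1) w = ∑ k ∈ range N, a l k w := by
      have h1 := sum_range_succ (fun k => a l k w) N
      rw [sum_range_succ', a0, aN] at h1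
      exact add_right_cancel h1
    simp only [e, ← mul_sum, e2]
    ring

end Pool.Agent.P.MP_2957ea_an.NC
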