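import Pool.Agent.P.MP_2957ea_an.NC.PerBasic

/-!
Residues of a difference of digit strings and the resulting quadratic phase.
-/

namespace Pool.Agent.P.MP_2957ea_an.NC

open Finset Filter Topology Pool.Agent.P.MP_2957ea_an
open scoped BigOperators

namespace EvalA

/-- The integer with signed digits `d` below place `j`. -/
def low (d : ℕ → ℤ) (j : ℕ) : ℤ := ∑ i ∈ range j, d i * pos i

theorem low_succ (d : ℕ → ℤ) (j : ℕ) : low d (j + 1) = low d j + d j * pos j := sum_range_succ _ _

theorem abs_low {d : ℕ → ℤ} (h : ∀ i, |d i| ≤ len i) (j : ℕ) : |low d j| ≤ reach j := by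
  refine (abs_sum_le_sum_abs _ _).trans ?_
  rw [reach, Nat.cast_sum]
  refine sum_le_sum fun i _ => ?_
  rw [abs_mul, Nat.abs_cast, Nat.cast_mul]
  exact mul_le_mul_of_nonneg_right (h i) (Nat.cast_nonneg _)

theorem dvd_low (d : ℕ → ℤ) {n m : ℕ} (h : n ≤ m) : (pos n : ℤ) ∣ low d m - low d n := by
  induction m, h using Nat.le_induction with
  | base => simp
  | succ m h ih =>
    rw [low_succ, add_sub_right_comm]
    exact ih.add (Dvd.dvd.mul_left (Int.natCast_dvd_natCast.2 (pos_dvd_of_le h)) _)

theorem phase (j : ℕ) {e x : ℝ} (he : |e| ≤ len j) (hx : |x| ≤ 2 * pos j) :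
    |2 * tq j * (e * pos j + x) ^ 2 - 2 * tt j * (e / len j) ^ 2| ≤ 1 / 64 * (gp j : ℝ)⁻¹ := by
  have l1 : (1 : ℝ) ≤ len j := by exact_mod_cast len_pos j
  have p0 : (0 : ℝ) < pos j := by exact_mod_cast pos_pos j
  have g0 : (0 : ℝ) < gp j := by exact_mod_cast gp_pos j
  have g1 : (gp j : ℝ) ≤ len j := by exact_mod_cast gp_le_len j
  have t0 : 0 ≤ tt j := by unfold tt; positivity
  have t1 : tt j ≤ 1 / 1024 := one_div_le_one_div_of_le (by norm_num)
    (by have : (0 : ℝ) ≤ j := Nat.cast_nonneg _
        linarith)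
  have e1 : 2 * tq j * (e * pos j + x) ^ 2 - 2 * tt j * (e / len j) ^ 2 =
      2 * tt j * ((2 * e * pos j + x) * x) / ((len j : ℝ) * pos j) ^ 2 := by
    unfold tq; field_simp; ring
  have a1 : |2 * e * pos j + x| ≤ 4 * len j * pos j := by
    refine (abs_add_le _ _).trans ?_
    rw [abs_mul, abs_mul, abs_of_pos p0, abs_two]
    nlinarith
  have a2 : |(2 * e * pos j + x) * x| ≤ 4 * len j * pos j * (2 * pos j) := by
    rw [abs_mul]
    exact mul_le_mul a1 hx (abs_nonneg _) (by positivity)
  rw [e1, abs_div, abs_mul, abs_of_nonneg (by positivity : 0 ≤ 2 * tt j),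
    abs_of_pos (by positivity : 0 < ((len j : ℝ) * pos j) ^ 2), div_le_iff₀ (by positivity)]
  have a3 : 2 * tt j * |(2 * e * pos j + x) * x| ≤
      2 * (1 / 1024) * (4 * len j * pos j * (2 * pos j)) :=
    mul_le_mul (by linarith) a2 (abs_nonneg _) (by norm_num)
  have a4 : 1 ≤ (gp j : ℝ)⁻¹ * len j := by rw [inv_mul_eq_div, one_le_div g0]; exact g1
  have a5 : 0 < (len j : ℝ) * pos j ^ 2 := by positivity
  nlinarith

end EvalA

open EvalA in
theorem eval : S_eval := by
  intro K s s'
  set e : ℕ → ℤ := fun i => dg (rl K) s i - dg (rl K) s' i with he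
  have e0 : ∀ i, K ≤ i → e i = 0 := fun i hi => by
    have : i ∉ rl K := fun h => absurd (mem_rl.1 h) (not_lt.2 hi)
    simp only [he, dg_of_not_mem _ _ this, sub_self]
  have e1 : ∀ i, |e i| ≤ len i := fun i => by
    have h1 := dg_bounds _ s i
    have h2 := dg_bounds _ s' i
    exact abs_le.2 ⟨by simp only [he]; omega, by simp only [he]; omega⟩
  set d : ℕ → ℤ := fun i => e i + if i = K then 1 else 0 with hd
  have d1 : ∀ i, |d i| ≤ len i := fun i => by
    by_cases h : i = K
    · simp only [hd, if_pos h, e0 i h.ge, zero_add, abs_one]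
      exact_mod_cast len_pos i
    · simpa only [hd, if_neg h, add_zero] using e1 i
  have top : ∀ m, K + 1 ≤ m → low d m = pos K + val (rl K) s - val (rl K) s' := by
    intro m hm
    induction m, hm using Nat.le_induction with
    | base =>
      rw [low_succ, val_eq_sum (nodup_rl K), val_eq_sum (nodup_rl K), toFinset_rl, add_sub_assoc,
        ← sum_sub_distrib, add_comm]
      congr 1
      · simp [hd, e0]
      · refine sum_congr rfl fun i hi => ?_
        simp only [hd, if_neg (mem_range.1 hi).ne, add_zero, he, sub_mul]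
    | succ m hm ih =>
      rw [low_succ, ih]
      simp only [hd, if_neg (show m ≠ K by omega), e0 m (by omega), add_zero, zero_mul]
  refine ⟨fun j => low d (j + 1), fun j => ?_, fun J => ?_, fun J hJ => ?_⟩
  · rw [← top _ (le_max_left _ (j + 1))]
    exact dvd_low d (le_max_right _ _)
  · refine le_trans (sum_le_sum (g := fun j => 8 * (gp j : ℝ)⁻¹) fun j _ => ?_) ?_
    · have h1 : |low d (j + 1)| ≤ ((2 * (len j * pos j) : ℕ) : ℤ) :=
        (abs_low d1 _).trans (by exact_mod_cast reach_succ_le j)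
      have h2 : |((low d (j + 1) : ℤ) : ℝ)| ≤ 2 * (len j * pos j) := by exact_mod_cast h1
      have g0 : (0 : ℝ) < gp j := by exact_mod_cast gp_pos j
      rw [div_le_iff₀ (by exact_mod_cast pos_pos _), pos_succ]
      push_cast
      rw [mul_assoc (gp j : ℝ), mul_assoc 8, inv_mul_cancel_left₀ g0.ne']
      linarith
    · rw [← mul_sum]
      linarith [sum_inv_gp_le J]
  · have h1 : ∑ j ∈ range K, 2 * tt j * (((dg (rl K) s j : ℝ) - (dg (rl K) s' j : ℝ)) /
        (len j : ℝ)) ^ 2 = ∑ j ∈ range J, 2 * tt j * ((e j : ℝ) / (len j : ℝ)) ^ 2 := by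
      rw [← sum_subset (range_subset_range.2 hJ) fun j _ hj => by
        rw [e0 j (not_lt.1 fun h => hj (mem_range.2 h))]; simp]
      simp only [he, Int.cast_sub]
    rw [h1, ← sum_sub_distrib]
    refine (abs_sum_le_sum_abs _ _).trans (le_trans
      (sum_le_sum (g := fun j => 1 / 64 * (gp j : ℝ)⁻¹) fun j _ => ?_) ?_)
    · have h2 : |low d (j + 1) - e j * pos j| ≤ 2 * pos j := by
        have a1 := abs_le.1 (abs_low d1 j)
        have a2 := two_mul_reach_le j
        have a3 : d j = e j + if j = K then 1 else 0 := rfl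
        rw [low_succ, a3, add_mul]
        split_ifs <;> exact abs_le.2 ⟨by omega, by omega⟩
      have := phase j (e := e j) (x := low d (j + 1) - e j * pos j) (by exact_mod_cast e1 j)
        (by exact_mod_cast h2)
      rwa [add_sub_cancel] at this
    · rw [← mul_sum]
      linarith [sum_inv_gp_le J]

end Pool.Agent.P.MP_2957ea_an.NC
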