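import Pool.Agent.P.MP_2957ea_an.NC.PerBasic

/-!
Exponential coordinates of the second kind have a bi-additive cocycle.
-/

namespace Pool.Agent.P.MP_2957ea_an.NC

open Finset Filter Topology Pool.Agent.P.MP_2957ea_an
open scoped BigOperators commutatorElement

universe u

namespace ExpA

variable {G : Type u} [Group G]

/-- The ordered product of the one-parameter groups. -/
def E {d : ℕ} (p : Fin d → ℝ → G) (w : Fin d → ℝ) : G := (List.ofFn fun i => p i (w i)).prod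

theorem E_succ {d : ℕ} (p : Fin (d + 1) → ℝ → G) (w : Fin (d + 1) → ℝ) :
    E p w = p 0 (w 0) * E (Fin.tail p) (Fin.tail w) := by
  rw [E, List.ofFn_succ, List.prod_cons]; rfl

theorem ind (h2 : TwoStep G) : ∀ (d : ℕ) (p : Fin d → ℝ → G),
    (∀ i s t, p i (s + t) = p i s * p i t) → ∃ ζ : (Fin d → ℝ) → (Fin d → ℝ) → G,
      (∀ w w', E p w * E p w' = E p (w + w') * ζ w w') ∧
      (∀ w₁ w₂ w', ζ (w₁ + w₂) w' = ζ w₁ w' * ζ w₂ w') ∧
      (∀ w w₁ w₂, ζ w (w₁ + w₂) = ζ w w₁ * ζ w w₂) ∧ ∀ w w', ζ w w' ∈ comSub (E p)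
  | 0, p, _ => ⟨fun _ _ => 1, fun _ _ => by simp [E], fun _ _ _ => (mul_one _).symm,
      fun _ _ _ => (mul_one _).symm, fun _ _ => one_mem _⟩
  | d + 1, p, hp => by
    obtain ⟨ζ, h3, h4, h5, h6⟩ := ind h2 d (Fin.tail p) fun i => hp i.succ
    have h0 : ∀ i, p i 0 = 1 := fun i => by
      have := hp i 0 0
      rw [add_zero] at this
      exact left_eq_mul.1 this
    have e1 : ∀ a, E (Fin.tail p) a = E p (Fin.cons 0 a) := fun a => by
      rw [E_succ p, Fin.cons_zero, h0, one_mul, Fin.tail_cons]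
    have e2 : ∀ t, p 0 t = E p (Fin.cons t 0) := fun t => by
      rw [E_succ p, Fin.cons_zero, Fin.tail_cons, E]
      simp [Fin.tail, h0]
    have e3 : ∀ a b : Fin (d + 1) → ℝ, Fin.tail (a + b) = Fin.tail a + Fin.tail b := fun _ _ => rfl
    have e4 : ∀ a b c d x y : G, ⁅a, b⁆ * ⁅c, d⁆ * (x * y) = ⁅a, b⁆ * x * (⁅c, d⁆ * y) :=
      fun a b c d x y => by rw [mul_assoc, mul_assoc, ← mul_assoc _ x y, h2 c d x, mul_assoc]
    refine ⟨fun w w' => ⁅E (Fin.tail p) (Fin.tail w), p 0 (w' 0)⁆ * ζ (Fin.tail w) (Fin.tail w'),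
      fun w w' => ?_, fun w₁ w₂ w' => ?_, fun w w₁ w₂ => ?_, fun w w' => mul_mem ?_ ?_⟩
    · have e5 : ∀ a x b y z c : G, x * y = z * c →
          a * x * (b * y) = a * b * z * (⁅x, b⁆ * c) := fun a x b y z c h => by
        rw [h2, mul_assoc (a * b), ← mul_assoc z, ← h, ← h2, mul_assoc a, mul_assoc a,
          ← mul_assoc x, mul_eq_comm_mul x b, ← mul_assoc b, ← h2 x b b]
        simp only [mul_assoc]
      rw [E_succ, E_succ, E_succ, e3, Pi.add_apply, hp]
      exact e5 _ _ _ _ _ _ (h3 _ _)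
    · have := congrArg (⁅·, p 0 (w' 0)⁆) (h3 (Fin.tail w₁) (Fin.tail w₂))
      simp only [h2.mul_left, comm_eq_one_left (h2.central_of_mem (h6 _ _)), mul_one] at this
      simp only [e3, h4, ← this, e4]
    · simp only [e3, h5, Pi.add_apply, hp, h2.mul_right, e4]
    · exact Subgroup.subset_closure ⟨_, _, by rw [e1, e2]⟩
    · refine Subgroup.closure_mono ?_ (h6 _ _)
      rintro _ ⟨a, b, rfl⟩
      exact ⟨_, _, by rw [e1, e1]⟩

end ExpA

open ExpA in
theorem expData : S_exp.{u} := by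
  intro d G _ _ _ p h2 hc hp hn
  obtain ⟨ζ, h3, h4, h5, h6⟩ := ind h2 d p hp
  have h1 : Continuous (E p) := by
    unfold E
    simp only [List.ofFn_eq_map]
    exact continuous_list_prod _ fun i _ => (hc i).comp (continuous_apply i)
  refine ⟨ζ, h1, ?_, h3, h4, h5, h6, 1, hn⟩
  have : Function.uncurry ζ = fun x => (E p (x.1 + x.2))⁻¹ * (E p x.1 * E p x.2) := by
    funext x
    rw [h3, inv_mul_cancel_left]; rfl
  rw [this]
  fun_prop

end Pool.Agent.P.MP_2957ea_an.NC
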