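import Pool.Agent.P.MP_2957ea_an.NC.PerBasic

/-!
Reduction to functions that are quasi-periodic under all the points `z j`.
-/

namespace Pool.Agent.P.MP_2957ea_an.NC

open Finset Filter Topology Pool.Agent.P.MP_2957ea_an
open scoped BigOperators

theorem fin (he : S_eig) (hm : S_main) : S_fin := by
  classical
  rintro I _ ω Φ q q₂ j₁ ξ τ σ z y ⟨halt, hΦ, hper⟩ h2 hq hq₂ ⟨hz, hy, hs⟩ ht hc
  choose k hk using hz
  have : NeZero (q ^ 2) := ⟨by positivity⟩
  have : Nonempty {j // j₁ ≤ j} := ⟨⟨j₁, le_rfl⟩⟩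
  let f : {j // j₁ ≤ j} → I → ZMod (q ^ 2) := fun j l => k j l
  let r : (I → ZMod (q ^ 2)) → {j // j₁ ≤ j} := Function.invFun f
  have hr : ∀ j, j₁ ≤ j → ∃ c m, z j = z (r c) + (q : ℝ) • iv m := by
    intro j hj
    have h1 : f (r (f ⟨j, hj⟩)) = f ⟨j, hj⟩ := Function.invFun_eq ⟨_, rfl⟩
    choose m hm using fun l => (ZMod.intCast_eq_intCast_iff_dvd_sub _ _ _).1 (congrFun h1 l)
    refine ⟨f ⟨j, hj⟩, m, funext fun l => mul_left_cancel₀ (Nat.cast_ne_zero.2 hq.ne') ?_⟩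
    have h3 := congrFun (hk j) l
    have h4 := congrFun (hk (r (f ⟨j, hj⟩))) l
    have h5 := congrArg (Int.cast : ℤ → ℝ) (hm l)
    simp only [iv, Pi.add_apply, Pi.smul_apply, smul_eq_mul] at h3 h4 ⊢
    push_cast at h5
    linear_combination h3 - h4 + h5
  have key : ∀ (S : Finset (I → ZMod (q ^ 2))) (Φ : (I → ℝ) → ℂ), Continuous Φ →
      (∀ m, Per ω Φ ((q : ℝ) • iv m)) → (∀ c, c ∉ S → Per ω Φ (z (r c))) →
      Good (sq Φ ξ τ σ) := by
    intro S
    induction S using Finset.induction_on with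
    | empty =>
      intro Φ h3 h4 h5
      refine hm I ω Φ q q₂ j₁ ξ τ σ z y halt h3 hq hq₂ h4 (fun j hj => ?_) hy hs ht
      obtain ⟨c, m, e⟩ := hr j hj
      rw [e]
      exact (h5 c (notMem_empty c)).add (h4 m)
    | insert a S ha ih =>
      intro Φ h3 h4 h5
      obtain ⟨Ψ, h6, h7, h8⟩ := he I ω Φ
        {p | (∃ m, p = (q : ℝ) • iv m) ∨ ∃ c, c ∉ insert a S ∧ p = z (r c)} (z (r a)) (q ^ 2)
        halt h3 (by positivity) (by rintro _ (⟨m, rfl⟩ | ⟨c, h, rfl⟩); exacts [h4 m, h5 c h])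
        (by rw [Nat.cast_pow, pow_two, mul_smul, hk]; exact h4 _) (by
          rintro _ (⟨m, rfl⟩ | ⟨c, -, rfl⟩)
          · rw [map_smul, ← LinearMap.smul_apply, ← map_smul, hk]
            exact h2 _ _
          · exact hc _ _ (r a).2 (r c).2)
      have e : sq Φ ξ τ σ = fun n => ∑ l, sq (Ψ l) ξ τ σ n :=
        funext fun n => by simp only [sq, h7, sum_mul]
      rw [e]
      refine closed_good.sum _ _ fun l _ => ih _ (h6 l) (fun m => (h8 l).1 _ (Or.inl ⟨m, rfl⟩))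
        fun c h => ?_
      by_cases h9 : c = a
      · rw [h9]
        exact (h8 l).2
      · exact (h8 l).1 _ (Or.inr ⟨c, by simp [h, h9], rfl⟩)
  refine key univ Φ hΦ (fun m => ?_) fun c h => absurd (mem_univ c) h
  have := hper ((q : ℤ) • m)
  rwa [iv_smul, Int.cast_natCast] at this

end Pool.Agent.P.MP_2957ea_an.NC
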