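import Pool.Agent.P.MP_2957ea_an.NC.PerBasic

/-!
Decomposition into eigenfunctions of central periodic flows.
-/

namespace Pool.Agent.P.MP_2957ea_an.NC

open Finset Filter Topology Pool.Agent.P.MP_2957ea_an
open scoped BigOperators

universe u

namespace FlowA

variable {G : Type u} [Group G] [TopologicalSpace G] [IsTopologicalGroup G] {Γ : Subgroup G}
  {φ : ℝ → G} {F : G → ℂ}

omit [IsTopologicalGroup G] in
theorem bdd (hΓ : Cocpt Γ) (hF : Continuous F) (hi : ∀ g, ∀ γ ∈ Γ, F (g * γ) = F g) :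
    ∃ B : ℝ, ∀ g, ‖F g‖ ≤ B := by
  obtain ⟨C, hC, h⟩ := hΓ
  obtain ⟨B, hB⟩ := hC.exists_bound_of_continuousOn hF.continuousOn
  refine ⟨B, fun g => ?_⟩
  obtain ⟨c, hc, γ, hγ, rfl⟩ := h g
  rw [hi c γ hγ]
  exact hB c hc

theorem unif (hΓ : Cocpt Γ) (hF : Continuous F) (hi : ∀ g, ∀ γ ∈ Γ, F (g * γ) = F g)
    (hφ : Continuous φ) (hz : ∀ s g, φ s * g = g * φ s) {ε : ℝ} (hε : 0 < ε) :
    ∃ ρ : ℝ, 0 < ρ ∧ ∀ g t, |t| ≤ ρ → ‖F (g * φ t) - F (g * φ 0)‖ ≤ ε := by
  obtain ⟨C, hC, h⟩ := hΓ
  have hc : Continuous fun p : ℝ × G => ‖F (p.2 * φ p.1) - F (p.2 * φ 0)‖ := by fun_prop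
  have h1 : ∀ᶠ t in 𝓝 (0 : ℝ), ∀ c ∈ C, ‖F (c * φ t) - F (c * φ 0)‖ < ε := by
    refine hC.eventually_forall_of_forall_eventually fun w _ => ?_
    refine hc.continuousAt.eventually_lt continuousAt_const ?_
    simpa using hε
  obtain ⟨ρ, hρ, h2⟩ := Metric.nhds_basis_closedBall.eventually_iff.1 h1
  refine ⟨ρ, hρ, fun g t ht => ?_⟩
  obtain ⟨c, hc, γ, hγ, rfl⟩ := h g
  rw [mul_assoc, mul_assoc, ← hz, ← hz, ← mul_assoc, ← mul_assoc, hi _ γ hγ, hi _ γ hγ]
  exact (h2 (mem_closedBall_zero_iff.2 ht) c hc).le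

theorem shift {H : ℝ → ℂ} (hH : ∀ t, H (t + 1) = H t) (l : ℤ) (a : ℝ) :
    ∫ t in (0 : ℝ)..1, ee (-((l : ℝ) * t)) * H (a + t) =
      ee (l * a) * ∫ t in (0 : ℝ)..1, ee (-((l : ℝ) * t)) * H t := by
  have per : Function.Periodic (fun t => ee (-((l : ℝ) * t)) * H t) 1 := fun t => by
    have : -((l : ℝ) * (t + 1)) = -((l : ℝ) * t) + ((-l : ℤ) : ℝ) := by push_cast; ring
    simp only [hH, this, ee_add_int]
  have e1 := per.intervalIntegral_add_eq a 0
  have e2 := intervalIntegral.integral_comp_add_left (a := 0) (b := 1)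
    (fun t => ee (-((l : ℝ) * t)) * H t) a
  rw [add_zero, e1, zero_add] at e2
  rw [← e2, ← intervalIntegral.integral_const_mul]
  refine intervalIntegral.integral_congr fun t _ => ?_
  rw [← mul_assoc, ← ee_add]
  congr 2
  ring

end FlowA

open FlowA in
theorem flow (h1 : S_L1) : S_flow.{u} := by
  classical
  intro G _ _ _ Γ J _ fl hΓ hc ha hz hm P P0 Pa Ps Pl Pe
  have Psum : ∀ (s : Finset ℤ) (f : ℤ → G → ℂ), (∀ l, P (f l)) → P fun g => ∑ l ∈ s, f l g := by
    intro s f hf
    induction s using Finset.induction_on with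
    | empty => simpa using P0
    | insert l s hl ih => simpa only [sum_insert hl] using Pa _ _ (hf l) ih
  have key : ∀ (s : Finset J) (F : G → ℂ), Continuous F → (∀ g, ∀ γ ∈ Γ, F (g * γ) = F g) →
      (∀ j ∉ s, ∃ θ : ℝ, ∀ t g, F (g * fl j t) = ee (θ * t) * F g) → P F := by
    intro s
    induction s using Finset.induction_on with
    | empty => exact fun F a b c => Pe F a b fun j => c j (notMem_empty j)
    | insert j s _ ih =>
      intro F hF hi he
      have hj := hc j
      have per : ∀ g t, F (g * fl j (t + 1)) = F (g * fl j t) := fun g t => by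
        rw [ha, ← mul_assoc, hi _ _ (hm j)]
      have good : ∀ l : ℤ,
          P fun g => ∫ t in (0 : ℝ)..1, ee (-((l : ℝ) * t)) * F (g * fl j t) := by
        intro l
        refine ih _ ?_ (fun g γ hγ => ?_) fun i hi' => ?_
        · exact intervalIntegral.continuous_parametric_intervalIntegral_of_continuous'
            (f := fun g t => ee (-((l : ℝ) * t)) * F (g * fl j t))
            ((continuous_ee'.comp (by fun_prop)).mul (hF.comp (by fun_prop))) 0 1
        · refine intervalIntegral.integral_congr fun t _ => ?_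
          rw [mul_assoc g, ← hz, ← mul_assoc, hi _ γ hγ]
        · by_cases hij : i = j
          · refine ⟨l, fun a g => ?_⟩
            simp only [hij, mul_assoc, ← ha]
            exact shift (H := fun t => F (g * fl j t)) (per g) l a
          · obtain ⟨θ, hθ⟩ := he i fun h => (mem_insert.1 h).elim hij hi'
            refine ⟨θ, fun a g => ?_⟩
            rw [← intervalIntegral.integral_const_mul]
            refine intervalIntegral.integral_congr fun t _ => ?_
            rw [mul_assoc g, hz, ← mul_assoc, hθ]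
            ring
      obtain ⟨B, hB⟩ := bdd hΓ hF hi
      have f0 : fl j 0 = 1 := by
        have := ha j 0 0
        rw [add_zero] at this
        exact left_eq_mul.1 this
      refine Pl _ fun ε hε => ?_
      obtain ⟨ρ, ρ0, hρ⟩ := unif hΓ hF hi hj (hz j) (half_pos hε)
      obtain ⟨r, a, hr⟩ := h1 B (ε / 2) ρ (half_pos hε) ρ0
      refine ⟨_, Psum r _ fun l => Ps (a l) _ (good l), fun g => ?_⟩
      have e := hr (fun t => F (g * fl j t)) (by fun_prop) (per g) (fun t => hB _) (hρ g)
      simp only [f0, mul_one] at e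
      linarith
  exact fun F a b => key univ F a b fun j hj => absurd (mem_univ j) hj

end Pool.Agent.P.MP_2957ea_an.NC
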