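import Mathlib
import Pool.Agent.P.MP_2957ea_an.NC.PerBasic

/-!
From two-step groups with exponential coordinates to elementary sequences.
-/

namespace Pool.Agent.P.MP_2957ea_an.NC

open Finset Filter Topology Pool.Agent.P.MP_2957ea_an
open scoped BigOperators commutatorElement

universe u

namespace GrpA

/-- Triangular numbers. -/
def tri (k : ℤ) : ℤ := k * (k - 1) / 2

theorem two_mul_tri (k : ℤ) : 2 * tri k = k * (k - 1) :=
  Int.mul_ediv_cancel' (even_iff_two_dvd.1 (Int.even_mul_pred_self k))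

theorem tri_succ (k : ℤ) : tri (k + 1) = tri k + k := by
  have h1 := two_mul_tri k
  have h2 := two_mul_tri (k + 1)
  nlinarith

theorem tri_cast (k : ℤ) : (tri k : ℝ) = k * (k - 1) / 2 := by
  have : (2 : ℝ) * tri k = k * (k - 1) := by exact_mod_cast two_mul_tri k
  linarith

variable {G : Type*} [Group G]

theorem eq_zpow {S : ℤ → G} {x : G} (h0 : S 0 = 1) (h : ∀ k, S (k + 1) = S k * x) (k : ℤ) :
    x ^ k = S k := by
  induction k using Int.induction_on with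
  | zero => simp [h0]
  | succ n ih => rw [zpow_add_one, ih, h]
  | pred n ih =>
    have := h (-(n : ℤ) - 1)
    rw [sub_add_cancel] at this
    rw [zpow_sub_one, ih, this, mul_inv_cancel_right]

theorem add_zsmul {W : Type*} [AddCommGroup W] [Module ℝ W] {f : W → G}
    (hf : ∀ a b, f (a + b) = f a * f b) (a : W) (k : ℤ) : f ((k : ℝ) • a) = f a ^ k := by
  have h0 : f 0 = 1 := by
    have := hf 0 0
    rw [add_zero] at this
    exact left_eq_mul.1 this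
  refine (eq_zpow (S := fun k : ℤ => f ((k : ℝ) • a)) (by simp [h0]) (fun k => ?_) k).symm
  rw [← hf]
  push_cast
  rw [add_smul, one_smul]

theorem mul_zpow2 (h : TwoStep G) (x y : G) (k : ℤ) :
    (x * y) ^ k = x ^ k * y ^ k * ⁅y, x⁆ ^ tri k := by
  refine eq_zpow (S := fun k => x ^ k * y ^ k * ⁅y, x⁆ ^ tri k) (by simp [tri]) (fun k => ?_) k
  have h1 : y ^ k * x = ⁅y, x⁆ ^ k * (x * y ^ k) := by
    rw [← h.zpow_left]; exact mul_eq_comm_mul _ _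
  have hc : ∀ (j : ℤ) g, ⁅y, x⁆ ^ j * g = g * ⁅y, x⁆ ^ j := fun j g => ((h.comm y x g).zpow_left j).eq
  simp only [tri_succ, zpow_add, zpow_one]
  calc x ^ k * x * (y ^ k * y) * (⁅y, x⁆ ^ tri k * ⁅y, x⁆ ^ k)
      = x ^ k * ((x * y ^ k) * y * ⁅y, x⁆ ^ tri k * ⁅y, x⁆ ^ k) := by simp only [mul_assoc]
    _ = x ^ k * (⁅y, x⁆ ^ k * ((x * y ^ k) * y * ⁅y, x⁆ ^ tri k)) := by rw [hc k]
    _ = x ^ k * (y ^ k * x) * (y * ⁅y, x⁆ ^ tri k) := by rw [h1]; simp only [mul_assoc]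
    _ = x ^ k * y ^ k * (x * y * ⁅y, x⁆ ^ tri k) := by simp only [mul_assoc]
    _ = _ := by rw [← hc (tri k)]; simp only [mul_assoc]

/-- Elements acting on `F` by a unimodular scalar. -/
def Sc (F : G → ℂ) : Subgroup G where
  carrier := {z | ∃ θ : ℝ, ∀ g, F (g * z) = ee θ * F g}
  one_mem' := ⟨0, fun g => by simp [ee_zero]⟩
  mul_mem' := by
    rintro a b ⟨θ, h⟩ ⟨θ', h'⟩
    exact ⟨θ' + θ, fun g => by rw [← mul_assoc, h', h, ee_add, mul_assoc]⟩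
  inv_mem' := by
    rintro a ⟨θ, h⟩
    refine ⟨-θ, fun g => ?_⟩
    have := h (g * a⁻¹)
    rw [inv_mul_cancel_right] at this
    rw [this, ← mul_assoc, ← ee_add, neg_add_cancel, ee_zero, one_mul]

theorem sc_zpow {F : G → ℂ} {z : G} {θ : ℝ} (h : ∀ g, F (g * z) = ee θ * F g) (k : ℤ) :
    ∀ g, F (g * z ^ k) = ee (k * θ) * F g := by
  induction k using Int.induction_on with
  | zero => intro g; simp [ee_zero]
  | succ n ih =>
    intro g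
    rw [zpow_add_one, ← mul_assoc, h, ih, ← mul_assoc, ← ee_add]
    congr 2; push_cast; ring
  | pred n ih =>
    intro g
    have h1 := h (g * z ^ (-(n : ℤ) - 1))
    rw [mul_assoc, ← zpow_add_one, sub_add_cancel, ih] at h1
    have h2 : ee (((-(n : ℤ) - 1 : ℤ) : ℝ) * θ) = ee (-θ) * ee (((-(n : ℤ) : ℤ) : ℝ) * θ) := by
      rw [← ee_add]; congr 1; push_cast; ring
    rw [h2, mul_assoc, h1, ← mul_assoc, ← ee_add, neg_add_cancel, ee_zero, one_mul]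

variable [TopologicalSpace G] {I : Type} [Fintype I] {ex : (I → ℝ) → G}
  {ζ : (I → ℝ) → (I → ℝ) → G}

theorem ex_zpow (h2 : TwoStep G) (h : ExpData ex ζ) (ξ : I → ℝ) (k : ℤ) :
    ex ξ ^ k = ex ((k : ℝ) • ξ) * ζ ξ ξ ^ tri k := by
  refine eq_zpow (S := fun k : ℤ => ex ((k : ℝ) • ξ) * ζ ξ ξ ^ tri k)
    (by simp [tri, h.ex_zero]) (fun k => ?_) k
  have hc : ζ ξ ξ ^ tri k * ex ξ = ex ξ * ζ ξ ξ ^ tri k :=
    h2.central_of_mem (Subgroup.zpow_mem _ (h.mem ξ ξ) _) _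
  rw [mul_assoc, hc, ← mul_assoc, h.mul, add_zsmul (f := fun a => ζ a ξ) (fun a b => h.addl a b ξ),
    tri_succ, add_comm (tri k), zpow_add, mul_assoc]
  push_cast
  rw [add_smul, one_smul]

omit [TopologicalSpace G] in
theorem mem_of_single [DecidableEq I] {S : Subgroup G} {f : (I → ℝ) → G}
    (hf : ∀ a b, f (a + b) = f a * f b) (h : ∀ i t, f (Pi.single i t) ∈ S) (w : I → ℝ) :
    f w ∈ S := by
  have h0 : f 0 = 1 := by
    have := hf 0 0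
    rw [add_zero] at this
    exact left_eq_mul.1 this
  rw [← univ_sum_single w]
  exact sum_induction _ (fun a => f a ∈ S) (fun a b ha hb => by rw [hf]; exact S.mul_mem ha hb)
    (by rw [h0]; exact S.one_mem) fun i _ => h i _

theorem comm_add_right (h : ExpData ex ζ) (h2 : TwoStep G) (g : G) (a b : I → ℝ) :
    ⁅g, ex (a + b)⁆ = ⁅g, ex a⁆ * ⁅g, ex b⁆ := by
  rw [← h2.mul_right, h.mul, h2.mul_right,
    comm_eq_one_right (h2.central_of_mem (h.mem a b)), mul_one]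

theorem comSub_le [IsTopologicalGroup G] [DecidableEq I] (h : ExpData ex ζ) (h2 : TwoStep G)
    {F : G → ℂ} (hF : Continuous F)
    (he : ∀ i j, ∃ θ : ℝ, ∀ t g,
      F (g * ⁅ex (Pi.single i t), ex (Pi.single j 1)⁆) = ee (θ * t) * F g) :
    comSub ex ≤ Sc F := by
  refine (Subgroup.closure_le _).2 ?_
  rintro _ ⟨a, b, rfl⟩
  refine mem_of_single (f := fun a => ⁅ex a, ex b⁆) (fun a a' => h.comm_add h2 a a' _)
    (fun i s => ?_) a
  refine mem_of_single (f := fun b => ⁅ex (Pi.single i s), ex b⁆)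
    (fun b b' => comm_add_right h h2 _ b b') (fun j t => ?_) b
  obtain ⟨θ, hθ⟩ := he i j
  refine ⟨θ * (s * t), fun g => ?_⟩
  have sw : ∀ (k : ℤ) (s t : ℝ), ⁅ex (Pi.single i (k * s)), ex (Pi.single j t)⁆ =
      ⁅ex (Pi.single i s), ex (Pi.single j (k * t))⁆ := by
    intro k s t
    rw [← smul_eq_mul, ← smul_eq_mul (k : ℝ), Pi.single_smul, Pi.single_smul,
      add_zsmul (f := fun a => ⁅ex a, ex (Pi.single j t)⁆) (fun a a' => h.comm_add h2 a a' _),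
      add_zsmul (f := fun b => ⁅ex (Pi.single i s), ex b⁆) (fun b b' => comm_add_right h h2 _ b b')]
  have hc : Continuous fun t : ℝ => ex (Pi.single j t) := h.cont.comp (continuous_single (A := fun _ => ℝ) j)
  refine Rat.denseRange_cast.induction_on (p := fun t : ℝ =>
    F (g * ⁅ex (Pi.single i s), ex (Pi.single j t)⁆) = ee (θ * (s * t)) * F g) t
    (isClosed_eq (hF.comp ?_) ((continuous_ee'.comp (by fun_prop)).mul continuous_const))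
    fun r => ?_
  · simp only [commutatorElement_def]
    exact continuous_const.mul (((continuous_const.mul hc).mul continuous_const).mul hc.inv)
  · have hd : ((r.den : ℤ) : ℝ) ≠ 0 := by exact_mod_cast r.den_ne_zero
    have e1 : (r : ℝ) = (r.num : ℝ) * (((r.den : ℤ) : ℝ))⁻¹ := by
      rw [Rat.cast_def, div_eq_mul_inv]; push_cast; rfl
    have e2 : (r.num : ℝ) * s = ((r.den : ℤ) : ℝ) * (s * r) := by
      rw [e1]; field_simp
    rw [← hθ]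
    conv_lhs => rw [e1, ← sw, e2, sw, mul_inv_cancel₀ hd]

end GrpA

open GrpA in
theorem grp (hres : S_res) (hflow : S_flow.{u}) (hbi : S_bichar) (hbas : S_basis.{u})
    (hpow : S_pow.{u}) : S_grp.{u} := by
  intro G _ _ _ Γ I _ ex₀ ζ₀ h2 hco hE₀ P hP hEl
  classical
  obtain ⟨ex, ζ, hE, hγ⟩ := hbas G Γ I ex₀ ζ₀ h2 hco hE₀
  choose γ hγΓ zz hzz hex using hγ
  suffices key : ∀ b₁ b₂ : G, ∀ F : G → ℂ, Continuous F → (∀ g, ∀ γ ∈ Γ, F (g * γ) = F g) →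
      P (fun n => F (b₁ ^ n * b₂ ^ n)) by
    intro F hF hinv b₁ b₂ w
    have := key (w⁻¹ * b₁ * w⁻¹⁻¹) (w⁻¹ * b₂ * w⁻¹⁻¹) (fun g => F (w * g))
      (hF.comp (continuous_const.mul continuous_id))
      (fun g γ hγ => by rw [← mul_assoc, hinv _ _ hγ])
    convert this using 3
    rw [conj_zpow, conj_zpow]
    group
  intro b₁ b₂
  obtain ⟨q₀, ξ, hq₀, g₀, hg₀, g₀', hg₀', z₀, hz₀, e₀⟩ := hpow G Γ I ex ζ h2 hco hE (b₁ * b₂)
  obtain ⟨q₁, ξ₁, hq₁, g₁, hg₁, g₁', -, z₁, hz₁, e₁⟩ := hpow G Γ I ex ζ h2 hco hE b₁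
  obtain ⟨q₂, ξ₂, hq₂, g₂, hg₂, g₂', -, z₂, hz₂, e₂⟩ := hpow G Γ I ex ζ h2 hco hE b₂
  set gs : I ⊕ Fin 4 → G := Sum.elim γ ![g₀, g₀', g₁, g₂] with hgs
  have hgsΓ : ∀ a, gs a ∈ Γ := by
    rintro (i | a)
    · exact hγΓ i
    · fin_cases a <;> simp [hgs, hg₀, hg₀', hg₁, hg₂]
  have hcz : ∀ (x y z g : G), z ∈ comSub ex → (⁅x, y⁆ * z) * g = g * (⁅x, y⁆ * z) := by
    intro x y z g hz
    rw [mul_assoc, h2.central_of_mem hz, ← mul_assoc, h2, mul_assoc]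
  refine hflow G Γ (I × (I ⊕ Fin 4)) (fun j s => ⁅ex (Pi.single j.1 s), gs j.2⁆) hco ?_ ?_ ?_ ?_
    (fun F => P (fun n => F (b₁ ^ n * b₂ ^ n))) hP.1 (fun F F' => hP.2.1 _ _)
    (fun c F => hP.2.2.1 c _) (fun F h => hP.2.2.2 _ fun ε hε => ?_) ?_
  · intro j
    have hc : Continuous fun t : ℝ => ex (Pi.single j.1 t) :=
      hE.cont.comp (continuous_single (A := fun _ => ℝ) j.1)
    simp only [commutatorElement_def]
    exact ((hc.mul continuous_const).mul hc.inv).mul continuous_const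
  · intro j s t
    simp only [Pi.single_add, hE.comm_add h2]
  · intro j s g
    exact h2 _ _ _
  · intro j
    simp only [hex, h2.mul_left, comm_eq_one_left (h2.central_of_mem (hzz j.1)), mul_one]
    rw [commutatorElement_def]
    exact Γ.mul_mem (Γ.mul_mem (Γ.mul_mem (hγΓ _) (hgsΓ _)) (Γ.inv_mem (hγΓ _)))
      (Γ.inv_mem (hgsΓ _))
  · obtain ⟨F', h1, h3⟩ := h ε hε
    exact ⟨_, h1, fun n => h3 _⟩
  intro F hF hinv heig
  have hΓ : Γ ≤ Sc F := fun g hg => ⟨0, fun x => by rw [hinv _ _ hg, ee_zero, one_mul]⟩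
  have hA1 : ∀ a w, ⁅ex w, gs a⁆ ∈ Sc F := fun a =>
    mem_of_single (f := fun w => ⁅ex w, gs a⁆) (fun w w' => hE.comm_add h2 w w' _) fun i t => by
      obtain ⟨θ, hθ⟩ := heig (i, a)
      exact ⟨θ * t, hθ t⟩
  have hA1' : ∀ a w, ⁅gs a, ex w⁆ ∈ Sc F := fun a w => by
    rw [← commutatorElement_inv]; exact (Sc F).inv_mem (hA1 a w)
  have hA2 : comSub ex ≤ Sc F := comSub_le hE h2 hF fun i j => by
    obtain ⟨θ, hθ⟩ := heig (i, Sum.inl j)
    refine ⟨θ, fun t g => ?_⟩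
    rw [hex, h2.mul_right, comm_eq_one_right (h2.central_of_mem (hzz j)), mul_one]
    exact hθ t g
  by_cases hF0 : ∀ g, F g = 0
  · simpa only [hF0] using hP.1
  obtain ⟨x₀, hx₀⟩ := not_forall.1 hF0
  have hχ : ∀ z ∈ Sc F, ‖F (x₀ * z) / F x₀‖ = 1 ∧ ∀ g, F (g * z) = F (x₀ * z) / F x₀ * F g := by
    rintro z ⟨θ, hθ⟩
    rw [hθ, mul_div_cancel_right₀ _ hx₀]
    exact ⟨norm_ee _, hθ⟩
  obtain ⟨β, hβ⟩ := hbi I (fun a b => F (x₀ * ζ a b) / F x₀)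
    ((hF.comp (continuous_const.mul hE.contz)).div_const _)
    (fun a b => (hχ _ (hA2 (hE.mem a b))).1)
    (fun a a' b => by
      rw [hE.addl, ← mul_assoc, (hχ _ (hA2 (hE.mem a' b))).2 (x₀ * ζ a b)]; ring)
    (fun a b b' => by
      rw [hE.addr, ← mul_assoc, (hχ _ (hA2 (hE.mem a b'))).2 (x₀ * ζ a b)]; ring)
  have hβ' : ∀ a b g, F (g * ζ a b) = ee (β a b) * F g := fun a b g => by
    rw [(hχ _ (hA2 (hE.mem a b))).2 g, hβ]
  set om : BF I := (1 / 2 : ℝ) • (β - LinearMap.flip β) with hom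
  have hom' : ∀ a b, om a b = (β a b - β b a) / 2 := fun a b => by
    simp only [hom, LinearMap.smul_apply, LinearMap.sub_apply, LinearMap.flip_apply, smul_eq_mul]
    ring
  have hQP : ∀ p : G, QP om fun w => ee (β w w / 2) * F (p * ex w) := by
    intro p
    have halt : ∀ w, om w w = 0 := fun w => by rw [hom', sub_self, zero_div]
    refine ⟨halt, (continuous_ee'.comp ((continuous_om₂ β continuous_id continuous_id).div_const
      _)).mul (hF.comp (continuous_const.mul hE.cont)), per_iv_of_single halt fun i => ?_⟩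
    obtain ⟨θ, hθ⟩ := hA2 (hzz i)
    refine ⟨ee (θ + β (Pi.single i 1) (Pi.single i 1) / 2), norm_ee _, fun w => ?_⟩
    have h1 := hβ' w (Pi.single i 1) (p * ex (w + Pi.single i 1))
    rw [mul_assoc, ← hE.mul, hex, ← mul_assoc, ← mul_assoc, hθ, hinv _ _ (hγΓ i)] at h1
    have h3 : ee (β (w + Pi.single i 1) (w + Pi.single i 1) / 2) * ee θ =
        ee (θ + β (Pi.single i 1) (Pi.single i 1) / 2) * ee (om (Pi.single i 1) w) *
          ee (β w w / 2) * ee (β w (Pi.single i 1)) := by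
      rw [← ee_add, ← ee_add, ← ee_add, ← ee_add, hom']
      congr 1
      simp only [map_add, LinearMap.add_apply]
      ring
    apply mul_left_cancel₀ (ee_ne_zero (β w (Pi.single i 1)))
    linear_combination (-ee (β (w + Pi.single i 1) (w + Pi.single i 1) / 2)) * h1 +
      F (p * ex w) * h3
  obtain ⟨θZ, hZ⟩ : ⁅ex ξ, g₀'⁆ * z₀ ∈ Sc F := (Sc F).mul_mem (hA1 (Sum.inr 1) ξ) (hA2 hz₀)
  obtain ⟨θ₁, h₁⟩ : ⁅g₀, ex ξ⁆ ∈ Sc F := hA1' (Sum.inr 0) ξ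
  obtain ⟨θ₂, h₂⟩ : ⁅b₁, b₂⁆ ^ ((q₁ : ℤ) * (q₂ : ℤ)) ∈ Sc F := by
    rw [zpow_mul, ← h2.zpow_left, ← h2.zpow_right, zpow_natCast, zpow_natCast, e₁, e₂,
      h2.mul_left, comm_eq_one_left fun g => hcz _ _ _ g hz₁, mul_one, h2.mul_right,
      comm_eq_one_right fun g => hcz _ _ _ g hz₂, mul_one, h2.mul_left, h2.mul_right, h2.mul_right]
    refine (Sc F).mul_mem ((Sc F).mul_mem (hA2 (Subgroup.subset_closure ⟨_, _, rfl⟩))
      (hA1 (Sum.inr 3) ξ₁)) ((Sc F).mul_mem (hA1' (Sum.inr 2) ξ₂) (hΓ ?_))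
    rw [commutatorElement_def]
    exact Γ.mul_mem (Γ.mul_mem (Γ.mul_mem hg₁ hg₂) (Γ.inv_mem hg₁)) (Γ.inv_mem hg₂)
  refine hres I P hP hEl _ (2 * q₀ * q₁ * q₂) (by positivity) fun r _ _ => ?_
  set a : ℝ := 2 * q₁ * q₂ with ha
  refine ⟨om, _, a • ξ, 0, q₀ * (q₀ * a) * θ₂ + a ^ 2 * (θ₁ + β ξ ξ) / 2 - a ^ 2 * β ξ ξ / 2,
    q₀ * (2 * r - 1) * θ₂ + a * θZ - a * (θ₁ + β ξ ξ) / 2, 0,
    hQP ((b₁ * b₂) ^ r * ⁅b₁, b₂⁆ ^ tri r), fun k' => ?_⟩
  set n : ℤ := r + ((2 * q₀ * q₁ * q₂ : ℕ) : ℤ) * k' with hn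
  set k : ℤ := 2 * q₁ * q₂ * k' with hk
  set m : ℤ := q₀ * k' * (2 * r - 1 + 2 * q₀ * q₁ * q₂ * k') with hm
  have t1 : tri n = tri r + ((q₁ : ℤ) * (q₂ : ℤ)) * m := by
    have a1 := two_mul_tri n
    have a2 := two_mul_tri r
    have : 2 * tri n = 2 * (tri r + ((q₁ : ℤ) * (q₂ : ℤ)) * m) := by
      rw [a1, mul_add, a2, hn, hm]; push_cast; ring
    omega
  have t2 : n = r + (q₀ : ℤ) * k := by rw [hn, hk]; push_cast; ring
  have t3 : b₁ ^ n * b₂ ^ n = (b₁ * b₂) ^ n * ⁅b₁, b₂⁆ ^ tri n := by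
    rw [mul_zpow2 h2, mul_assoc, ← commutatorElement_inv b₁ b₂, inv_zpow, inv_mul_cancel, mul_one]
  have t4 : (b₁ * b₂) ^ n = (b₁ * b₂) ^ r * (ex ((k : ℝ) • ξ) * ζ ξ ξ ^ tri k * g₀ ^ k *
      ⁅g₀, ex ξ⁆ ^ tri k * (⁅ex ξ, g₀'⁆ * z₀) ^ k) := by
    rw [t2, zpow_add, zpow_mul, zpow_natCast, e₀, Commute.mul_zpow (hcz _ _ _ _ hz₀).symm,
      mul_zpow2 h2 (ex ξ) g₀, ex_zpow h2 hE]
  have t5 : b₁ ^ n * b₂ ^ n = (b₁ * b₂) ^ r * ⁅b₁, b₂⁆ ^ tri r * ex ((k : ℝ) • ξ) * ζ ξ ξ ^ tri k *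
      g₀ ^ k * ⁅g₀, ex ξ⁆ ^ tri k * (⁅ex ξ, g₀'⁆ * z₀) ^ k *
      (⁅b₁, b₂⁆ ^ ((q₁ : ℤ) * (q₂ : ℤ))) ^ m := by
    rw [t3, t4, t1, zpow_add, zpow_mul ⁅b₁, b₂⁆ _ m, ← mul_assoc _ (⁅b₁, b₂⁆ ^ tri r),
      mul_assoc ((b₁ * b₂) ^ r), ← ((h2.comm b₁ b₂ _).zpow_left (tri r)).eq]
    simp only [mul_assoc]
  have t6 : (k' : ℝ) • a • ξ + 0 = (k : ℝ) • ξ := by
    rw [add_zero, smul_smul, hk, ha]; push_cast; congr 1; ring
  rw [t5, sc_zpow h₂, sc_zpow hZ, sc_zpow h₁, hinv _ _ (Γ.zpow_mem hg₀ k), sc_zpow (hβ' ξ ξ), t6]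
  have t7 : ee (m * θ₂) * ee (k * θZ) * ee (tri k * θ₁) * ee (tri k * β ξ ξ) =
      ee (β ((k : ℝ) • ξ) ((k : ℝ) • ξ) / 2) *
      ee ((q₀ * (q₀ * a) * θ₂ + a ^ 2 * (θ₁ + β ξ ξ) / 2 - a ^ 2 * β ξ ξ / 2) * (k' : ℝ) ^ 2 +
        (q₀ * (2 * r - 1) * θ₂ + a * θZ - a * (θ₁ + β ξ ξ) / 2) * k' + 0) := by
    rw [← ee_add, ← ee_add, ← ee_add, ← ee_add, tri_cast]
    congr 1
    simp only [map_smul, LinearMap.smul_apply, smul_eq_mul, hm, hk, ha]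
    push_cast
    ring
  linear_combination F ((b₁ * b₂) ^ r * ⁅b₁, b₂⁆ ^ tri r * ex ((k : ℝ) • ξ)) * t7

end Pool.Agent.P.MP_2957ea_an.NC
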