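import Pool.Agent.P.MP_2957ea_an.NC.PerBasic

/-!
The surviving frequencies form a group.
-/

namespace Pool.Agent.P.MP_2957ea_an.NC

open Finset Filter Topology Pool.Agent.P.MP_2957ea_an
open scoped BigOperators

namespace HGrpA

theorem min_add {a b c : ℝ} (hc : 0 ≤ c) (h : c ≤ a + b) :
    min 1 (c ^ 2) ≤ 2 * min 1 (a ^ 2) + 2 * min 1 (b ^ 2) := by
  have h1 : c ^ 2 ≤ 2 * a ^ 2 + 2 * b ^ 2 := by
    nlinarith [pow_le_pow_left₀ hc h 2, sq_nonneg (a - b)]
  have h2 := min_le_left 1 (c ^ 2)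
  have h3 := min_le_right 1 (c ^ 2)
  have h4 := sq_nonneg a
  have h5 := sq_nonneg b
  rcases min_choice 1 (a ^ 2) with e | e <;> rcases min_choice 1 (b ^ 2) with e' | e' <;>
    rw [e, e'] <;> linarith

theorem min_mul {a c n : ℝ} (hc : 0 ≤ c) (h : c ≤ |n| * a) :
    min 1 (c ^ 2) ≤ (n ^ 2 + 1) * min 1 (a ^ 2) := by
  have h1 : c ^ 2 ≤ n ^ 2 * a ^ 2 := by
    have := pow_le_pow_left₀ hc h 2
    rwa [mul_pow, sq_abs] at this
  have h2 := min_le_left 1 (c ^ 2)
  have h3 := min_le_right 1 (c ^ 2)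
  have h4 := sq_nonneg a
  have h5 := sq_nonneg n
  rcases min_choice 1 (a ^ 2) with e | e <;> rw [e] <;> linarith

theorem nn (c : ℝ) : 0 ≤ min 1 (c ^ 2) := le_min zero_le_one (sq_nonneg c)

end HGrpA

open HGrpA in
theorem hgrp (hmu : S_mu) : S_H := by
  refine ⟨fun a b ha hb => ?_, fun n a ha => ?_, fun γ δ hδ h => ?_⟩
  · refine Summable.of_nonneg_of_le (fun j => nn _) (fun j => min_add
      (mul_nonneg (Nat.cast_nonneg _) (nd_nonneg _)) ?_) ((ha.mul_left 2).add (hb.mul_left 2))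
    rw [← mul_add, mul_add (pos j : ℝ)]
    exact mul_le_mul_of_nonneg_left (nd_add_le _ _) (Nat.cast_nonneg _)
  · refine Summable.of_nonneg_of_le (fun j => nn _) (fun j => min_mul
      (mul_nonneg (Nat.cast_nonneg _) (nd_nonneg _)) ?_) (ha.mul_left ((n : ℝ) ^ 2 + 1))
    rw [mul_left_comm (pos j : ℝ), mul_left_comm |(n : ℝ)|]
    exact mul_le_mul_of_nonneg_left (nd_int_mul_le _ _) (Nat.cast_nonneg _)
  · refine summable_of_sum_range_le (c := -16 * Real.log (δ ^ 2)) (fun j => nn _) fun K₀ => ?_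
    obtain ⟨K, h1, h2⟩ := h K₀
    refine (sum_le_sum_of_subset_of_nonneg (range_mono h1) fun j _ _ => nn _).trans ?_
    have h3 : δ ^ 2 ≤ Real.exp (∑ j ∈ range K,
        -(1 / 16 * min 1 (((len j : ℝ) * nd ((pos j : ℝ) * γ)) ^ 2))) := by
      refine (pow_le_pow_left₀ hδ.le h2 2).trans ?_
      rw [← prod_pow, Real.exp_sum]
      exact prod_le_prod (fun j _ => sq_nonneg _) fun j _ =>
        (hmu j _).2.2.trans (Real.one_sub_le_exp_neg _)
    rw [← Real.log_le_iff_le_exp (by positivity), sum_neg_distrib, ← mul_sum] at h3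
    linarith

end Pool.Agent.P.MP_2957ea_an.NC
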