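import Pool.Agent.P.MP_2957ea_an.NC.PerBasic

/-!
From pointwise convergence for continuous functions to `L²` convergence for bounded functions.
-/

namespace Pool.Agent.P.MP_2957ea_an.NC

open Finset Filter Topology MeasureTheory Pool.Agent.P.MP_2957ea_an
open scoped BigOperators ENNReal NNReal

universe u

namespace IIA

variable {X : Type u} [MeasurableSpace X] {m : Measure X}

/-- the average of the first `N` terms -/
noncomputable def avg (F : ℕ → X → ℂ) (N : ℕ) : X → ℂ :=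
  fun x => (N : ℂ)⁻¹ * ∑ n ∈ Icc 1 N, F n x

omit [MeasurableSpace X] in
theorem avg_eq (F : ℕ → X → ℂ) (N : ℕ) : avg F N = (N : ℂ)⁻¹ • ∑ n ∈ Icc 1 N, F n := by
  funext x; simp [avg]

theorem avg_mem {F : ℕ → X → ℂ} (h : ∀ n, MemLp (F n) 2 m) (N : ℕ) : MemLp (avg F N) 2 m := by
  rw [avg_eq]; exact (memLp_finsetSum' _ fun n _ => h n).const_smul _

theorem avg_le {F : ℕ → X → ℂ} (h : ∀ n, AEStronglyMeasurable (F n) m) {c : ℝ≥0∞}
    (hc : ∀ n, eLpNorm (F n) 2 m ≤ c) (N : ℕ) : eLpNorm (avg F N) 2 m ≤ c := by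
  rw [avg_eq, eLpNorm_const_smul]
  have h1 : eLpNorm (∑ n ∈ Icc 1 N, F n) 2 m ≤ N * c :=
    (eLpNorm_sum_le (fun n _ => h n) one_le_two).trans
      ((sum_le_card_nsmul _ _ c fun n _ => hc n).trans (by simp))
  refine (mul_le_mul_right h1 _).trans ?_
  rw [← mul_assoc]
  refine mul_le_of_le_one_left (by simp) ?_
  rcases Nat.eq_zero_or_pos N with rfl | hN
  · simp
  · rw [enorm_inv (by exact_mod_cast hN.ne')]
    have : ‖(N : ℂ)‖ₑ = N := by rw [← ofReal_norm_eq_enorm, Complex.norm_natCast]; simp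
    rw [this]
    exact ENNReal.inv_mul_le_one (N : ℝ≥0∞)

omit [MeasurableSpace X] in
theorem avg_bd {F : ℕ → X → ℂ} {C : ℝ} (hC : 0 ≤ C) (h : ∀ n x, ‖F n x‖ ≤ C) (N : ℕ) (x : X) :
    ‖avg F N x‖ ≤ C := by
  have h1 : ‖∑ n ∈ Icc 1 N, F n x‖ ≤ N * C :=
    (norm_sum_le _ _).trans ((sum_le_card_nsmul _ _ C fun n _ => h n x).trans (by simp))
  rw [avg, norm_mul, norm_inv, Complex.norm_natCast]
  refine (mul_le_mul_of_nonneg_left h1 (by positivity)).trans ?_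
  rw [← mul_assoc]
  exact mul_le_of_le_one_left hC inv_mul_le_one

theorem conv [IsProbabilityMeasure m] {F : ℕ → X → ℂ} (hF : ∀ n, MemLp (F n) 2 m) {C : ℝ}
    (hC : 0 ≤ C) (h : ∀ n x, ‖F n x‖ ≤ C)
    (hl : ∀ x, ∃ L : ℂ, Tendsto (fun N => avg F N x) atTop (𝓝 L)) :
    CauchySeq fun N => (avg_mem hF N).toLp _ := by
  choose L hL using hl
  have hm : AEStronglyMeasurable L m := aestronglyMeasurable_of_tendsto_ae atTop
    (fun N => (avg_mem hF N).1) (Eventually.of_forall hL)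
  have hL2 : MemLp L 2 m := MemLp.of_bound hm C (Eventually.of_forall fun x =>
    le_of_tendsto' (hL x).norm fun N => avg_bd hC h N x)
  refine Tendsto.cauchySeq (x := hL2.toLp _) ?_
  rw [Lp.tendsto_Lp_iff_tendsto_eLpNorm'']
  refine tendsto_Lp_finite_of_tendsto_ae one_le_two (by simp) (fun N => (avg_mem hF N).1) hL2
    (unifIntegrable_of one_le_two (by simp) (fun N => (avg_mem hF N).1) fun ε _ =>
      ⟨(C + 1).toNNReal, fun N => ?_⟩) (Eventually.of_forall hL)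
  have : {x | (C + 1).toNNReal ≤ ‖avg F N x‖₊} = ∅ :=
    Set.eq_empty_of_forall_notMem fun x hx => by
      have h1 : C + 1 ≤ ‖avg F N x‖ := Real.toNNReal_le_iff_le_coe.1 hx
      linarith [avg_bd hC h N x]
  rw [this]
  simp

theorem mul_le {u v : X → ℂ} {S T : X → X} (hS : MeasurePreserving S m m)
    (hT : MeasurePreserving T m m) (hu : AEStronglyMeasurable u m) {B : ℝ≥0}
    (hv : ∀ᵐ x ∂m, ‖v x‖ ≤ B) :
    eLpNorm (fun x => u (S x) * v (T x)) 2 m ≤ B * eLpNorm u 2 m := by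
  rw [← eLpNorm_comp_measurePreserving hu hS]
  refine eLpNorm_le_nnreal_smul_eLpNorm_of_ae_le_mul ?_ 2
  filter_upwards [hT.quasiMeasurePreserving.ae hv] with x hx
  rw [nnnorm_mul, mul_comm]
  exact mul_le_mul_left (show ‖v (T x)‖₊ ≤ B from hx) _

end IIA

open IIA in
theorem ii : S_ii.{u} := by
  intro X _ _ _ _ _ _ m _ T₁ T₂ h₁ h₂ hc f₁ f₂ hf₁ hf₂
  have hmem : ∀ {u v : X → ℂ}, MemLp u ⊤ m → MemLp v ⊤ m → ∀ n,
      MemLp (fun x => u (T₁ n x) * v (T₂ n x)) 2 m := fun hu hv n =>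
    MemLp.mono_exponent (q := ⊤) (MemLp.mul' (hv.comp_measurePreserving (h₂ n))
      (hu.comp_measurePreserving (h₁ n))) le_top
  have hcau : CauchySeq fun N => (avg_mem (hmem hf₁ hf₂) N).toLp _ := by
    refine Metric.cauchySeq_iff.2 fun ε hε => ?_
    obtain ⟨B, hB⟩ : ∃ B : ℝ≥0, ∀ᵐ x ∂m, ‖f₂ x‖ ≤ B :=
      (eLpNormEssSup_lt_top_iff_isBoundedUnder.1 (by simpa using hf₂.2)).imp fun B hB => hB
    obtain ⟨δ, hδ, hδ'⟩ : ∃ δ : ℝ≥0, 0 < δ ∧ (δ : ℝ) = ε / 8 := ⟨⟨ε / 8, by positivity⟩,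
      show (0 : ℝ) < ε / 8 by positivity, rfl⟩
    obtain ⟨g₁, e₁, -⟩ := (hf₁.mono_exponent (p := 2) le_top).exists_boundedContinuous_eLpNorm_sub_le
      (by simp) (ε := ((δ / (B + 1) : ℝ≥0) : ℝ≥0∞)) (by simp [hδ.ne'])
    obtain ⟨g₂, e₂, -⟩ := (hf₂.mono_exponent (p := 2) le_top).exists_boundedContinuous_eLpNorm_sub_le
      (by simp) (ε := ((δ / (‖g₁‖₊ + 1) : ℝ≥0) : ℝ≥0∞)) (by simp [hδ.ne'])
    have m₁ : MemLp g₁ ⊤ m := g₁.memLp_top
    have m₂ : MemLp g₂ ⊤ m := g₂.memLp_top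
    have key : ∀ c : ℝ≥0, (c : ℝ≥0∞) * ((δ / (c + 1) : ℝ≥0) : ℝ≥0∞) ≤ δ := fun c => by
      rw [← ENNReal.coe_mul, ENNReal.coe_le_coe, mul_div_assoc', div_le_iff₀ (by positivity),
        mul_comm]
      exact mul_le_mul_right (by simp) _
    have hd : ∀ N, dist ((avg_mem (hmem hf₁ hf₂) N).toLp _) ((avg_mem (hmem m₁ m₂) N).toLp _) ≤
        ε / 4 := by
      intro N
      rw [dist_eq_norm, ← MemLp.toLp_sub, Lp.norm_toLp]
      have e : avg (fun n x => f₁ (T₁ n x) * f₂ (T₂ n x)) N -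
          avg (fun n x => g₁ (T₁ n x) * g₂ (T₂ n x)) N =
          avg (fun n => (fun x => (f₁ - g₁) (T₁ n x) * f₂ (T₂ n x)) +
            fun x => (f₂ - g₂) (T₂ n x) * g₁ (T₁ n x)) N := by
        funext x
        simp only [avg, Pi.sub_apply, Pi.add_apply, ← mul_sub, ← sum_sub_distrib]
        exact congrArg _ (sum_congr rfl fun n _ => by ring)
      have a₁ := fun n => (hmem (hf₁.sub m₁) hf₂ n).1
      have a₂ : ∀ n, AEStronglyMeasurable (fun x => (f₂ - g₂) (T₂ n x) * g₁ (T₁ n x)) m :=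
        fun n => by simpa only [mul_comm] using (hmem m₁ (hf₂.sub m₂) n).1
      refine ENNReal.toReal_le_of_le_ofReal (by positivity) (e ▸ avg_le
        (fun n => (a₁ n).add (a₂ n)) (fun n => (eLpNorm_add_le (a₁ n) (a₂ n) one_le_two).trans ?_) N)
      have b₁ := (mul_le (h₁ n) (h₂ n) (hf₁.sub m₁).1 hB).trans
        ((mul_le_mul_right e₁ _).trans (key B))
      have b₂ := (mul_le (h₂ n) (h₁ n) (hf₂.sub m₂).1 (B := ‖g₁‖₊)
        (Eventually.of_forall g₁.norm_coe_le_norm)).trans ((mul_le_mul_right e₂ _).trans (key _))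
      refine (add_le_add b₁ b₂).trans (le_of_eq ?_)
      rw [← ENNReal.coe_add, ← ENNReal.ofReal_coe_nnreal, NNReal.coe_add, hδ']
      congr 1; ring
    obtain ⟨K, hK⟩ := Metric.cauchySeq_iff.1 (conv (hmem m₁ m₂) (C := ‖g₁‖ * ‖g₂‖) (by positivity)
      (fun n x => by
        rw [norm_mul]
        exact mul_le_mul (g₁.norm_coe_le_norm _) (g₂.norm_coe_le_norm _) (norm_nonneg _)
          (norm_nonneg _)) (hc g₁ g₂ g₁.continuous g₂.continuous)) (ε / 4) (by positivity)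
    refine ⟨K, fun a ha b hb => (dist_triangle4 _ ((avg_mem (hmem m₁ m₂) a).toLp _)
      ((avg_mem (hmem m₁ m₂) b).toLp _) _).trans_lt ?_⟩
    have := hd b
    rw [dist_comm] at this
    linarith [hd a, hK a ha b hb]
  obtain ⟨g, hg⟩ := cauchySeq_tendsto_of_complete hcau
  refine ⟨g, Lp.memLp g, ?_⟩
  rw [← Lp.toLp_coeFn g (Lp.memLp g), Lp.tendsto_Lp_iff_tendsto_eLpNorm''] at hg
  exact hg

end Pool.Agent.P.MP_2957ea_an.NC
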