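import Pool.Agent.P.MP_2957ea_an.NC.PerBasic

/-!
The value at zero of a periodic function is close to a fixed combination of Fourier coefficients.
-/

namespace Pool.Agent.P.MP_2957ea_an.NC

open Finset Filter Topology Pool.Agent.P.MP_2957ea_an
open scoped BigOperators

namespace L1A

theorem approx (g : C(UnitAddCircle, ℂ)) {η : ℝ} (hη : 0 < η) :
    ∃ c : ℤ →₀ ℂ, ∀ t : ℝ, ‖g t - ∑ n ∈ c.support, c n * ee (n * t)‖ ≤ η := by
  have h : g ∈ (Submodule.span ℂ (Set.range (@fourier 1))).topologicalClosure := by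
    rw [span_fourier_closure_eq_top]; trivial
  obtain ⟨P, hP, hd⟩ := Metric.mem_closure_iff.1 h η hη
  obtain ⟨c, rfl⟩ := (Finsupp.mem_span_range_iff_exists_finsupp).1 hP
  refine ⟨c, fun t => ?_⟩
  have h1 := (ContinuousMap.dist_apply_le_dist (t : UnitAddCircle)).trans hd.le
  rw [dist_eq_norm] at h1
  refine le_of_eq_of_le (congrArg (fun z => ‖g t - z‖) ?_) h1
  simp only [Finsupp.sum, ContinuousMap.coe_sum, Finset.sum_apply, ContinuousMap.smul_apply,
    smul_eq_mul, fourier_coe_apply, ee]
  refine sum_congr rfl fun n _ => ?_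
  congr 2
  push_cast; ring

end L1A

theorem l1 : S_L1 := by
  intro B ε ρ hε hρ
  let g : ℝ → ℝ := fun t => max 0 (ρ - nd t)
  have hnd : Continuous nd := by
    simp only [funext nd_eq_norm]; fun_prop
  have hg : Continuous g := continuous_const.max (continuous_const.sub hnd)
  have hg0 : ∀ t, 0 ≤ g t := fun t => le_max_left _ _
  obtain ⟨J, hJ⟩ : ∃ J, J = ∫ t in (0 : ℝ)..1, g t := ⟨_, rfl⟩
  have hJ0 : 0 < J := by
    rw [hJ]
    refine intervalIntegral.integral_pos one_pos hg.continuousOn (fun t _ => hg0 t)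
      ⟨0, by simp, ?_⟩
    simp [g, nd, hρ]
  have hB1 : 0 < |B| + 1 := by positivity
  obtain ⟨c, hc⟩ := L1A.approx
    ⟨fun x : UnitAddCircle => ((max 0 (ρ - ‖x‖) : ℝ) : ℂ), by fun_prop⟩
    (η := ε * J / (|B| + 1)) (by positivity)
  simp only [ContinuousMap.coe_mk, ← nd_eq_norm] at hc
  refine ⟨c.support.map (Equiv.neg ℤ).toEmbedding, fun l => c (-l) / J, fun H hH hper hB hρ' => ?_⟩
  have hJ' : (J : ℂ) ≠ 0 := by exact_mod_cast hJ0.ne'
  have hee : ∀ n : ℤ, Continuous fun t : ℝ => ee (n * t) := fun n =>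
    continuous_ee'.comp (by fun_prop)
  have hP : Continuous fun t : ℝ => ∑ n ∈ c.support, c n * ee (n * t) :=
    continuous_finsetSum _ fun n _ => continuous_const.mul (hee n)
  have hgc : Continuous fun t : ℝ => (g t : ℂ) := Complex.continuous_ofReal.comp hg
  have e1 : ∑ l ∈ c.support.map (Equiv.neg ℤ).toEmbedding,
      c (-l) / J * ∫ t in (0 : ℝ)..1, ee (-((l : ℝ) * t)) * H t =
      (∫ t in (0 : ℝ)..1, (∑ n ∈ c.support, c n * ee (n * t)) * H t) / J := by
    simp only [sum_map, Equiv.coe_toEmbedding, Equiv.neg_apply, neg_neg, Int.cast_neg, neg_mul,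
      sum_mul]
    rw [intervalIntegral.integral_finsetSum (fun n _ =>
      ((continuous_const.fun_mul (hee n)).fun_mul hH).intervalIntegrable _ _), sum_div]
    refine sum_congr rfl fun n _ => ?_
    simp only [mul_assoc]
    rw [intervalIntegral.integral_const_mul]; ring
  have e2 : H 0 * J - ∫ t in (0 : ℝ)..1, (∑ n ∈ c.support, c n * ee (n * t)) * H t =
      (∫ t in (0 : ℝ)..1, (g t : ℂ) * (H 0 - H t)) +
        ∫ t in (0 : ℝ)..1, ((g t : ℂ) - ∑ n ∈ c.support, c n * ee (n * t)) * H t := by
    rw [← intervalIntegral.integral_add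
      ((hgc.fun_mul (continuous_const.fun_sub hH)).intervalIntegrable _ _)
      (((hgc.fun_sub hP).fun_mul hH).intervalIntegrable _ _), hJ, ← intervalIntegral.integral_ofReal,
      ← intervalIntegral.integral_const_mul, ← intervalIntegral.integral_sub
        ((continuous_const.fun_mul hgc).intervalIntegrable _ _)
        ((hP.fun_mul hH).intervalIntegrable _ _)]
    exact intervalIntegral.integral_congr fun t _ => by ring
  have b1 : ‖∫ t in (0 : ℝ)..1, (g t : ℂ) * (H 0 - H t)‖ ≤ ε * J := by
    rw [hJ, ← intervalIntegral.integral_const_mul]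
    refine intervalIntegral.norm_integral_le_of_norm_le zero_le_one (Eventually.of_forall
      fun t _ => ?_) ((continuous_const.mul hg).intervalIntegrable _ _)
    rw [norm_mul, Complex.norm_real, Real.norm_of_nonneg (hg0 t), mul_comm ε]
    by_cases ht : nd t ≤ ρ
    · have h1 := hρ' (t - round t) ht
      have h2 : H (t - round t) = H t := by
        simpa using (Function.Periodic.int_mul (f := H) (c := 1) hper (round t)).sub_eq t
      rw [h2, norm_sub_rev] at h1
      exact mul_le_mul_of_nonneg_left h1 (hg0 t)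
    · have : g t = 0 := max_eq_left (by linarith [not_le.1 ht])
      simp [this]
  have b2 : ‖∫ t in (0 : ℝ)..1, ((g t : ℂ) - ∑ n ∈ c.support, c n * ee (n * t)) * H t‖ ≤
      ε * J := by
    refine (intervalIntegral.norm_integral_le_of_norm_le_const (C := ε * J) fun t _ => ?_).trans
      (by simp)
    rw [norm_mul]
    calc _ ≤ ε * J / (|B| + 1) * (|B| + 1) :=
          mul_le_mul (hc t) ((hB t).trans (by linarith [le_abs_self B])) (norm_nonneg _)
            (by positivity)
      _ = _ := div_mul_cancel₀ _ hB1.ne'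
  rw [e1, ← mul_div_cancel_right₀ (H 0) hJ', ← sub_div, e2, norm_div, Complex.norm_real,
    Real.norm_of_nonneg hJ0.le, div_le_iff₀ hJ0]
  exact (norm_add_le _ _).trans (by linarith)

end Pool.Agent.P.MP_2957ea_an.NC
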