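import Pool.Agent.P.MP_2957ea_an.NC.PerBasic

/-!
One-parameter subgroups of a Lie group.
-/

namespace Pool.Agent.P.MP_2957ea_an.NC

open Finset Filter Topology Pool.Agent.P.MP_2957ea_an
open scoped BigOperators

universe u

namespace Lie1A

variable {E : Type*} [NormedAddCommGroup E] [NormedSpace ℝ E] {H : Type*} [TopologicalSpace H]
  {I : ModelWithCorners ℝ E H} {G : Type*} [TopologicalSpace G] [ChartedSpace H G] [Group G]
  [LieGroup I (minSmoothness ℝ 3) G]

theorem mdiff (g h : G) : MDifferentiableAt I I (fun x => g * x) h :=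
  (contMDiff_mul_left (n := minSmoothness ℝ 3)).contMDiffAt.mdifferentiableAt
    (lt_of_lt_of_le (by simp) le_minSmoothness).ne'

theorem field_mul (v : GroupLieAlgebra I G) (g h : G) :
    mulInvariantVectorField v (g * h) =
      mfderiv I I (fun x => g * x) h (mulInvariantVectorField v h) := by
  have D : (fun x => g * h * x) = (fun x => g * x) ∘ fun x => h * x :=
    funext fun x => mul_assoc _ _ _
  unfold mulInvariantVectorField
  rw [D, mfderiv_comp (I' := I) _ (mdiff _ _) (mdiff _ _)]
  have e : ∀ y, y = h → ∀ w : E, (mfderiv I I (fun x => g * x) y w : E) =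
      mfderiv I I (fun x => g * x) h w := by
    rintro y rfl w
    rfl
  exact e _ (mul_one h) _

theorem translate {v : GroupLieAlgebra I G} {γ : ℝ → G} {s : Set ℝ}
    (h : IsMIntegralCurveOn γ (mulInvariantVectorField v) s) (g : G) :
    IsMIntegralCurveOn (fun t => g * γ t) (mulInvariantVectorField v) s := by
  intro t ht
  have h1 := (mdiff (I := I) g (γ t)).hasMFDerivAt.comp_hasMFDerivWithinAt t (h t ht)
  refine h1.congr_mfderiv (ContinuousLinearMap.ext fun a => ?_)
  rw [field_mul]
  exact map_smul (mfderiv I I (fun x => g * x) (γ t)) _ _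

end Lie1A

open Lie1A in
theorem lie1 : S_lie1.{u} := by
  intro d G _ _ _ _ _ v
  let I := modelWithCornersSelf ℝ (Fin d → ℝ)
  have : LieGroup I (minSmoothness ℝ 3) G :=
    LieGroup.of_le (n := ((⊤ : ℕ∞) : WithTop ℕ∞)) (by
      rw [minSmoothness_of_isRCLikeNormedField]
      exact WithTop.coe_le_coe.2 (le_top (a := (3 : ℕ∞))))
  have : IsManifold I 1 G := IsManifold.of_le (n := ((⊤ : ℕ∞) : WithTop ℕ∞)) (by exact_mod_cast le_top)
  let V := mulInvariantVectorField (I := I) (G := G) v
  have hV : ContMDiff I I.tangent 1 fun x => (⟨x, V x⟩ : TangentBundle I G) :=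
    (contMDiff_mulInvariantVectorField v).of_le (le_trans (by norm_num) le_minSmoothness)
  obtain ⟨γ, g0, hγ⟩ := exists_isMIntegralCurveAt_of_contMDiffAt_boundaryless 0 (hV 1)
  obtain ⟨ε, ε0, hε⟩ := isMIntegralCurveAt_iff'.1 hγ
  rw [Real.ball_eq_Ioo, zero_sub, zero_add] at hε
  obtain ⟨p, p0, hp⟩ := exists_isMIntegralCurve_of_isMIntegralCurveOn hV ε0
    (fun x => ⟨_, by simp only [g0, mul_one], translate hε x⟩) 1
  refine ⟨p, hp.continuous, fun s t => ?_, ?_⟩
  · have h1 := isMIntegralCurve_Ioo_eq_of_contMDiff_boundaryless (t₀ := 0) hV (hp.comp_add s)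
      (isMIntegralCurve_iff_isMIntegralCurveOn.2 (translate (hp.isMIntegralCurveOn _) (p s)))
      (by simp [p0])
    rw [add_comm]
    exact congrFun h1 t
  · have h1 : ContinuousAt (fun t => tangentCoordChange I (p t) (p 0) (p t) (V (p t))) 0 :=
      ((FiberBundle.continuousAt_totalSpace _ _).1
        (hV.continuous.comp hp.continuous).continuousAt).2
    have h2 := hasStrictDerivAt_of_hasDerivAt_of_continuousAt
      (hp.isMIntegralCurveAt 0).eventually_hasDerivAt h1
    rw [tangentCoordChange_self (mem_extChartAt_source _), p0] at h2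
    have h3 : V 1 = v := by
      have D : (fun x : G => 1 * x) = id := funext one_mul
      change mfderiv I I (fun x : G => 1 * x) 1 v = v
      rw [D, mfderiv_id]
      rfl
    rw [h3] at h2
    exact h2

end Pool.Agent.P.MP_2957ea_an.NC
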