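import Pool.Agent.P.MP_2957ea_an.NC.PerBasic

/-!
Products of one-parameter curves fill a neighbourhood of the identity of a Lie group.
-/

namespace Pool.Agent.P.MP_2957ea_an.NC

open Finset Filter Topology Pool.Agent.P.MP_2957ea_an
open scoped BigOperators

universe u

namespace Lie2A

variable {E : Type} [NormedAddCommGroup E] [NormedSpace ℝ E] {G : Type u} [Group G]
  [TopologicalSpace G] [ChartedSpace E G]
  [LieGroup (modelWithCornersSelf ℝ E) ((⊤ : ℕ∞) : WithTop ℕ∞) G]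

theorem mul_chart : HasStrictFDerivAt
    (fun ab : E × E => chartAt E (1 : G) ((chartAt E (1 : G)).symm ab.1 *
      (chartAt E (1 : G)).symm ab.2))
    (ContinuousLinearMap.fst ℝ E E + ContinuousLinearMap.snd ℝ E E)
    (chartAt E (1 : G) 1, chartAt E (1 : G) 1) := by
  obtain ⟨φ, hφ⟩ : ∃ φ, φ = chartAt E (1 : G) := ⟨_, rfl⟩
  have h1 : (1 : G) ∈ φ.source := hφ ▸ mem_chart_source E 1
  have ht : φ.target ∈ 𝓝 (φ 1) := φ.open_target.mem_nhds (φ.map_source h1)
  have e1 : φ.symm (φ 1) = 1 := φ.left_inv h1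
  have hs : ContMDiffAt (modelWithCornersSelf ℝ E) (modelWithCornersSelf ℝ E)
      ((⊤ : ℕ∞) : WithTop ℕ∞) φ.symm (φ 1) := by
    subst hφ; exact contMDiffOn_chart_symm.contMDiffAt ht
  have hc : ContMDiffAt (modelWithCornersSelf ℝ E) (modelWithCornersSelf ℝ E)
      ((⊤ : ℕ∞) : WithTop ℕ∞) φ (φ.symm (φ 1) * φ.symm (φ 1)) := by
    rw [e1, one_mul]
    subst hφ; exact contMDiffOn_chart.contMDiffAt (chart_source_mem_nhds E 1)
  have hm : ContDiffAt ℝ ((⊤ : ℕ∞) : WithTop ℕ∞)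
      (fun ab : E × E => φ (φ.symm ab.1 * φ.symm ab.2)) (φ 1, φ 1) :=
    ContMDiffAt.contDiffAt (hc.comp (φ 1, φ 1)
      (f := fun ab : E × E => φ.symm ab.1 * φ.symm ab.2)
      ((hs.comp (φ 1, φ 1) (f := Prod.fst) contDiff_fst.contMDiff.contMDiffAt).mul
        (hs.comp (φ 1, φ 1) (f := Prod.snd) contDiff_snd.contMDiff.contMDiffAt)))
  have hd := hm.hasStrictFDerivAt (by simp)
  rw [← hφ]
  obtain ⟨D, hD⟩ : ∃ D, D = fderiv ℝ (fun ab : E × E => φ (φ.symm ab.1 * φ.symm ab.2))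
    (φ 1, φ 1) := ⟨_, rfl⟩
  rw [← hD] at hd
  have l1 : D.comp (ContinuousLinearMap.inl ℝ E E) = ContinuousLinearMap.id ℝ E := by
    refine (hd.hasFDerivAt.comp (φ 1) (f := fun a => (a, φ 1))
      (hasFDerivAt_prodMk_left (φ 1) (φ 1))).unique
      ((hasFDerivAt_id (φ 1)).congr_of_eventuallyEq ?_)
    filter_upwards [ht] with a ha
    simp [e1, φ.right_inv ha]
  have l2 : D.comp (ContinuousLinearMap.inr ℝ E E) = ContinuousLinearMap.id ℝ E := by
    refine (hd.hasFDerivAt.comp (φ 1) (f := fun a => (φ 1, a))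
      (hasFDerivAt_prodMk_right (φ 1) (φ 1))).unique
      ((hasFDerivAt_id (φ 1)).congr_of_eventuallyEq ?_)
    filter_upwards [ht] with a ha
    simp [e1, φ.right_inv ha]
  have : D = ContinuousLinearMap.fst ℝ E E + ContinuousLinearMap.snd ℝ E E := by
    refine ContinuousLinearMap.ext fun ab => ?_
    have a1 := ContinuousLinearMap.ext_iff.1 l1 ab.1
    have a2 := ContinuousLinearMap.ext_iff.1 l2 ab.2
    simp only [ContinuousLinearMap.comp_apply, ContinuousLinearMap.inl_apply,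
      ContinuousLinearMap.inr_apply, ContinuousLinearMap.id_apply] at a1 a2
    have : ab = (ab.1, 0) + (0, ab.2) := by simp
    rw [this, map_add, a1, a2]; simp
  rwa [← this]

/-- a curve through the identity with a strict derivative in the chart -/
def Der (f : E → G) (A : E →L[ℝ] E) : Prop :=
  ContinuousAt f 0 ∧ f 0 = 1 ∧ HasStrictFDerivAt (fun w => chartAt E (1 : G) (f w)) A 0

theorem Der.source {f : E → G} {A : E →L[ℝ] E} (h : Der f A) :
    ∀ᶠ w in 𝓝 0, f w ∈ (chartAt E (1 : G)).source :=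
  h.1.eventually_mem (by rw [h.2.1]; exact chart_source_mem_nhds E 1)

theorem Der.mul {f g : E → G} {A B : E →L[ℝ] E} (hf : Der f A) (hg : Der g B) :
    Der (fun w => f w * g w) (A + B) := by
  have : IsTopologicalGroup G :=
    topologicalGroup_of_lieGroup (modelWithCornersSelf ℝ E) ((⊤ : ℕ∞) : WithTop ℕ∞)
  refine ⟨hf.1.mul hg.1, by simp [hf.2.1, hg.2.1], ?_⟩
  have h1 := mul_chart (E := E) (G := G)
  have h2 := HasStrictFDerivAt.comp (0 : E)
    (f := fun w => (chartAt E (1 : G) (f w), chartAt E (1 : G) (g w)))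
    (by simpa only [hf.2.1, hg.2.1] using h1) (hf.2.2.prodMk hg.2.2)
  refine (h2.congr_of_eventuallyEq ?_).congr_fderiv (by ext; simp)
  filter_upwards [hf.source, hg.source] with w a b
  simp [(chartAt E (1 : G)).left_inv a, (chartAt E (1 : G)).left_inv b]

theorem der_ofFn {m : ℕ} (f : Fin m → E → G) (A : Fin m → E →L[ℝ] E) (h : ∀ i, Der (f i) (A i)) :
    Der (fun w => (List.ofFn fun i => f i w).prod) (∑ i, A i) := by
  induction m with
  | zero => exact ⟨by simpa using continuousAt_const, by simp, by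
      simpa using hasStrictFDerivAt_const _ _⟩
  | succ m ih =>
    simp only [List.ofFn_succ, List.prod_cons, Fin.sum_univ_succ]
    exact (h 0).mul (ih _ _ fun i => h i.succ)

end Lie2A

theorem lie2 : S_lie2.{u} := by
  intro d G _ _ _ _ _ p hc h0 hd
  have h := Lie2A.der_ofFn (E := Fin d → ℝ) (fun i w => p i (w i))
    (fun i => (ContinuousLinearMap.toSpanSingleton ℝ (Pi.single i 1 : Fin d → ℝ)).comp
      (ContinuousLinearMap.proj i)) fun i =>
    ⟨((hc i).comp (continuous_apply i)).continuousAt, h0 i,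
      HasStrictFDerivAt.comp (0 : Fin d → ℝ) (f := fun w : Fin d → ℝ => w i)
        (hd i).hasStrictFDerivAt (hasStrictFDerivAt_apply i 0)⟩
  have e : ∑ i, (ContinuousLinearMap.toSpanSingleton ℝ (Pi.single i 1 : Fin d → ℝ)).comp
      (ContinuousLinearMap.proj (R := ℝ) (φ := fun _ : Fin d => ℝ) i) =
      (ContinuousLinearEquiv.refl ℝ (Fin d → ℝ) : (Fin d → ℝ) →L[ℝ] (Fin d → ℝ)) := by
    refine ContinuousLinearMap.ext fun w => ?_
    simpa [ContinuousLinearMap.sum_apply] using (pi_eq_sum_univ' w).symm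
  rw [e] at h
  obtain ⟨F, hF⟩ : ∃ F, F = fun w : Fin d → ℝ => (List.ofFn fun i => p i (w i)).prod := ⟨_, rfl⟩
  rw [← hF] at h ⊢
  have h1 := h.2.2.map_nhds_eq_of_equiv
  rw [h.2.1] at h1
  have h2 : (fun w => chartAt (Fin d → ℝ) (1 : G) (F w)) ''
      (Metric.closedBall 0 1 ∩ {w | F w ∈ (chartAt (Fin d → ℝ) (1 : G)).source}) ∈
        𝓝 (chartAt (Fin d → ℝ) (1 : G) 1) := by
    rw [← h1]
    exact image_mem_map (inter_mem (Metric.closedBall_mem_nhds _ one_pos) h.source)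
  filter_upwards [((chartAt (Fin d → ℝ) (1 : G)).continuousAt (mem_chart_source _ 1)).eventually_mem
    h2, chart_source_mem_nhds (Fin d → ℝ) (1 : G)] with g ⟨w, hw, e⟩ hg
  exact ⟨w, hw.1, (chartAt (Fin d → ℝ) (1 : G)).injOn hw.2 hg e⟩

end Pool.Agent.P.MP_2957ea_an.NC
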