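import Mathlib
import Pool.Agent.P.MP_2957ea_an.NC.PerBasic

/-!
The main case: all digit steps are quasi-periods up to small errors.
-/

namespace Pool.Agent.P.MP_2957ea_an.NC

open Finset Filter Topology Pool.Agent.P.MP_2957ea_an
open scoped BigOperators

namespace MainA

/-- The places `K₀ + k - 1, …, K₀`. -/
def tl (K₀ : ℕ) : ℕ → List ℕ
  | 0 => []
  | k + 1 => (K₀ + k) :: tl K₀ k

theorem rl_add (K₀ k : ℕ) : rl (K₀ + k) = tl K₀ k ++ rl K₀ := by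
  induction k with
  | zero => rfl
  | succ k ih =>
    show (K₀ + k) :: rl (K₀ + k) = _
    rw [ih]
    rfl

theorem val_tl (K₀ k : ℕ) : ∀ s : Box (tl K₀ k),
    val _ s + reach K₀ ≤ reach (K₀ + k) ∧ (pos K₀ : ℤ) ∣ val _ s := by
  induction k with
  | zero => intro s; exact ⟨by simp [tl, val], by simp [tl, val]⟩
  | succ k ih =>
    intro s
    have h1 := ih s.2
    have h2 : ((s.1 : ℕ) : ℤ) ≤ len (K₀ + k) := by exact_mod_cast s.1.2.le
    have h3 : (reach (K₀ + (k + 1)) : ℤ) = reach (K₀ + k) + len (K₀ + k) * pos (K₀ + k) := by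
      have : reach (K₀ + k + 1) = reach (K₀ + k) + len (K₀ + k) * pos (K₀ + k) :=
        sum_range_succ _ _
      exact_mod_cast this
    have h4 : val (tl K₀ (k + 1)) s =
        ((s.1 : ℕ) : ℤ) * (pos (K₀ + k) : ℤ) + val (tl K₀ k) s.2 := rfl
    rw [h3, h4]
    refine ⟨by nlinarith [Int.natCast_nonneg (pos (K₀ + k))], dvd_add ?_ h1.2⟩
    exact Dvd.dvd.mul_left (by exact_mod_cast pos_dvd_of_le (Nat.le_add_right K₀ k)) _

theorem EA_append (A B : List ℕ) (ψ : ℤ → ℂ) (n : ℤ) : EA (A ++ B) ψ n =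
    𝔼 s : Box B, 𝔼 s' : Box B, EA A ψ (val B s - val B s' + n) := by
  unfold EA
  rw [expect_val_append A B fun v => 𝔼 s' : Box (A ++ B), ψ (n + v - val _ s'), expect_comm]
  refine expect_congr rfl fun t _ => ?_
  have e : ∀ s : Box A, 𝔼 s' : Box (A ++ B), ψ (n + (val A s + val B t) - val _ s') =
      𝔼 t' : Box B, 𝔼 s' : Box A, ψ (val B t - val B t' + n + val A s - val A s') := by
    intro s
    rw [expect_val_append A B fun v => ψ (n + (val A s + val B t) - v), expect_comm]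
    refine expect_congr rfl fun t' _ => expect_congr rfl fun s' _ => ?_
    congr 1
    ring
  simp only [e]
  rw [expect_comm]

theorem tendsto_expect {ι : Type*} [Fintype ι] {f : ι → ℕ → ℂ}
    (h : ∀ i, ∃ L, Tendsto (f i) atTop (𝓝 L)) :
    ∃ L, Tendsto (fun K => 𝔼 i : ι, f i K) atTop (𝓝 L) := by
  choose L hL using h
  refine ⟨𝔼 i : ι, L i, ?_⟩
  simp only [expect_eq_sum_div_card]
  exact (tendsto_finsetSum _ fun i _ => hL i).div_const _

theorem expect_ee_diff (j : ℕ) (φ : ℝ) :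
    𝔼 u : Fin (len j), 𝔼 u' : Fin (len j), ee (((((u : ℕ) : ℤ) - ((u' : ℕ) : ℤ) : ℤ) : ℝ) * φ) =
      ((‖mu j φ‖ ^ 2 : ℝ) : ℂ) := by
  have h1 : (starRingEnd ℂ) (mu j φ) = 𝔼 u' : Fin (len j), ee (-(((u' : ℕ) : ℝ) * φ)) := by
    unfold mu
    simp only [expect_eq_sum_div_card, map_div₀, map_sum, conj_ee, map_natCast]
  rw [Complex.ofReal_pow, ← Complex.mul_conj', h1, mu, expect_mul_expect]
  refine expect_congr rfl fun u _ => expect_congr rfl fun u' _ => ?_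
  rw [← ee_add]
  congr 1
  push_cast
  ring

theorem expect_diff_zero (j : ℕ) : 𝔼 u : Fin (len j), 𝔼 u' : Fin (len j),
    (((((u : ℕ) : ℤ) - ((u' : ℕ) : ℤ) : ℤ) : ℝ)) = 0 := by
  push_cast
  simp only [expect_sub_distrib, Fintype.expect_const, sub_self]

theorem abs_diff_le (j : ℕ) (u u' : Fin (len j)) :
    |(((((u : ℕ) : ℤ) - ((u' : ℕ) : ℤ) : ℤ) : ℝ))| ≤ len j := by
  have h1 := u.2
  have h2 := u'.2
  have : |((u : ℕ) : ℤ) - ((u' : ℕ) : ℤ)| ≤ (len j : ℤ) := abs_le.2 ⟨by omega, by omega⟩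
  exact_mod_cast this

theorem expect_quad_le (j : ℕ) (a b c : ℝ) (hc : 0 ≤ c) :
    𝔼 u : Fin (len j), 𝔼 u' : Fin (len j),
      (a + b * (((((u : ℕ) : ℤ) - ((u' : ℕ) : ℤ) : ℤ) : ℝ)) +
        c * (((((u : ℕ) : ℤ) - ((u' : ℕ) : ℤ) : ℤ) : ℝ)) ^ 2) ≤ a + c * (len j : ℝ) ^ 2 := by
  simp only [expect_add_distrib, ← mul_expect, expect_diff_zero, Fintype.expect_const, mul_zero,
    add_zero]
  gcongr
  refine expect_le univ_nonempty fun u _ => expect_le univ_nonempty fun u' _ => ?_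
  exact sq_le_sq' (abs_le.1 (abs_diff_le j u u')).1 (abs_le.1 (abs_diff_le j u u')).2

theorem conv_prod (hmu : S_mu) (φ : ℕ → ℝ) (K₀ : ℕ) : ∃ L, Tendsto
    (fun k => ee (φ (K₀ + k)) * ((∏ j ∈ range k, ‖mu (K₀ + j) (φ (K₀ + j))‖ ^ 2 : ℝ) : ℂ))
    atTop (𝓝 L) := by
  set P : ℕ → ℝ := fun k => ∏ j ∈ range k, ‖mu (K₀ + j) (φ (K₀ + j))‖ ^ 2 with hP
  have hnn : ∀ k, 0 ≤ P k := fun k => prod_nonneg fun j _ => by positivity
  have hs : ∀ k, P (k + 1) = P k * ‖mu (K₀ + k) (φ (K₀ + k))‖ ^ 2 := fun k => prod_range_succ _ _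
  have hanti : Antitone P := antitone_nat_of_succ_le fun k => by
    rw [hs]
    exact mul_le_of_le_one_right (hnn k) (pow_le_one₀ (norm_nonneg _) (hmu _ _).1)
  have hlim := tendsto_atTop_ciInf hanti ⟨0, by rintro _ ⟨k, rfl⟩; exact hnn k⟩
  set p := ⨅ k, P k
  have hlimC : Tendsto (fun k => ((P k : ℝ) : ℂ)) atTop (𝓝 (p : ℂ)) :=
    (Complex.continuous_ofReal.tendsto p).comp hlim
  rcases eq_or_ne p 0 with h0 | h0
  · refine ⟨0, squeeze_zero_norm (fun k => ?_) (h0 ▸ hlim)⟩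
    rw [norm_mul, norm_ee, one_mul, Complex.norm_real, Real.norm_of_nonneg (hnn k)]
  · have hpos : ∀ k, P k ≠ 0 := fun k hk => h0 (le_antisymm
      (hk ▸ ciInf_le ⟨0, by rintro _ ⟨k, rfl⟩; exact hnn k⟩ k) (le_ciInf hnn))
    have h1 : Tendsto (fun k => P (k + 1) / P k) atTop (𝓝 1) := by
      have := (hlim.comp (tendsto_add_atTop_nat 1)).div hlim h0
      rwa [div_self h0] at this
    have h2 : Tendsto (fun k => nd (φ (K₀ + k)) ^ 2) atTop (𝓝 0) := by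
      have h3 : Tendsto (fun k => 16 * (1 - P (k + 1) / P k)) atTop (𝓝 0) := by
        simpa using (h1.const_sub 1).const_mul 16
      refine squeeze_zero (fun k => by positivity) (fun k => ?_) h3
      rw [hs, mul_div_cancel_left₀ _ (hpos k)]
      have h4 := (hmu (K₀ + k) (φ (K₀ + k))).2.2
      have h5 := nd_le_half (φ (K₀ + k))
      have h6 := nd_nonneg (φ (K₀ + k))
      have h7 : (1 : ℝ) ≤ len (K₀ + k) := by exact_mod_cast len_pos _
      have h8 : nd (φ (K₀ + k)) ^ 2 ≤ min 1 (((len (K₀ + k) : ℝ) * nd (φ (K₀ + k))) ^ 2) :=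
        le_min (by nlinarith) (pow_le_pow_left₀ h6 (le_mul_of_one_le_left h6 h7) 2)
      linarith
    have h4 : Tendsto (fun k => nd (φ (K₀ + k))) atTop (𝓝 0) := by
      have := h2.sqrt
      simpa [Real.sqrt_sq (nd_nonneg _)] using this
    have h5 : Tendsto (fun k => ee (φ (K₀ + k))) atTop (𝓝 1) := by
      rw [← tendsto_sub_nhds_zero_iff]
      exact squeeze_zero_norm (fun k => norm_ee_sub_one_le_nd _)
        (by simpa using h4.const_mul (2 * Real.pi))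
    exact ⟨_, h5.mul hlimC⟩

variable {I : Type} [Fintype I] {ω : BF I} {Φ : (I → ℝ) → ℂ}

/-- Squared Euclidean norm. -/
def n2 (S : I → ℝ) : ℝ := ∑ l, S l ^ 2

theorem n2_nonneg (S : I → ℝ) : 0 ≤ n2 S := sum_nonneg fun _ _ => sq_nonneg _

theorem norm_sq_le_n2 (S : I → ℝ) : ‖S‖ ^ 2 ≤ n2 S := by
  rw [← Real.le_sqrt (norm_nonneg _) (n2_nonneg S), pi_norm_le_iff_of_nonneg (Real.sqrt_nonneg _)]
  intro l
  rw [Real.norm_eq_abs]
  exact Real.abs_le_sqrt (single_le_sum (f := fun l => S l ^ 2) (fun _ _ => sq_nonneg _)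
    (mem_univ l))

theorem n2_add_smul (S y : I → ℝ) (d : ℝ) :
    n2 (S + d • y) = n2 S + 2 * (∑ l, S l * y l) * d + n2 y * d ^ 2 := by
  simp only [n2, Pi.add_apply, Pi.smul_apply, smul_eq_mul, mul_sum, sum_mul, ← sum_add_distrib]
  exact sum_congr rfl fun l _ => by ring

/-- The function moved by the Heisenberg element `(S, A)`. -/
noncomputable def mv (ω : BF I) (Φ : (I → ℝ) → ℂ) (S : I → ℝ) (A : ℝ) : (I → ℝ) → ℂ :=
  fun w => ee A * Tt ω S Φ w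

theorem base (halt : ∀ w, ω w w = 0) (hΦ : Continuous Φ) {q : ℕ} (hq : 0 < q)
    (hper : ∀ k : I → ℤ, Per ω Φ ((q : ℝ) • iv k)) {B : ℝ} (hB0 : 0 < B) (hB : ∀ w, ‖Φ w‖ ≤ B)
    {ε : ℝ} (hε : 0 < ε) :
    ∃ C : ℝ, 0 < C ∧ ∀ S A w, ‖mv ω Φ S A w - Φ w‖ ≤ ε + C * (A ^ 2 + n2 S) := by
  obtain ⟨ρ, hρ, h⟩ := unif_Tt halt hΦ hq hper (half_pos hε)
  set r := min ρ (ε / 2 / (2 * Real.pi * B)) with hr
  have hr0 : 0 < r := lt_min hρ (by positivity)
  refine ⟨2 * B / r ^ 2, by positivity, fun S A w => ?_⟩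
  have hT : ‖Tt ω S Φ w‖ ≤ B := by rw [Tt, norm_mul, norm_ee, one_mul]; exact hB _
  have hn := n2_nonneg S
  by_cases hc : |A| ≤ r ∧ ‖S‖ ≤ r
  · have h1 := h S (hc.2.trans (min_le_left _ _)) w
    have h2 : ‖ee A - 1‖ * B ≤ ε / 2 := by
      have h3 : |A| ≤ ε / 2 / (2 * Real.pi * B) := hc.1.trans (min_le_right _ _)
      rw [le_div_iff₀ (by positivity)] at h3
      nlinarith [norm_ee_sub_one_le A]
    have h4 : mv ω Φ S A w - Φ w = (ee A - 1) * Tt ω S Φ w + (Tt ω S Φ w - Φ w) := by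
      unfold mv; ring
    have h5 : ‖(ee A - 1) * Tt ω S Φ w‖ ≤ ‖ee A - 1‖ * B := by
      rw [norm_mul]; gcongr
    have h6 : 0 ≤ 2 * B / r ^ 2 * (A ^ 2 + n2 S) := by positivity
    rw [h4]
    linarith [norm_add_le ((ee A - 1) * Tt ω S Φ w) (Tt ω S Φ w - Φ w)]
  · have h1 : r ^ 2 ≤ A ^ 2 + n2 S := by
      rcases not_and_or.1 hc with h2 | h2
      · have := sq_lt_sq' (by linarith [abs_nonneg A]) (not_le.1 h2)
        rw [sq_abs] at this
        linarith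
      · have := sq_lt_sq' (by linarith [norm_nonneg S]) (not_le.1 h2)
        nlinarith [norm_sq_le_n2 S, sq_nonneg A]
    have h2 : 2 * B ≤ 2 * B / r ^ 2 * (A ^ 2 + n2 S) := by
      rw [div_mul_eq_mul_div, le_div_iff₀ (by positivity)]
      gcongr
    have h3 : ‖mv ω Φ S A w‖ ≤ B := by rw [mv, norm_mul, norm_ee, one_mul]; exact hT
    linarith [norm_sub_le (mv ω Φ S A w) (Φ w), hB w]

omit [Fintype I] in
theorem step (halt : ∀ w, ω w w = 0) {B : ℝ} (hB : ∀ w, ‖Φ w‖ ≤ B) {ξ z y : I → ℝ} {τ σ t : ℝ}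
    {q₂ K₀ k : ℕ} (hq₂ : 0 < q₂) (hdvd : 2 * q₂ ∣ pos K₀)
    (hz : ∀ w, Φ (w + z) = ee t * ee (ω z w) * Φ w) (hξ : (pos (K₀ + k) : ℝ) • ξ = z + y)
    {m₀ : ℤ} (hm₀ : |m₀| ≤ reach K₀) {d : ℤ} (hd : |(d : ℝ)| ≤ len (K₀ + k)) (S : I → ℝ) (A : ℝ) :
    ‖EA (tl K₀ k) (sq (mv ω Φ S A) ξ τ σ) (m₀ + d * pos (K₀ + k)) -
      ee (d * (t + m₀ * round (2 * (q₂ : ℝ) * (τ * pos (K₀ + k) + ω z ξ)) / q₂ +
        σ * pos (K₀ + k))) *
        EA (tl K₀ k) (sq (mv ω Φ (S + (d : ℝ) • y) (A + ω S y * d)) ξ τ σ) m₀‖ ≤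
      2 * Real.pi * B * ((pos (K₀ + k) : ℝ) * (len (K₀ + k) : ℝ) ^ 2 *
        nd (2 * (q₂ : ℝ) * (τ * pos (K₀ + k) + ω z ξ))) := by
  set j := K₀ + k with hj
  set θ := τ * pos j + ω z ξ with hθ
  set N := round (2 * (q₂ : ℝ) * θ) with hN
  rw [EA_shift, ← EA_mul]
  refine norm_EA_sub_le _ _ _ _ fun s s' => ?_
  set m := m₀ + val _ s - val _ s' with hm
  have hv := val_tl K₀ k s
  have hv' := val_tl K₀ k s'
  have hn := val_nonneg _ s
  have hn' := val_nonneg _ s'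
  have hmabs : |m| ≤ reach j := by
    have := abs_le.1 hm₀
    rw [← hj] at hv hv'
    rw [abs_le]
    constructor <;> omega
  obtain ⟨a, ha⟩ : ((2 * q₂ : ℕ) : ℤ) ∣ m - m₀ := by
    have : m - m₀ = val _ s - val _ s' := by rw [hm]; ring
    rw [this]
    exact (Int.natCast_dvd_natCast.2 hdvd).trans (dvd_sub hv.2 hv'.2)
  obtain ⟨b, hb⟩ : 2 * q₂ ∣ pos j := hdvd.trans (pos_dvd_of_le (Nat.le_add_right K₀ k))
  have h1 : ∀ w, mv ω Φ S A (w + z) = ee t * ee (ω z w) * mv ω Φ S A w := fun w => by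
    unfold mv; rw [per_Tt halt hz]; ring
  have h2 := per_zsmul halt h1 d
  have h3 : ((d * (pos j : ℤ) : ℤ) : ℝ) • ξ = (d : ℝ) • z + (d : ℝ) • y := by
    push_cast; rw [mul_smul, hξ, smul_add]
  have h4 : Tt ω ((d : ℝ) • y) (mv ω Φ S A) = mv ω Φ (S + (d : ℝ) • y) (A + ω S y * d) := by
    funext w
    have := Tt_Tt (Φ := Φ) halt S ((d : ℝ) • y) w
    unfold mv
    rw [ee_add, mul_assoc, mul_comm (ω S y), ← smul_eq_mul, ← smul_eq_mul (d : ℝ), ← map_smul,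
      smul_eq_mul, ← this]
    unfold Tt
    ring
  rw [sq_shift halt h2 h3, h4, ← sub_mul, norm_mul, norm_sq, ← ee_add]
  have h5 : ‖mv ω Φ (S + (d : ℝ) • y) (A + ω S y * d) ((m : ℝ) • ξ)‖ ≤ B := by
    rw [mv, Tt, norm_mul, norm_mul, norm_ee, norm_ee, one_mul, one_mul]; exact hB _
  have hB0 : 0 ≤ B := (norm_nonneg _).trans (hB 0)
  have hq : (0 : ℝ) < q₂ := by exact_mod_cast hq₂
  have ha' : (m : ℝ) = m₀ + 2 * q₂ * a := by
    have : (m : ℝ) - m₀ = ((2 * q₂ : ℕ) : ℝ) * a := by exact_mod_cast ha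
    push_cast at this
    linarith
  have hb' : (pos j : ℝ) = 2 * q₂ * b := by exact_mod_cast hb
  set e := 2 * (q₂ : ℝ) * θ - N with he
  have h6 : (d : ℝ) * t + ((2 * m + ((d * (pos j : ℤ) : ℤ) : ℝ)) *
      (τ * ((d * (pos j : ℤ) : ℤ) : ℝ) + ω ((d : ℝ) • z) ξ) + σ * ((d * (pos j : ℤ) : ℤ) : ℝ)) =
      (d * (t + m₀ * N / q₂ + σ * pos j) + (2 * m + d * pos j) * d * e / (2 * q₂)) +
        ((d * N * (2 * a + d * b) : ℤ) : ℝ) := by
    have h7 : τ * ((d * (pos j : ℤ) : ℤ) : ℝ) + ω ((d : ℝ) • z) ξ = d * θ := by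
      rw [map_smul, LinearMap.smul_apply, smul_eq_mul, hθ]; push_cast; ring
    have h8 : θ = (N + e) / (2 * q₂) := by rw [he]; field_simp; ring
    rw [h7, h8]
    push_cast
    rw [ha', hb']
    field_simp
    ring
  rw [h6, ee_add_int]
  have h9 := norm_ee_sub_ee_le (d * (t + m₀ * N / q₂ + σ * pos j) +
    (2 * m + d * pos j) * d * e / (2 * q₂)) (d * (t + m₀ * N / q₂ + σ * pos j))
  rw [add_sub_cancel_left] at h9
  have h10 : |(2 * m + d * pos j) * d * e / (2 * q₂)| ≤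
      (pos j : ℝ) * (len j : ℝ) ^ 2 * nd (2 * (q₂ : ℝ) * θ) := by
    have c1 : 2 * |(m : ℝ)| ≤ pos j := by
      have : 2 * |m| ≤ (pos j : ℤ) := by have := two_mul_reach_le j; omega
      exact_mod_cast this
    have c2 : (1 : ℝ) ≤ len j := by exact_mod_cast len_pos j
    have c3 : (1 : ℝ) ≤ q₂ := by exact_mod_cast hq₂
    have c4 : (0 : ℝ) ≤ pos j := by positivity
    have c5 : |2 * (m : ℝ) + d * pos j| ≤ 2 * (len j * pos j) := by
      refine (abs_add_le _ _).trans ?_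
      rw [abs_mul, abs_mul, abs_two, abs_of_nonneg c4]
      nlinarith
    have c6 : nd (2 * (q₂ : ℝ) * θ) = |e| := rfl
    rw [abs_div, abs_mul, abs_mul, abs_of_pos (by positivity : (0 : ℝ) < 2 * q₂), c6,
      div_le_iff₀ (by positivity)]
    calc |2 * (m : ℝ) + d * pos j| * |(d : ℝ)| * |e| ≤ 2 * (len j * pos j) * len j * |e| := by
          gcongr
      _ = (pos j : ℝ) * (len j : ℝ) ^ 2 * |e| * (2 * 1) := by ring
      _ ≤ _ := by gcongr
  calc _ ≤ 2 * Real.pi * ((pos j : ℝ) * (len j : ℝ) ^ 2 * nd (2 * (q₂ : ℝ) * θ)) * B := by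
        exact mul_le_mul (h9.trans (by gcongr)) h5 (norm_nonneg _)
          (mul_nonneg (by positivity) ((abs_nonneg _).trans h10))
    _ = _ := by ring

end MainA

open MainA in
theorem main (hmu : S_mu) : S_main := by
  intro I _ ω Φ q q₂ j₁ ξ τ σ z y halt hΦ hq hq₂ hper hz hξ hsum htiny
  obtain ⟨B, hB0, hB⟩ := exists_bound_per hΦ hq hper
  obtain ⟨Cω, hCω, hω⟩ := exists_bound_om ω
  have hz' : ∀ j, ∃ t : ℝ, j₁ ≤ j → ∀ w, Φ (w + z j) = ee t * ee (ω (z j) w) * Φ w := by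
    intro j
    by_cases hj : j₁ ≤ j
    · obtain ⟨c, hc, h⟩ := hz j hj
      obtain ⟨t, rfl⟩ := exists_ee hc
      exact ⟨t, fun _ => h⟩
    · exact ⟨0, fun h => absurd h hj⟩
  choose t ht using hz'
  refine good_of_approx fun ε hε => ?_
  obtain ⟨C, hC, hbase⟩ := base halt hΦ hq hper hB0 hB (ε := ε / 3) (by positivity)
  set lam : ℕ → ℝ := fun j => (len j : ℝ) ^ 2 * n2 (y j) with hlam
  set eta : ℕ → ℝ := fun j => (pos j : ℝ) * (len j : ℝ) ^ 2 * nd (2 * (q₂ : ℝ) * th ω ξ τ z j)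
    with heta
  have lam0 : ∀ j, 0 ≤ lam j := fun j => mul_nonneg (by positivity) (n2_nonneg _)
  have eta0 : ∀ j, 0 ≤ eta j := fun j => mul_nonneg (by positivity) (nd_nonneg _)
  have tail : ∀ {f : ℕ → ℝ}, Summable f → (∀ j, 0 ≤ f j) → ∀ r : ℝ, 0 < r →
      ∀ᶠ K₀ in atTop, ∀ k, ∑ j ∈ range k, f (K₀ + j) ≤ r := by
    intro f hf h0 r hr
    filter_upwards [(tendsto_sum_nat_add f).eventually (gt_mem_nhds hr)] with K₀ hK k
    refine le_trans ?_ hK.le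
    simp only [add_comm K₀]
    exact ((summable_nat_add_iff K₀).2 hf).sum_le_tsum _ fun j _ => h0 _
  obtain ⟨K₀, ⟨⟨hK1, hK2⟩, hK3⟩, hK4, hK5⟩ :=
    ((((tail (f := lam) hsum lam0 (1 / Cω ^ 2) (by positivity)).and
      (tail (f := lam) hsum lam0 (ε / 3 / (2 * C)) (by positivity))).and
      (tail (f := eta) htiny eta0 (ε / 3 / (2 * Real.pi * B)) (by positivity))).and
      ((eventually_ge_atTop j₁).and (eventually_ge_atTop (2 * q₂)))).exists
  have hdvd : 2 * q₂ ∣ pos K₀ := dvd_pos (by omega) hK5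
  set φ : ℤ → ℕ → ℝ := fun m₀ j =>
    t j + m₀ * round (2 * (q₂ : ℝ) * th ω ξ τ z j) / q₂ + σ * pos j with hφ
  set Pr : ℤ → ℕ → ℂ := fun m₀ k =>
    ((∏ j ∈ range k, ‖mu (K₀ + j) (φ m₀ (K₀ + j))‖ ^ 2 : ℝ) : ℂ) with hPr
  have hstep : ∀ (m₀ : ℤ), |m₀| ≤ reach K₀ → ∀ k (d : ℤ), |(d : ℝ)| ≤ len (K₀ + k) → ∀ S A,
      ‖EA (tl K₀ k) (sq (mv ω Φ S A) ξ τ σ) (m₀ + d * pos (K₀ + k)) - ee (d * φ m₀ (K₀ + k)) *
        EA (tl K₀ k) (sq (mv ω Φ (S + (d : ℝ) • y (K₀ + k)) (A + ω S (y (K₀ + k)) * d)) ξ τ σ) m₀‖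
        ≤ 2 * Real.pi * B * eta (K₀ + k) := fun m₀ hm₀ k d hd S A =>
    step halt hB hq₂ hdvd (ht _ (by omega)) (hξ _) hm₀ hd S A
  have key : ∀ (m₀ : ℤ), |m₀| ≤ reach K₀ → ∀ k S A,
      ‖EA (tl K₀ k) (sq (mv ω Φ S A) ξ τ σ) m₀ - sq Φ ξ τ σ m₀ * Pr m₀ k‖ ≤
        ε / 3 + C * (A ^ 2 + (1 + Cω ^ 2 * ∑ j ∈ range k, lam (K₀ + j)) * n2 S +
          2 * ∑ j ∈ range k, lam (K₀ + j)) + 2 * Real.pi * B * ∑ j ∈ range k, eta (K₀ + j) := by
    intro m₀ hm₀ k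
    induction k with
    | zero =>
      intro S A
      have h1 : EA (tl K₀ 0) (sq (mv ω Φ S A) ξ τ σ) m₀ = sq (mv ω Φ S A) ξ τ σ m₀ := EA_nil _ _
      rw [h1]
      simp only [hPr, range_zero, prod_empty, sum_empty, Complex.ofReal_one, mul_one, mul_zero,
        add_zero, one_mul]
      rw [sq, sq, ← sub_mul, norm_mul, norm_ee, mul_one]
      exact hbase S A _
    | succ k ih =>
      intro S A
      set j := K₀ + k with hj
      set Sl := ∑ j ∈ range k, lam (K₀ + j) with hSl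
      set Se := ∑ j ∈ range k, eta (K₀ + j) with hSe
      have hSl1 : Cω ^ 2 * Sl ≤ 1 := by
        have := hK1 k
        rwa [le_div_iff₀ (by positivity), mul_comm] at this
      have hSl0 : 0 ≤ Sl := sum_nonneg fun j _ => lam0 _
      have h1 : EA (tl K₀ (k + 1)) (sq (mv ω Φ S A) ξ τ σ) m₀ = _ := EA_cons j _ _ _
      have h2 : sq Φ ξ τ σ m₀ * Pr m₀ (k + 1) = 𝔼 u : Fin (len j), 𝔼 u' : Fin (len j),
          ee (((((u : ℕ) : ℤ) - ((u' : ℕ) : ℤ) : ℤ) : ℝ) * φ m₀ j) *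
            (sq Φ ξ τ σ m₀ * Pr m₀ k) := by
        simp only [← expect_mul]
        rw [expect_ee_diff, hPr]
        simp only [prod_range_succ]
        push_cast
        ring
      rw [h1, h2, ← expect_sub_distrib]
      simp only [← expect_sub_distrib]
      rw [sum_range_succ, sum_range_succ]
      set a := 1 + Cω ^ 2 * Sl with ha
      have hy := n2_nonneg (y j)
      have h3 := expect_quad_le j (ε / 3 + C * (A ^ 2 + a * n2 S + 2 * Sl) +
          2 * Real.pi * B * Se + 2 * Real.pi * B * eta j)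
        (C * (2 * A * ω S (y j) + a * (2 * ∑ l, S l * y j l)))
        (C * (ω S (y j) ^ 2 + a * n2 (y j))) (by positivity)
      have h4 : ω S (y j) ^ 2 ≤ Cω ^ 2 * n2 S * n2 (y j) := by
        rw [← sq_abs]
        calc |ω S (y j)| ^ 2 ≤ (Cω * ‖S‖ * ‖y j‖) ^ 2 := by gcongr; exact hω _ _
          _ = Cω ^ 2 * ‖S‖ ^ 2 * ‖y j‖ ^ 2 := by ring
          _ ≤ _ := by
            gcongr
            · exact mul_nonneg (by positivity) (n2_nonneg _)
            · exact norm_sq_le_n2 _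
            · exact norm_sq_le_n2 _
      have h5 : (ω S (y j) ^ 2 + a * n2 (y j)) * (len j : ℝ) ^ 2 ≤
          Cω ^ 2 * lam j * n2 S + 2 * lam j := by
        have : a ≤ 2 := by linarith
        simp only [hlam]
        nlinarith [mul_le_mul_of_nonneg_right h4 (sq_nonneg (len j : ℝ)),
          mul_le_mul_of_nonneg_right this (mul_nonneg hy (sq_nonneg (len j : ℝ)))]
      refine le_trans ?_ (h3.trans ?_)
      · refine (RCLike.norm_expect_le (K := ℂ)).trans (expect_le_expect fun u _ => ?_)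
        refine (RCLike.norm_expect_le (K := ℂ)).trans (expect_le_expect fun u' _ => ?_)
        set d : ℤ := ((u : ℕ) : ℤ) - ((u' : ℕ) : ℤ) with hd
        have e1 := hstep m₀ hm₀ k d (abs_diff_le j u u') S A
        have e2 := ih (S + (d : ℝ) • y j) (A + ω S (y j) * d)
        rw [n2_add_smul] at e2
        set X := EA (tl K₀ k) (sq (mv ω Φ S A) ξ τ σ) (m₀ + d * pos j)
        set Y := EA (tl K₀ k) (sq (mv ω Φ (S + (d : ℝ) • y j) (A + ω S (y j) * d)) ξ τ σ) m₀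
        have e3 : X - ee (d * φ m₀ j) * (sq Φ ξ τ σ m₀ * Pr m₀ k) =
            (X - ee (d * φ m₀ j) * Y) + ee (d * φ m₀ j) * (Y - sq Φ ξ τ σ m₀ * Pr m₀ k) := by ring
        rw [e3]
        refine (norm_add_le _ _).trans ?_
        rw [norm_mul, norm_ee, one_mul]
        refine (add_le_add e1 e2).trans (le_of_eq ?_)
        ring
      · nlinarith [mul_le_mul_of_nonneg_left h5 hC.le]
  have hconv : ∃ L, Tendsto (fun k => 𝔼 s : Box (rl K₀), 𝔼 s' : Box (rl K₀),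
      sq Φ ξ τ σ (val _ s - val _ s') * (ee (φ (val _ s - val _ s') (K₀ + k)) *
        Pr (val _ s - val _ s') k)) atTop (𝓝 L) := by
    refine tendsto_expect fun s => tendsto_expect fun s' => ?_
    obtain ⟨L, hL⟩ := conv_prod hmu (φ (val _ s - val _ s')) K₀
    exact ⟨_, hL.const_mul _⟩
  obtain ⟨L, hL⟩ := hconv
  refine ⟨_, L, hL.comp (tendsto_sub_atTop_nat K₀), ?_⟩
  filter_upwards [eventually_ge_atTop K₀] with K hK
  obtain ⟨k, rfl⟩ := Nat.exists_eq_add_of_le hK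
  simp only [Function.comp_apply, Nat.add_sub_cancel_left]
  rw [rl_add, EA_append, ← expect_sub_distrib]
  simp only [← expect_sub_distrib]
  refine norm_expect_le_of_le fun s => norm_expect_le_of_le fun s' => ?_
  set m₀ := val _ s - val _ s' with hm₀
  have hm : |m₀| ≤ reach K₀ := by
    have a1 := val_rl_le K₀ s
    have a2 := val_rl_le K₀ s'
    have a3 := val_nonneg _ s
    have a4 := val_nonneg _ s'
    rw [abs_le]
    constructor <;> omega
  have c2 : (1 : ℝ) ≤ len (K₀ + k) := by exact_mod_cast len_pos _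
  have e1 := hstep m₀ hm k 1 (by simpa using c2) 0 0
  have e2 := key m₀ hm k (y (K₀ + k)) 0
  have e0 : mv ω Φ 0 0 = Φ := by funext w; simp [mv, Tt_zero, ee_zero]
  simp only [Int.cast_one, one_mul, zero_add, one_smul, map_zero, LinearMap.zero_apply, zero_mul,
    e0] at e1
  set X := EA (tl K₀ k) (sq Φ ξ τ σ) (m₀ + pos (K₀ + k))
  set Y := EA (tl K₀ k) (sq (mv ω Φ (y (K₀ + k)) 0) ξ τ σ) m₀
  have e3 : X - sq Φ ξ τ σ m₀ * (ee (φ m₀ (K₀ + k)) * Pr m₀ k) =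
      (X - ee (φ m₀ (K₀ + k)) * Y) + ee (φ m₀ (K₀ + k)) * (Y - sq Φ ξ τ σ m₀ * Pr m₀ k) := by ring
  rw [e3]
  refine (norm_add_le _ _).trans ?_
  rw [norm_mul, norm_ee, one_mul]
  refine (add_le_add e1 e2).trans ?_
  have f1 := hK1 k
  have f2 := hK2 (k + 1)
  have f3 := hK3 (k + 1)
  rw [le_div_iff₀ (by positivity)] at f1 f2 f3
  rw [sum_range_succ] at f2 f3
  have f4 : n2 (y (K₀ + k)) ≤ lam (K₀ + k) :=
    le_mul_of_one_le_left (n2_nonneg _) (one_le_pow₀ c2)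
  have f5 : (1 + Cω ^ 2 * ∑ j ∈ range k, lam (K₀ + j)) * n2 (y (K₀ + k)) ≤ 2 * lam (K₀ + k) :=
    mul_le_mul (by linarith) f4 (n2_nonneg _) (by norm_num)
  nlinarith [mul_le_mul_of_nonneg_left f5 hC.le]

end Pool.Agent.P.MP_2957ea_an.NC
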