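import Pool.Agent.P.MP_2957ea_an.NC.PerBasic

/-!
Estimates for the Fourier transform of a digit.
-/

namespace Pool.Agent.P.MP_2957ea_an.NC

open Finset Filter Topology Pool.Agent.P.MP_2957ea_an
open scoped BigOperators

namespace MuA

theorem low_abs {x : ℝ} (h : |x| ≤ 1 / 2) : 4 * |x| ≤ ‖ee x - 1‖ := by
  have h1 : ee x = Complex.exp (Complex.I * ((2 * Real.pi * x : ℝ) : ℂ)) := by
    unfold ee; congr 1; push_cast; ring
  rw [h1, Complex.norm_exp_I_mul_ofReal_sub_one, Real.norm_eq_abs, abs_mul, abs_two,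
    show 2 * Real.pi * x / 2 = Real.pi * x by ring]
  have hp := Real.pi_pos
  have h2 := Real.mul_abs_le_abs_sin (x := Real.pi * x)
    (by rw [abs_mul, abs_of_pos hp]; nlinarith)
  rw [abs_mul, abs_of_pos hp, show 2 / Real.pi * (Real.pi * |x|) = 2 * |x| by field_simp] at h2
  linarith

theorem ee_nat_round (n : ℕ) (x : ℝ) : ee (n * x) = ee (n * (x - round x)) := by
  rw [← ee_add_int (n * (x - round x)) (n * round x)]
  congr 1; push_cast; ring

theorem low (x : ℝ) : 4 * nd x ≤ ‖ee x - 1‖ := by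
  have := ee_nat_round 1 x
  simp only [Nat.cast_one, one_mul] at this
  rw [this]
  exact low_abs (nd_le_half x)

theorem mu_eq (i : ℕ) (x : ℝ) : mu i x = (∑ u ∈ range (len i), ee x ^ u) / (len i : ℂ) := by
  rw [mu, Fintype.expect_eq_sum_div_card, Fintype.card_fin, Finset.sum_range]
  simp only [ee_nat_mul]

theorem norm_geom_le (z : ℂ) (hz : ‖z‖ = 1) (M : ℕ) : ‖∑ u ∈ range M, z ^ u‖ ≤ M := by
  refine (norm_sum_le _ _).trans ?_
  simp [hz]

theorem para (w : ℂ) (hw : ‖w‖ = 1) : ‖1 + w‖ ^ 2 = 4 - ‖w - 1‖ ^ 2 := by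
  have h : w.re ^ 2 + w.im ^ 2 = 1 := by
    have := Complex.sq_norm w
    rw [hw, Complex.normSq_apply] at this
    nlinarith
  rw [Complex.sq_norm, Complex.sq_norm, Complex.normSq_apply, Complex.normSq_apply]
  simp only [Complex.add_re, Complex.one_re, Complex.add_im, Complex.one_im, Complex.sub_re,
    Complex.sub_im]
  nlinarith

end MuA

theorem mu_facts : S_mu := by
  intro i x
  have hL : (0 : ℝ) < len i := by exact_mod_cast len_pos i
  have hn : ‖mu i x‖ = ‖∑ u ∈ range (len i), ee x ^ u‖ / len i := by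
    rw [MuA.mu_eq, norm_div, Complex.norm_natCast]
  have ha : ‖mu i x‖ ≤ 1 := by
    rw [hn, div_le_one hL]; exact MuA.norm_geom_le _ (norm_ee x) _
  have hb : ‖mu i x‖ * (2 * (len i : ℝ) * nd x) ≤ 1 := by
    have h1 : ‖∑ u ∈ range (len i), ee x ^ u‖ * ‖ee x - 1‖ ≤ 2 := by
      rw [← norm_mul, geom_sum_mul]
      refine (norm_sub_le _ _).trans ?_
      rw [norm_pow, norm_ee, one_pow, norm_one]; norm_num
    have h2 := mul_le_mul_of_nonneg_left (MuA.low x)
      (norm_nonneg (∑ u ∈ range (len i), ee x ^ u))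
    rw [hn, show ‖∑ u ∈ range (len i), ee x ^ u‖ / len i * (2 * (len i : ℝ) * nd x) =
      ‖∑ u ∈ range (len i), ee x ^ u‖ * (4 * nd x) / 2 by field_simp; ring]
    linarith
  refine ⟨ha, hb, ?_⟩
  have h0 := norm_nonneg (mu i x)
  have hnd := nd_nonneg x
  by_cases hc : 1 ≤ (len i : ℝ) * nd x
  · have h1 : ‖mu i x‖ ≤ 1 / 2 := by nlinarith
    have h2 := min_le_left 1 (((len i : ℝ) * nd x) ^ 2)
    nlinarith
  · push Not at hc
    obtain ⟨M, hM⟩ : ∃ M, len i = M + M := by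
      obtain ⟨k, hk⟩ := four_dvd_len i
      exact ⟨2 * k, by omega⟩
    have hM' : (len i : ℝ) = M + M := by exact_mod_cast hM
    have hs : ∑ u ∈ range (len i), ee x ^ u = (1 + ee x ^ M) * ∑ u ∈ range M, ee x ^ u := by
      rw [hM, Finset.sum_range_add, add_mul, one_mul, Finset.mul_sum]
      simp only [pow_add]
    have h1 : ‖mu i x‖ ≤ ‖1 + ee x ^ M‖ / 2 := by
      rw [hn, hs, norm_mul, div_le_iff₀ hL, hM']
      have := mul_le_mul_of_nonneg_left (MuA.norm_geom_le _ (norm_ee x) M)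
        (norm_nonneg (1 + ee x ^ M))
      linarith
    have h2 : 4 * (M * nd x) ≤ ‖ee x ^ M - 1‖ := by
      have h3 : |(M : ℝ) * (x - round x)| = M * nd x := by
        rw [abs_mul, Nat.abs_cast]; rfl
      rw [← ee_nat_mul, MuA.ee_nat_round, ← h3]
      refine MuA.low_abs ?_
      rw [h3]
      rw [hM'] at hc
      linarith
    have h3 := MuA.para (ee x ^ M) (by rw [norm_pow, norm_ee, one_pow])
    have h4 := min_le_right 1 (((len i : ℝ) * nd x) ^ 2)
    have h5 : (4 * (M * nd x)) ^ 2 ≤ ‖ee x ^ M - 1‖ ^ 2 :=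
      pow_le_pow_left₀ (by positivity) h2 2
    have h6 : ‖mu i x‖ ^ 2 ≤ (‖1 + ee x ^ M‖ / 2) ^ 2 := pow_le_pow_left₀ h0 h1 2
    rw [hM'] at h4 ⊢
    nlinarith [sq_nonneg ((M : ℝ) * nd x)]

end Pool.Agent.P.MP_2957ea_an.NC
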