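import Pool.Agent.P.MP_2957ea_an.NC.PerBasic

/-!
A power of any element has a normal form in exponential coordinates.
-/

namespace Pool.Agent.P.MP_2957ea_an.NC

open Finset Filter Topology Pool.Agent.P.MP_2957ea_an
open scoped BigOperators commutatorElement

universe u

theorem pow_form : S_pow.{u} := by
  intro G _ _ _ Γ I _ ex ζ h2 ⟨C, hC, hΓ⟩ he b
  obtain ⟨R, hR⟩ := he.nhd
  obtain ⟨T, -, hT⟩ := hC.elim_nhds_subcover
    (fun y => (fun g => y⁻¹ * g) ⁻¹' (ex '' Metric.closedBall 0 R)) fun y _ =>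
      (continuous_const_mul y⁻¹).continuousAt.preimage_mem_nhds (by rwa [inv_mul_cancel])
  have h1 : ∀ n : ℕ, ∃ y : T, ∃ u, ∃ γ ∈ Γ, b ^ n = y * ex u * γ := fun n => by
    obtain ⟨c, hc, γ, hγ, e⟩ := hΓ (b ^ n)
    obtain ⟨y, hy, u, -, hu⟩ := Set.mem_iUnion₂.1 (hT hc)
    exact ⟨⟨y, hy⟩, u, γ, hγ, by rw [e, hu, mul_inv_cancel_left]⟩
  choose y u γ hγ e using h1
  obtain ⟨n, n', hn, hy⟩ : ∃ n n', n < n' ∧ y n = y n' := by
    obtain ⟨n, n', h3, h4⟩ := Finite.exists_ne_map_eq_of_infinite y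
    exact h3.lt_or_gt.elim (fun h => ⟨n, n', h, h4⟩) fun h => ⟨n', n, h, h4.symm⟩
  have hz := inv_mem (he.mem (u n) (u n' - u n))
  refine ⟨n' - n, u n' - u n, Nat.sub_pos_of_lt hn, (γ n)⁻¹ * γ n',
    mul_mem (inv_mem (hγ n)) (hγ n'), γ n, hγ n, _, hz, ?_⟩
  have h3 : b ^ (n' - n) = (γ n)⁻¹ * ((ex (u n))⁻¹ * ex (u n')) * γ n' := by
    rw [← mul_right_inj (b ^ n), ← pow_add, Nat.add_sub_cancel' hn.le, e, e, hy]
    group
  rw [h3, he.inv_mul, ← mul_assoc, mul_assoc _ _ (γ n'), h2.central_of_mem hz,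
    mul_eq_comm_mul (γ n)⁻¹, h2.inv_left, commutatorElement_inv, ← mul_assoc, ← mul_assoc,
    mul_assoc ⁅_, _⁆, mul_assoc ⁅_, _⁆, h2]
  simp only [mul_assoc]

end Pool.Agent.P.MP_2957ea_an.NC
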