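import Pool.Agent.P.MP_2957ea_an.NC.PerBasic

/-!
The product of two elementary sequences is elementary.
-/

namespace Pool.Agent.P.MP_2957ea_an.NC

open Finset Filter Topology Pool.Agent.P.MP_2957ea_an
open scoped BigOperators

theorem elem_prod : S_prod := by
  intro I J _ _ ψ φ ⟨ω₁, Φ₁, ξ₁, τ₁, σ₁, ⟨a₁, c₁, p₁⟩, e₁⟩ ⟨ω₂, Φ₂, ξ₂, τ₂, σ₂, ⟨a₂, c₂, p₂⟩, e₂⟩
  let pl : (I ⊕ J → ℝ) →ₗ[ℝ] (I → ℝ) := LinearMap.funLeft ℝ ℝ Sum.inl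
  let pr : (I ⊕ J → ℝ) →ₗ[ℝ] (J → ℝ) := LinearMap.funLeft ℝ ℝ Sum.inr
  refine ⟨ω₁.compl₁₂ pl pl + ω₂.compl₁₂ pr pr, fun w => Φ₁ (pl w) * Φ₂ (pr w), Sum.elim ξ₁ ξ₂,
    τ₁ + τ₂, σ₁ + σ₂, ⟨fun w => by simp [a₁, a₂],
      (c₁.comp pl.continuous_of_finiteDimensional).mul
        (c₂.comp pr.continuous_of_finiteDimensional), fun k => ?_⟩, ?_⟩
  · obtain ⟨d₁, n₁, h₁⟩ := p₁ fun i => k (Sum.inl i)
    obtain ⟨d₂, n₂, h₂⟩ := p₂ fun j => k (Sum.inr j)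
    refine ⟨d₁ * d₂, by rw [norm_mul, n₁, n₂, one_mul], fun w => ?_⟩
    have f₁ : pl (iv k) = iv fun i => k (Sum.inl i) := rfl
    have f₂ : pr (iv k) = iv fun j => k (Sum.inr j) := rfl
    simp only [map_add, LinearMap.add_apply, LinearMap.compl₁₂_apply, f₁, f₂, h₁, h₂, ee_add]
    ring
  · funext n
    have f₁ : pl ((n : ℝ) • Sum.elim ξ₁ ξ₂) = (n : ℝ) • ξ₁ := rfl
    have f₂ : pr ((n : ℝ) • Sum.elim ξ₁ ξ₂) = (n : ℝ) • ξ₂ := rfl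
    simp only [e₁, e₂, sq, f₁, f₂, add_mul, ee_add]
    ring

end Pool.Agent.P.MP_2957ea_an.NC
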