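import Pool.Agent.P.MP_2957ea_an.NC.PerBasic

/-!
Reduction of the dimension when the frequency vector satisfies a rational relation.
-/

namespace Pool.Agent.P.MP_2957ea_an.NC

open Finset Filter Topology Pool.Agent.P.MP_2957ea_an
open scoped BigOperators

namespace RedAA

variable {I : Type} [Fintype I] [DecidableEq I]

/-- A parametrisation of the hyperplane orthogonal to `m`. -/
noncomputable def io (m : I → ℤ) (a : I) : ({b // b ≠ a} → ℝ) →ₗ[ℝ] (I → ℝ) where
  toFun x l := if h : l = a then -∑ b : {b // b ≠ a}, (m b : ℝ) * x b else (m a : ℝ) * x ⟨l, h⟩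
  map_add' x y := by
    funext l
    simp only [Pi.add_apply, mul_add, sum_add_distrib]
    split_ifs <;> ring
  map_smul' c x := by
    funext l
    simp only [Pi.smul_apply, smul_eq_mul, RingHom.id_apply, mul_left_comm _ c, ← mul_sum]
    split_ifs <;> ring

theorem io_apply (m : I → ℤ) (a : I) (x : {b // b ≠ a} → ℝ) (l : I) : io m a x l =
    if h : l = a then -∑ b : {b // b ≠ a}, (m b : ℝ) * x b else (m a : ℝ) * x ⟨l, h⟩ := rfl

theorem io_iv (m : I → ℤ) (a : I) (k : {b // b ≠ a} → ℤ) : ∃ k' : I → ℤ, io m a (iv k) = iv k' := by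
  refine ⟨fun l => if h : l = a then -∑ b : {b // b ≠ a}, m b * k b else m a * k ⟨l, h⟩, ?_⟩
  funext l
  simp only [io_apply, iv]
  split_ifs <;> simp

theorem io_surj {m : I → ℤ} {a : I} (ha : m a ≠ 0) {w : I → ℝ} (hw : dot m w = 0) :
    io m a (fun b => w b / m a) = w := by
  have ha' : (m a : ℝ) ≠ 0 := Int.cast_ne_zero.2 ha
  funext l
  rw [io_apply]
  split_ifs with h
  · subst h
    rw [dot, Fintype.sum_eq_add_sum_subtype_ne _ l] at hw
    simp only [← mul_div_assoc, ← sum_div]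
    rw [← neg_div, div_eq_iff ha']
    linarith
  · exact mul_div_cancel₀ _ ha'

theorem qp_comp {ω : BF I} {Ψ : (I → ℝ) → ℂ} (h : QP ω Ψ) (m : I → ℤ) (a : I) :
    QP (LinearMap.BilinForm.comp ω (io m a) (io m a)) fun x => Ψ (io m a x) := by
  refine ⟨fun w => h.1 _, h.2.1.comp (io m a).continuous_of_finiteDimensional, fun k => ?_⟩
  obtain ⟨k', hk⟩ := io_iv m a k
  obtain ⟨c, hc, h1⟩ := h.2.2 k'
  refine ⟨c, hc, fun w => ?_⟩
  simp only [map_add, LinearMap.BilinForm.comp_apply, hk, h1]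

end RedAA

open RedAA in
theorem redA (hr : S_res) : S_redA := by
  intro I _ _ hC ω Φ ξ τ σ hΦ m h N hm hh hN
  obtain ⟨a, ha⟩ := Function.ne_iff.1 hm
  have ha : m a ≠ 0 := ha
  obtain ⟨q, hq⟩ : ∃ q : ℕ, (q : ℤ) = (m a * h) ^ 2 := ⟨_, Int.toNat_of_nonneg (sq_nonneg _)⟩
  have hq0 : 0 < q := by
    have : (0 : ℤ) < (m a * h) ^ 2 := by positivity
    omega
  have hq' : (q : ℝ) = ((m a : ℝ) * h) ^ 2 := by exact_mod_cast hq
  have h0 : dot m ((q : ℝ) • ξ - iv (Pi.single a (m a * h * N))) = 0 := by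
    rw [dot_sub, dot_smul, dot_iv, sum_eq_single a (fun b _ hb => by simp [hb]) (by simp),
      Pi.single_eq_same, hq']
    push_cast
    linear_combination (m a : ℝ) ^ 2 * h * hN
  have h1 := io_surj ha h0
  obtain ⟨c, hc, h2⟩ := hΦ.2.2 (Pi.single a (m a * h * N))
  obtain ⟨t, rfl⟩ := exists_ee hc
  generalize (iv (Pi.single a (m a * h * N)) : I → ℝ) = z at h1 h2
  generalize (fun b : {b // b ≠ a} => ((q : ℝ) • ξ - z) b / m a) = ξ' at h1
  refine hr _ Good closed_good (hC a) _ q hq0 fun r _ _ => ⟨_, _, ξ', 0,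
    ω z (io m a ξ') + τ * q ^ 2, t + r * ω z ξ - r * ω ξ (io m a ξ') + 2 * τ * r * q + σ * q,
    τ * r ^ 2 + σ * r, qp_comp (hΦ.Tt ((r : ℝ) • ξ)) m a, fun k => ?_⟩
  have e1 : ((r + q * k : ℤ) : ℝ) • ξ = ((k : ℝ) • io m a ξ' + (r : ℝ) • ξ) + (k : ℝ) • z := by
    rw [h1]; push_cast; module
  unfold sq
  rw [e1, per_zsmul hΦ.1 h2 k, apply_add_eq_Tt (ω := ω) (Φ := Φ), add_zero, map_smul (io m a)]
  generalize io m a ξ' = η
  rw [← mul_assoc, mul_right_comm, mul_comm, ← ee_add, ← ee_add, ← ee_add]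
  congr 2
  simp only [map_add, map_smul, LinearMap.smul_apply, smul_eq_mul]
  push_cast
  ring

end Pool.Agent.P.MP_2957ea_an.NC
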