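import Pool.Agent.P.MP_2957ea_an.NC.PerBasic

/-!
Reduction of the dimension along an integer vector in the kernel of the form.
-/

namespace Pool.Agent.P.MP_2957ea_an.NC

open Finset Filter Topology Pool.Agent.P.MP_2957ea_an
open scoped BigOperators

namespace RedBA

variable {I : Type} [Fintype I] [DecidableEq I] {ω : BF I} {Φ : (I → ℝ) → ℂ} {κ : I → ℤ}

/-- Extension by zero. -/
noncomputable def ext0 (a : I) : ({b // b ≠ a} → ℝ) →ₗ[ℝ] (I → ℝ) where
  toFun v b := if h : b ≠ a then v ⟨b, h⟩ else 0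
  map_add' v w := by
    funext b
    simp only [Pi.add_apply]
    split_ifs <;> simp
  map_smul' c v := by
    funext b
    simp only [Pi.smul_apply]
    split_ifs <;> simp

theorem eig (hC : ∀ a : I, CI {b // b ≠ a}) (h : QP ω Φ) (hκ : κ ≠ 0) {θ : ℝ}
    (he : ∀ (w : I → ℝ) (t : ℝ), Φ (w + t • iv κ) = ee (θ * t) * Φ w) (ξ : I → ℝ) (τ σ : ℝ) :
    Good (sq Φ ξ τ σ) := by
  obtain ⟨a, ha⟩ := Function.ne_iff.1 hκ
  have ha' : (κ a : ℝ) ≠ 0 := Int.cast_ne_zero.2 ha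
  refine hC a _ ⟨ω.comp (ext0 a) (ext0 a), fun w => Φ (ext0 a w),
    fun b => ξ b - ξ a / κ a * κ b, τ, σ + θ * (ξ a / κ a), ⟨fun w => h.1 _,
      h.2.1.comp (ext0 a).continuous_of_finiteDimensional, fun k => ?_⟩, funext fun n => ?_⟩
  · have e : ext0 a (iv k) = iv fun b => if hb : b ≠ a then k ⟨b, hb⟩ else 0 := by
      funext b
      show (if hb : b ≠ a then iv k ⟨b, hb⟩ else 0) = ((if hb : b ≠ a then k ⟨b, hb⟩ else 0 : ℤ) : ℝ)
      split_ifs <;> simp [iv]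
    obtain ⟨c, hc, h2⟩ := h.2.2 fun b => if hb : b ≠ a then k ⟨b, hb⟩ else 0
    refine ⟨c, hc, fun w => ?_⟩
    simp only [map_add, LinearMap.BilinForm.comp_apply, e, h2]
  · have e : (n : ℝ) • ξ = ext0 a ((n : ℝ) • fun b : {b // b ≠ a} => ξ b - ξ a / κ a * κ b) +
        (n * (ξ a / κ a)) • iv κ := by
      funext b
      show (n : ℝ) * ξ b = (if hb : b ≠ a then (n : ℝ) * (ξ b - ξ a / κ a * κ b) else 0) +
        n * (ξ a / κ a) * κ b
      split_ifs with hb
      · ring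
      · rw [not_not.1 hb]; field_simp; ring
    unfold sq
    rw [e, he, mul_comm (ee _), mul_assoc, ← ee_add]
    congr 2
    ring

/-- The restriction of `Φ` to a line, made periodic. -/
noncomputable def HH (Φ : (I → ℝ) → ℂ) (κ : I → ℤ) (t₀ : ℝ) (w : I → ℝ) (t : ℝ) : ℂ :=
  ee (-(t₀ * t)) * Φ (w + t • iv κ)

omit [DecidableEq I] in
theorem unif (h : QP ω Φ) (h0 : ∀ w, ω (iv κ) w = 0) (t₀ : ℝ) {ε : ℝ} (hε : 0 < ε) :
    ∃ ρ : ℝ, 0 < ρ ∧ ∀ w t, |t| ≤ ρ → ‖HH Φ κ t₀ w t - HH Φ κ t₀ w 0‖ ≤ ε := by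
  obtain ⟨B, B0, hB⟩ := h.exists_bound
  obtain ⟨ρ, ρ0, hρ⟩ := h.unif (half_pos hε)
  have c1 : Continuous fun t : ℝ => ‖t • iv κ‖ := by fun_prop
  have c2 : Continuous fun t : ℝ => 2 * Real.pi * |-(t₀ * t)| * B := by fun_prop
  have e1 : ∀ᶠ t : ℝ in 𝓝 0, ‖t • iv κ‖ < ρ :=
    c1.continuousAt.eventually_lt_const (by simpa using ρ0)
  have e2 : ∀ᶠ t : ℝ in 𝓝 0, 2 * Real.pi * |-(t₀ * t)| * B < ε / 2 :=
    c2.continuousAt.eventually_lt_const (by simpa using hε)
  obtain ⟨r, r0, hr⟩ := Metric.nhds_basis_closedBall.eventually_iff.1 (e1.and e2)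
  refine ⟨r, r0, fun w t ht => ?_⟩
  obtain ⟨a1, a2⟩ := hr (mem_closedBall_zero_iff.2 ht)
  have a3 := hρ _ a1.le w
  simp only [Tt, map_smul, LinearMap.smul_apply, h0, smul_zero, ee_zero, one_mul] at a3
  have e : HH Φ κ t₀ w t - HH Φ κ t₀ w 0 =
      (ee (-(t₀ * t)) - 1) * Φ (w + t • iv κ) + (Φ (w + t • iv κ) - Φ w) := by
    simp only [HH, mul_zero, neg_zero, ee_zero, zero_smul, add_zero]
    ring
  rw [e]
  refine (norm_add_le _ _).trans ?_
  rw [norm_mul]
  have a4 := mul_le_mul (norm_ee_sub_one_le (-(t₀ * t))) (hB (w + t • iv κ)) (norm_nonneg _)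
    (by positivity)
  linarith

end RedBA

open RedBA in
theorem redB (h1 : S_L1) : S_redB := by
  intro I _ _ hC ω Φ ξ τ σ h κ hκ h0
  obtain ⟨c, hc, hp⟩ := h.2.2 κ
  obtain ⟨t₀, rfl⟩ := exists_ee hc
  simp only [h0, ee_zero, mul_one] at hp
  obtain ⟨B, -, hB⟩ := h.exists_bound
  have hΦ := h.2.1
  have cH : Continuous fun p : (I → ℝ) × ℝ => HH Φ κ t₀ p.1 p.2 :=
    (continuous_ee'.comp (by fun_prop)).mul (hΦ.comp (by fun_prop))
  have pH : ∀ w t, HH Φ κ t₀ w (t + 1) = HH Φ κ t₀ w t := fun w t => by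
    unfold HH
    rw [add_smul, one_smul, ← add_assoc, hp, ← mul_assoc, ← ee_add]
    congr 2
    ring
  have good : ∀ l : ℤ, Good
      (sq (fun w => ∫ t in (0 : ℝ)..1, ee (-((l : ℝ) * t)) * HH Φ κ t₀ w t) ξ τ σ) := by
    intro l
    refine eig (ω := ω) (θ := l + t₀) hC ⟨h.1, ?_, fun k => ?_⟩ hκ (fun w a => ?_) ξ τ σ
    · exact intervalIntegral.continuous_parametric_intervalIntegral_of_continuous'
        (f := fun w t => ee (-((l : ℝ) * t)) * HH Φ κ t₀ w t)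
        ((continuous_ee'.comp (by fun_prop)).mul cH) 0 1
    · obtain ⟨c, hc, hk⟩ := h.2.2 k
      refine ⟨c, hc, fun w => ?_⟩
      rw [← intervalIntegral.integral_const_mul]
      refine intervalIntegral.integral_congr fun t _ => ?_
      simp only [HH]
      rw [add_right_comm, hk, map_add, map_smul, om_swap h.1 (iv k) (iv κ), h0]
      simp only [neg_zero, smul_zero, add_zero]
      ring
    · have per : Function.Periodic (fun t => ee (-((l : ℝ) * t)) * HH Φ κ t₀ w t) 1 := fun t => by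
        have : -((l : ℝ) * (t + 1)) = -((l : ℝ) * t) + ((-l : ℤ) : ℝ) := by push_cast; ring
        simp only [pH, this, ee_add_int]
      have e1 := per.intervalIntegral_add_eq a 0
      have e2 := intervalIntegral.integral_comp_add_left (a := 0) (b := 1)
        (fun t => ee (-((l : ℝ) * t)) * HH Φ κ t₀ w t) a
      rw [add_zero, e1, zero_add] at e2
      rw [← e2, ← intervalIntegral.integral_const_mul]
      refine intervalIntegral.integral_congr fun t _ => ?_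
      simp only [HH]
      rw [add_smul, add_assoc, ← mul_assoc, ← mul_assoc, ← mul_assoc, ← ee_add, ← ee_add, ← ee_add]
      congr 2
      ring
  refine closed_good.2.2.2 _ fun ε hε => ?_
  obtain ⟨ρ, ρ0, hρ⟩ := unif h h0 t₀ (half_pos hε)
  obtain ⟨s, a, hs⟩ := h1 B (ε / 2) ρ (half_pos hε) ρ0
  refine ⟨_, closed_good.sum s _ fun l _ => closed_good.2.2.1 (a l) _ (good l), fun n => ?_⟩
  have cH' : Continuous (HH Φ κ t₀ ((n : ℝ) • ξ)) :=
    (continuous_ee'.comp (by fun_prop)).mul (hΦ.comp (by fun_prop))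
  have e := hs (HH Φ κ t₀ ((n : ℝ) • ξ)) cH' (pH _)
    (fun t => by rw [HH, norm_mul, norm_ee, one_mul]; exact hB _) (hρ _)
  simp only [sq, ← mul_assoc]
  rw [← sum_mul, ← sub_mul, norm_mul, norm_ee, mul_one]
  simp only [HH, mul_zero, neg_zero, ee_zero, zero_smul, add_zero, one_mul] at e
  simp only [HH]
  linarith

end Pool.Agent.P.MP_2957ea_an.NC
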