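import Pool.Agent.P.MP_2957ea_an.NC.PerBasic

/-!
Gluing along residue classes.
-/

namespace Pool.Agent.P.MP_2957ea_an.NC

open Finset Filter Topology Pool.Agent.P.MP_2957ea_an
open scoped BigOperators

namespace ResA

theorem geom {q : ℕ} (hq : 0 < q) (m : ℤ) :
    ∑ l ∈ range q, ee ((l : ℝ) * ((m : ℝ) / q)) = if (q : ℤ) ∣ m then (q : ℂ) else 0 := by
  have hq' : (q : ℝ) ≠ 0 := Nat.cast_ne_zero.2 hq.ne'
  simp only [ee_nat_mul]
  split_ifs with h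
  · obtain ⟨k, rfl⟩ := h
    rw [Int.cast_mul, Int.cast_natCast, mul_div_cancel_left₀ _ hq', ee_int]
    simp
  · rw [geom_sum_eq, ← ee_nat_mul, mul_div_cancel₀ _ hq', ee_int, sub_self, zero_div]
    intro h2
    obtain ⟨k, hk⟩ := Complex.exp_eq_one_iff.1 h2
    have h3 : (((m : ℝ) / q : ℝ) : ℂ) = k :=
      mul_left_cancel₀ Complex.two_pi_I_ne_zero (by linear_combination hk)
    have h4 : (m : ℝ) / q = k := by exact_mod_cast h3
    rw [div_eq_iff hq', mul_comm] at h4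
    exact h ⟨k, by exact_mod_cast h4⟩

theorem shift {I : Type} [Fintype I] {P : (ℤ → ℂ) → Prop} (hP : Closed P)
    (h : ∀ ψ, Elem I ψ → P ψ) {ω : BF I} {Φ : (I → ℝ) → ℂ} (hΦ : QP ω Φ) (ξ c : I → ℝ)
    (τ σ ρ : ℝ) :
    P fun n => Φ ((n : ℝ) • ξ + c) * ee (τ * (n : ℝ) ^ 2 + σ * (n : ℝ) + ρ) := by
  convert hP.2.2.1 (ee ρ) _ (h _ ⟨ω, _, ξ, τ, σ - ω c ξ, hΦ.Tt c, rfl⟩) using 2 with n
  rw [apply_add_eq_Tt (ω := ω) (Φ := Φ), sq, mul_right_comm, mul_comm (Tt ω c Φ _), ← mul_assoc, ← ee_add,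
    ← ee_add, map_smul, smul_eq_mul]
  congr 2
  ring

end ResA

open ResA in
theorem res : S_res := by
  intro I _ P hP h ψ q hq hψ
  have hq' : (q : ℝ) ≠ 0 := Nat.cast_ne_zero.2 hq.ne'
  have e : ψ = fun n => ∑ r ∈ range q, if (q : ℤ) ∣ n - r then ψ n else 0 := by
    funext n
    have h1 : 0 ≤ n % q := Int.emod_nonneg _ (by omega)
    have h2 : n % q < q := Int.emod_lt_of_pos _ (by omega)
    rw [sum_eq_single (n % q).toNat, if_pos]
    · rw [Int.toNat_of_nonneg h1]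
      exact Int.dvd_self_sub_emod
    · intro r hr h3
      refine if_neg fun h4 => h3 ?_
      rw [mem_range] at hr
      rw [← (Int.emod_eq_emod_iff_emod_sub_eq_zero.2 (Int.emod_eq_zero_of_dvd h4)).symm,
        Int.emod_eq_of_lt (by omega) (by omega), Int.toNat_natCast]
    · intro h3
      exact absurd (mem_range.2 (by omega)) h3
  rw [e]
  refine hP.sum _ _ fun r hr => ?_
  obtain ⟨ω, Φ, ξ, c, τ, σ, ρ, h1, h2⟩ := hψ r (by omega) (by exact_mod_cast mem_range.1 hr)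
  convert hP.2.2.1 (q : ℂ)⁻¹ _ (hP.sum (range q) _ fun l _ => shift hP h h1 ((q : ℝ)⁻¹ • ξ)
    (c - ((r : ℝ) / q) • ξ) (τ / q ^ 2) ((σ + l) / q - 2 * τ * r / q ^ 2)
    (τ * r ^ 2 / q ^ 2 - (σ + l) * r / q + ρ)) using 2 with n
  have h3 : ∀ l : ℕ, τ / q ^ 2 * (n : ℝ) ^ 2 + ((σ + l) / q - 2 * τ * r / q ^ 2) * n +
      (τ * r ^ 2 / q ^ 2 - (σ + l) * r / q + ρ) =
      τ * ((n - r) / q) ^ 2 + σ * ((n - r) / q) + ρ + l * (((n - r : ℤ) : ℝ) / q) := fun l => by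
    push_cast
    ring
  simp only [h3, ee_add _ (_ * _), ← mul_assoc, ← mul_sum, geom hq]
  split_ifs with h4
  · obtain ⟨k, hk⟩ := h4
    have h5 : (n : ℝ) = r + q * k := by exact_mod_cast (sub_eq_iff_eq_add'.1 hk)
    have h6 : ((n : ℝ) - r) / q = k := by rw [h5]; field_simp; ring
    have h7 : (n : ℝ) • (q : ℝ)⁻¹ • ξ + (c - ((r : ℝ) / q) • ξ) = (k : ℝ) • ξ + c := by
      rw [← h6, smul_smul]
      module
    have h8 : (q : ℂ) ≠ 0 := Nat.cast_ne_zero.2 hq.ne'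
    rw [h6, h7, sub_eq_iff_eq_add'.1 hk, h2]
    field_simp
  · simp

end Pool.Agent.P.MP_2957ea_an.NC
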