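import Pool.Agent.P.MP_2957ea_an.NC.PerBasic
import Pool.Agent.P.MP_2957ea_an.Blocks

/-!
The sequence whose Cesaro averages are the level averages.
-/

namespace Pool.Agent.P.MP_2957ea_an.NC

open Finset Filter Topology Pool.Agent.P.MP_2957ea_an
open scoped BigOperators

theorem seq : S_seq := by
  set Λ := fun K => (univ : Finset (Box (rl K) × Box (rl K))) with hΛ
  set g := fun K (x : Box (rl K) × Box (rl K)) => (pos K : ℤ) + val _ x.1 - val _ x.2 with hg
  have hl : ∀ K, 0 < (Λ K).card := fun K => card_pos.2 univ_nonempty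
  obtain ⟨a, st, h1, h2, h3, h4⟩ := exists_concat _ hl fun K => enum (Λ K) (g K)
  have hsum : ∀ (N : ℕ) (w : ℕ → ℂ), ∑ n ∈ Icc 1 N, w (n - 1) = ∑ m ∈ range N, w m := by
    intro N w
    rw [range_eq_Ico, ← Ico_add_one_right_eq_Icc, ← sum_Ico_add' _ 0 N 1]
    simp
  refine ⟨fun n => a (n - 1), Tendsto.comp (g := a) ?_ (tendsto_sub_atTop_nat 1),
    fun v C hv L => ?_⟩
  · refine tendsto_atTop.2 fun b => (tendsto_atTop.1 h1 (2 * b).toNat).mono fun n hn => ?_
    obtain ⟨t, ht, h⟩ := h3 n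
    obtain ⟨x, -, hx⟩ := enum_mem (Λ (st n)) (g (st n)) ht
    have a1 := val_nonneg _ x.1
    have a2 := val_rl_le _ x.2
    have a3 := two_mul_reach_le (st n)
    have a4 := lt_pos (st n)
    rw [h, hx, hg]
    simp only
    omega
  · have e1 : ∀ N : ℕ, (N : ℂ)⁻¹ * ∑ n ∈ Icc 1 N, v (a (n - 1)) =
        (N : ℝ)⁻¹ • ∑ m ∈ range N, v (a m) := fun N => by
      rw [hsum N fun m => v (a m)]; simp
    have e2 : ∀ K, EA (rl K) v (pos K) =
        ((Λ K).card : ℝ)⁻¹ • ∑ s ∈ range (Λ K).card, v (enum (Λ K) (g K) s) := fun K => by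
      rw [sum_enum, EA, ← expect_product', univ_product_univ, expect_eq_sum_div_card,
        div_eq_inv_mul]
      simp [hΛ, hg]
    simp only [e1, e2]
    exact ⟨block_of_cesaro hl (β := fun K => enum (Λ K) (g K)) h4 v hv,
      cesaro_of_block hl (β := fun K => enum (Λ K) (g K)) h1 h2 h4 v hv⟩

end Pool.Agent.P.MP_2957ea_an.NC
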