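import Pool.Agent.P.MP_2957ea_an.NC.PerBasic

/-!
Averages that do not tend to zero give the spectral property.
-/

namespace Pool.Agent.P.MP_2957ea_an.NC

open Finset Filter Topology Pool.Agent.P.MP_2957ea_an
open scoped BigOperators

namespace SpecA

theorem conj_expect {T : Type} [Fintype T] (f : T → ℂ) :
    (starRingEnd ℂ) (𝔼 t : T, f t) = 𝔼 t : T, (starRingEnd ℂ) (f t) := by
  simp [expect_eq_sum_div_card]

theorem cs {S T : Type} [Fintype S] [Fintype T] [Nonempty T] (f : S → T → ℂ) :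
    ‖𝔼 s : S, 𝔼 t : T, f s t‖ ^ 2 ≤
      𝔼 s : S, 𝔼 s' : S, ‖𝔼 t : T, f s t * (starRingEnd ℂ) (f s' t)‖ := by
  have h1 := expect_mul_sq_le_sq_mul_sq (univ : Finset T) (fun t => ‖𝔼 s : S, f s t‖) fun _ => 1
  simp only [mul_one, one_pow, expect_const univ_nonempty] at h1
  have h2 : ((𝔼 t : T, ‖𝔼 s : S, f s t‖ ^ 2 : ℝ) : ℂ) =
      𝔼 s : S, 𝔼 s' : S, 𝔼 t : T, f s t * (starRingEnd ℂ) (f s' t) := by
    simp only [Complex.ofReal_expect, Complex.ofReal_pow, ← Complex.mul_conj', conj_expect,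
      expect_mul_expect]
    rw [expect_comm]
    exact expect_congr rfl fun s _ => expect_comm _ _ _
  rw [expect_comm]
  refine (pow_le_pow_left₀ (norm_nonneg _) (RCLike.norm_expect_le (K := ℂ)) 2).trans
    (h1.trans ((le_abs_self _).trans ?_))
  rw [← Real.norm_eq_abs, ← Complex.norm_real, h2]
  exact (RCLike.norm_expect_le (K := ℂ)).trans
    (expect_le_expect fun s _ => RCLike.norm_expect_le (K := ℂ))

theorem norm_avg (θ : ℝ) (n : ℤ) (K : ℕ) :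
    ‖𝔼 t : Box (rl K), ee (((n - val (rl K) t : ℤ) : ℝ) * θ)‖ =
      ∏ j ∈ range K, ‖mu j ((pos j : ℝ) * θ)‖ := by
  have : ∀ t : Box (rl K), ee (((n - val (rl K) t : ℤ) : ℝ) * θ) =
      ee (n * θ) * (starRingEnd ℂ) (ee (θ * (val (rl K) t : ℝ))) := fun t => by
    rw [conj_ee, ← ee_add]; congr 1; push_cast; ring
  simp only [this]
  rw [← mul_expect, ← conj_expect, norm_mul, norm_ee, one_mul, RCLike.norm_conj,
    expect_ee_val_rl, norm_prod]

variable {I : Type} [Fintype I] {ω : BF I} {Φ : (I → ℝ) → ℂ}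

theorem corr (hΦ : QP ω Φ) {ε B : ℝ} {F : Finset (I → ℤ)}
    (H : ∀ Y : I → ℝ, (∀ l, 0 ≤ Y l ∧ Y l ≤ 1) → ∃ a : (I → ℤ) → ℂ, (∀ k, ‖a k‖ ≤ B) ∧
      ∀ w, ‖Tt ω Y Φ w * (starRingEnd ℂ) (Φ w) - ∑ k ∈ F, a k * ee (dot k w)‖ ≤ ε)
    (ξ : I → ℝ) (τ σ : ℝ) (n h : ℤ) (K : ℕ) :
    ‖𝔼 t : Box (rl K), sq Φ ξ τ σ (n - val (rl K) t + h) *
      (starRingEnd ℂ) (sq Φ ξ τ σ (n - val (rl K) t))‖ ≤
      ε + ∑ k ∈ F, B * ∏ j ∈ range K, ‖mu j ((pos j : ℝ) * fr ω ξ τ h k)‖ := by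
  set z : I → ℝ := iv fun l => ⌊(h : ℝ) * ξ l⌋ with hz
  obtain ⟨c, hc, hp⟩ : Per ω Φ z := hΦ.2.2 _
  obtain ⟨a, ha, H⟩ := H ((h : ℝ) • ξ - z) fun l =>
    ⟨Int.fract_nonneg ((h : ℝ) * ξ l), (Int.fract_lt_one ((h : ℝ) * ξ l)).le⟩
  set θ := τ * h + ω z ξ with hθ
  have key : ∀ m : ℤ, sq Φ ξ τ σ (m + h) * (starRingEnd ℂ) (sq Φ ξ τ σ m) =
      c * ee (h * θ + σ * h) * (ee (2 * m * θ) * (Tt ω ((h : ℝ) • ξ - z) Φ ((m : ℝ) • ξ) *
        (starRingEnd ℂ) (Φ ((m : ℝ) • ξ)) - ∑ k ∈ F, a k * ee (dot k ((m : ℝ) • ξ))) +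
        ∑ k ∈ F, a k * ee (m * fr ω ξ τ h k)) := fun m => by
    have e1 : ∑ k ∈ F, a k * ee (m * fr ω ξ τ h k) =
        ee (2 * m * θ) * ∑ k ∈ F, a k * ee (dot k ((m : ℝ) • ξ)) := by
      rw [mul_sum]
      refine sum_congr rfl fun k _ => ?_
      rw [mul_left_comm, ← ee_add, dot_smul, fr]
      congr 2; ring
    have e2 : ee ((2 * m + h) * θ + σ * h) = ee (h * θ + σ * h) * ee (2 * m * θ) := by
      rw [← ee_add]; congr 1; ring
    rw [sq_shift hΦ.1 hp (add_sub_cancel _ _).symm, e1, e2, sq, sq, map_mul, conj_ee]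
    linear_combination (c * ee (h * θ + σ * h) * ee (2 * m * θ) *
      Tt ω ((h : ℝ) • ξ - z) Φ ((m : ℝ) • ξ) * (starRingEnd ℂ) (Φ ((m : ℝ) • ξ))) *
      ee_mul_neg (τ * (m : ℝ) ^ 2 + σ * m)
  simp only [key]
  rw [← mul_expect, norm_mul, norm_mul, hc, norm_ee, one_mul, one_mul, expect_add_distrib,
    expect_sum_comm]
  refine (norm_add_le _ _).trans (add_le_add (norm_expect_le_of_le fun t => ?_)
    ((norm_sum_le _ _).trans (sum_le_sum fun k _ => ?_)))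
  · rw [norm_mul, norm_ee, one_mul]
    exact H _
  · rw [← mul_expect, norm_mul, norm_avg]
    exact mul_le_mul_of_nonneg_right (ha k) (prod_nonneg fun _ _ => norm_nonneg _)

theorem split {A : List ℕ} {K : ℕ} (hA : A.Nodup) (h : ∀ i ∈ A, i < K) (ψ : ℤ → ℂ) (n : ℤ) :
    ∃ n' : ℤ, ‖EA (rl K) ψ n‖ ≤
      ‖𝔼 s : Box A, 𝔼 t : Box (rl K), ψ (n' + val A s - val (rl K) t)‖ := by
  obtain ⟨B, hB⟩ := exists_perm_rl hA h
  rw [EA, expect_val_perm hB fun m => 𝔼 t : Box (rl K), ψ (n + m - val (rl K) t),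
    expect_val_append A B fun m => 𝔼 t : Box (rl K), ψ (n + m - val (rl K) t), expect_comm]
  obtain ⟨r, -, hr⟩ := exists_le_of_le_expect univ_nonempty (RCLike.norm_expect_le (K := ℂ)
    (s := univ) (f := fun r : Box B => 𝔼 s : Box A, 𝔼 t : Box (rl K),
      ψ (n + (val A s + val B r) - val (rl K) t)))
  refine ⟨n + val B r, hr.trans_eq ?_⟩
  simp only [add_assoc, add_comm (val B r)]

end SpecA

open SpecA in
theorem spec (ht : S_trig) : S_spec := by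
  classical
  intro I _ ω Φ hΦ δ hδ
  obtain ⟨C, hC, hC'⟩ := hΦ.exists_bound
  obtain ⟨F, B, hB, H⟩ := ht I ω Φ hΦ (δ ^ 2 / 4) (by positivity)
  set δ' := min (δ ^ 2 / (4 * (F.card * B + 1))) (δ ^ 2 / (2 * C ^ 2)) with hδ'
  have h0 : 0 < δ' := lt_min (by positivity) (by positivity)
  refine ⟨F, δ', h0, fun ξ τ σ h K₀ => ?_⟩
  obtain ⟨K, hK, h⟩ := h K₀
  refine ⟨K, hK, fun A hA hA' => (min_le_right _ _).trans ?_⟩
  obtain ⟨n, hn⟩ := split hA hA' (sq Φ ξ τ σ) (pos K)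
  have h1 := (pow_le_pow_left₀ hδ.le (h.trans hn) 2).trans (cs _)
  have h2 : ∀ s s' : Box A, ‖𝔼 t : Box (rl K), sq Φ ξ τ σ (n + val A s - val (rl K) t) *
      (starRingEnd ℂ) (sq Φ ξ τ σ (n + val A s' - val (rl K) t))‖ ≤ δ ^ 2 / 2 +
        C ^ 2 * if GoodH ω ξ τ F δ' K (val A s - val A s') then (1 : ℝ) else 0 := by
    intro s s'
    split_ifs with hg
    · refine le_add_of_nonneg_of_le (by positivity) (norm_expect_le_of_le fun t => ?_)
      rw [norm_mul, RCLike.norm_conj, norm_sq, norm_sq, mul_one, pow_two]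
      exact mul_le_mul (hC' _) (hC' _) (norm_nonneg _) hC.le
    · have h3 := corr hΦ H ξ τ σ (n + val A s') (val A s - val A s') K
      simp only [show ∀ t, n + val A s' - t + (val A s - val A s') = n + val A s - t from
        fun t => by ring] at h3
      have h4 := sum_le_card_nsmul F _ (B * δ') fun k hk =>
        mul_le_mul_of_nonneg_left (not_le.1 fun h5 => hg ⟨k, hk, h5⟩).le hB
      have h5 : δ' ≤ _ := min_le_left _ _
      rw [le_div_iff₀ (by positivity)] at h5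
      rw [nsmul_eq_mul] at h4
      linarith
  have h3 := h1.trans (expect_le_expect fun s _ => expect_le_expect fun s' _ => h2 s s')
  simp only [expect_add_distrib, ← mul_expect, expect_const univ_nonempty] at h3
  rw [div_le_iff₀ (by positivity), pr]
  linarith

end Pool.Agent.P.MP_2957ea_an.NC
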