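import Pool.Agent.P.MP_2957ea_an.NC.PerBasic

/-!
A rational relation from the spectral property.
-/

namespace Pool.Agent.P.MP_2957ea_an.NC

open Finset Filter Topology Pool.Agent.P.MP_2957ea_an
open scoped BigOperators

namespace Step3A

theorem off_diag {i : ℕ} {p : ℤ → Prop} {δ : ℝ} (h1 : ((len i : ℕ) : ℝ)⁻¹ < δ)
    (h2 : δ ≤ pr [i] p) :
    ∃ u u' : Fin (len i), u ≠ u' ∧ p ((((u : ℕ) : ℤ) - ((u' : ℕ) : ℤ)) * (pos i : ℤ)) := by
  classical
  by_contra h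
  push Not at h
  have : Nonempty (Fin (len i)) := ⟨⟨0, len_pos i⟩⟩
  rw [pr_single] at h2
  refine absurd (h2.trans (expect_le univ_nonempty fun u _ => ?_)) h1.not_ge
  refine (expect_le_expect (g := fun u' => if u = u' then (1 : ℝ) else 0) fun u' _ => ?_).trans ?_
  · by_cases e : u = u'
    · rw [if_pos e]
      split_ifs <;> norm_num
    · rw [if_neg e, if_neg (h u u' e)]
  · rw [expect_eq_sum_div_card, sum_ite_eq, if_pos (mem_univ _), card_univ, Fintype.card_fin,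
      one_div]

variable {I : Type} [Fintype I] {ω : BF I} {ξ : I → ℝ} {τ δ : ℝ} {F : Finset (I → ℤ)}

theorem large (hH : S_H) (hδ : 0 < δ) (h : SP ω ξ τ F δ) (R : ℝ) :
    ∃ h : ℤ, ∃ k ∈ F, R < |(h : ℝ)| ∧ InH (fr ω ξ τ h k) := by
  obtain ⟨i, hi⟩ := exists_nat_gt (max R δ⁻¹)
  rw [max_lt_iff] at hi
  have h1 : ((len i : ℕ) : ℝ)⁻¹ < δ :=
    inv_lt_of_inv_lt₀ hδ (hi.2.trans (by exact_mod_cast lt_len i))
  have h2 : ∃ᶠ K in atTop, ∃ t : Fin (len i) × Fin (len i) × F, t.1 ≠ t.2.1 ∧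
      δ ≤ ∏ j ∈ range K, ‖mu j ((pos j : ℝ) *
        fr ω ξ τ ((((t.1 : ℕ) : ℤ) - ((t.2.1 : ℕ) : ℤ)) * (pos i : ℤ)) t.2.2)‖ := by
    refine frequently_atTop.2 fun K₀ => ?_
    obtain ⟨K, h2, h3⟩ := h (max K₀ (i + 1))
    rw [max_le_iff] at h2
    obtain ⟨u, u', h4, k, hk, h5⟩ := off_diag h1 (h3 [i] (List.nodup_singleton i) (by simpa using h2.2))
    exact ⟨K, h2.1, (u, u', ⟨k, hk⟩), h4, h5⟩
  obtain ⟨⟨u, u', k⟩, h3⟩ := frequently_exists.1 h2
  refine ⟨_, k, k.2, ?_, hH.2.2 _ δ hδ (frequently_atTop.1 (h3.mono fun _ h => h.2))⟩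
  have h4 : (1 : ℤ) ≤ |((u : ℕ) : ℤ) - ((u' : ℕ) : ℤ)| := Int.one_le_abs (sub_ne_zero.2 fun e =>
    h3.exists.choose_spec.1 (Fin.ext (by exact_mod_cast e)))
  have h5 : (i : ℤ) < |(((u : ℕ) : ℤ) - ((u' : ℕ) : ℤ)) * (pos i : ℤ)| := by
    have h6 : (i : ℤ) < pos i := by exact_mod_cast lt_pos i
    rw [abs_mul, Nat.abs_cast]
    nlinarith
  exact hi.1.trans (by exact_mod_cast h5)

theorem exists_int (h2 : Int2 ω) (a : I → ℤ) : ∃ N : I → ℤ, ∀ w, 2 * ω (iv a) w = dot N w := by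
  classical
  choose N hN using fun l => h2 a (Pi.single l 1)
  refine ⟨N, fun w => ?_⟩
  have h1 : w = ∑ l, w l • iv (Pi.single l 1) := by
    funext l; simp [iv, Pi.single_apply]
  conv_lhs => rw [h1, map_sum, mul_sum]
  exact sum_congr rfl fun l _ => by rw [← hN, map_smul, smul_eq_mul]; ring

theorem dot_comb (N k k' : I → ℤ) (a b : ℤ) (w : I → ℝ) :
    dot (N + a • k - b • k') w = dot N w + a * dot k w - b * dot k' w := by
  simp only [dot, mul_sum, ← sum_add_distrib, ← sum_sub_distrib]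
  exact sum_congr rfl fun l _ => by simp; ring

end Step3A

open Step3A in
theorem step3 (hH : S_H) : S_step3 := by
  intro I _ ω ξ τ F δ _ h2 hδ hsp κ hκ
  let z : ℤ → I → ℤ := fun h l => ⌊(h : ℝ) * ξ l⌋
  let Y : ℤ → I → ℝ := fun h => (h : ℝ) • ξ - iv (z h)
  have hY : ∀ h, ‖Y h‖ ≤ 1 := fun h => (pi_norm_le_iff_of_nonneg zero_le_one).2 fun l =>
    (abs_of_nonneg (Int.fract_nonneg ((h : ℝ) * ξ l))).trans_le (Int.fract_lt_one _).le
  let c : ℤ → (I → ℤ) → ℝ := fun h k => dot k (iv κ) - 2 * ω (Y h) (iv κ)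
  have key : ∀ h k h' k', InH (fr ω ξ τ h k) → InH (fr ω ξ τ h' k') →
      h' * c h k = h * c h' k' := by
    intro h k h' k' e e'
    obtain ⟨N, hN⟩ := exists_int h2 (h' • z h - h • z h')
    simp only [iv_sub, iv_smul, map_sub, map_smul, LinearMap.sub_apply, LinearMap.smul_apply,
      smul_eq_mul] at hN
    have h3 := hH.1 _ _ (hH.2.1 h' _ e) (hH.2.1 (-h) _ e')
    have h4 : h' * fr ω ξ τ h k + ((-h : ℤ) : ℝ) * fr ω ξ τ h' k' =
        dot (N + h' • k - h • k') ξ := by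
      rw [dot_comb, ← hN, fr, fr]
      push_cast
      ring
    have h5 : dot (N + h' • k - h • k') (iv κ) = 0 := by
      rw [dot_iv, hκ _ (h4 ▸ h3), Int.cast_zero]
    rw [dot_comb, ← hN] at h5
    simp only [c, Y, map_sub, map_smul, LinearMap.sub_apply, LinearMap.smul_apply, smul_eq_mul]
    linear_combination h5
  obtain ⟨C, C0, hC⟩ := exists_bound_om ω
  have hc : ∀ h, ∀ k ∈ F, |c h k| ≤ ∑ k ∈ F, |dot k (iv κ)| + 2 * (C * ‖iv κ‖) := by
    intro h k hk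
    refine (abs_sub _ _).trans (add_le_add
      (single_le_sum (f := fun k => |dot k (iv κ)|) (fun _ _ => abs_nonneg _) hk) ?_)
    rw [abs_mul, abs_two]
    have h3 := mul_le_mul_of_nonneg_right (mul_le_of_le_one_right C0.le (hY h)) (norm_nonneg (iv κ))
    linarith [hC (Y h) (iv κ)]
  obtain ⟨h, k, -, h0, e⟩ := large hH hδ hsp 0
  have h3 : c h k = 0 := by
    by_contra h3
    have h4 := abs_pos.2 h3
    obtain ⟨h', k', hk', h5, e'⟩ := large hH hδ hsp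
      (|(h : ℝ)| * (∑ k ∈ F, |dot k (iv κ)| + 2 * (C * ‖iv κ‖)) / |c h k|)
    rw [div_lt_iff₀ h4, ← abs_mul, key h k h' k' e e', abs_mul] at h5
    exact h5.not_ge (mul_le_mul_of_nonneg_left (hc h' k' hk') (abs_nonneg _))
  obtain ⟨N, hN⟩ := h2 (z h) κ
  refine ⟨h, by rintro rfl; simp at h0, N + ∑ l, k l * κ l, ?_⟩
  simp only [c, Y, map_sub, map_smul, LinearMap.sub_apply, LinearMap.smul_apply, smul_eq_mul,
    dot_iv] at h3
  rw [Int.cast_add]
  linear_combination hN - h3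

end Pool.Agent.P.MP_2957ea_an.NC
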