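import Pool.Agent.P.MP_2957ea_an.NC.PerBasic

/-!
The skew product over a product of cyclic groups.
-/

namespace Pool.Agent.P.MP_2957ea_an.NC

open Finset Filter Topology MeasureTheory ProbabilityTheory Pool.Agent.P.MP_2957ea_an
open scoped BigOperators

namespace SysA

abbrev M (j : ℕ) : ℕ := pos (j + 1)

instance (j : ℕ) : NeZero (M j) := ⟨(pos_pos _).ne'⟩

abbrev X0 := (j : ℕ) → ZMod (M j)

noncomputable def q (j : ℕ) (a : ZMod (M j)) : UnitAddCircle :=
  ((tq j * (a.val : ℝ) ^ 2 : ℝ) : UnitAddCircle)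

theorem tq_nonneg (j : ℕ) : 0 ≤ tq j := by unfold tq tt; positivity

theorem tq_int (j : ℕ) : tq j * (M j : ℝ) ^ 2 = ((2 ^ (2 * j + 10) * (j + 1) : ℕ) : ℝ) := by
  have h1 : (len j : ℝ) ≠ 0 := by exact_mod_cast (len_pos j).ne'
  have h2 : (pos j : ℝ) ≠ 0 := by exact_mod_cast (pos_pos j).ne'
  simp only [tq, tt, M, pos_succ, gp]
  push_cast
  field_simp
  ring

theorem tq_le (j : ℕ) : tq j * (M j : ℝ) ≤ (gp j : ℝ)⁻¹ := by
  have h1 : (0 : ℝ) < gp j := by exact_mod_cast gp_pos j
  have h2 : (1 : ℝ) ≤ pos j := by exact_mod_cast pos_pos j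
  have h3 : tt j ≤ 1 := by
    unfold tt
    rw [div_le_one (by positivity)]
    nlinarith [Nat.cast_nonneg (α := ℝ) j]
  have h4 : tq j * (M j : ℝ) = (tt j / pos j) * (gp j : ℝ)⁻¹ := by
    simp only [tq, M, pos_succ, len]
    push_cast
    field_simp
  rw [h4]
  exact mul_le_of_le_one_left (by positivity) ((div_le_one (by positivity)).2 (h3.trans h2))

theorem norm_coe_le (t : ℝ) : ‖(t : UnitAddCircle)‖ ≤ |t| := by
  rw [← nd_eq_norm]; exact nd_le_abs t

theorem val_cast {j : ℕ} {n : ℤ} (h0 : 0 ≤ n) (h1 : n < M j) :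
    (((n : ZMod (M j)).val : ℕ) : ℝ) = n := by
  have := ZMod.val_intCast (n := M j) n
  rw [Int.emod_eq_of_lt h0 h1] at this
  exact_mod_cast this

theorem step (j : ℕ) (a : ZMod (M j)) : ‖q j (a + 1) - q j a‖ ≤ 2 * (gp j : ℝ)⁻¹ := by
  have hv : a.val < M j := ZMod.val_lt a
  have h1 : q j (a + 1) = ((tq j * ((a.val : ℝ) + 1) ^ 2 : ℝ) : UnitAddCircle) := by
    have e : a + 1 = (((a.val : ℤ) + 1 : ℤ) : ZMod (M j)) := by simp
    rcases Nat.lt_or_ge (a.val + 1) (M j) with h | h
    · rw [q, e, val_cast (by positivity) (by exact_mod_cast h)]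
      push_cast; rfl
    · have h2 : a.val + 1 = M j := by omega
      have h3 : (a.val : ℝ) + 1 = M j := by exact_mod_cast h2
      have h4 : a + 1 = 0 := by
        rw [e]
        have : ((a.val : ℤ) + 1 : ℤ) = (M j : ℤ) := by exact_mod_cast h2
        rw [this]; simp
      rw [h4, h3, tq_int, q, ZMod.val_zero, eq_comm]
      simp only [Nat.cast_zero, ne_eq, OfNat.ofNat_ne_zero, not_false_eq_true, zero_pow, mul_zero,
        QuotientAddGroup.mk_zero, AddCircle.coe_eq_zero_iff]
      exact ⟨(2 ^ (2 * j + 10) * (j + 1) : ℕ), by simp⟩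
  rw [h1, q, ← AddCircle.coe_sub]
  refine (norm_coe_le _).trans ?_
  have h2 : (a.val : ℝ) + 1 ≤ M j := by exact_mod_cast hv
  have h3 := tq_nonneg j
  have h4 := tq_le j
  rw [← mul_sub, abs_of_nonneg (mul_nonneg h3 (by nlinarith [Nat.cast_nonneg (α := ℝ) a.val]))]
  nlinarith

theorem steps (j : ℕ) (a : ZMod (M j)) (d : ℤ) :
    ‖q j (a + d) - q j a‖ ≤ |(d : ℝ)| * (2 * (gp j : ℝ)⁻¹) := by
  induction d using Int.induction_on with
  | zero => simp
  | succ n ih =>
    have h := step j (a + (n : ℤ))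
    push_cast at h ih ⊢
    rw [abs_of_nonneg (by positivity)] at ih ⊢
    have := norm_sub_le_norm_sub_add_norm_sub (q j (a + n + 1)) (q j (a + n)) (q j a)
    rw [← add_assoc]
    linarith
  | pred n ih =>
    have h := step j (a + (-(n : ℤ) - 1 : ℤ))
    push_cast at h ih ⊢
    rw [abs_neg, abs_of_nonneg (by positivity)] at ih
    rw [abs_of_nonpos (by linarith [Nat.cast_nonneg (α := ℝ) n])]
    rw [show a + (-(n : ZMod (M j)) - 1) + 1 = a + -n by ring, norm_sub_rev] at h
    have := norm_sub_le_norm_sub_add_norm_sub (q j (a + (-n - 1))) (q j (a + -n)) (q j a)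
    linarith

theorem summ (d : ℤ) (x : X0) : Summable fun j => q j (x j + d) - q j (x j) :=
  Summable.of_norm_bounded ((summable_inv_gp.mul_left 2).mul_left |(d : ℝ)|)
    fun j => steps j (x j) d

noncomputable def c (d : ℤ) (x : X0) : UnitAddCircle := ∑' j, (q j (x j + d) - q j (x j))

def sh (d : ℤ) (x : X0) : X0 := fun j => x j + d

theorem c_add (d e : ℤ) (x : X0) : c (d + e) x = c e x + c d (sh e x) := by
  rw [c, c, c, ← (summ e x).tsum_add (summ d _)]
  refine tsum_congr fun j => ?_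
  simp only [sh, Int.cast_add]
  rw [show x j + ((d : ZMod (M j)) + e) = x j + e + d by ring]
  abel

theorem meas_term (d : ℤ) (j : ℕ) : Measurable fun x : X0 => q j (x j + d) - q j (x j) :=
  (measurable_from_top (f := fun a : ZMod (M j) => q j (a + d) - q j a)).comp
    (measurable_pi_apply j)

theorem meas_sum (d : ℤ) (J : ℕ) :
    Measurable fun x : X0 => ∑ j ∈ range J, (q j (x j + d) - q j (x j)) :=
  Finset.measurable_fun_sum _ fun j _ => meas_term d j

theorem tend_c (d : ℤ) (x : X0) :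
    Tendsto (fun J => ∑ j ∈ range J, (q j (x j + d) - q j (x j))) atTop (𝓝 (c d x)) :=
  (summ d x).hasSum.tendsto_sum_nat

theorem meas_c (d : ℤ) : Measurable (c d) := by
  have h : Tendsto (fun J (x : X0) => ∑ j ∈ range J, (q j (x j + d) - q j (x j))) atTop
      (𝓝 (c d)) := tendsto_pi_nhds.2 (tend_c d)
  exact measurable_of_tendsto_metrizable (meas_sum d) h

noncomputable def S (d : ℤ) (p : X0 × UnitAddCircle) : X0 × UnitAddCircle :=
  (sh d p.1, c d p.1 + p.2)

theorem S_add (d e : ℤ) (p : X0 × UnitAddCircle) : S (d + e) p = S d (S e p) := by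
  refine Prod.ext (funext fun j => ?_) ?_
  · simp only [S, sh, Int.cast_add]; ring
  · simp only [S, c_add]; abel

theorem S_zero (p : X0 × UnitAddCircle) : S 0 p = p := by
  refine Prod.ext (funext fun j => ?_) ?_
  · simp [S, sh]
  · simp [S, c]

noncomputable def T : Equiv.Perm (X0 × UnitAddCircle) where
  toFun := S 1
  invFun := S (-1)
  left_inv p := by rw [← S_add, neg_add_cancel, S_zero]
  right_inv p := by rw [← S_add, add_neg_cancel, S_zero]

theorem T_zpow (d : ℤ) : ∀ p, (T ^ d) p = S d p := by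
  induction d using Int.induction_on with
  | zero => intro p; simp [S_zero]
  | succ n ih => intro p; rw [zpow_add_one, Equiv.Perm.mul_apply, ih, S_add]; rfl
  | pred n ih =>
    intro p; rw [zpow_sub_one, Equiv.Perm.mul_apply, ih, sub_eq_add_neg, S_add]; rfl

noncomputable def μ0 : Measure X0 := Measure.infinitePi fun j => uniformOn (Set.univ : Set (ZMod (M j)))

instance : IsProbabilityMeasure μ0 := by unfold μ0; infer_instance

theorem mp_sh (d : ℤ) : MeasurePreserving (sh d) μ0 μ0 := by
  refine ⟨measurable_pi_lambda _ fun j => (measurable_from_top (f := fun a : ZMod (M j) =>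
    a + d)).comp (measurable_pi_apply j), ?_⟩
  have h := Measure.infinitePi_map_pi (fun j => uniformOn (Set.univ : Set (ZMod (M j))))
    (f := fun j a => a + (d : ZMod (M j))) fun j => measurable_from_top
  refine h.trans ?_
  unfold μ0
  congr 1
  funext j
  ext s hs
  rw [Measure.map_apply measurable_from_top hs, uniformOn_univ, uniformOn_univ,
    measure_preimage_add_right]

noncomputable def μ : Measure (X0 × UnitAddCircle) := μ0.prod AddCircle.haarAddCircle

instance : IsProbabilityMeasure μ := by unfold μ; infer_instance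

theorem mp_S (d : ℤ) : MeasurePreserving (S d) μ μ :=
  (mp_sh d).skew_product (g := fun x z => c d x + z)
    (((meas_c d).comp measurable_fst).add measurable_snd)
    (ae_of_all _ fun _ => map_add_left_eq_self _ _)

noncomputable def ch (z : UnitAddCircle) : ℂ := AddCircle.toCircle z

theorem norm_ch (z : UnitAddCircle) : ‖ch z‖ = 1 := Circle.norm_coe _

theorem ch_add (z w : UnitAddCircle) : ch (z + w) = ch z * ch w := by
  simp [ch, AddCircle.toCircle_add]

theorem cont_ch : Continuous ch := continuous_subtype_val.comp AddCircle.continuous_toCircle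

theorem ch_coe (t : ℝ) : ch (t : UnitAddCircle) = ee t := by
  rw [ch, AddCircle.toCircle_apply_mk, Circle.coe_exp, ee]
  congr 1; push_cast; ring

def Ex (j : ℕ) (r : ℤ) : Set (ZMod (M j)) := {a | (a.val : ℤ) < |r| ∨ (M j : ℤ) ≤ a.val + |r|}

theorem q_good {j : ℕ} {d r : ℤ} (h : (M j : ℤ) ∣ d - r) {a : ZMod (M j)} (ha : a ∉ Ex j r) :
    q j (a + d) = ((tq j * ((a.val : ℝ) + r) ^ 2 : ℝ) : UnitAddCircle) := by
  simp only [Ex, Set.mem_ofPred_eq, not_or, not_lt, not_le] at ha
  have h1 : (r : ZMod (M j)) = d := (ZMod.intCast_eq_intCast_iff_dvd_sub _ _ _).2 h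
  have e : a + d = (((a.val : ℤ) + r : ℤ) : ZMod (M j)) := by simp [h1]
  rw [q, e, val_cast (by linarith [neg_abs_le r]) (by linarith [le_abs_self r])]
  push_cast; rfl

theorem meas_Ex (j : ℕ) (r : ℤ) :
    μ.real {p | p.1 j ∈ Ex j r} ≤ 2 * |(r : ℝ)| / (M j : ℝ) := by
  classical
  have h1 : MeasurePreserving (fun p : X0 × UnitAddCircle => p.1 j) μ
      (uniformOn (Set.univ : Set (ZMod (M j)))) :=
    (measurePreserving_eval_infinitePi _ j).comp measurePreserving_fst
  have h2 := h1.measure_preimage (s := Ex j r) MeasurableSpace.measurableSet_top.nullMeasurableSet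
  have h3 : (Ex j r).toFinset.card ≤ 2 * r.natAbs := by
    have := card_le_card_of_injOn (s := (Ex j r).toFinset)
      (t := range r.natAbs ∪ Ico (M j - r.natAbs) (M j)) ZMod.val (fun a ha => by
        have hv : a.val < M j := ZMod.val_lt a
        rw [Set.coe_toFinset] at ha
        replace ha : (a.val : ℤ) < |r| ∨ (M j : ℤ) ≤ a.val + |r| := ha
        rw [← Int.natCast_natAbs] at ha
        simp only [coe_union, Set.mem_union, mem_coe, mem_range, mem_Ico]
        omega) (ZMod.val_injective _).injOn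
    have h4 := card_union_le (range r.natAbs) (Ico (M j - r.natAbs) (M j))
    rw [card_range, Nat.card_Ico] at h4
    omega
  rw [Measure.real]
  erw [h2]
  rw [uniformOn_univ, ZMod.card, ← Set.coe_toFinset (Ex j r), Measure.count_apply_finset,
    ENNReal.toReal_div, ENNReal.toReal_natCast, ENNReal.toReal_natCast]
  gcongr
  rw [← Int.cast_abs, ← Int.natCast_natAbs]
  exact_mod_cast h3

noncomputable def F (d : ℤ) (J : ℕ) (p : X0 × UnitAddCircle) : ℂ :=
  ch (∑ j ∈ range J, (q j (p.1 j + d) - q j (p.1 j)) +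
    ∑ j ∈ range J, (q j (p.1 j + (-d : ℤ)) - q j (p.1 j)))

theorem meas_F (d : ℤ) (J : ℕ) : Measurable (F d J) :=
  cont_ch.measurable.comp (((meas_sum d J).add (meas_sum (-d) J)).comp measurable_fst)

theorem F_est {d : ℤ} {r : ℕ → ℤ} (h : ∀ j, (M j : ℤ) ∣ d - r j) (J : ℕ) :
    ‖(∫ p, F d J p ∂μ) - ee (∑ j ∈ range J, 2 * tq j * (r j : ℝ) ^ 2)‖ ≤
      ∑ j ∈ range J, 4 * |(r j : ℝ)| / (M j : ℝ) := by
  have hm : ∀ j, MeasurableSet {p : X0 × UnitAddCircle | p.1 j ∈ Ex j (r j)} := fun j =>
    ((measurable_pi_apply j).comp measurable_fst) MeasurableSpace.measurableSet_top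
  have hi : Integrable (F d J) μ :=
    Integrable.of_bound (meas_F d J).aestronglyMeasurable 1 (ae_of_all _ fun p => (norm_ch _).le)
  set e := ee (∑ j ∈ range J, 2 * tq j * (r j : ℝ) ^ 2) with he
  have h1 : (∫ p, F d J p ∂μ) - e = ∫ p, (F d J p - e) ∂μ := by
    rw [integral_sub hi (integrable_const _)]; simp
  have hI : ∀ j, Integrable
      ({p : X0 × UnitAddCircle | p.1 j ∈ Ex j (r j)}.indicator fun _ => (2 : ℝ)) μ := fun j =>
    (integrable_const _).indicator (hm j)
  rw [h1]
  refine (norm_integral_le_of_norm_le (integrable_finsetSum (range J) fun j _ => hI j)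
    (ae_of_all _ fun p => ?_)).trans ?_
  · by_cases hp : ∃ j ∈ range J, p.1 j ∈ Ex j (r j)
    · obtain ⟨j, hj, hp⟩ := hp
      refine le_trans ?_ (single_le_sum (f := fun j => {p : X0 × UnitAddCircle |
        p.1 j ∈ Ex j (r j)}.indicator (fun _ => (2 : ℝ)) p)
        (fun _ _ => Set.indicator_nonneg (fun _ _ => by norm_num) _) hj)
      rw [Set.indicator_of_mem (by exact hp)]
      refine (norm_sub_le _ _).trans ?_
      rw [F, norm_ch, he, norm_ee]; norm_num
    · push Not at hp
      have : F d J p = e := by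
        rw [F, he, ← ch_coe, ← sum_add_distrib, QuotientAddGroup.mk_sum]
        refine congrArg ch (sum_congr rfl fun j hj => ?_)
        rw [q_good (h j) (hp j hj), q_good (r := -r j) (by
          rw [show -d - -r j = -(d - r j) by ring]; exact (h j).neg_right) (by
          simpa only [Ex, abs_neg] using hp j hj), q, ← AddCircle.coe_sub, ← AddCircle.coe_sub,
          ← AddCircle.coe_add]
        congr 1; push_cast; ring
      rw [this, sub_self, norm_zero]
      exact sum_nonneg fun _ _ => Set.indicator_nonneg (fun _ _ => by norm_num) _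
  · rw [integral_finsetSum _ fun j _ => hI j]
    refine sum_le_sum fun j _ => ?_
    rw [integral_indicator_const _ (hm j), smul_eq_mul]
    have := meas_Ex j (r j)
    calc _ ≤ 2 * |(r j : ℝ)| / (M j : ℝ) * 2 := by gcongr
      _ = _ := by ring

end SysA

open SysA in
theorem sys : S_sys := by
  refine ⟨X0 × UnitAddCircle, inferInstance, μ, inferInstance, T, mp_S 1, mp_S (-1),
    fun p => ch p.2, cont_ch.measurable.comp measurable_snd, fun p => norm_ch _,
    fun d r η hd hη ε hε => ?_⟩
  have h1 : ∀ p : X0 × UnitAddCircle, (starRingEnd ℂ) (ch p.2) ^ 2 *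
      (ch ((T ^ d) p).2 * ch ((T ^ (-d)) p).2) = ch (c d p.1 + c (-d) p.1) := fun p => by
    have h2 : (starRingEnd ℂ) (ch p.2) * ch p.2 = 1 := by
      rw [Complex.conj_mul', norm_ch]; simp
    simp only [T_zpow, S, ch_add]
    linear_combination (ch (c d p.1) * ch (c (-d) p.1) * ((starRingEnd ℂ) (ch p.2) * ch p.2 + 1)) * h2
  simp only [h1]
  have h2 : Tendsto (fun J => ∫ p, F d J p ∂μ) atTop (𝓝 (∫ p, ch (c d p.1 + c (-d) p.1) ∂μ)) :=
    tendsto_integral_of_dominated_convergence (fun _ => 1)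
      (fun J => (meas_F d J).aestronglyMeasurable) (integrable_const _)
      (fun J => ae_of_all _ fun p => (norm_ch _).le)
      (ae_of_all _ fun p => (cont_ch.tendsto _).comp
        ((tend_c d p.1).add (tend_c (-d) p.1)))
  filter_upwards [Metric.tendsto_nhds.1 h2 ε hε] with J hJ
  rw [dist_comm, dist_eq_norm] at hJ
  have h3 := (F_est hd J).trans (hη J)
  have h4 := norm_sub_le_norm_sub_add_norm_sub (∫ p, ch (c d p.1 + c (-d) p.1) ∂μ)
    (∫ p, F d J p ∂μ) (ee (∑ j ∈ range J, 2 * tq j * (r j : ℝ) ^ 2))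
  linarith

end Pool.Agent.P.MP_2957ea_an.NC
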