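import Pool.Agent.P.MP_2957ea_an.NC.PerBasic

/-!
The diagonal frequencies are very close to rationals.
-/

namespace Pool.Agent.P.MP_2957ea_an.NC

open Finset Filter Topology Pool.Agent.P.MP_2957ea_an
open scoped BigOperators

namespace TinyA

theorem factor (hmu : S_mu) {K i : ℕ} (hi : i < K) {δ : ℝ} (hδ : 0 < δ) {γ : ℝ}
    (h : δ ≤ ∏ j ∈ range K, ‖mu j ((pos j : ℝ) * γ)‖) :
    nd ((pos i : ℝ) * γ) ≤ 1 / (δ * len i) / 2 := by
  have h1 : ∏ j ∈ range K, ‖mu j ((pos j : ℝ) * γ)‖ ≤ ‖mu i ((pos i : ℝ) * γ)‖ := by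
    rw [← mul_prod_erase _ _ (mem_range.2 hi)]
    exact mul_le_of_le_one_right (norm_nonneg _)
      (prod_le_one (fun _ _ => norm_nonneg _) fun j _ => (hmu j _).1)
  have h2 := (hmu i ((pos i : ℝ) * γ)).2.1
  have hl : (0 : ℝ) < len i := by exact_mod_cast len_pos i
  have h3 := nd_nonneg ((pos i : ℝ) * γ)
  have h4 : δ * (2 * (len i : ℝ) * nd ((pos i : ℝ) * γ)) ≤ 1 :=
    le_trans (mul_le_mul_of_nonneg_right (h.trans h1) (by positivity)) h2
  rw [div_div, le_div_iff₀ (by positivity)]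
  linarith

variable {I : Type} [Fintype I]

theorem stepA (hmu : S_mu) [DecidableEq I] {ω : BF I} {ξ : I → ℝ} {τ : ℝ} {F : Finset (I → ℤ)}
    {δ : ℝ} {q : ℕ} {z y : ℕ → I → ℝ} (hδ : 0 < δ) (hq : 0 < q) (hz : ZY q ξ z y) {p : ℕ}
    (hp0 : 0 < p)
    (hp : ((Fintype.piFinset (fun _ : I => Icc (-2 * q : ℤ) (2 * q)) ×ˢ F).card : ℝ) ≤ p * δ)
    {j K : ℕ} (hy : ∀ l, (len j : ℝ) * |y j l| ≤ 1) (hK : δ ≤ pr [j] (GoodH ω ξ τ F δ K)) :
    ∃ U : Finset ℤ, (∀ u ∈ U, 0 ≤ u ∧ u < len j) ∧ len j ≤ p * U.card ∧ ∀ i < K,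
      ∀ u ∈ U, ∀ u' ∈ U,
        nd (((u - u' : ℤ) : ℝ) * (2 * (pos i : ℝ) * th ω ξ τ z j)) ≤ 1 / (δ * len i) := by
  classical
  have : Nonempty (Fin (len j)) := ⟨⟨0, len_pos j⟩⟩
  rw [pr_single, expect_comm] at hK
  obtain ⟨u₂, -, hu₂⟩ := exists_le_of_le_expect univ_nonempty hK
  let df : Fin (len j) → ℤ := fun u => ((u : ℕ) : ℤ) - ((u₂ : ℕ) : ℤ)
  let S : Finset (Fin (len j)) := univ.filter fun u => GoodH ω ξ τ F δ K (df u * (pos j : ℤ))
  have hl : (0 : ℝ) < len j := by exact_mod_cast len_pos j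
  have hS : δ * len j ≤ S.card := by
    rw [expect_eq_sum_div_card, sum_boole, card_univ, Fintype.card_fin, le_div_iff₀ hl] at hu₂
    exact hu₂
  have hk : ∀ u, ∃ k, u ∈ S → k ∈ F ∧
      δ ≤ ∏ i ∈ range K, ‖mu i ((pos i : ℝ) * fr ω ξ τ (df u * (pos j : ℤ)) k)‖ := fun u => by
    by_cases hu : u ∈ S
    · obtain ⟨k, h1, h2⟩ := (mem_filter.1 hu).2
      exact ⟨k, fun _ => ⟨h1, h2⟩⟩
    · exact ⟨0, fun h => absurd h hu⟩
  choose k hk using hk
  obtain ⟨kz, hkz⟩ := hz.1 j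
  have hkz' : ∀ l, (kz l : ℝ) = q * z j l := fun l => (congrFun hkz l).symm
  have hxi : ∀ l, (pos j : ℝ) * ξ l = z j l + y j l := fun l => congrFun (hz.2.1 j) l
  let fl : Fin (len j) → I → ℤ := fun u l => ⌊((df u * (pos j : ℤ) : ℤ) : ℝ) * ξ l⌋
  let zb : Fin (len j) → I → ℤ := fun u l => df u * kz l - q * fl u l
  have hq' : (0 : ℝ) < q := by exact_mod_cast hq
  have hzb : ∀ u, zb u ∈ Fintype.piFinset (fun _ : I => Icc (-2 * q : ℤ) (2 * q)) := fun u => by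
    rw [Fintype.mem_piFinset]
    intro l
    have h1 := Int.floor_le (((df u * (pos j : ℤ) : ℤ) : ℝ) * ξ l)
    have h2 := Int.lt_floor_add_one (((df u * (pos j : ℤ) : ℤ) : ℝ) * ξ l)
    have h3 : ((df u * (pos j : ℤ) : ℤ) : ℝ) * ξ l = df u * z j l + df u * y j l := by
      push_cast; rw [mul_assoc, hxi]; ring
    have h4 : |(df u : ℝ)| ≤ len j := by
      have a1 : ((u : ℕ) : ℝ) < len j := by exact_mod_cast u.2
      have a2 : ((u₂ : ℕ) : ℝ) < len j := by exact_mod_cast u₂.2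
      have a3 : (0 : ℝ) ≤ (u : ℕ) := Nat.cast_nonneg _
      have a4 : (0 : ℝ) ≤ (u₂ : ℕ) := Nat.cast_nonneg _
      simp only [df]; push_cast; rw [abs_le]; constructor <;> linarith
    have h5 : |(df u : ℝ) * y j l| ≤ 1 := by
      rw [abs_mul]; exact le_trans (mul_le_mul_of_nonneg_right h4 (abs_nonneg _)) (hy l)
    have h6 : ((zb u l : ℤ) : ℝ) = q * (df u * z j l - fl u l) := by
      simp only [zb]; push_cast; rw [hkz']; ring
    rw [abs_le] at h5
    change ((fl u l : ℤ) : ℝ) ≤ _ at h1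
    change _ < ((fl u l : ℤ) : ℝ) + 1 at h2
    rw [h3] at h1 h2
    rw [mem_Icc]
    constructor
    · have : (-2 * q : ℝ) ≤ ((zb u l : ℤ) : ℝ) := by
        rw [h6, mul_comm]; exact mul_le_mul_of_nonneg_left (by linarith) hq'.le
      exact_mod_cast this
    · have : ((zb u l : ℤ) : ℝ) ≤ 2 * q := by
        rw [h6, mul_comm (2 : ℝ)]; exact mul_le_mul_of_nonneg_left (by linarith) hq'.le
      exact_mod_cast this
  have hfr : ∀ u k', fr ω ξ τ (df u * (pos j : ℤ)) k' =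
      2 * df u * th ω ξ τ z j - 2 * ω ((q : ℝ)⁻¹ • iv (zb u)) ξ + dot k' ξ := fun u k' => by
    have h1 : iv (fl u) = (df u : ℝ) • z j - (q : ℝ)⁻¹ • iv (zb u) := by
      funext l
      simp only [iv, zb, Pi.sub_apply, Pi.smul_apply, smul_eq_mul]
      push_cast
      rw [hkz']
      field_simp
      ring
    change 2 * (τ * _ + ω (iv (fl u)) ξ) + _ = _
    rw [h1, map_sub, map_smul ω (df u : ℝ), th]
    simp only [LinearMap.sub_apply, LinearMap.smul_apply, smul_eq_mul]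
    push_cast
    ring
  have hp' : (0 : ℝ) < p := by exact_mod_cast hp0
  have hSne : S.Nonempty := by
    rw [← card_pos]
    have : (0 : ℝ) < S.card := lt_of_lt_of_le (by positivity) hS
    exact_mod_cast this
  have hmaps : ∀ u ∈ S, (zb u, k u) ∈
      Fintype.piFinset (fun _ : I => Icc (-2 * q : ℤ) (2 * q)) ×ˢ F :=
    fun u hu => mem_product.2 ⟨hzb u, (hk u hu).1⟩
  obtain ⟨lam, -, hlam⟩ := exists_le_card_fiber_of_nsmul_le_card_of_maps_to (b := (len j : ℝ) / p)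
    hmaps (hSne.elim fun u hu => ⟨_, hmaps u hu⟩) (by
      rw [nsmul_eq_mul]
      refine le_trans ?_ hS
      rw [← mul_div_assoc, div_le_iff₀ hp']
      exact (mul_le_mul_of_nonneg_right hp hl.le).trans_eq (by ring))
  refine ⟨(S.filter fun u => (zb u, k u) = lam).image
    fun u : Fin (len j) => ((u : ℕ) : ℤ), ?_, ?_, ?_⟩
  · intro u hu
    obtain ⟨v, -, rfl⟩ := mem_image.1 hu
    exact ⟨Int.natCast_nonneg _, by exact_mod_cast v.2⟩
  · rw [card_image_of_injective _ fun a b h => Fin.ext (by exact_mod_cast h)]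
    rw [div_le_iff₀ hp', mul_comm] at hlam
    exact_mod_cast hlam
  · intro i hi u hu u' hu'
    obtain ⟨v, hv, rfl⟩ := mem_image.1 hu
    obtain ⟨v', hv', rfl⟩ := mem_image.1 hu'
    rw [mem_filter] at hv hv'
    have e := hv.2.trans hv'.2.symm
    rw [Prod.mk.injEq] at e
    have h1 := factor hmu hi hδ (hk v hv.1).2
    have h2 := factor hmu hi hδ (hk v' hv'.1).2
    have h3 := nd_sub_le ((pos i : ℝ) * fr ω ξ τ (df v * (pos j : ℤ)) (k v))
      ((pos i : ℝ) * fr ω ξ τ (df v' * (pos j : ℤ)) (k v'))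
    have h4 : (pos i : ℝ) * fr ω ξ τ (df v * (pos j : ℤ)) (k v) -
        (pos i : ℝ) * fr ω ξ τ (df v' * (pos j : ℤ)) (k v') =
        (((((v : ℕ) : ℤ) - ((v' : ℕ) : ℤ) : ℤ)) : ℝ) * (2 * (pos i : ℝ) * th ω ξ τ z j) := by
      rw [hfr, hfr, e.1, e.2]
      simp only [df]
      push_cast
      ring
    rw [h4] at h3
    linarith

theorem stepC {t C : ℝ} {Q i₀ j : ℕ} (hij : i₀ ≤ j) (hC : 2 * C < gp j)
    (h : ∀ i, i₀ ≤ i → i ≤ j + 1 → nd (Q * (2 * (pos i : ℝ) * t)) * ((len i : ℝ) * len j) ≤ C) :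
    (pos j : ℝ) * (len j : ℝ) ^ 2 * nd (2 * ((Q * pos i₀ : ℕ) : ℝ) * t) ≤
      C * pos i₀ * (gp j : ℝ)⁻¹ := by
  let x : ℕ → ℝ := fun i => Q * (2 * (pos i : ℝ) * t) - round (Q * (2 * (pos i : ℝ) * t))
  have hx : ∀ i, i₀ ≤ i → i ≤ j + 1 → |x i| * ((len i : ℝ) * len j) ≤ C := h
  have hg : (0 : ℝ) < gp j := by exact_mod_cast gp_pos j
  have hlj : (len j : ℝ) = (gp j : ℝ) ^ 2 := by simp [len]
  have hl1 : ∀ i, (1 : ℝ) ≤ len i := fun i => by exact_mod_cast len_pos i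
  have hg1 : (1 : ℝ) ≤ gp j := by exact_mod_cast gp_pos j
  have key : ∀ i, i₀ ≤ i → i ≤ j + 1 → x i * pos i₀ = pos i * x i₀ := by
    intro i hi
    induction i, hi using Nat.le_induction with
    | base => intro _; ring
    | succ i hi ih =>
      intro hi'
      have hij' : i ≤ j := by omega
      have e : x (i + 1) - gp i * len i * x i = ((gp i * len i * round (Q * (2 * (pos i : ℝ) * t)) -
          round (Q * (2 * (pos (i + 1) : ℝ) * t)) : ℤ) : ℝ) := by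
        simp only [x, pos_succ]; push_cast; ring
      have h1 := hx (i + 1) (by omega) hi'
      have h2 := hx i hi (by omega)
      have hgi : (gp i : ℝ) ≤ gp j := by exact_mod_cast gp_mono hij'
      have a1 : |x (i + 1)| < 1 / 2 := by
        have b1 : |x (i + 1)| * gp j ≤ |x (i + 1)| * ((len (i + 1) : ℝ) * len j) := by
          refine mul_le_mul_of_nonneg_left ?_ (abs_nonneg _)
          have := hl1 (i + 1)
          rw [hlj]; nlinarith
        by_contra hh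
        rw [not_lt] at hh
        nlinarith
      have a2 : |(gp i : ℝ) * len i * x i| < 1 / 2 := by
        have b0 : (0 : ℝ) ≤ gp i := Nat.cast_nonneg _
        have b2 : (0 : ℝ) ≤ len i := Nat.cast_nonneg _
        rw [abs_mul, abs_of_nonneg (mul_nonneg b0 b2)]
        have b1 : (gp i : ℝ) * len i * |x i| * gp j ≤ |x i| * ((len i : ℝ) * len j) := by
          rw [hlj]
          have := mul_le_mul_of_nonneg_left hgi
            (mul_nonneg (mul_nonneg b2 (abs_nonneg (x i))) hg.le)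
          nlinarith
        by_contra hh
        rw [not_lt] at hh
        nlinarith
      have a3 : |x (i + 1) - gp i * len i * x i| < 1 :=
        lt_of_le_of_lt (abs_sub _ _) (by linarith)
      rw [e, ← Int.cast_abs, ← Int.cast_one, Int.cast_lt, Int.abs_lt_one_iff] at a3
      rw [a3, Int.cast_zero, sub_eq_zero] at e
      rw [e, mul_assoc, ih (by omega), pos_succ]
      push_cast; ring
  have h1 := key (j + 1) (by omega) le_rfl
  have h2 := hx (j + 1) (by omega) le_rfl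
  have h3 : nd (2 * ((Q * pos i₀ : ℕ) : ℝ) * t) = |x i₀| := by
    have : 2 * ((Q * pos i₀ : ℕ) : ℝ) * t = Q * (2 * (pos i₀ : ℝ) * t) := by push_cast; ring
    rw [this]; rfl
  have h4 : |x (j + 1)| * pos i₀ = (gp j : ℝ) * len j * pos j * |x i₀| := by
    have := congrArg abs h1
    rw [abs_mul, abs_mul, Nat.abs_cast, Nat.abs_cast, pos_succ] at this
    rw [this]; push_cast; ring
  rw [h3, ← div_eq_mul_inv, le_div_iff₀ hg]
  have h5 : |x (j + 1)| * len j ≤ C := by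
    refine le_trans (mul_le_mul_of_nonneg_left ?_ (abs_nonneg _)) h2
    have := hl1 (j + 1)
    have := hl1 j
    nlinarith
  calc (pos j : ℝ) * (len j : ℝ) ^ 2 * |x i₀| * gp j = |x (j + 1)| * pos i₀ * len j := by
        rw [h4]; ring
    _ = |x (j + 1)| * len j * pos i₀ := by ring
    _ ≤ C * pos i₀ := mul_le_mul_of_nonneg_right h5 (Nat.cast_nonneg _)

end TinyA

theorem tiny (hmu : S_mu) (hv : S_vin) : S_tiny := by
  intro I _ ω ξ τ F δ q z y hδ hq hsp hz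
  classical
  obtain ⟨p, hp⟩ := exists_nat_gt
    (((Fintype.piFinset (fun _ : I => Icc (-2 * q : ℤ) (2 * q)) ×ˢ F).card : ℝ) / δ)
  have hp0' : (0 : ℝ) < p := lt_of_le_of_lt (by positivity) hp
  have hp0 : 0 < p := by exact_mod_cast hp0'
  rw [div_lt_iff₀ hδ] at hp
  obtain ⟨Q, hQ0, hQ⟩ : ∃ Q : ℕ, 0 < Q ∧ ∀ q₁, 0 < q₁ → q₁ ≤ 2 * p → q₁ ∣ Q :=
    ⟨(2 * p).factorial, Nat.factorial_pos _, fun _ h h' => Nat.dvd_factorial h h'⟩
  obtain ⟨C, hC⟩ : ∃ C : ℝ, C = Q * (36 * (p : ℝ) ^ 2 / δ) := ⟨_, rfl⟩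
  obtain ⟨i₀, hi₀⟩ := eventually_atTop.1 (tendsto_len.eventually_ge_atTop (12 * p / δ))
  refine ⟨Q * pos i₀, Nat.mul_pos hQ0 (pos_pos _), ?_⟩
  refine Summable.of_norm_bounded_eventually_nat (summable_inv_gp.mul_left (C * pos i₀)) ?_
  have hy := hz.2.2.tendsto_atTop_zero.eventually (eventually_le_nhds (zero_lt_one' ℝ))
  filter_upwards [hy, eventually_ge_atTop i₀, eventually_ge_atTop (2 * p),
    tendsto_gp.eventually_gt_atTop (2 * C)] with j hj1 hj2 hj3 hj4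
  have hnn := nd_nonneg (2 * ((Q * pos i₀ : ℕ) : ℝ) * th ω ξ τ z j)
  rw [Real.norm_eq_abs,
    abs_of_nonneg (mul_nonneg (mul_nonneg (Nat.cast_nonneg _) (sq_nonneg _)) hnn)]
  refine TinyA.stepC hj2 hj4 fun i hi1 hi2 => ?_
  obtain ⟨K, hK1, hK2⟩ := hsp (j + 2)
  have hy' : ∀ l, (len j : ℝ) * |y j l| ≤ 1 := fun l => by
    have h1 : y j l ^ 2 ≤ ∑ l, y j l ^ 2 :=
      single_le_sum (f := fun l => y j l ^ 2) (fun _ _ => sq_nonneg _) (mem_univ l)
    have h2 : ((len j : ℝ) * |y j l|) ^ 2 ≤ 1 := by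
      rw [mul_pow, sq_abs]
      exact le_trans (mul_le_mul_of_nonneg_left h1 (sq_nonneg _)) hj1
    exact (abs_le_of_sq_le_sq' (by simpa using h2) zero_le_one).2
  obtain ⟨U, hU1, hU2, hU3⟩ := TinyA.stepA hmu hδ hq hz hp0 hp.le hy'
    (hK2 [j] (List.nodup_singleton j) (by simp; omega))
  obtain ⟨q₁, h1, h2, h3⟩ := hv p (len j) hp0 (lt_of_le_of_lt hj3 (lt_len j)) U hU1 hU2
  have hli : (0 : ℝ) < len i := by exact_mod_cast len_pos i
  have h4 := h3 (2 * (pos i : ℝ) * th ω ξ τ z j) (1 / (δ * len i)) (by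
    have := hi₀ i hi1
    rw [div_le_iff₀ hδ] at this
    rw [mul_one_div, div_le_one (mul_pos hδ hli)]
    linarith) (hU3 i (by omega))
  obtain ⟨m, hm⟩ : q₁ ∣ Q := hQ q₁ h1 h2.le
  have hmQ : (m : ℝ) ≤ Q := by
    have : m ≤ Q := by rw [hm]; exact Nat.le_mul_of_pos_left _ h1
    exact_mod_cast this
  have h5 := nd_int_mul_le (m : ℤ) (q₁ * (2 * (pos i : ℝ) * th ω ξ τ z j))
  have h6 : ((m : ℤ) : ℝ) * (q₁ * (2 * (pos i : ℝ) * th ω ξ τ z j)) =
      Q * (2 * (pos i : ℝ) * th ω ξ τ z j) := by rw [hm]; push_cast; ring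
  rw [h6, Int.cast_natCast, Nat.abs_cast] at h5
  have h7 := nd_nonneg (q₁ * (2 * (pos i : ℝ) * th ω ξ τ z j))
  have hlj : (0 : ℝ) ≤ len j := Nat.cast_nonneg _
  calc _ ≤ (Q * nd (q₁ * (2 * (pos i : ℝ) * th ω ξ τ z j))) * ((len i : ℝ) * len j) :=
        mul_le_mul_of_nonneg_right (h5.trans (mul_le_mul_of_nonneg_right hmQ h7))
          (mul_nonneg hli.le hlj)
    _ = Q * (nd (q₁ * (2 * (pos i : ℝ) * th ω ξ τ z j)) * len j * len i) := by ring
    _ ≤ Q * (36 * (p : ℝ) ^ 2 * (1 / (δ * len i)) * len i) :=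
        mul_le_mul_of_nonneg_left (mul_le_mul_of_nonneg_right h4 hli.le) (Nat.cast_nonneg _)
    _ = C := by rw [hC]; field_simp

end Pool.Agent.P.MP_2957ea_an.NC
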