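import Pool.Agent.P.MP_2957ea_an.NC.PerBasic

/-!
Uniform approximation of a compact family of periodic functions by trigonometric polynomials.
-/

namespace Pool.Agent.P.MP_2957ea_an.NC

open Finset Filter Topology Pool.Agent.P.MP_2957ea_an
open scoped BigOperators

namespace TrigA

variable {I : Type} [Fintype I]

/-- Reduction modulo one. -/
def qq (I : Type) : (I → ℝ) → UnitAddTorus I := Pi.map fun _ => QuotientAddGroup.mk

omit [Fintype I] in
theorem qq_open : IsOpenQuotientMap (qq I) :=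
  IsOpenQuotientMap.piMap fun _ => QuotientAddGroup.isOpenQuotientMap_mk

omit [Fintype I] in
theorem qq_eq {w w' : I → ℝ} (h : qq I w = qq I w') : ∃ k : I → ℤ, w' = w + iv k := by
  have h1 : ∀ l, ∃ k : ℤ, k • (1 : ℝ) = -w l + w' l := fun l =>
    AddSubgroup.mem_zmultiples_iff.1 (QuotientAddGroup.eq.1 (congrFun h l))
  choose k hk using h1
  refine ⟨k, funext fun l => ?_⟩
  have := hk l
  rw [zsmul_eq_mul, mul_one] at this
  simp only [Pi.add_apply, iv]
  linarith

theorem mF (k : I → ℤ) (w : I → ℝ) : UnitAddTorus.mFourier k (qq I w) = ee (dot k w) := by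
  rw [dot, ee_sum]
  refine prod_congr rfl fun l _ => (fourier_coe_apply (T := 1)).trans ?_
  unfold ee
  congr 1
  push_cast
  ring

theorem main (G : (I → ℝ) × (I → ℝ) → ℂ) (hG : Continuous G)
    (hp : ∀ Y w (k : I → ℤ), G (Y, w + iv k) = G (Y, w)) {ε : ℝ} (hε : 0 < ε) :
    ∃ (F : Finset (I → ℤ)) (B : ℝ), 0 ≤ B ∧ ∀ Y : I → ℝ, (∀ l, 0 ≤ Y l ∧ Y l ≤ 1) →
      ∃ a : (I → ℤ) → ℂ, (∀ k, ‖a k‖ ≤ B) ∧ ∀ w, ‖G (Y, w) - ∑ k ∈ F, a k * ee (dot k w)‖ ≤ ε := by
  classical
  let H : (I → ℝ) × UnitAddTorus I → ℂ := fun p =>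
    G (p.1, Function.surjInv (qq_open (I := I)).surjective p.2)
  have hH : ∀ Y w, H (Y, qq I w) = G (Y, w) := by
    intro Y w
    obtain ⟨k, hk⟩ := qq_eq (Function.surjInv_eq (qq_open (I := I)).surjective (qq I w)).symm
    change G (Y, _) = _
    rw [hk, hp]
  have hc : Continuous H :=
    (IsOpenQuotientMap.id.prodMap qq_open).isQuotientMap.continuous_iff.2
      (hG.congr fun p => (hH p.1 p.2).symm)
  let Γ : C(I → ℝ, C(UnitAddTorus I, ℂ)) := ContinuousMap.curry ⟨H, hc⟩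
  let P : ((I → ℤ) →₀ ℂ) → C(UnitAddTorus I, ℂ) := fun c =>
    c.sum fun k a => a • UnitAddTorus.mFourier k
  have hK : IsCompact (Γ '' Set.Icc 0 1) := isCompact_Icc.image Γ.continuous
  obtain ⟨t, ht⟩ := hK.elim_finite_subcover (fun c => Metric.ball (P c) ε)
    (fun _ => Metric.isOpen_ball) (fun f _ => by
      have h1 : f ∈ (Submodule.span ℂ
          (Set.range (UnitAddTorus.mFourier (d := I)))).topologicalClosure := by
        rw [UnitAddTorus.span_mFourier_closure_eq_top]; trivial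
      obtain ⟨g, h2, h3⟩ := Metric.mem_closure_iff.1 h1 ε hε
      obtain ⟨c, rfl⟩ := Finsupp.mem_span_range_iff_exists_finsupp.1 h2
      exact Set.mem_iUnion.2 ⟨c, h3⟩)
  refine ⟨t.biUnion Finsupp.support, ∑ c ∈ t, ∑ k ∈ c.support, ‖c k‖, by positivity, fun Y hY => ?_⟩
  obtain ⟨c, hct, h⟩ := Set.mem_iUnion₂.1 (ht ⟨Y, ⟨fun l => (hY l).1, fun l => (hY l).2⟩, rfl⟩)
  refine ⟨c, fun k => ?_, fun w => ?_⟩
  · by_cases hk : k ∈ c.support
    · exact (single_le_sum (f := fun k => ‖c k‖) (fun _ _ => norm_nonneg _) hk).trans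
        (single_le_sum (f := fun c : (I → ℤ) →₀ ℂ => ∑ k ∈ c.support, ‖c k‖)
          (fun _ _ => by positivity) hct)
    · rw [Finsupp.notMem_support_iff.1 hk, norm_zero]
      positivity
  · have h1 : P c (qq I w) = ∑ k ∈ t.biUnion Finsupp.support, c k * ee (dot k w) := by
      rw [← sum_subset (subset_biUnion_of_mem Finsupp.support hct) fun k _ hk => by
        rw [Finsupp.notMem_support_iff.1 hk, zero_mul]]
      simp only [P, Finsupp.sum, ContinuousMap.sum_apply, ContinuousMap.smul_apply, mF, smul_eq_mul]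
    rw [← h1, ← hH, ← dist_eq_norm]
    exact (ContinuousMap.dist_apply_le_dist (f := Γ Y) (g := P c) _).trans (le_of_lt h)

end TrigA

theorem trig : S_trig := by
  intro I _ ω Φ h ε hε
  refine TrigA.main (fun p => Tt ω p.1 Φ p.2 * (starRingEnd ℂ) (Φ p.2))
    ((continuous_Tt h.2.1).mul (Complex.continuous_conj.comp (h.2.1.comp continuous_snd)))
    (fun Y w k => ?_) hε
  obtain ⟨c, hc, h1⟩ := h.2.2 k
  have h2 : ‖c * ee (ω (iv k) w)‖ = 1 := by rw [norm_mul, hc, norm_ee, one_mul]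
  change Tt ω Y Φ (w + iv k) * (starRingEnd ℂ) (Φ (w + iv k)) = Tt ω Y Φ w * (starRingEnd ℂ) (Φ w)
  rw [per_Tt h.1 h1 Y w, h1 w, map_mul, mul_mul_mul_comm, Complex.mul_conj', h2]
  simp

end Pool.Agent.P.MP_2957ea_an.NC
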