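import Pool.Agent.P.MP_2957ea_an.NC.PerBasic

namespace Pool.Agent.P.MP_2957ea_an.NC

open Finset Filter Topology Pool.Agent.P.MP_2957ea_an
open scoped BigOperators

namespace VinA

theorem card_le {S : Finset ℤ} {a l : ℝ} (hl : 0 ≤ l) (h : ∀ s ∈ S, a ≤ s ∧ (s : ℝ) ≤ a + l) :
    (S.card : ℝ) ≤ l + 1 := by
  have h1 : S ⊆ Icc ⌈a⌉ ⌊a + l⌋ := fun s hs =>
    mem_Icc.2 ⟨Int.ceil_le.2 (h s hs).1, Int.le_floor.2 (h s hs).2⟩
  have h2 := card_le_card h1
  rw [Int.card_Icc] at h2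
  have h3 := Int.le_ceil a
  have h4 := Int.floor_le (a + l)
  rcases le_total (⌊a + l⌋ + 1 - ⌈a⌉) 0 with h5 | h5
  · rw [Int.toNat_eq_zero.2 h5, Nat.le_zero] at h2
    rw [h2]; push_cast; linarith
  · have h6 : (S.card : ℤ) ≤ ⌊a + l⌋ + 1 - ⌈a⌉ := by omega
    have h7 : (S.card : ℝ) ≤ (⌊a + l⌋ : ℝ) + 1 - ⌈a⌉ := by exact_mod_cast h6
    linarith

theorem count {W : Finset ℤ} {N β η : ℝ} (hN : 0 ≤ N) (hβ : 0 < β) (hη : β ≤ η)
    (h : ∀ w ∈ W, 0 ≤ w ∧ (w : ℝ) ≤ N ∧ nd (w * β) ≤ η) :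
    (W.card : ℝ) ≤ (N * β + 2 * η + 1) * (3 * η / β) := by
  have h1 : ((W.image fun w : ℤ => round ((w : ℝ) * β)).card : ℝ) ≤ N * β + 2 * η + 1 := by
    refine card_le (a := -η) (by nlinarith) fun k hk => ?_
    obtain ⟨w, hw, rfl⟩ := mem_image.1 hk
    obtain ⟨a1, a2, a3⟩ := h w hw
    have a4 : (0 : ℝ) ≤ w := by exact_mod_cast a1
    have a5 := abs_le.1 a3
    have a6 : (w : ℝ) * β ≤ N * β := mul_le_mul_of_nonneg_right a2 hβ.le
    have a7 : 0 ≤ (w : ℝ) * β := mul_nonneg a4 hβ.le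
    constructor <;> linarith [a5.1, a5.2]
  have h2 : ∀ k : ℤ, ((W.filter fun w : ℤ => round ((w : ℝ) * β) = k).card : ℝ) ≤ 3 * η / β := by
    intro k
    refine (card_le (a := (k - η) / β) (l := 2 * η / β) (by
      have : 0 < η := hβ.trans_le hη
      positivity) fun w hw => ?_).trans ?_
    · obtain ⟨hw, e⟩ := mem_filter.1 hw
      have a5 := abs_le.1 (h w hw).2.2
      rw [e] at a5
      rw [← add_div, div_le_iff₀ hβ, le_div_iff₀ hβ]
      constructor <;> linarith [a5.1, a5.2]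
    · rw [div_add_one hβ.ne']
      exact div_le_div_of_nonneg_right (by linarith) hβ.le
  rw [card_eq_sum_card_image (fun w : ℤ => round ((w : ℝ) * β)) W]
  push_cast
  refine (sum_le_card_nsmul _ _ _ fun k _ => h2 k).trans ?_
  rw [nsmul_eq_mul]
  refine mul_le_mul_of_nonneg_right h1 ?_
  have : 0 < η := hβ.trans_le hη
  positivity

theorem close {p L : ℕ} (hp : 0 < p) (hL : 2 * p < L) {U : Finset ℤ}
    (hU : ∀ u ∈ U, 0 ≤ u ∧ u < L) (hc : L ≤ p * U.card) :
    ∃ q : ℕ, 0 < q ∧ q < 2 * p ∧ ∃ u ∈ U, ∃ u' ∈ U, u - u' = q := by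
  obtain ⟨s, hs⟩ : ∃ s, s = (L - 1) / (2 * p) := ⟨_, rfl⟩
  have s1 : 2 * p * s ≤ L - 1 := hs ▸ Nat.mul_div_le _ _
  have s2 : 1 ≤ s := hs ▸ (Nat.le_div_iff_mul_le (by omega)).2 (by omega)
  have s3 : L - 1 < 2 * p * (s + 1) := hs ▸ Nat.lt_mul_div_succ _ (by omega)
  have s4 : 2 * s < U.card := by
    refine Nat.lt_of_mul_lt_mul_left (a := p) ?_
    have : p * (2 * s) = 2 * p * s := by ring
    omega
  have hp' : (0 : ℤ) < 2 * p := by omega
  obtain ⟨u, hu, u', hu', hne, e⟩ := exists_ne_map_eq_of_card_lt_of_maps_to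
    (s := U) (t := Ico (0 : ℤ) (s + 1)) (f := fun u : ℤ => u / (2 * p))
    (by rw [Int.card_Ico]; omega) (fun u hu => by
      have h1 := hU u hu
      refine mem_coe.2 (mem_Ico.2 ⟨Int.ediv_nonneg h1.1 hp'.le, ?_⟩)
      rw [Int.ediv_lt_iff_lt_mul hp']
      have s5 : (L : ℤ) ≤ 2 * p * (s + 1) := by
        have : L ≤ 2 * p * (s + 1) := by omega
        exact_mod_cast this
      linarith [h1.2])
  have e1 := Int.emod_add_mul_ediv u (2 * p)
  have e2 := Int.emod_add_mul_ediv u' (2 * p)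
  have e3 := Int.emod_nonneg u hp'.ne'
  have e4 := Int.emod_nonneg u' hp'.ne'
  have e5 := Int.emod_lt_of_pos u hp'
  have e6 := Int.emod_lt_of_pos u' hp'
  rw [e] at e1
  rcases lt_or_gt_of_ne hne with h | h
  · exact ⟨(u' - u).toNat, by omega, by omega, u', hu', u, hu, by omega⟩
  · exact ⟨(u - u').toNat, by omega, by omega, u, hu, u', hu', by omega⟩

theorem cls {q : ℕ} (hq : 0 < q) (U : Finset ℤ) :
    ∃ r : ℤ, U.card ≤ q * (U.filter fun u => u % q = r).card := by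
  have hq' : (0 : ℤ) < q := by omega
  obtain ⟨r, _, hr⟩ := exists_max_image (Ico (0 : ℤ) q)
    (fun r => (U.filter fun u => u % q = r).card) ⟨0, mem_Ico.2 ⟨le_rfl, hq'⟩⟩
  refine ⟨r, ?_⟩
  rw [card_eq_sum_card_fiberwise (s := U) (t := Ico (0 : ℤ) q) (f := fun u : ℤ => u % (q : ℤ))
    fun u _ => mem_coe.2 (mem_Ico.2 ⟨Int.emod_nonneg u hq'.ne', Int.emod_lt_of_pos u hq'⟩)]
  refine (sum_le_card_nsmul _ _ _ hr).trans ?_
  rw [Int.card_Ico]; simp

end VinA

open VinA in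
theorem vin : S_vin := by
  intro p L hp hL U hU hc
  obtain ⟨q, q0, q1, u₁, h1, u₂, h2, e⟩ := close hp hL hU hc
  refine ⟨q, q0, q1, fun γ η hη H => ?_⟩
  have hb : nd ((q : ℝ) * γ) ≤ η := by
    have := H u₁ h1 u₂ h2
    rwa [e, Int.cast_natCast] at this
  have η0 : 0 ≤ η := (nd_nonneg _).trans hb
  rcases (nd_nonneg ((q : ℝ) * γ)).eq_or_lt with h0 | h0
  · rw [← h0, zero_mul]; positivity
  obtain ⟨r, hr⟩ := cls q0 U
  set V := U.filter fun u => u % q = r
  have hV : V.Nonempty := by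
    rw [← card_pos]
    rcases Nat.eq_zero_or_pos V.card with h | h
    · rw [h, mul_zero, Nat.le_zero] at hr
      rw [hr] at hc
      omega
    · exact h
  obtain ⟨u₀, hu₀, hmin⟩ := exists_min_image V id hV
  have q0' : (0 : ℝ) < q := by exact_mod_cast q0
  have hdv : ∀ u ∈ V, (q : ℤ) * ((u - u₀) / q) = u - u₀ := fun u hu =>
    Int.mul_ediv_cancel' ((Int.emod_emod_of_dvd _ dvd_rfl ▸ Int.emod_eq_emod_iff_emod_sub_eq_zero.1
      ((mem_filter.1 hu).2.trans (mem_filter.1 hu₀).2.symm)) |> Int.dvd_of_emod_eq_zero)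
  have hcard : (V.image fun u => (u - u₀) / q).card = V.card :=
    card_image_of_injOn fun u hu u' hu' e' => by
      have a1 := hdv u hu
      have a2 := hdv u' hu'
      rw [e'] at a1
      omega
  have key := count (W := V.image fun u => (u - u₀) / q) (N := L / q) (by positivity) h0 hb
    fun w hw => by
      obtain ⟨u, hu, rfl⟩ := mem_image.1 hw
      have a1 := hdv u hu
      have a2 : u₀ ≤ u := hmin u hu
      have a3 := hU u (mem_filter.1 hu).1
      have a4 := hU u₀ (mem_filter.1 hu₀).1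
      have a5 := H u (mem_filter.1 hu).1 u₀ (mem_filter.1 hu₀).1
      generalize (u - u₀) / q = w at a1
      refine ⟨?_, ?_, ?_⟩
      · by_contra hn
        have : (q : ℤ) * w < 0 := mul_neg_of_pos_of_neg (by omega) (by omega)
        omega
      · rw [le_div_iff₀ q0']
        have : w * q ≤ (L : ℤ) := by rw [mul_comm]; omega
        exact_mod_cast this
      · rw [← a1] at a5
        have a6 : nd ((w : ℝ) * ((q : ℝ) * γ - round ((q : ℝ) * γ))) ≤ η := by
          have := nd_sub_int ((((q : ℤ) * w : ℤ) : ℝ) * γ) (w * round ((q : ℝ) * γ))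
          rw [← this] at a5
          convert a5 using 2
          push_cast; ring
        rw [nd]
        rcases abs_choice ((q : ℝ) * γ - round ((q : ℝ) * γ)) with h | h
        · rw [show nd ((q : ℝ) * γ) = _ from h]; exact a6
        · rw [show nd ((q : ℝ) * γ) = _ from h, mul_neg]
          exact (nd_neg _).trans_le a6
  rw [hcard] at key
  have c1 : (L : ℝ) ≤ p * (q * V.card) := by
    have : L ≤ p * (q * V.card) := hc.trans (Nat.mul_le_mul_left _ hr)
    exact_mod_cast this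
  have p1 : (1 : ℝ) ≤ p := by exact_mod_cast hp
  have q2 : (q : ℝ) ≤ 2 * p := by exact_mod_cast q1.le
  generalize nd ((q : ℝ) * γ) = β at *
  have L0 : (0 : ℝ) ≤ L := by positivity
  have c2 : (q : ℝ) * V.card * β ≤ 3 * η * (L * β) + 3 * η * q * (2 * η + 1) := by
    have := mul_le_mul_of_nonneg_left key (mul_pos q0' h0).le
    have e2 : q * β * ((L / q * β + 2 * η + 1) * (3 * η / β)) =
        3 * η * (L * β) + 3 * η * q * (2 * η + 1) := by field_simp; ring
    rw [e2] at this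
    linarith
  have c3 : L * β ≤ p * (3 * η * (L * β) + 3 * η * q * (2 * η + 1)) := by
    have a1 := mul_le_mul_of_nonneg_right c1 h0.le
    have a2 := mul_le_mul_of_nonneg_left c2 (by linarith : (0 : ℝ) ≤ p)
    nlinarith
  have c4 : 0 ≤ L * β := mul_nonneg L0 h0.le
  have c5 : p * η * (L * β) ≤ 1 / 12 * (L * β) := mul_le_mul_of_nonneg_right (by linarith) c4
  have c6 : η ≤ 1 / 12 := by nlinarith
  have c7 : p * η * (q * (2 * η + 1)) ≤ p * η * (2 * p * 2) :=
    mul_le_mul_of_nonneg_left (mul_le_mul q2 (by linarith) (by linarith) (by linarith))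
      (by positivity)
  have c8 : 0 ≤ (p : ℝ) ^ 2 * η := by positivity
  nlinarith

end Pool.Agent.P.MP_2957ea_an.NC
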