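import Pool.Agent.P.MP_2957ea_an.NC.PerBasic

/-! Splitting `pos j • ξ` into a rational point and a square summable error. -/

namespace Pool.Agent.P.MP_2957ea_an.NC

open Finset Filter Topology Pool.Agent.P.MP_2957ea_an
open scoped BigOperators

theorem zy : S_zy := by
  intro I _ q ξ hq h
  have q1 : (1 : ℝ) ≤ q := by exact_mod_cast hq
  refine ⟨fun j l => (round ((pos j : ℝ) * (q * ξ l)) : ℝ) / q,
    fun j l => ((pos j : ℝ) * (q * ξ l) - round ((pos j : ℝ) * (q * ξ l))) / q,
    fun j => ⟨fun l => round ((pos j : ℝ) * (q * ξ l)), funext fun l => ?_⟩,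
    fun j => funext fun l => ?_, ?_⟩
  · simp only [Pi.smul_apply, smul_eq_mul, iv]
    field_simp
  · simp only [Pi.smul_apply, smul_eq_mul, Pi.add_apply]
    field_simp
    ring
  · simp only [mul_sum]
    refine summable_sum fun l _ => (h l).of_norm_bounded_eventually_nat ?_
    filter_upwards [(h l).tendsto_atTop_zero.eventually (gt_mem_nhds one_pos)] with j hj
    rw [min_eq_right ((min_lt_iff.1 hj).resolve_left (lt_irrefl _)).le,
      Real.norm_of_nonneg (by positivity), mul_pow, nd, sq_abs, div_pow]
    exact mul_le_mul_of_nonneg_left (div_le_self (sq_nonneg _) (one_le_pow₀ q1)) (sq_nonneg _)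

end Pool.Agent.P.MP_2957ea_an.NC
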